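import Pool.Agent.Lib.MP_2f3286_ag.Fer.Away
import Pool.Agent.Lib.MP_2f3286_ag.Local

/-!
# The completion of the cyclotomic field at the prime above `p`   (module CycL, 60 minutes)

`P` is the prime with `P.asIdeal = (x)`, `x = ζ - 1` in `𝓞 F`. PROOF. Put `π = ζ - 1`.
`val_pi`: `intValuation_singleton`. Valuations of the completion on `F`: `val_alg'` of module Away.
`val_p` and `sharp`: `p = ∏_{1 ≤ i < p} (1 - ζ ^ i)` (value of the cyclotomic polynomial at one;
`IsPrimitiveRoot.prod_one_sub_pow_eq_order`) `= (- π) ^ (p - 1) ∏_{1 ≤ i < p} (∑_{l < i} ζ ^ l)`, `p - 1` even,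
and `∑_{l < i} ζ ^ l` is `i` modulo `π`, so the product is `(p - 1)!` modulo `π`, which is `- 1` modulo `p`
(`ZMod.wilsons_lemma`), so modulo `π` (`p ∈ P`). So `p = π ^ (p - 1) (- 1 + π y)`, `y` integral:
`v (p + π ^ (p - 1)) ≤ exp (-(p - 1) - 1)`, and `v p = exp (-(p - 1))`.
`resid`: `𝓞 F / P` has `p` elements (norm of `ζ - 1`: `absNorm_span_zeta_sub_one` in
Mathlib/NumberTheory/NumberField/Cyclotomic/Ideal.lean, or `IsPrimitiveRoot.card_quotient_toInteger_sub_one`),
so every element `a` of `𝓞 F` is an integer `n ≥ 0` modulo `P` (the map `ZMod p → 𝓞 F / P` is an injective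
ring homomorphism of sets with `p` elements; or: `𝓞 F = ℤ[ζ]` and `ζ` is `1` modulo `P`). An element `x` of
the completion with `v x ≤ 1`: there is `a : F` with `v (x - a) ≤ exp (-1)`
(`MP_2f3286_ag.exists_approx` in the library file Local.lean), `w a ≤ 1`, and `a` is congruent to an element of
`𝓞 F` modulo `P` (`IsDedekindDomain.HeightOneSpectrum.exists_valuation_sub_lt_of_integer`).
-/

open IsDedekindDomain NumberField
open scoped WithZero

namespace Pool.Agent.Lib.MP_2f3286_ag.Fer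

/-- `p + π ^ (p - 1)` is divisible by `π ^ p`, `π = μ - 1` -/
private theorem cycl_key {p : ℕ} (hp : p.Prime) (h2 : p ≠ 2) {R : Type*} [CommRing R] [IsDomain R]
    {μ : R} (hμ : IsPrimitiveRoot μ p) :
    ∃ y : R, (p : R) + (μ - 1) ^ (p - 1) = (μ - 1) ^ p * y := by
  obtain ⟨n, rfl⟩ : ∃ n, p = n + 1 := ⟨p - 1, by have := hp.two_le; omega⟩
  have hn1 : 1 ≤ n := by
    have := hp.two_le
    omega
  have heven : Even n := by
    rcases hp.eq_two_or_odd' with h | h
    · exact absurd h h2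
    · rcases Nat.even_or_odd n with h3 | h3
      · exact h3
      · exact absurd h (Nat.not_odd_iff_even.2 h3.add_one)
  set S : ℕ → R := fun k => ∑ l ∈ Finset.range (k + 1), μ ^ l with hS
  have h1 : ∏ k ∈ Finset.range n, (1 - μ ^ (k + 1)) = (n : R) + 1 := hμ.prod_one_sub_pow_eq_order
  have h3 : ∀ k : ℕ, 1 - μ ^ (k + 1) = (-(μ - 1)) * S k := by
    intro k
    have h4 := geom_sum_mul μ (k + 1)
    rw [hS]
    simp only
    linear_combination h4
  have h4 : (μ - 1) ^ n * ∏ k ∈ Finset.range n, S k = (n : R) + 1 := by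
    rw [← h1, Finset.prod_congr rfl fun k _ => h3 k, Finset.prod_mul_distrib, Finset.prod_const,
      Finset.card_range, heven.neg_pow]
  have h5 : ∀ k : ℕ, μ - 1 ∣ S k - ((k + 1 : ℕ) : R) := by
    intro k
    have h6 : S k - ((k + 1 : ℕ) : R) = ∑ l ∈ Finset.range (k + 1), (μ ^ l - 1) := by
      rw [Finset.sum_sub_distrib, Finset.sum_const, Finset.card_range, nsmul_eq_mul, mul_one]
    rw [h6]
    refine Finset.dvd_sum fun l _ => ?_
    have h7 := sub_dvd_pow_sub_pow μ 1 l
    rwa [one_pow] at h7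
  have h6 : ∀ m : ℕ, μ - 1 ∣ ∏ k ∈ Finset.range m, S k - ((m.factorial : ℕ) : R) := by
    intro m
    induction m with
    | zero => simp
    | succ m ih =>
      rw [Finset.prod_range_succ, Nat.factorial_succ, Nat.cast_mul]
      have e : (∏ k ∈ Finset.range m, S k) * S m - ((m + 1 : ℕ) : R) * ((m.factorial : ℕ) : R) =
          (∏ k ∈ Finset.range m, S k - ((m.factorial : ℕ) : R)) * S m +
            ((m.factorial : ℕ) : R) * (S m - ((m + 1 : ℕ) : R)) := by ring
      rw [e]
      exact dvd_add (ih.mul_right _) ((h5 m).mul_left _)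
  have h7 : μ - 1 ∣ ((n + 1 : ℕ) : R) := by
    rw [Nat.cast_add, Nat.cast_one, ← h4]
    exact (dvd_pow_self _ (by omega)).mul_right _
  have h8 : (n + 1) ∣ n.factorial + 1 := by
    haveI : Fact (n + 1).Prime := ⟨hp⟩
    have h9 := ZMod.wilsons_lemma (n + 1)
    rw [Nat.add_sub_cancel] at h9
    rw [← ZMod.natCast_eq_zero_iff]
    push_cast
    rw [h9]
    ring
  have h9 : μ - 1 ∣ ∏ k ∈ Finset.range n, S k + 1 := by
    have e : ∏ k ∈ Finset.range n, S k + 1 =
        (∏ k ∈ Finset.range n, S k - ((n.factorial : ℕ) : R)) + ((n.factorial + 1 : ℕ) : R) := by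
      push_cast
      ring
    rw [e]
    refine dvd_add (h6 n) (h7.trans ?_)
    exact_mod_cast Nat.cast_dvd_cast (α := R) h8
  obtain ⟨y, hy⟩ := h9
  refine ⟨y, ?_⟩
  rw [Nat.add_sub_cancel, Nat.cast_add, Nat.cast_one, ← h4, pow_succ]
  linear_combination (μ - 1) ^ n * hy

theorem cyc_loc {p : ℕ} (hp : p.Prime) (h2 : p ≠ 2) {F : Type*} [Field F] [NumberField F]
    [IsCyclotomicExtension {p} ℚ F] {ζ : F} (hζ : IsPrimitiveRoot ζ p)
    {P : HeightOneSpectrum (𝓞 F)} {x : 𝓞 F} (hx : (x : F) = ζ - 1)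
    (hP : P.asIdeal = Ideal.span {x}) :
    Loc p (Valued.v : Valuation (P.adicCompletion F) ℤᵐ⁰)
      (algebraMap F (P.adicCompletion F) ζ) := by
  haveI : NeZero p := ⟨hp.ne_zero⟩
  haveI : Fact p.Prime := ⟨hp⟩
  have hxz : (hζ.toInteger : 𝓞 F) = x + 1 := by
    apply RingOfIntegers.ext
    show ζ = algebraMap (𝓞 F) F (x + 1)
    rw [map_add, map_one]
    have hx' : algebraMap (𝓞 F) F x = ζ - 1 := hx
    rw [hx']
    ring
  have hxz' : hζ.toInteger - 1 = x := by rw [hxz]; ring
  have hμ : IsPrimitiveRoot (hζ.toInteger) p := hζ.toInteger_isPrimitiveRoot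
  obtain ⟨y, hy⟩ := cycl_key hp h2 hμ
  rw [hxz'] at hy
  have hx0 : x ≠ 0 := by
    rintro rfl
    exact P.ne_bot (by rw [hP]; simp)
  have hx' : algebraMap (𝓞 F) F x = ζ - 1 := hx
  have hvx : P.valuation F (algebraMap (𝓞 F) F x) = WithZero.exp (-1 : ℤ) := by
    rw [HeightOneSpectrum.valuation_of_algebraMap]
    exact P.intValuation_singleton hx0 hP
  have hvle : ∀ a : 𝓞 F, P.valuation F (algebraMap (𝓞 F) F a) ≤ 1 := fun a => P.valuation_le_one a
  have hpi : P.valuation F (ζ - 1) = WithZero.exp (-1 : ℤ) := by rw [← hx']; exact hvx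
  have hpow : ∀ n : ℕ, (WithZero.exp (-1 : ℤ)) ^ n = WithZero.exp (-(n : ℤ)) := by
    intro n
    rw [← WithZero.exp_nsmul]
    congr 1
    simp
  have hsharp : P.valuation F ((p : F) + (ζ - 1) ^ (p - 1)) ≤ WithZero.exp (-(p : ℤ)) := by
    have e : (p : F) + (ζ - 1) ^ (p - 1) = (algebraMap (𝓞 F) F x) ^ p * algebraMap (𝓞 F) F y := by
      have h := congrArg (algebraMap (𝓞 F) F) hy
      simp only [map_add, map_mul, map_pow, map_natCast] at h
      rw [← h, hx']
    rw [e, map_mul, map_pow, hvx, hpow]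
    exact mul_le_of_le_one_right' (hvle y)
  have hm : P.valuation F ((ζ - 1) ^ (p - 1)) = WithZero.exp (1 - (p : ℤ)) := by
    rw [map_pow, hpi, hpow]
    congr 1
    have := hp.one_lt.le
    push_cast [Nat.cast_sub this]
    ring
  have hvp : P.valuation F (p : F) = WithZero.exp (1 - (p : ℤ)) := by
    have e : (p : F) = ((p : F) + (ζ - 1) ^ (p - 1)) - (ζ - 1) ^ (p - 1) := by ring
    rw [e, Valuation.map_sub_eq_of_lt_right, hm]
    rw [hm]
    refine lt_of_le_of_lt hsharp (WithZero.exp_lt_exp.mpr (by omega))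
  refine ⟨?_, ?_, ?_, ?_, ?_⟩
  · rw [← map_pow, hζ.pow_eq_one, map_one]
  · rw [← map_one (algebraMap F (P.adicCompletion F)), ← map_sub, val_alg', hpi]
  · rw [← map_natCast (algebraMap F (P.adicCompletion F)), val_alg', hvp]
  · have e : ((p : P.adicCompletion F) + (algebraMap F (P.adicCompletion F) ζ - 1) ^ (p - 1)) =
        algebraMap F (P.adicCompletion F) ((p : F) + (ζ - 1) ^ (p - 1)) := by
      rw [map_add, map_pow, map_sub, map_one, map_natCast]
    rw [e, val_alg']
    exact hsharp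
  · intro w hw
    obtain ⟨a, ha⟩ := exists_approx P w 1
    rw [Nat.cast_one] at ha
    have hlt : WithZero.exp (-1 : ℤ) < (1 : ℤᵐ⁰) := by
      rw [← WithZero.exp_zero]
      exact WithZero.exp_lt_exp.mpr (by omega)
    have ha1 : P.valuation F a ≤ 1 := by
      rw [← val_alg']
      have e : algebraMap F (P.adicCompletion F) a = w - (w - algebraMap F (P.adicCompletion F) a) := by
        ring
      rw [e]
      exact (Valued.v.map_sub _ _).trans (max_le hw (ha.trans hlt.le))
    obtain ⟨b, hb⟩ := HeightOneSpectrum.exists_valuation_sub_lt_of_integer P ha1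
      (Units.mk0 (WithZero.exp (-1 : ℤ)) WithZero.exp_ne_zero)
    simp only [Units.val_mk0] at hb
    -- `b` is an integer modulo `x`
    obtain ⟨n, hn⟩ : ∃ n : ℕ, x ∣ b - (n : 𝓞 F) := by
      obtain ⟨f, hf⟩ := hζ.integralPowerBasis.exists_eq_aeval' b
      rw [hζ.integralPowerBasis_gen] at hf
      have h3 : x ∣ b - ((f.eval 1 : ℤ) : 𝓞 F) := by
        have h4 := Polynomial.sub_dvd_eval_sub hζ.toInteger 1 (f.map (algebraMap ℤ (𝓞 F)))
        rw [hxz', Polynomial.eval_map, ← Polynomial.aeval_def, ← hf, Polynomial.eval_one_map,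
          eq_intCast] at h4
        exact h4
      have h5 : x ∣ ((p : ℤ) : 𝓞 F) := by
        have h6 : ((p : ℤ) : 𝓞 F) = x ^ p * y - x ^ (p - 1) := by
          rw [← hy]
          push_cast
          ring
        rw [h6]
        have := hp.two_le
        exact dvd_sub ((dvd_pow_self x (by omega)).mul_right _) (dvd_pow_self x (by omega))
      have hp0 : (0 : ℤ) < p := by exact_mod_cast hp.pos
      refine ⟨((f.eval 1) % (p : ℤ)).toNat, ?_⟩
      have h7 : ((((f.eval 1) % (p : ℤ)).toNat : ℕ) : 𝓞 F) = (((f.eval 1) % (p : ℤ) : ℤ) : 𝓞 F) := by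
        have h8 := Int.toNat_of_nonneg (Int.emod_nonneg (f.eval 1) hp0.ne')
        conv_rhs => rw [← h8]
        push_cast
        rfl
      rw [h7]
      have h8 : b - (((f.eval 1) % (p : ℤ) : ℤ) : 𝓞 F) = (b - ((f.eval 1 : ℤ) : 𝓞 F)) +
          ((p : ℤ) : 𝓞 F) * (((f.eval 1) / (p : ℤ) : ℤ) : 𝓞 F) := by
        have h9 := Int.emod_def (f.eval 1) (p : ℤ)
        rw [h9]
        push_cast
        ring
      rw [h8]
      exact dvd_add h3 (h5.mul_right _)
    refine ⟨n, ?_⟩
    obtain ⟨c, hc⟩ := hn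
    have e : w - (n : P.adicCompletion F) = (w - algebraMap F (P.adicCompletion F) a) -
        algebraMap F (P.adicCompletion F) (algebraMap (𝓞 F) F b - a) +
        algebraMap F (P.adicCompletion F) (algebraMap (𝓞 F) F x * algebraMap (𝓞 F) F c) := by
      have h3 : algebraMap (𝓞 F) F x * algebraMap (𝓞 F) F c = algebraMap (𝓞 F) F b - (n : F) := by
        rw [← map_mul, ← hc, map_sub, map_natCast]
      rw [h3, map_sub, map_sub, map_natCast]
      ring
    rw [e]
    refine (Valued.v.map_add _ _).trans (max_le ((Valued.v.map_sub _ _).trans (max_le ha ?_)) ?_)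
    · rw [val_alg']
      exact hb.le
    · rw [val_alg', map_mul, hvx]
      exact mul_le_of_le_one_right' (hvle c)

end Pool.Agent.Lib.MP_2f3286_ag.Fer
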