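import Pool.Agent.Lib.MP_2f3286_ag.Fer.FDef

/-!
# The prime above `p` in the cyclotomic field   (module CycP, 40 minutes)

PROOF. `𝔭 = span {ζ - 1}` is a prime ideal of `𝓞 F` (`IsPrimitiveRoot.zeta_sub_one_prime'`,
`hζ.toInteger - 1`), not zero, and contains `p`
(`IsCyclotomicExtension.Rat.p_mem_span_zeta_sub_one` and the like in
Mathlib/NumberTheory/NumberField/Cyclotomic/Ideal.lean); the only prime above `p`
(`eq_span_zeta_sub_one_of_liesOver'`). `w.asIdeal` with `p ∈ w.asIdeal` lies over the ideal `(p)` of `ℤ`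
(its contraction is a prime ideal containing `p`). `valuation_pi`: `intValuation_singleton` and
`valuation_of_algebraMap`.
-/

open IsDedekindDomain NumberField
open scoped WithZero

namespace Pool.Agent.Lib.MP_2f3286_ag.Fer

theorem exists_prime {p : ℕ} (hp : p.Prime) {F : Type*} [Field F] [NumberField F]
    [IsCyclotomicExtension {p} ℚ F] {ζ : F} (hζ : IsPrimitiveRoot ζ p) :
    ∃ P : HeightOneSpectrum (𝓞 F), (∃ x : 𝓞 F, (x : F) = ζ - 1 ∧ P.asIdeal = Ideal.span {x}) ∧
      (p : 𝓞 F) ∈ P.asIdeal ∧ P.valuation F (ζ - 1) = WithZero.exp (-1 : ℤ) ∧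
      ∀ w : HeightOneSpectrum (𝓞 F), w ≠ P → (p : 𝓞 F) ∉ w.asIdeal := by
  have : Fact p.Prime := ⟨hp⟩
  have hpr : Prime (hζ.toInteger - 1) := hζ.zeta_sub_one_prime'
  have hass := IsCyclotomicExtension.Rat.associated_zeta_sub_one_pow_prime p hζ
  have hp1 : p - 1 ≠ 0 := by
    have := hp.two_le
    omega
  have hne : Ideal.span {hζ.toInteger - 1} ≠ ⊥ := by
    rw [Ne, Ideal.span_singleton_eq_bot]
    exact hpr.ne_zero
  have hprI : (Ideal.span {hζ.toInteger - 1}).IsPrime :=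
    (Ideal.span_singleton_prime hpr.ne_zero).2 hpr
  refine ⟨⟨Ideal.span {hζ.toInteger - 1}, hprI, hne⟩, ⟨hζ.toInteger - 1, ?_, rfl⟩, ?_, ?_, ?_⟩
  · push_cast
    rfl
  · show (p : 𝓞 F) ∈ Ideal.span {hζ.toInteger - 1}
    rw [Ideal.mem_span_singleton]
    exact (dvd_pow_self _ hp1).trans hass.dvd
  · have h1 : ζ - 1 = algebraMap (𝓞 F) F (hζ.toInteger - 1) := by
      rw [map_sub, map_one]
      rfl
    rw [h1, HeightOneSpectrum.valuation_of_algebraMap]
    exact HeightOneSpectrum.intValuation_singleton _ hpr.ne_zero rfl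
  · intro w hw hpw
    apply hw
    have h2 : (hζ.toInteger - 1) ^ (p - 1) ∈ w.asIdeal := by
      obtain ⟨u, hu⟩ := hass.symm
      rw [← hu]
      exact Ideal.mul_mem_right _ _ hpw
    have h3 : hζ.toInteger - 1 ∈ w.asIdeal := w.isPrime.mem_of_pow_mem _ h2
    have h4 : Ideal.span {hζ.toInteger - 1} ≤ w.asIdeal := by
      rw [Ideal.span_singleton_le_iff_mem]
      exact h3
    have h5 : (Ideal.span {hζ.toInteger - 1}).IsMaximal := hprI.isMaximal hne
    apply HeightOneSpectrum.ext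
    exact (h5.eq_of_le w.isPrime.ne_top h4).symm

end Pool.Agent.Lib.MP_2f3286_ag.Fer
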