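import Pool.Agent.Lib.MP_2f3286_ag.Fer.LFrob

/-!
# Roots of units near one in the completion at the prime above `p`   (module LRoot, 60 minutes)

PROOF of `sub_one_lt`. `v (g ^ p - 1) < 1` gives `v (g ^ p) = 1`, so `v g = 1`; `g ^ p - 1 =
(g ^ p - g) + (g - 1)` and `v (g ^ p - g) < 1` by `Loc.frob`.

PROOF of `root_level`. `v (g - 1) < 1`: write `g = 1 + π τ`, `π = z - 1`, `v τ ≤ 1`.
`g ^ p - 1 = ∑_{1 ≤ i ≤ p} binom (p, i) (π τ) ^ i`. Terms with `2 ≤ i < p`: divisible by `p π ^ 2`,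
valuation `≤ exp (1 - p - 2) = exp (-(p + 1))`. The terms `i = 1` and `i = p`: `p π τ + π ^ p τ ^ p =
π τ (p + π ^ (p - 1)) + π ^ p (τ ^ p - τ)`, the first of valuation `≤ exp (-1 - p)` by `h.sharp`, the
second `≤ exp (-p - 1)` by `Loc.frob`.

PROOF of `adjust`. `g = 1 + π τ`, `n : ℕ` with `v (τ - n) ≤ exp (-1)`, `j` with `p ∣ j + n`
(`j = (p - 1) * n`). `z ^ j = (1 + π) ^ j` is `1 + j π` modulo `π ^ 2`, so `z ^ j g` is
`1 + (j + τ) π` modulo `π ^ 2`, and `v (j + τ) = v ((j + n) + (τ - n)) ≤ exp (-1)`.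

PROOF of `pow_exact`. `s = t - 1`, `v s ≤ exp (-2)`, `t ^ p - 1 = p s + s * (∑_{2 ≤ i < p} binom s ^ (i - 1)
) + s ^ p`; if `s = 0` both sides are `0`. Otherwise `v (p s) = v s exp (1 - p)` and all other terms
are smaller: `v (binom (p, i) s ^ i) ≤ v p v s v s < v p v s` for `2 ≤ i < p`, and `v (s ^ p) =
v s v s ^ (p - 1) ≤ v s exp (-2 (p - 1)) < v s exp (1 - p)`. (Here `2 ≤ p` is used.)
-/

open scoped WithZero

namespace Pool.Agent.Lib.MP_2f3286_ag.Fer

variable {p : ℕ} {C : Type*} [Field C] {v : Valuation C ℤᵐ⁰} {z : C}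

theorem Loc.sub_one_lt (hp : p.Prime) (h : Loc p v z) {g : C} (hg : v (g ^ p - 1) < 1) :
    v (g - 1) < 1 := by
  have h1 : v (g ^ p) = 1 := by
    have h2 : v (g ^ p - 1) < v (1 : C) := by rw [map_one]; exact hg
    have h3 := v.map_add_eq_of_lt_right h2
    rw [sub_add_cancel, map_one] at h3
    exact h3
  have h2 : v g ≤ 1 := by
    rw [map_pow] at h1
    by_contra hlt
    exact (one_lt_pow' (not_le.mp hlt) hp.ne_zero).ne' h1
  have h3 : g - 1 = (g ^ p - 1) - (g ^ p - g) := by ring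
  rw [h3]
  exact v.map_sub_lt hg (lt_one_iff.mpr (h.frob hp h2))

theorem LRoot_expand (hp : p.Prime) (e : C) :
    (e + 1) ^ p - 1 = (∑ i ∈ Finset.range (p - 2), e ^ (i + 2) * ((p.choose (i + 2) : ℕ) : C))
      + (p : C) * e + e ^ p := by
  obtain ⟨k, rfl⟩ : ∃ k, p = k + 2 := ⟨p - 2, by have := hp.two_le; omega⟩
  rw [add_pow, Finset.sum_range_succ, Finset.sum_range_succ', Finset.sum_range_succ',
    Nat.add_sub_cancel]
  simp only [one_pow, mul_one, Nat.choose_self, Nat.cast_one, pow_zero, Nat.choose_zero_right,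
    zero_add, pow_one, Nat.choose_one_right]
  ring

theorem Loc.root_level (hp : p.Prime) (h : Loc p v z) {g : C} (hg : v (g - 1) < 1) :
    v (g ^ p - 1) ≤ WithZero.exp (-((p : ℤ) + 1)) := by
  have h2p := hp.two_le
  have hπ0 : z - 1 ≠ 0 := by
    intro h0
    have h1 := h.val_pi
    rw [h0, map_zero] at h1
    exact WithZero.exp_ne_zero h1.symm
  obtain ⟨τ, hτ⟩ : ∃ τ, g - 1 = (z - 1) * τ := ⟨(g - 1) / (z - 1), by field_simp⟩
  have hτ1 : v τ ≤ 1 := by
    have h1 := lt_one_iff.mp hg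
    rw [hτ, map_mul, h.val_pi] at h1
    by_contra hlt
    have h3 := mul_lt_mul_of_pos_left (not_le.mp hlt) (WithZero.exp_pos (a := (-1 : ℤ)))
    rw [mul_one] at h3
    exact absurd h1 (not_le.mpr h3)
  have hv : v ((z - 1) * τ) ≤ WithZero.exp (-1 : ℤ) := by
    rw [map_mul, h.val_pi]
    exact mul_le_of_le_one_right' hτ1
  have hg' : g = (z - 1) * τ + 1 := by rw [← hτ]; ring
  rw [hg', LRoot_expand hp]
  have h4 : (p : C) * ((z - 1) * τ) + ((z - 1) * τ) ^ p
      = (z - 1) * τ * ((p : C) + (z - 1) ^ (p - 1)) + (z - 1) ^ p * (τ ^ p - τ) := by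
    obtain ⟨k, rfl⟩ : ∃ k, p = k + 1 := ⟨p - 1, by omega⟩
    rw [Nat.add_sub_cancel, mul_pow, pow_succ (z - 1) k]
    ring
  rw [add_assoc, h4]
  refine v.map_add_le (v.map_sum_le fun i hi => ?_) (v.map_add_le ?_ ?_)
  · have hi' := Finset.mem_range.mp hi
    rw [map_mul, map_pow]
    have h5 : v ((z - 1) * τ) ^ (i + 2) ≤ WithZero.exp (-((i : ℤ) + 2)) := by
      refine (pow_le_pow_left₀ zero_le' hv (i + 2)).trans (le_of_eq ?_)
      rw [← WithZero.exp_nsmul]
      congr 1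
      simp
    refine (mul_le_mul' h5 (LFrob_choose hp h (by omega) (by omega))).trans ?_
    rw [← WithZero.exp_add, WithZero.exp_le_exp]
    omega
  · rw [map_mul]
    refine (mul_le_mul' hv h.sharp).trans ?_
    rw [← WithZero.exp_add, WithZero.exp_le_exp]
    omega
  · rw [map_mul, map_pow, h.val_pi]
    refine (mul_le_mul' le_rfl (h.frob hp hτ1)).trans ?_
    rw [← WithZero.exp_nsmul, ← WithZero.exp_add, WithZero.exp_le_exp]
    simp only [smul_neg, nsmul_eq_mul, mul_one]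
    omega

theorem Loc.adjust (hp : p.Prime) (h : Loc p v z) {g : C} (hg : v (g - 1) < 1) :
    ∃ j : ℕ, v (z ^ j * g - 1) ≤ WithZero.exp (-2 : ℤ) := by
  have h2p := hp.two_le
  have hπ0 : z - 1 ≠ 0 := by
    intro h0
    have h1 := h.val_pi
    rw [h0, map_zero] at h1
    exact WithZero.exp_ne_zero h1.symm
  obtain ⟨τ, hτ⟩ : ∃ τ, g - 1 = (z - 1) * τ := ⟨(g - 1) / (z - 1), by field_simp⟩
  have hτ1 : v τ ≤ 1 := by
    have h1 := lt_one_iff.mp hg
    rw [hτ, map_mul, h.val_pi] at h1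
    by_contra hlt
    have h3 := mul_lt_mul_of_pos_left (not_le.mp hlt) (WithZero.exp_pos (a := (-1 : ℤ)))
    rw [mul_one] at h3
    exact absurd h1 (not_le.mpr h3)
  obtain ⟨n, hn⟩ := h.resid τ hτ1
  refine ⟨(p - 1) * n, ?_⟩
  obtain ⟨j, hj⟩ : ∃ j, j = (p - 1) * n := ⟨_, rfl⟩
  rw [← hj]
  have hjn : (j : C) + n = (p : C) * n := by
    rw [hj]
    obtain ⟨k, rfl⟩ : ∃ k, p = k + 1 := ⟨p - 1, by omega⟩
    rw [Nat.add_sub_cancel]
    push_cast
    ring
  have hg' : g = (z - 1) * τ + 1 := by rw [← hτ]; ring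
  have h5 : z ^ j * g - 1 = (z - 1) * ((∑ i ∈ Finset.range j, (z ^ i - 1)) + ((z ^ j - 1) * τ
      + ((p : C) * n + (τ - n)))) := by
    have h6 : (z - 1) * ∑ i ∈ Finset.range j, z ^ i = z ^ j - 1 := mul_geom_sum z j
    have h7 : (z - 1) * ((∑ i ∈ Finset.range j, (z ^ i - 1)) + ((z ^ j - 1) * τ
        + ((p : C) * n + (τ - n)))) = (z - 1) * (∑ i ∈ Finset.range j, z ^ i)
        + (z - 1) * ((z ^ j - 1) * τ + (τ - n) + ((p : C) * n - (j : C))) := by
      rw [Finset.sum_sub_distrib, Finset.sum_const, Finset.card_range, nsmul_eq_mul, mul_one]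
      ring
    rw [h7, h6, hg', ← hjn]
    ring
  rw [h5, map_mul, h.val_pi]
  have h8 : v ((∑ i ∈ Finset.range j, (z ^ i - 1)) + ((z ^ j - 1) * τ
      + ((p : C) * n + (τ - n)))) ≤ WithZero.exp (-1 : ℤ) := by
    refine v.map_add_le (v.map_sum_le fun i _ => h.zpow_sub_one_le i) (v.map_add_le ?_
      (v.map_add_le ?_ hn))
    · rw [map_mul]
      exact (mul_le_mul' (h.zpow_sub_one_le j) hτ1).trans (mul_one _).le
    · rw [map_mul, h.val_p]
      refine (mul_le_mul' le_rfl (LFrob_nat v n)).trans ?_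
      rw [mul_one, WithZero.exp_le_exp]
      omega
  refine (mul_le_mul' le_rfl h8).trans ?_
  rw [← WithZero.exp_add, WithZero.exp_le_exp]
  omega

theorem Loc.pow_exact (hp : p.Prime) (h : Loc p v z) {t : C}
    (ht : v (t - 1) ≤ WithZero.exp (-2 : ℤ)) :
    v (t ^ p - 1) = v (t - 1) * WithZero.exp (1 - (p : ℤ)) := by
  have h2p := hp.two_le
  obtain ⟨s, hs⟩ : ∃ s, s = t - 1 := ⟨_, rfl⟩
  rw [← hs] at ht ⊢
  have ht' : t = s + 1 := by rw [hs]; ring
  rw [ht', LRoot_expand hp]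
  rcases eq_or_ne s 0 with rfl | hs0
  · rw [map_zero, zero_mul]
    have h1 : (∑ i ∈ Finset.range (p - 2), (0 : C) ^ (i + 2) * ((p.choose (i + 2) : ℕ) : C))
        + (p : C) * 0 + 0 ^ p = 0 := by
      rw [Finset.sum_eq_zero, mul_zero, zero_pow hp.ne_zero, add_zero, add_zero]
      intro i _
      rw [zero_pow (by omega), zero_mul]
    rw [h1, map_zero]
  have hvs : v s ≠ 0 := (v.ne_zero_iff).mpr hs0
  have hvs1 : v s < 1 := ht.trans_lt (by rw [lt_one_iff, WithZero.exp_le_exp]; omega)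
  have hmain : v ((p : C) * s) = v s * WithZero.exp (1 - (p : ℤ)) := by
    rw [map_mul, h.val_p, mul_comm]
  have hne : v s * WithZero.exp (1 - (p : ℤ)) ≠ 0 := mul_ne_zero hvs WithZero.exp_ne_zero
  have h1 : v (∑ i ∈ Finset.range (p - 2), s ^ (i + 2) * ((p.choose (i + 2) : ℕ) : C))
      < v s * WithZero.exp (1 - (p : ℤ)) := by
    refine v.map_sum_lt hne fun i hi => ?_
    have hi' := Finset.mem_range.mp hi
    rw [map_mul, map_pow]
    have h3 : v s ^ (i + 2) < v s := by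
      have h4 : v s ^ (i + 2) = v s * v s ^ (i + 1) := by rw [← pow_succ']
      rw [h4]
      have h5 : v s ^ (i + 1) < 1 := pow_lt_one' hvs1 (by omega)
      have h6 := mul_lt_mul_of_pos_left h5 (zero_lt_iff.mpr hvs)
      rwa [mul_one] at h6
    exact (mul_le_mul' le_rfl (LFrob_choose hp h (by omega) (by omega))).trans_lt
      (mul_lt_mul_of_pos_right h3 WithZero.exp_pos)
  have h2 : v (s ^ p) < v s * WithZero.exp (1 - (p : ℤ)) := by
    obtain ⟨k, rfl⟩ : ∃ k, p = k + 1 := ⟨p - 1, by omega⟩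
    rw [map_pow, pow_succ']
    refine mul_lt_mul_of_pos_left ?_ (zero_lt_iff.mpr hvs)
    refine (pow_le_pow_left₀ zero_le' ht k).trans_lt ?_
    rw [← WithZero.exp_nsmul, WithZero.exp_lt_exp]
    simp only [smul_neg, nsmul_eq_mul]
    push_cast
    omega
  rw [add_assoc, add_comm (∑ i ∈ Finset.range (p - 2), s ^ (i + 2) * ((p.choose (i + 2) : ℕ) : C)),
    add_assoc, ← hmain]
  refine v.map_add_eq_of_lt_left ?_
  rw [hmain]
  exact v.map_add_lt h2 h1

end Pool.Agent.Lib.MP_2f3286_ag.Fer
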