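import Pool.Agent.Lib.MP_2f3286_ag.Fer.FDef
import Pool.Agent.Lib.MP_2f3286_ag.Local

/-!
# Differences of roots of unity are units away from `p`   (module Away, 35 minutes)

PROOF of `away_unit`. `∏_{1 ≤ i < p} (1 - ζ ^ i) = p` (`IsPrimitiveRoot.prod_one_sub_pow_eq_order`,
or evaluate the cyclotomic polynomial at one, or: `ζ ^ j - 1` divides `p` in `𝓞 F`). All factors are integral, so
of valuation `≤ 1`, and `w p = 1` as `p ∉ w`; so each factor has valuation one; use `ζ ^ j = ζ ^ (j % p)`.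

PROOF of `away_unit'`: `valuedAdicCompletion_eq_valuation'` and the like: the valuation of the
completion restricts to `w.valuation F` (see `MP_2f3286_ag.Local.val_alg` in the library file Local.lean,
importable).

PROOF of `pv_iff`: `Valued.v` on the completion takes the same values as `w.valuation F`: for `y ≠ 0` in
the completion there is `a : F` with `v (y - a) < v y` (density of `F`, library
`MP_2f3286_ag.exists_approx` in Local.lean), so `v y = w a`.

PROOF of `pv_mul`, `pv_div`: multiply, divide the `z`.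
-/

open IsDedekindDomain NumberField
open scoped WithZero

namespace Pool.Agent.Lib.MP_2f3286_ag.Fer

variable {p : ℕ} {F : Type*} [Field F] [NumberField F]

/-- a factor of a product of elements of valuation at most one with product of valuation one -/
private theorem away_prod {Γ : Type*} [LinearOrderedCommGroupWithZero Γ] (v : Valuation F Γ)
    (s : Finset ℕ) (f : ℕ → F) (h1 : ∀ i ∈ s, v (f i) ≤ 1) (h : v (∏ i ∈ s, f i) = 1) :
    ∀ i ∈ s, v (f i) = 1 := by
  intro i hi
  refine le_antisymm (h1 i hi) ?_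
  rw [← Finset.mul_prod_erase s f hi, map_mul] at h
  have h2 : v (∏ x ∈ s.erase i, f x) ≤ 1 := by
    rw [map_prod]
    exact Finset.prod_le_one' fun x hx => h1 x (Finset.mem_of_mem_erase hx)
  calc (1 : Γ) = v (f i) * v (∏ x ∈ s.erase i, f x) := h.symm
    _ ≤ v (f i) * 1 := mul_le_mul_right h2 _
    _ = v (f i) := mul_one _

/-- roots of unity are units -/
private theorem away_zeta {n : ℕ} (hn : n ≠ 0) {ζ : F} (hζ : ζ ^ n = 1)
    (w : HeightOneSpectrum (𝓞 F)) : w.valuation F ζ = 1 := by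
  have h : w.valuation F ζ ^ n = 1 := by rw [← map_pow, hζ, map_one]
  exact (pow_eq_one_iff.1 h).resolve_right hn

theorem away_unit (hp : p.Prime) {ζ : F} (hζ : IsPrimitiveRoot ζ p)
    (w : HeightOneSpectrum (𝓞 F)) (hw : (p : 𝓞 F) ∉ w.asIdeal) {j : ℕ} (hj : ¬ p ∣ j) :
    w.valuation F (ζ ^ j - 1) = 1 := by
  have hcop : Nat.Coprime j p := ((Nat.Prime.coprime_iff_not_dvd hp).2 hj).symm
  have hz := hζ.pow_of_coprime j hcop
  set z := ζ ^ j with hzdef
  obtain ⟨n, rfl⟩ : ∃ n, p = n + 1 := ⟨p - 1, by have := hp.pos; omega⟩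
  have hn : 0 < n := by have := hp.one_lt; omega
  have hprod := hz.prod_one_sub_pow_eq_order
  have hv : w.valuation F (∏ k ∈ Finset.range n, (1 - z ^ (k + 1))) = 1 := by
    rw [hprod]
    have h1 : ((n : F) + 1) = algebraMap (𝓞 F) F ((n + 1 : ℕ) : 𝓞 F) := by
      rw [map_natCast]; push_cast; rfl
    rw [h1]
    exact (w.valuation_eq_one_iff_notMem).2 hw
  have hz1 : w.valuation F z = 1 := away_zeta (Nat.succ_ne_zero n) hz.pow_eq_one w
  have h2 := away_prod (w.valuation F) (Finset.range n) (fun k => 1 - z ^ (k + 1)) (by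
    intro i _
    refine (Valuation.map_sub _ _ _).trans (max_le ?_ ?_)
    · rw [map_one]
    · rw [map_pow, hz1, one_pow]) hv 0 (Finset.mem_range.2 hn)
  simp only [zero_add, pow_one] at h2
  rw [Valuation.map_sub_swap]
  exact h2

theorem val_alg' (w : HeightOneSpectrum (𝓞 F)) (a : F) :
    Valued.v (algebraMap F (w.adicCompletion F) a) = w.valuation F a :=
  MP_2f3286_ag.val_alg w a

theorem away_unit' (hp : p.Prime) {ζ : F} (hζ : IsPrimitiveRoot ζ p)
    (w : HeightOneSpectrum (𝓞 F)) (hw : (p : 𝓞 F) ∉ w.asIdeal) {j : ℕ} (hj : ¬ p ∣ j) :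
    Valued.v ((algebraMap F (w.adicCompletion F) ζ) ^ j - 1) = (1 : ℤᵐ⁰) := by
  have h : (algebraMap F (w.adicCompletion F) ζ) ^ j - 1 =
      algebraMap F (w.adicCompletion F) (ζ ^ j - 1) := by
    rw [map_sub, map_pow, map_one]
  rw [h, val_alg', away_unit hp hζ w hw hj]

/-- roots of unity are units -/
theorem zeta_unit (hp : p.Prime) {ζ : F} (hζ : IsPrimitiveRoot ζ p)
    (w : HeightOneSpectrum (𝓞 F)) (j : ℕ) : w.valuation F (ζ ^ j) = 1 := by
  rw [map_pow, away_zeta hp.ne_zero hζ.pow_eq_one w, one_pow]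

theorem pv_iff (hp : p ≠ 0) (w : HeightOneSpectrum (𝓞 F)) (c : F) :
    PV p w c ↔ ∃ y : w.adicCompletion F, y ≠ 0 ∧
      Valued.v (algebraMap F (w.adicCompletion F) c) = Valued.v y ^ p := by
  constructor
  · rintro ⟨z, hz, h⟩
    refine ⟨algebraMap F (w.adicCompletion F) z, ?_, ?_⟩
    · rwa [Ne, FaithfulSMul.algebraMap_eq_zero_iff]
    · rw [val_alg', val_alg', h]
  · rintro ⟨y, hy, h⟩
    have hy0 : Valued.v y ≠ (0 : ℤᵐ⁰) := by rwa [Ne, Valuation.zero_iff]
    obtain ⟨m, hm⟩ := MP_2f3286_ag.exists_exp_neg_lt hy0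
    obtain ⟨x, hx⟩ := MP_2f3286_ag.exists_approx w y m
    have hlt : Valued.v (y - algebraMap F (w.adicCompletion F) x) < Valued.v y :=
      lt_of_le_of_lt hx hm
    have hvx : w.valuation F x = Valued.v y := by
      rw [← val_alg']
      have := Valuation.map_sub_eq_of_lt_right (Valued.v : Valuation (w.adicCompletion F) ℤᵐ⁰) hlt
      have h3 : y - (y - algebraMap F (w.adicCompletion F) x) =
          algebraMap F (w.adicCompletion F) x := by ring
      rw [Valuation.map_sub_swap, h3] at this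
      exact this
    refine ⟨x, ?_, ?_⟩
    · rintro rfl
      rw [map_zero] at hvx
      exact hy0 hvx.symm
    · rw [← val_alg', h, hvx]

theorem PV.mul {w : HeightOneSpectrum (𝓞 F)} {a b : F} (ha : PV p w a) (hb : PV p w b) :
    PV p w (a * b) := by
  obtain ⟨z, hz, h⟩ := ha
  obtain ⟨z', hz', h'⟩ := hb
  exact ⟨z * z', mul_ne_zero hz hz', by rw [map_mul, map_mul, mul_pow, h, h']⟩

theorem PV.inv {w : HeightOneSpectrum (𝓞 F)} {a : F} (ha : PV p w a) : PV p w a⁻¹ := by
  obtain ⟨z, hz, h⟩ := ha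
  exact ⟨z⁻¹, inv_ne_zero hz, by rw [map_inv₀, map_inv₀, inv_pow, h]⟩

theorem PV.of_unit {w : HeightOneSpectrum (𝓞 F)} {a : F} (ha : w.valuation F a = 1) :
    PV p w a :=
  ⟨1, one_ne_zero, by rw [ha, map_one, one_pow]⟩

theorem PV.pow_right (w : HeightOneSpectrum (𝓞 F)) {a : F} (ha : a ≠ 0) : PV p w (a ^ p) :=
  ⟨a, ha, by rw [map_pow]⟩

end Pool.Agent.Lib.MP_2f3286_ag.Fer
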