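import Pool.Agent.Lib.MP_2f3286_ag.Fer.UCls

/-!
# Elements of the base field with all valuations divisible by `p`   (module KPow, 50 minutes)

PROOF. `c` in `k`, all valuations divisible by `p`. (1) In `F` the same: for a prime `Q` of `F` and the prime `w` of `k` below,
`Q.valuation F (algebraMap k F a) = (w.valuation k a) ^ e` (Mathlib: `valuation_liesOver`,
Mathlib/NumberTheory/RamificationInertia/Valuation.lean), so `w c = (w z) ^ p` gives `Q c = (Q z) ^ p`.
(2) `unit_class`: `c = u d ^ p` in `F`. (3) Norm to `k`, `m = finrank k F`: `c ^ m = N(u) N(d) ^ p`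
(`Algebra.norm_algebraMap`), `N(u)` is a unit of `𝓞 k` (`RingOfIntegers.norm k`, a monoid homomorphism
`𝓞 F → 𝓞 k`, maps units to units), so `N(u) = v ^ p` by `hu`. (4) `α m + β p = 1` with integers: `c = (c ^ m) ^ α (c ^ p) ^ β =
((v N(d)) ^ α c ^ β) ^ p`.
-/

open IsDedekindDomain NumberField

namespace Pool.Agent.Lib.MP_2f3286_ag.Fer

theorem k_pow {p : ℕ} (hp : p.Prime) {k F : Type*} [Field k] [NumberField k] [Field F]
    [NumberField F] [Algebra k F] (hh : ¬ p ∣ classNumber F) (hm : ¬ p ∣ Module.finrank k F)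
    (hu : ∀ u : (𝓞 k)ˣ, ∃ v : (𝓞 k)ˣ, v ^ p = u) {c : k} (hc : c ≠ 0)
    (h : ∀ w : HeightOneSpectrum (𝓞 k), PV p w c) : ∃ d : k, d ^ p = c := by
  have hfd : FiniteDimensional k F := Module.Finite.of_restrictScalars_finite ℚ k F
  have hF : ∀ Q : HeightOneSpectrum (𝓞 F), PV p Q (algebraMap k F c) := by
    intro Q
    obtain ⟨z, hz, hw⟩ := h (Q.under (𝓞 k))
    have : Q.asIdeal.LiesOver (Q.under (𝓞 k)).asIdeal := ⟨rfl⟩
    refine ⟨algebraMap k F z, by simpa using hz, ?_⟩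
    rw [← HeightOneSpectrum.valuation_liesOver F (Q.under (𝓞 k)) Q c,
      ← HeightOneSpectrum.valuation_liesOver F (Q.under (𝓞 k)) Q z, hw, ← pow_mul, ← pow_mul,
      mul_comm]
  obtain ⟨u, d, hd, hcd⟩ := unit_class hp hh (c := algebraMap k F c) (by simpa using hc) hF
  obtain ⟨v, hv⟩ := hu (Units.map (RingOfIntegers.norm k) u)
  have hN : c ^ Module.finrank k F = ((v : 𝓞 k) : k) ^ p * (Algebra.norm k d) ^ p := by
    have h1 := congrArg (Algebra.norm k) hcd
    rw [Algebra.norm_algebraMap, map_mul, map_pow] at h1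
    rw [h1]
    congr 1
    have h2 := congrArg (fun x : (𝓞 k)ˣ => ((x : 𝓞 k) : k)) hv
    simp only [Units.val_pow_eq_pow_val, map_pow, Units.coe_map] at h2
    rw [h2]
    rfl
  have hcop : IsCoprime ((Module.finrank k F : ℕ) : ℤ) (p : ℤ) := by
    rw [Nat.isCoprime_iff_coprime]
    exact ((Nat.Prime.coprime_iff_not_dvd hp).mpr hm).symm
  obtain ⟨α, β, hab⟩ := hcop
  have hv0 : ((v : 𝓞 k) : k) ≠ 0 := by
    simp
  have hn0 : Algebra.norm k d ≠ 0 := by
    simpa using hd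
  refine ⟨(((v : 𝓞 k) : k) * Algebra.norm k d) ^ α * c ^ β, ?_⟩
  have e1 : c = (c ^ Module.finrank k F) ^ α * (c ^ p) ^ β := by
    rw [← zpow_natCast c (Module.finrank k F), ← zpow_natCast c p, ← zpow_mul, ← zpow_mul,
      ← zpow_add₀ hc]
    conv_lhs => rw [← zpow_one c]
    congr 1
    rw [← hab]
    ring
  conv_rhs => rw [e1, hN, ← mul_pow]
  rw [mul_pow, ← zpow_natCast (_ ^ α) p, ← zpow_natCast (c ^ β) p, ← zpow_mul, ← zpow_mul,
    mul_comm α, mul_comm β, zpow_mul, zpow_mul, zpow_natCast, zpow_natCast]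

end Pool.Agent.Lib.MP_2f3286_ag.Fer
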