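import Pool.Agent.Lib.MP_2f3286_ag.Fer.UCong

/-!
# The properties used of the cyclotomic field
-/

open IsDedekindDomain NumberField
open scoped WithZero

namespace Pool.Agent.Lib.MP_2f3286_ag.Fer

theorem exists_stp {p : ℕ} (hp : p.Prime) (h2 : p ≠ 2) {F : Type*} [Field F] [NumberField F]
    [IsCyclotomicExtension {p} ℚ F] (hh : ¬ p ∣ classNumber F) : Nonempty (Stp p F) := by
  have : NeZero p := ⟨hp.ne_zero⟩
  have hζ := IsCyclotomicExtension.zeta_spec p ℚ F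
  obtain ⟨P, ⟨x, hx, hPx⟩, hP, -, hw⟩ := exists_prime hp hζ
  exact ⟨⟨_, P, hp, h2, hζ, hw, cyc_loc hp h2 hζ hx hPx, hh,
    fun _ u b k => unit_cong hp h2 hζ hx hPx u b k⟩⟩

end Pool.Agent.Lib.MP_2f3286_ag.Fer
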