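import Pool.Agent.Lib.MP_2f3286_ag.Fer.FDef

/-!
# Values of roots at a place   (module PlcK, 30 minutes)

PROOF of `pow_has`. `g ^ n` has the value `y`, `n ≥ 1`. `Plc.has_or_inv`: if `g⁻¹` has value zero and
`g ≠ 0`, then `(g ^ n)⁻¹` has value `0` and (`Plc.not_has_of_inv`) `g ^ n` has no value. So `g` has a
value `x`, and `x ^ n = y` by `Plc.Has.pow` and `Plc.Has.unique`.

PROOF of `data_pow`. `x = a g ^ n` with `a` in `F`, `a ≠ 0`, and `x` has the value `y ≠ 0` : then
`g ^ n = x * a⁻¹` has the value `y * a⁻¹`; use `pow_has`; the value of `g` is not zero as its power is not.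

PROOF of `neg_one_pow`: `p` is odd.
-/

open IsDedekindDomain NumberField

namespace Pool.Agent.Lib.MP_2f3286_ag.Fer

theorem Plc.pow_has {L E : Type*} [Field L] [Field E] {Q : Plc L E} {g : L} {n : ℕ} (hn : n ≠ 0)
    {y : E} (h : Q.Has (g ^ n) y) : ∃ x, Q.Has g x ∧ x ^ n = y := by
  rcases Plc.has_or_inv Q g with ⟨x, hx⟩ | ⟨h0, h1⟩
  · exact ⟨x, hx, (hx.pow n).unique h⟩
  · exfalso
    have h2 := h1.pow n
    rw [inv_pow, zero_pow hn] at h2
    exact Plc.not_has_of_inv h2 (pow_ne_zero n h0) h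

/-- a constant with a value has this value -/
private theorem plck_alg {p : ℕ} {F L : Type*} [Field F] [NumberField F] [Field L] [Algebra F L]
    (D : Data p F L) (w : HeightOneSpectrum (𝓞 F)) {a : F} {y : w.adicCompletion F}
    (h : (D.pl w).Has (algebraMap F L a) y) : y = algebraMap F (w.adicCompletion F) a :=
  h.unique (D.base w a)

theorem Data.mul_pow_has {p : ℕ} {F L : Type*} [Field F] [NumberField F] [Field L] [Algebra F L]
    (D : Data p F L) (w : HeightOneSpectrum (𝓞 F)) {a : F} (ha : a ≠ 0) {g : L} {n : ℕ}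
    (hn : n ≠ 0) {y : w.adicCompletion F} (hy : y ≠ 0)
    (h : (D.pl w).Has (algebraMap F L a * g ^ n) y) :
    ∃ x, x ≠ 0 ∧ (D.pl w).Has g x ∧ y = algebraMap F (w.adicCompletion F) a * x ^ n := by
  have ha' : algebraMap F (w.adicCompletion F) a ≠ 0 := by
    rw [Ne, FaithfulSMul.algebraMap_eq_zero_iff]
    exact ha
  have haL : algebraMap F L a ≠ 0 := by
    rw [Ne, FaithfulSMul.algebraMap_eq_zero_iff]
    exact ha
  have h1 := h.div (D.base w a) ha'
  rw [mul_div_cancel_left₀ _ haL] at h1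
  obtain ⟨x, hx, hxn⟩ := Plc.pow_has hn h1
  have h2 : y = algebraMap F (w.adicCompletion F) a * x ^ n := by
    rw [hxn, mul_div_cancel₀ _ ha']
  refine ⟨x, ?_, hx, h2⟩
  rintro rfl
  rw [zero_pow hn, mul_zero] at h2
  exact hy h2

/-- a constant with a value has this value -/
theorem Data.has_alg {p : ℕ} {F L : Type*} [Field F] [NumberField F] [Field L] [Algebra F L]
    (D : Data p F L) (w : HeightOneSpectrum (𝓞 F)) {a : F} {y : w.adicCompletion F}
    (h : (D.pl w).Has (algebraMap F L a) y) : y = algebraMap F (w.adicCompletion F) a :=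
  plck_alg D w h

end Pool.Agent.Lib.MP_2f3286_ag.Fer
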