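import Pool.Agent.Lib.MP_2f3286_ag.Fer.Away
import Pool.Agent.Lib.MP_2f3286_ag.Fer.PlcK

/-!
# Step zero: `A` and `1 - A` are `p`-th powers in the fixed field   (module Z0, 80 minutes)

SETTING. `A ^ a (1 - A) ^ b = B ^ p` in `L`, `A` not constant, `p` does not divide `a`, `b`, `a + b` (integers).
PROOF. `A, 1 - A ≠ 0`, `B ≠ 0`. `A = c x ^ p`, `1 - A = c' y ^ p` (`D.kum`), `c, c' ≠ 0` in `k`, `x, y ≠ 0`.
(R) `c ^ a c' ^ b = (B / (x ^ a y ^ b)) ^ p` in `L`, the `p`-th power of an element `g` of `L`; at a place `w` the constant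
`c ^ a c' ^ b ≠ 0` has a value, so `g` has a value `η` (`Plc.pow_has`) and `v (c) ^ a v (c') ^ b = v (η) ^ p`, `η ≠ 0`.
(S) For every `w` one of: `PV p w c`, `PV p w c'`, `PV p w (c / c')`. Let `α` be the value of `A` at `w`.
 No value: `A⁻¹` has value `0`, `(1 - A) / A = A⁻¹ - 1` has the value `-1` and is `(c' / c) (y / x) ^ p`; `Data.mul_pow_has`:
 `-1 = (c' / c) x₁ ^ p`, so `v (c / c') = v x₁ ^ p`. `α = 0`: `1 - A` has the value `1 = c' x₁ ^ p`: `PV p w c'`. `α = 1`: `A`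
 has the value `1`, `PV p w c`. Otherwise `α = c x₁ ^ p` and `1 - α = c' y₁ ^ p`: if `v α > 1`, `v (1 - α) = v α`,
 `v (c / c') = v (y₁ / x₁) ^ p`; if `v α = 1`, `v c = v (x₁⁻¹) ^ p`; if `v α < 1`, `v (1 - α) = 1`, `PV p w c'`. (`pv_iff`.)
(T) (R) and (S) give `PV p w c` and `PV p w c'` for all `w`: valuations are `exp` of integers `n = log v c`, `n' = log v c'`
(`WithZero.log`), `PV p w c ↔ p ∣ n` (a nonzero element of `F` has a valuation `exp m`, all `m` occur; or work with the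
multiplicative statements and `zpow`): `p ∣ a n + b n'`, and `p ∣ n` or `p ∣ n'` or `p ∣ n - n'`; `p` is prime and does not divide
`a`, `b`, `a + b`.
`hpow`: `c = d ^ p`, `c' = d' ^ p`. Take `d x`, `d' y`.
-/

open IsDedekindDomain NumberField
open scoped WithZero

namespace Pool.Agent.Lib.MP_2f3286_ag.Fer

/-- the condition `PV` in terms of the logarithm of the valuation -/
theorem pv_iff_dvd {p : ℕ} (hp : p ≠ 0) {F : Type*} [Field F] [NumberField F]
    (w : HeightOneSpectrum (𝓞 F)) {c : F} (hc : c ≠ 0) :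
    PV p w c ↔ (p : ℤ) ∣ WithZero.log (w.valuation F c) := by
  constructor
  · rintro ⟨z, _, h⟩
    rw [h, WithZero.log_pow]
    exact ⟨_, nsmul_eq_mul _ _⟩
  · rintro ⟨m, hm⟩
    obtain ⟨z, hz⟩ := w.valuation_surjective F (WithZero.exp m)
    have hwc : w.valuation F c ≠ 0 := (Valuation.ne_zero_iff _).2 hc
    refine ⟨z, ?_, ?_⟩
    · rintro rfl
      rw [map_zero] at hz
      exact WithZero.exp_ne_zero hz.symm
    · rw [hz, ← WithZero.exp_nsmul, nsmul_eq_mul, ← hm, WithZero.exp_log hwc]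

private theorem z0_log {p : ℕ} (hp : p ≠ 0) {k L : Type*} [Field k] [NumberField k] [Field L]
    [Algebra k L] (D : Data p k L) (w : HeightOneSpectrum (𝓞 k)) {a : k} (ha : a ≠ 0) {g : L}
    {y : w.adicCompletion k} (hy : y ≠ 0) (h : (D.pl w).Has (algebraMap k L a * g ^ p) y) :
    (p : ℤ) ∣ WithZero.log (Valued.v y : ℤᵐ⁰) - WithZero.log (w.valuation k a) := by
  obtain ⟨x, hx0, _, hx⟩ := D.mul_pow_has w ha hp hy h
  have h1 : (Valued.v y : ℤᵐ⁰) = w.valuation k a * (Valued.v x : ℤᵐ⁰) ^ p := by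
    rw [hx, map_mul, map_pow, val_alg']
  have h2 : w.valuation k a ≠ 0 := (Valuation.ne_zero_iff _).2 ha
  have h3 : (Valued.v x : ℤᵐ⁰) ≠ 0 := (Valuation.ne_zero_iff _).2 hx0
  rw [h1, WithZero.log_mul h2 (pow_ne_zero _ h3), WithZero.log_pow, add_sub_cancel_left]
  exact ⟨_, nsmul_eq_mul _ _⟩

private theorem z0_arith {p : ℕ} (hp : p.Prime) {a b n n' : ℤ} (ha : ¬ (p : ℤ) ∣ a)
    (hb : ¬ (p : ℤ) ∣ b) (hab : ¬ (p : ℤ) ∣ a + b) (h1 : (p : ℤ) ∣ a * n + b * n')
    (h2 : (p : ℤ) ∣ n ∨ (p : ℤ) ∣ n' ∨ (p : ℤ) ∣ n - n') : (p : ℤ) ∣ n ∧ (p : ℤ) ∣ n' := by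
  have hq : Prime (p : ℤ) := Nat.prime_iff_prime_int.1 hp
  rcases h2 with h2 | h2 | h2
  · have h3 : (p : ℤ) ∣ b * n' := (dvd_add_right (Dvd.dvd.mul_left h2 a)).1 h1
    exact ⟨h2, (hq.dvd_or_dvd h3).resolve_left hb⟩
  · have h3 : (p : ℤ) ∣ a * n := (dvd_add_left (Dvd.dvd.mul_left h2 b)).1 h1
    exact ⟨(hq.dvd_or_dvd h3).resolve_left ha, h2⟩
  · have h3 : (p : ℤ) ∣ (a + b) * n := by
      have h4 : (a + b) * n = (a * n + b * n') + b * (n - n') := by ring
      rw [h4]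
      exact dvd_add h1 (Dvd.dvd.mul_left h2 b)
    have h5 := (hq.dvd_or_dvd h3).resolve_left hab
    refine ⟨h5, ?_⟩
    have h6 : n' = n - (n - n') := by ring
    rw [h6]
    exact dvd_sub h5 h2

private theorem z0_zpow {L : Type*} [Field L] (c x : L) (p : ℕ) (a : ℤ) :
    (c * x ^ p) ^ a = c ^ a * (x ^ a) ^ p := by
  rw [mul_zpow, ← zpow_natCast, ← zpow_natCast, ← zpow_mul, ← zpow_mul, mul_comm (p : ℤ) a]

/-- valuations in the situation of step zero -/
private theorem z0_val {p : ℕ} (hp : p.Prime) {L Γ : Type*} [Field L] [LinearOrderedCommGroupWithZero Γ]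
    (v : Valuation L Γ) {A B : L} (hA : A ≠ 0) (hA1 : 1 - A ≠ 0) {a b : ℤ} (ha : ¬ (p : ℤ) ∣ a)
    (hb : ¬ (p : ℤ) ∣ b) (hab : ¬ (p : ℤ) ∣ a + b) (h : A ^ a * (1 - A) ^ b = B ^ p) :
    (∃ y : L, y ≠ 0 ∧ v A = v y ^ p) ∧ ∃ y : L, y ≠ 0 ∧ v (1 - A) = v y ^ p := by
  have hq : Prime (p : ℤ) := Nat.prime_iff_prime_int.1 hp
  have hB : B ≠ 0 := by
    rintro rfl
    rw [zero_pow hp.ne_zero] at h
    exact mul_ne_zero (zpow_ne_zero _ hA) (zpow_ne_zero _ hA1) h
  -- if a power prime to `p` is a `p`-th power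
  have key : ∀ (x : L) (m : ℤ), x ≠ 0 → ¬ (p : ℤ) ∣ m → v x ^ m = v B ^ p →
      ∃ y : L, y ≠ 0 ∧ v x = v y ^ p := by
    intro x m hx hm hxm
    obtain ⟨u, w, huw⟩ := ((Prime.coprime_iff_not_dvd hq).2 hm)
    have hvx : v x ≠ 0 := by rwa [Ne, Valuation.zero_iff]
    refine ⟨x ^ u * B ^ w, mul_ne_zero (zpow_ne_zero _ hx) (zpow_ne_zero _ hB), ?_⟩
    have e1 : v x ^ (u * (p : ℤ)) = (v x ^ u) ^ p := by rw [zpow_mul, zpow_natCast]
    have e2 : v x ^ (w * m) = (v B ^ w) ^ p := by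
      rw [mul_comm w m, zpow_mul, hxm, ← zpow_natCast (v B) p, ← zpow_natCast (v B ^ w) p,
        ← zpow_mul, ← zpow_mul, mul_comm (p : ℤ) w]
    have e3 : v x ^ (u * (p : ℤ) + w * m) = v x := by rw [huw, zpow_one]
    rw [map_mul, map_zpow₀, map_zpow₀, mul_pow, ← e1, ← e2, ← zpow_add₀ hvx, e3]
  have h1 : v A ^ a * v (1 - A) ^ b = v B ^ p := by
    rw [← map_zpow₀, ← map_zpow₀, ← map_mul, h, map_pow]
  rcases lt_trichotomy (v A) 1 with hlt | heq | hgt
  · have hv1 : v (1 - A) = 1 := Valuation.map_one_sub_of_lt _ hlt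
    rw [hv1, one_zpow, mul_one] at h1
    exact ⟨key A a hA ha h1, 1, one_ne_zero, by rw [hv1, map_one, one_pow]⟩
  · rw [heq, one_zpow, one_mul] at h1
    exact ⟨⟨1, one_ne_zero, by rw [heq, map_one, one_pow]⟩, key (1 - A) b hA1 hb h1⟩
  · have hv1 : v (1 - A) = v A :=
      Valuation.map_sub_eq_of_lt_right _ (by rw [map_one]; exact hgt)
    have hvA : v A ≠ 0 := by rwa [Ne, Valuation.zero_iff]
    rw [hv1, ← zpow_add₀ hvA] at h1
    obtain ⟨y, hy⟩ := key A (a + b) hA hab h1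
    exact ⟨⟨y, hy⟩, y, hy.1, by rw [hv1]; exact hy.2⟩

theorem step_zero {p : ℕ} (hp : p.Prime) {k L : Type*} [Field k] [NumberField k] [Field L]
    [Algebra k L] (D : Data p k L)
    (hpow : ∀ c : k, c ≠ 0 → (∀ w : HeightOneSpectrum (𝓞 k), PV p w c) → ∃ d : k, d ^ p = c)
    {A B : L} (hA : ∀ c : k, A ≠ algebraMap k L c) {a b : ℤ} (ha : ¬ (p : ℤ) ∣ a)
    (hb : ¬ (p : ℤ) ∣ b) (hab : ¬ (p : ℤ) ∣ a + b) (h : A ^ a * (1 - A) ^ b = B ^ p) :
    ∃ x y : L, x ^ p = A ∧ y ^ p = 1 - A := by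
  have hp0 : p ≠ 0 := hp.ne_zero
  have hA0 : A ≠ 0 := fun h0 => hA 0 (by rw [h0, map_zero])
  have hA1 : 1 - A ≠ 0 := fun h0 => hA 1 (by rw [map_one]; exact (sub_eq_zero.1 h0).symm)
  obtain ⟨c, hc, x, hx⟩ := D.kum A hA0 fun V _ => (z0_val hp V.valuation hA0 hA1 ha hb hab h).1
  obtain ⟨c', hc', y, hy⟩ := D.kum (1 - A) hA1
    fun V _ => (z0_val hp V.valuation hA0 hA1 ha hb hab h).2
  have hx0 : x ≠ 0 := by
    rintro rfl
    rw [zero_pow hp0, mul_zero] at hx
    exact hA0 hx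
  have hy0 : y ≠ 0 := by
    rintro rfl
    rw [zero_pow hp0, mul_zero] at hy
    exact hA1 hy
  have key : ∀ w : HeightOneSpectrum (𝓞 k), (p : ℤ) ∣ WithZero.log (w.valuation k c) ∧
      (p : ℤ) ∣ WithZero.log (w.valuation k c') := by
    intro w
    have hv : ∀ {u : k}, u ≠ 0 → w.valuation k u ≠ 0 := fun hu => (Valuation.ne_zero_iff _).2 hu
    apply z0_arith hp ha hb hab
    · have hcc : c ^ a * c' ^ b ≠ 0 := mul_ne_zero (zpow_ne_zero _ hc) (zpow_ne_zero _ hc')
      have hg : algebraMap k L (c ^ a * c' ^ b) =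
          algebraMap k L 1 * (B / (x ^ a * y ^ b)) ^ p := by
        have hAa : A ^ a = (algebraMap k L c) ^ a * (x ^ a) ^ p := by
          rw [hx, z0_zpow]
        have hBb : (1 - A) ^ b = (algebraMap k L c') ^ b * (y ^ b) ^ p := by
          rw [hy, z0_zpow]
        have hne : (x ^ a * y ^ b) ^ p ≠ 0 :=
          pow_ne_zero _ (mul_ne_zero (zpow_ne_zero _ hx0) (zpow_ne_zero _ hy0))
        rw [map_one, one_mul, div_pow, eq_div_iff hne, ← h, hAa, hBb, map_mul, map_zpow₀,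
          map_zpow₀, mul_pow]
        ring
      have h1 := D.base w (c ^ a * c' ^ b)
      rw [hg] at h1
      have h2 := z0_log hp0 D w one_ne_zero ((map_ne_zero _).2 hcc) h1
      rw [val_alg', map_one, WithZero.log_one, sub_zero, map_mul, map_zpow₀, map_zpow₀,
        WithZero.log_mul (zpow_ne_zero _ (hv hc)) (zpow_ne_zero _ (hv hc')), WithZero.log_zpow,
        WithZero.log_zpow, smul_eq_mul, smul_eq_mul] at h2
      exact h2
    · rcases (D.pl w).has_or_inv A with ⟨α, hα⟩ | ⟨_, hinv⟩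
      · have h1α : (D.pl w).Has (1 - A) (1 - α) := Plc.has_one.sub hα
        rw [hy] at h1α
        rw [hx] at hα
        rcases lt_trichotomy (Valued.v α : ℤᵐ⁰) 1 with hlt | heq | hgt
        · right
          left
          have hv1 : (Valued.v (1 - α) : ℤᵐ⁰) = 1 := Valuation.map_one_sub_of_lt _ hlt
          have hne : 1 - α ≠ 0 := by
            intro h0
            rw [h0, map_zero] at hv1
            exact zero_ne_one hv1
          have h2 := z0_log hp0 D w hc' hne h1α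
          rw [hv1, WithZero.log_one, zero_sub, dvd_neg] at h2
          exact h2
        · left
          have hne : α ≠ 0 := by
            intro h0
            rw [h0, map_zero] at heq
            exact zero_ne_one heq
          have h2 := z0_log hp0 D w hc hne hα
          rw [heq, WithZero.log_one, zero_sub, dvd_neg] at h2
          exact h2
        · right
          right
          have hv1 : (Valued.v (1 - α) : ℤᵐ⁰) = Valued.v α :=
            Valuation.map_sub_eq_of_lt_right _ (by rw [map_one]; exact hgt)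
          have hne : α ≠ 0 := by
            intro h0
            rw [h0, map_zero] at hgt
            exact absurd hgt not_lt_zero'
          have hne' : 1 - α ≠ 0 := by
            intro h0
            rw [h0, map_zero] at hv1
            rw [← hv1] at hgt
            exact absurd hgt not_lt_zero'
          have e1 := z0_log hp0 D w hc hne hα
          have e2 := z0_log hp0 D w hc' hne' h1α
          rw [hv1] at e2
          have e3 := dvd_sub e2 e1
          rw [sub_sub_sub_cancel_left] at e3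
          exact e3
      · right
        right
        have h1 : (D.pl w).Has (A⁻¹ - 1) (-1) := by
          have h2 := hinv.sub Plc.has_one
          rw [zero_sub] at h2
          exact h2
        have h2 : A⁻¹ - 1 = algebraMap k L (c' / c) * (y / x) ^ p := by
          rw [map_div₀, div_pow, div_mul_div_comm, ← hx, ← hy, sub_div, div_self hA0, one_div]
        rw [h2] at h1
        have h3 := z0_log hp0 D w (div_ne_zero hc' hc) (neg_ne_zero.2 one_ne_zero) h1
        rw [Valuation.map_neg, map_one, WithZero.log_one, map_div₀,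
          WithZero.log_div (hv hc') (hv hc), zero_sub, neg_sub] at h3
        exact h3
  obtain ⟨d, hd⟩ := hpow c hc fun w => (pv_iff_dvd hp0 w hc).2 (key w).1
  obtain ⟨d', hd'⟩ := hpow c' hc' fun w => (pv_iff_dvd hp0 w hc').2 (key w).2
  refine ⟨algebraMap k L d * x, algebraMap k L d' * y, ?_, ?_⟩
  · rw [mul_pow, ← map_pow, hd, ← hx]
  · rw [mul_pow, ← map_pow, hd', ← hy]

end Pool.Agent.Lib.MP_2f3286_ag.Fer
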