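import Pool.Agent.Lib.MP_2f3286_ag.Fer.DE
import Pool.Agent.Lib.MP_2f3286_ag.Fer.KPow
import Pool.Agent.Lib.MP_2f3286_ag.Fer.Z0
import Pool.Agent.Lib.MP_2f3286_ag.Fer.StpM
import Pool.Agent.Lib.MP_2f3286_ag.Koe.Converse
import Pool.Agent.Lib.MP_2f3286_bir.Uniq

/-!
# Sections of curves above the Fermat curve of a regular exponent
-/

open IsDedekindDomain NumberField
open Pool.Agent.Lib.MP_2f3286_bir (IsPlaceOf)

namespace Pool.Agent.Lib.MP_2f3286_ag.Fer

section

variable {k : Type*} [Field k] [NumberField k] {K : Type*} [Field K] [Algebra k K]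
  {Ω : Type*} [Field Ω] [Algebra K Ω] [IsAlgClosure K Ω] [Algebra (AlgebraicClosure k) Ω]
  [Algebra k Ω] [IsScalarTower k K Ω] [IsScalarTower k (AlgebraicClosure k) Ω]
  (s : Gal(AlgebraicClosure k/k) →* Gal(Ω/K)) (hs : Continuous s)
  (hsec : ∀ σ a, s σ (algebraMap (AlgebraicClosure k) Ω a) =
    algebraMap (AlgebraicClosure k) Ω (σ a))

include hsec in
/-- a function which is not constant is not algebraic over `k` -/
theorem not_const {A : K} (hA : ∀ c : k, A ≠ algebraMap k K c) (c : AlgebraicClosure k) :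
    algebraMap K Ω A ≠ algebraMap (AlgebraicClosure k) Ω c := by
  intro h
  have h1 : IsAlgebraic k A := by
    have h2 : IsAlgebraic k (algebraMap (AlgebraicClosure k) Ω c) :=
      (Algebra.IsAlgebraic.isAlgebraic c).algebraMap
    rw [← h] at h2
    exact (isAlgebraic_algebraMap_iff (algebraMap K Ω).injective).1 h2
  obtain ⟨a, ha⟩ := const_of_algebraic s hsec h1
  exact hA a ha

include hs hsec in
/-- step zero for a section -/
theorem exists_roots {p : ℕ} (hp : p.Prime)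
    (hpow : ∀ c : k, c ≠ 0 → (∀ w : HeightOneSpectrum (𝓞 k), PV p w c) → ∃ d : k, d ^ p = c)
    {A B : K} (hA : ∀ c : k, A ≠ algebraMap k K c) {a b : ℤ} (ha : ¬ (p : ℤ) ∣ a)
    (hb : ¬ (p : ℤ) ∣ b) (hab : ¬ (p : ℤ) ∣ a + b) (h : A ^ a * (1 - A) ^ b = B ^ p) :
    ∃ x y : Ω, (∀ σ, s σ x = x) ∧ (∀ σ, s σ y = y) ∧ x ^ p = algebraMap K Ω A ∧
      y ^ p = algebraMap K Ω (1 - A) := by
  have hcl : IsAlgClosed Ω := IsAlgClosure.isAlgClosed K
  have halg : Algebra.IsAlgebraic K Ω := IsAlgClosure.isAlgebraic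
  let L : IntermediateField K Ω :=
    { carrier := {x | ∀ σ, s σ x = x}
      mul_mem' := fun ha hb σ => by rw [map_mul, ha σ, hb σ]
      add_mem' := fun ha hb σ => by rw [map_add, ha σ, hb σ]
      algebraMap_mem' := fun a σ => (s σ).commutes a
      inv_mem' := fun a ha σ => by rw [map_inv₀, ha σ] }
  let iL : Algebra k L := ((algebraMap K L).comp (algebraMap k K)).toAlgebra
  have t1 : IsScalarTower k L Ω := IsScalarTower.of_algebraMap_eq fun a => by
    rw [IsScalarTower.algebraMap_apply k K Ω]; rfl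
  choose ι _ using fun w : HeightOneSpectrum (𝓞 k) =>
    (⟨(IsAlgClosed.lift : AlgebraicClosure k →ₐ[k] AlgebraicClosure (w.adicCompletion k)),
      trivial⟩ : ∃ _ : AlgebraicClosure k →ₐ[k] AlgebraicClosure (w.adicCompletion k), True)
  choose A' φ hφ using fun w => Koe.local_place s hs hsec w (ι w)
  obtain ⟨D, -⟩ := exists_data (L := L) hp.ne_zero s hs hsec (fun x σ => x.2 σ)
    (fun x hx => ⟨⟨x, hx⟩, rfl⟩) ι A' φ hφ
  have h2 : ∀ c : k, algebraMap K L A ≠ algebraMap k L c := by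
    intro c hc
    exact hA c ((algebraMap K L).injective hc)
  have h3 : (algebraMap K L A) ^ a * (1 - algebraMap K L A) ^ b = (algebraMap K L B) ^ p := by
    rw [← map_one (algebraMap K L), ← map_sub, ← map_zpow₀, ← map_zpow₀, ← map_mul, h, map_pow]
  obtain ⟨x, y, hx, hy⟩ := step_zero hp D hpow h2 ha hb hab h3
  refine ⟨x, y, x.2, y.2, ?_, ?_⟩
  · have h4 := congrArg (algebraMap L Ω) hx
    exact h4
  · have h4 := congrArg (algebraMap L Ω) hy
    rw [map_sub, map_one]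
    exact h4

end

theorem cycl (p : ℕ) [NeZero p] : IsCyclotomicExtension {p} ℚ (CyclotomicField p ℚ) := by
  have h := CyclotomicField.isCyclotomicExtension p ℚ
  have e : (DivisionRing.toRatAlgebra : Algebra ℚ (CyclotomicField p ℚ)) =
    CyclotomicField.algebra p ℚ := Subsingleton.elim _ _
  rw [e]
  exact h

/-- **Sections of curves above a Fermat curve of regular exponent.** -/
theorem fermat.{u} {p : ℕ} (hp : p.Prime) (h2 : p ≠ 2)
    (hh : ¬ p ∣ classNumber (CyclotomicField p ℚ))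
    {k : Type u} [Field k] [NumberField k] [Algebra k (CyclotomicField p ℚ)]
    {K : Type*} [Field K] [Algebra k K] (htr : Algebra.trdeg k K = 1)
    {Ω : Type*} [Field Ω] [Algebra K Ω] [IsAlgClosure K Ω]
    [Algebra (AlgebraicClosure k) Ω] [Algebra k Ω]
    [IsScalarTower k K Ω] [IsScalarTower k (AlgebraicClosure k) Ω]
    (A : K) (hA : ∀ c : k, A ≠ algebraMap k K c)
    (h : (∃ x y : K, x ^ p = A ∧ y ^ p = 1 - A) ∨
      ((∀ u : (𝓞 k)ˣ, ∃ v : (𝓞 k)ˣ, v ^ p = u) ∧ ∃ (a b : ℤ) (B : K), ¬ (p : ℤ) ∣ a ∧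
        ¬ (p : ℤ) ∣ b ∧ ¬ (p : ℤ) ∣ a + b ∧ A ^ a * (1 - A) ^ b = B ^ p))
    (s : Gal(AlgebraicClosure k/k) →* Gal(Ω/K)) (hs : Continuous s)
    (hsec : ∀ σ a, s σ (algebraMap (AlgebraicClosure k) Ω a) =
      algebraMap (AlgebraicClosure k) Ω (σ a)) :
    ∃ (A₀ : ValuationSubring Ω) (ψ₀ : A₀ →+* AlgebraicClosure k),
      IsPlaceOf s k (RingHom.id _) A₀ ψ₀ ∧
      (∀ h : algebraMap K Ω A ∈ A₀, ψ₀ ⟨_, h⟩ = 0 ∨ ψ₀ ⟨_, h⟩ = 1) ∧
      (∀ (f : K) (h : algebraMap K Ω f ∈ A₀),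
        ∃ a : k, ψ₀ ⟨algebraMap K Ω f, h⟩ = algebraMap k (AlgebraicClosure k) a) ∧
      ∀ (A₁ : ValuationSubring Ω) (ψ₁ : A₁ →+* AlgebraicClosure k),
        IsPlaceOf s k (RingHom.id _) A₁ ψ₁ →
        A₁ = A₀ ∧ ∀ (a : A₁) (b : A₀), (a : Ω) = b → ψ₁ a = ψ₀ b := by
  have hcl : IsAlgClosed Ω := IsAlgClosure.isAlgClosed K
  have halg : Algebra.IsAlgebraic K Ω := IsAlgClosure.isAlgebraic
  have : NeZero p := ⟨hp.ne_zero⟩
  have hcyc := cycl p
  have hodd : Odd p := hp.odd_of_ne_two h2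
  obtain ⟨X⟩ := exists_stp (F := CyclotomicField p ℚ) hp h2 hh
  have hdeg : Module.finrank ℚ (CyclotomicField p ℚ) = p - 1 := by
    rw [IsCyclotomicExtension.Rat.finrank p, Nat.totient_prime hp]
  let e : CyclotomicField p ℚ →ₐ[k] AlgebraicClosure k :=
    have : Algebra.IsAlgebraic k (CyclotomicField p ℚ) := by
      have : FiniteDimensional k (CyclotomicField p ℚ) := FiniteDimensional.right ℚ k _
      infer_instance
    IsAlgClosed.lift
  let iF : Algebra (CyclotomicField p ℚ) (AlgebraicClosure k) := (e : _ →+* _).toAlgebra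
  have t1 : IsScalarTower k (CyclotomicField p ℚ) (AlgebraicClosure k) :=
    IsScalarTower.of_algebraMap_eq fun a => (e.commutes a).symm
  -- the functions `x` and `y`
  have h3 : ∃ x y : Ω, (∀ σ, s σ x = x) ∧ (∀ σ, s σ y = y) ∧ x ^ p = algebraMap K Ω A ∧
      y ^ p = algebraMap K Ω (1 - A) := by
    rcases h with ⟨x, y, hx, hy⟩ | ⟨hu, a, b, B, ha, hb, hab, hB⟩
    · exact ⟨algebraMap K Ω x, algebraMap K Ω y, fun σ => (s σ).commutes x,
        fun σ => (s σ).commutes y, by rw [← map_pow, hx], by rw [← map_pow, hy]⟩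
    · refine exists_roots s hs hsec hp (fun c hc hw => k_pow hp hh ?_ hu hc hw) hA ha hb hab hB
      intro hd
      have h4 : Module.finrank ℚ k * Module.finrank k (CyclotomicField p ℚ) = p - 1 := by
        rw [Module.finrank_mul_finrank, hdeg]
      have h5 : p ∣ p - 1 := h4 ▸ Dvd.dvd.mul_left hd _
      have h6 := hp.two_le
      exact absurd (Nat.le_of_dvd (by omega) h5) (by omega)
  obtain ⟨x, y, hsx, hsy, hx, hy⟩ := h3
  have hxy : x ^ p + y ^ p = 1 := by rw [hx, hy, map_sub, map_one]; ring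
  have hxc : ∀ c : AlgebraicClosure k, x ≠ algebraMap _ Ω c := by
    intro c hc
    apply not_const s hsec hA (c ^ p)
    rw [← hx, hc, map_pow]
  obtain ⟨A₀, ψ₀, h7, r, hr, h8, h9⟩ := geo_k X hdeg.le htr s hs hsec x y (fun σ _ => hsx σ)
    (fun σ _ => hsy σ) hxc hxy
  refine ⟨A₀, ψ₀, h7, ?_, fun f hf => Koe.value_rational h7 f hf,
    fun A₁ ψ₁ h₁ => MP_2f3286_bir.place_unique s hs h7 h₁⟩
  intro hAA
  have hrp : r ^ p ∈ A₀ := pow_mem h8 p
  have h10 : ψ₀ ⟨r ^ p, hrp⟩ = -1 := by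
    rw [← h9, ← map_pow]; rfl
  rcases hr with rfl | rfl | rfl
  · right
    have h11 : (⟨algebraMap K Ω A, hAA⟩ : A₀) = -⟨(-x) ^ p, hrp⟩ := by
      apply Subtype.ext
      change algebraMap K Ω A = -((-x) ^ p)
      rw [hodd.neg_pow, neg_neg, hx]
    rw [h11, map_neg, h10, neg_neg]
  · left
    have h11 : (⟨algebraMap K Ω A, hAA⟩ : A₀) = 1 + ⟨(-y) ^ p, hrp⟩ := by
      apply Subtype.ext
      change algebraMap K Ω A = 1 + (-y) ^ p
      rw [hodd.neg_pow, hy, map_sub, map_one]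
      ring
    rw [h11, map_add, map_one, h10]
    ring
  · exfalso
    have hx0 : x ≠ 0 := by
      intro h0
      exact hxc 0 (by rw [h0, map_zero])
    have h11 : (⟨algebraMap K Ω A, hAA⟩ : A₀) * (1 + ⟨(y / x) ^ p, hrp⟩) = 1 := by
      apply Subtype.ext
      change algebraMap K Ω A * (1 + (y / x) ^ p) = 1
      rw [← hx, div_pow]
      have : x ^ p ≠ 0 := pow_ne_zero _ hx0
      field_simp
      exact hxy
    have h12 := congrArg ψ₀ h11
    rw [map_mul, map_add, map_one, h10] at h12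
    simp at h12

end Pool.Agent.Lib.MP_2f3286_ag.Fer
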