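import Pool.Agent.Lib.MP_2f3286_ag.Fer.LBas

/-!
# Valuations of the factors of `ρ ^ p + 1` away from `p`   (module VNum, 50 minutes)

`v` is a valuation for which all `z ^ i - 1`, `p ∤ i`, are units (`h1`), `z` a primitive `p`-th root of
unity. PROOF. `v z = 1` as `z ^ p = 1`, and `v (z ^ i - z ^ j) = 1` if `z ^ i ≠ z ^ j`
(say `i ≤ j` or use `z ^ i = z ^ (i % p)`: the difference is a power of `z` times `z ^ l - 1` up to
sign with `p ∤ l`). We show the following for the index `i` (`claim`): if `v ρ ≤ 1`, then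
`v (ρ + z ^ i)` is the `p`-th power of the valuation of a nonzero element. Indeed `v (ρ + z ^ i) ≤ 1`.
If it is `1`, take `1`. Otherwise `v (ρ + z ^ i) < 1`, so for every `l` with `z ^ l ≠ z ^ i`,
`v (ρ + z ^ l) = v ((ρ + z ^ i) + (z ^ l - z ^ i)) = 1`. As `ρ + z ^ i ≠ 0` and the other factors are
not zero, `ρ ^ p + 1 ≠ 0`, `ρ ^ p + 1 = ∏_{l < p} (ρ + z ^ l)`
(`IsPrimitiveRoot.pow_sub_pow_eq_prod_sub_zeta_runity_mul` or `IsPrimitiveRoot.pow_add_pow_eq_prod_add_mul`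
for odd `p`; here you may take `X_pow_sub_one_eq_prod` at `-ρ`), so
`v (ρ + z ^ i) = v (ρ ^ p + 1) = v e v κ ^ p = v (y κ) ^ p`, and `y κ ≠ 0`.
If `v ρ > 1`: `v (ρ + z ^ i) = v ρ = v (ρ + z ^ j)`, the quotient has valuation one, take `1`. If
`v ρ ≤ 1` apply the claim to `i` and `j` and take the quotient.
-/

open scoped WithZero

namespace Pool.Agent.Lib.MP_2f3286_ag.Fer

private theorem vnum_z {p : ℕ} (hp : p.Prime) {C : Type*} [Field C] {Γ : Type*}
    [LinearOrderedCommGroupWithZero Γ] (v : Valuation C Γ)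
    {z : C} (hz : IsPrimitiveRoot z p) (i : ℕ) : v (z ^ i) = 1 := by
  have h1 : v z ^ p = 1 := by rw [← map_pow, hz.pow_eq_one, map_one]
  have h2 : v z = 1 := by
    rcases lt_trichotomy (v z) 1 with h | h | h
    · exact absurd h1 (pow_lt_one₀ zero_le' h hp.ne_zero).ne
    · exact h
    · exact absurd h1 (one_lt_pow₀ h hp.ne_zero).ne'
  rw [map_pow, h2, one_pow]

private theorem vnum_lt {p : ℕ} (hp : p.Prime) {C : Type*} [Field C] {Γ : Type*}
    [LinearOrderedCommGroupWithZero Γ] (v : Valuation C Γ)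
    {z : C} (hz : IsPrimitiveRoot z p) (h1 : ∀ i : ℕ, ¬ p ∣ i → v (z ^ i - 1) = 1) {i j : ℕ}
    (hij : i ≤ j) (hne : z ^ i ≠ z ^ j) : v (z ^ i - z ^ j) = 1 := by
  obtain ⟨k, rfl⟩ := Nat.exists_eq_add_of_le hij
  have h2 : z ^ i - z ^ (i + k) = -(z ^ i * (z ^ k - 1)) := by
    rw [pow_add]
    ring
  have h3 : ¬ p ∣ k := by
    rintro ⟨c, rfl⟩
    apply hne
    rw [pow_add, pow_mul, hz.pow_eq_one, one_pow, mul_one]
  rw [h2, Valuation.map_neg, map_mul, vnum_z hp v hz, h1 k h3, mul_one]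

private theorem vnum_ne {p : ℕ} (hp : p.Prime) {C : Type*} [Field C] {Γ : Type*}
    [LinearOrderedCommGroupWithZero Γ] (v : Valuation C Γ)
    {z : C} (hz : IsPrimitiveRoot z p) (h1 : ∀ i : ℕ, ¬ p ∣ i → v (z ^ i - 1) = 1) {i j : ℕ}
    (hne : z ^ i ≠ z ^ j) : v (z ^ i - z ^ j) = 1 := by
  rcases le_total i j with h | h
  · exact vnum_lt hp v hz h1 h hne
  · rw [Valuation.map_sub_swap]
    exact vnum_lt hp v hz h1 h (Ne.symm hne)

private theorem vnum_claim {p : ℕ} (hp : p.Prime) (h2 : p ≠ 2) {C : Type*} [Field C] {Γ : Type*}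
    [LinearOrderedCommGroupWithZero Γ] (v : Valuation C Γ) {z : C} (hz : IsPrimitiveRoot z p)
    (h1 : ∀ i : ℕ, ¬ p ∣ i → v (z ^ i - 1) = 1)
    {ρ e κ : C} (he : ρ ^ p + 1 = e * κ ^ p) (hPe : ∃ y, y ≠ 0 ∧ v e = v y ^ p) (i : ℕ)
    (hi : ρ + z ^ i ≠ 0) (hρ : v ρ ≤ 1) : ∃ y, y ≠ 0 ∧ v (ρ + z ^ i) = v y ^ p := by
  have hle : v (ρ + z ^ i) ≤ 1 :=
    (v.map_add ρ (z ^ i)).trans (max_le hρ (vnum_z hp v hz i).le)
  rcases hle.lt_or_eq with hlt | heq
  · -- all other factors are units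
    have hoth : ∀ l, z ^ l ≠ z ^ i → v (ρ + z ^ l) = 1 := by
      intro l hl
      have e1 : ρ + z ^ l = (ρ + z ^ i) + (z ^ l - z ^ i) := by ring
      have e2 := vnum_ne hp v hz h1 hl
      rw [e1, Valuation.map_add_eq_of_lt_right v (by rw [e2]; exact hlt), e2]
    have hodd : Odd p := hp.odd_of_ne_two h2
    have hprod : ρ ^ p + 1 = ∏ l ∈ Finset.range p, (ρ + z ^ l) := by
      have e1 := hz.pow_add_pow_eq_prod_add_mul ρ 1 hodd
      rw [one_pow] at e1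
      rw [e1]
      refine (Finset.prod_bij (fun l _ => z ^ l) ?_ ?_ ?_ ?_).symm
      · intro l _
        rw [Polynomial.mem_nthRootsFinset hp.pos, ← pow_mul, mul_comm, pow_mul, hz.pow_eq_one,
          one_pow]
      · intro a ha b hb hab
        exact hz.pow_inj (Finset.mem_range.1 ha) (Finset.mem_range.1 hb) hab
      · intro x hx
        rw [Polynomial.mem_nthRootsFinset hp.pos] at hx
        haveI : NeZero p := ⟨hp.ne_zero⟩
        obtain ⟨l, hl, hlx⟩ := hz.eq_pow_of_pow_eq_one hx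
        exact ⟨l, Finset.mem_range.2 hl, hlx⟩
      · intro l _
        rw [mul_one]
    obtain ⟨i0, hi0, hi1⟩ : ∃ i0 < p, z ^ i0 = z ^ i := by
      refine ⟨i % p, Nat.mod_lt _ hp.pos, ?_⟩
      conv_rhs => rw [← Nat.div_add_mod i p, pow_add, pow_mul, hz.pow_eq_one, one_pow, one_mul]
    have hv : v (ρ ^ p + 1) = v (ρ + z ^ i) := by
      rw [hprod, map_prod, Finset.prod_eq_single i0, hi1]
      · intro l hl hne
        apply hoth
        intro h
        rw [← hi1] at h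
        exact hne (hz.pow_inj (Finset.mem_range.1 hl) hi0 h)
      · intro h
        exact absurd (Finset.mem_range.2 hi0) h
    obtain ⟨y, hy, hye⟩ := hPe
    have hne : v (ρ + z ^ i) ≠ 0 := by
      rw [Ne, Valuation.zero_iff]
      exact hi
    have hκ : κ ≠ 0 := by
      rintro rfl
      rw [he, zero_pow hp.ne_zero, mul_zero, map_zero] at hv
      exact hne hv.symm
    refine ⟨y * κ, mul_ne_zero hy hκ, ?_⟩
    rw [← hv, he, map_mul, hye, map_pow, map_mul, mul_pow]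
  · exact ⟨1, one_ne_zero, by rw [heq, map_one, one_pow]⟩

theorem vnum {p : ℕ} (hp : p.Prime) (h2 : p ≠ 2) {C : Type*} [Field C] {Γ : Type*}
    [LinearOrderedCommGroupWithZero Γ] (v : Valuation C Γ)
    {z : C} (hz : IsPrimitiveRoot z p) (h1 : ∀ i : ℕ, ¬ p ∣ i → v (z ^ i - 1) = 1)
    {ρ e κ : C} (he : ρ ^ p + 1 = e * κ ^ p) (hPe : ∃ y, y ≠ 0 ∧ v e = v y ^ p) (i j : ℕ)
    (hi : ρ + z ^ i ≠ 0) (hj : ρ + z ^ j ≠ 0) :
    ∃ y, y ≠ 0 ∧ v ((ρ + z ^ i) / (ρ + z ^ j)) = v y ^ p := by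
  by_cases hρ : v ρ ≤ 1
  · obtain ⟨y, hy, hy1⟩ := vnum_claim hp h2 v hz h1 he hPe i hi hρ
    obtain ⟨y', hy', hy1'⟩ := vnum_claim hp h2 v hz h1 he hPe j hj hρ
    exact ⟨y / y', div_ne_zero hy hy', by rw [map_div₀, hy1, hy1', map_div₀, div_pow]⟩
  · rw [not_le] at hρ
    have key : ∀ l, v (ρ + z ^ l) = v ρ := fun l =>
      Valuation.map_add_eq_of_lt_left v (by rw [vnum_z hp v hz]; exact hρ)
    refine ⟨1, one_ne_zero, ?_⟩
    have h0 : v ρ ≠ 0 := (lt_trans zero_lt_one hρ).ne'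
    rw [map_div₀, key, key, div_self h0, map_one, one_pow]

end Pool.Agent.Lib.MP_2f3286_ag.Fer
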