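import Pool.Agent.Lib.MP_2f3286_ag.Fer.LBas

/-!
# `p`-th powers in the completion at the prime above `p`   (module LFrob, 40 minutes)

PROOF of `frob`. By `h.resid` there is `n : ℕ` with `v (x - n) ≤ exp (-1)`. `x ^ p - x =
(x ^ p - n ^ p) + (n ^ p - n) + (n - x)`; the first term is `(x - n)` times a sum of products of
elements of valuation `≤ 1` (`sub_dvd_pow_sub_pow` in the ring `v.integer`, or `geom_sum₂_mul`), the
second is `Loc.frob_int`.

PROOF of `pow_int`. Write `x = n + π y`, `π = z - 1`, `v y ≤ 1` (`y = (x - n) / π`). `x ^ p - n ^ p =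
∑_{1 ≤ i ≤ p} binom (p, i) n ^ (p - i) (π y) ^ i` (`add_pow`); for `1 ≤ i < p` the binomial coefficient
is divisible by `p` (`Nat.Prime.dvd_choose_self`), so the term has valuation `≤ v p * v π = exp (1 - p -
1) = exp (-p)`, and the last one is `≤ v π ^ p = exp (-p)`. Take the integer `n ^ p`.
-/

open scoped WithZero

namespace Pool.Agent.Lib.MP_2f3286_ag.Fer

variable {p : ℕ} {C : Type*} [Field C] {v : Valuation C ℤᵐ⁰} {z : C}

theorem LFrob_choose (hp : p.Prime) (h : Loc p v z) {i : ℕ} (h1 : 1 ≤ i) (h2 : i < p) :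
    v ((p.choose i : ℕ) : C) ≤ WithZero.exp (1 - (p : ℤ)) := by
  obtain ⟨m, hm⟩ := hp.dvd_choose_self (Nat.one_le_iff_ne_zero.mp h1) h2
  rw [hm, Nat.cast_mul, map_mul, h.val_p]
  have h3 := int_le v (m : ℤ)
  rw [Int.cast_natCast] at h3
  exact mul_le_of_le_one_right' h3

theorem LFrob_nat (v : Valuation C ℤᵐ⁰) (n : ℕ) : v (n : C) ≤ 1 := by
  have h3 := int_le v (n : ℤ)
  rw [Int.cast_natCast] at h3
  exact h3

theorem Loc.frob (hp : p.Prime) (h : Loc p v z) {x : C} (hx : v x ≤ 1) :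
    v (x ^ p - x) ≤ WithZero.exp (-1 : ℤ) := by
  obtain ⟨n, hn⟩ := h.resid x hx
  have h1 : x ^ p - x = (∑ i ∈ Finset.range p, x ^ i * (n : C) ^ (p - 1 - i)) * (x - n)
      + (((n : ℤ) : C) ^ p - ((n : ℤ) : C)) - (x - n) := by
    rw [geom_sum₂_mul, Int.cast_natCast]
    ring
  rw [h1]
  refine v.map_sub_le (v.map_add_le ?_ (h.frob_int hp n)) hn
  rw [map_mul]
  have h2 : v (∑ i ∈ Finset.range p, x ^ i * (n : C) ^ (p - 1 - i)) ≤ 1 := by
    refine v.map_sum_le fun i _ => ?_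
    rw [map_mul, map_pow, map_pow]
    exact mul_le_one' (pow_le_one' hx _) (pow_le_one' (LFrob_nat v n) _)
  exact (mul_le_mul' h2 hn).trans (one_mul _).le

theorem Loc.pow_int (hp : p.Prime) (h : Loc p v z) {x : C} (hx : v x ≤ 1) :
    ∃ n : ℤ, v (x ^ p - n) ≤ WithZero.exp (-(p : ℤ)) := by
  obtain ⟨n, hn⟩ := h.resid x hx
  refine ⟨(n : ℤ) ^ p, ?_⟩
  obtain ⟨e, he⟩ : ∃ e, e = x - n := ⟨_, rfl⟩
  rw [← he] at hn
  have hx' : x = e + n := by rw [he]; ring
  have h1 : x ^ p - (((n : ℤ) ^ p : ℤ) : C)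
      = ∑ i ∈ Finset.range p, e ^ (i + 1) * (n : C) ^ (p - (i + 1)) * ((p.choose (i + 1) : ℕ) : C) := by
    rw [hx', add_pow, Finset.sum_range_succ']
    simp
  rw [h1]
  refine v.map_sum_le fun i hi => ?_
  have hi' := Finset.mem_range.mp hi
  rw [map_mul, map_mul, map_pow, map_pow]
  have h2 : v (n : C) ^ (p - (i + 1)) ≤ 1 := pow_le_one' (LFrob_nat v n) _
  have h3 : v e ^ (i + 1) ≤ WithZero.exp (-((i : ℤ) + 1)) := by
    refine (pow_le_pow_left₀ zero_le' hn (i + 1)).trans (le_of_eq ?_)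
    rw [← WithZero.exp_nsmul]
    congr 1
    simp
  rcases Nat.lt_or_ge (i + 1) p with hlt | hge
  · have h4 := LFrob_choose hp h (Nat.succ_le_succ (Nat.zero_le i)) hlt
    refine (mul_le_mul' (mul_le_mul' h3 h2) h4).trans ?_
    rw [mul_one, ← WithZero.exp_add, WithZero.exp_le_exp]
    omega
  · refine (mul_le_mul' (mul_le_mul' h3 h2) (LFrob_nat v _)).trans ?_
    rw [mul_one, mul_one, WithZero.exp_le_exp]
    omega

end Pool.Agent.Lib.MP_2f3286_ag.Fer
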