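import Pool.Agent.Lib.MP_2f3286_ag.Fer.LBas

/-!
# The expansion of a quotient of products of `ρ + z ^ j`   (module LPhi, 35 minutes)

PROOF. Put `m = z - 1`, `N = (ρ + z ^ 3) (ρ + z) ^ 3`, `D = (ρ + z ^ 2) ^ 3 (ρ + 1)`. By `ring`
(substitute `z = 1 + m`): `N - D = m ^ 3 ρ (ρ ^ 2 - 1) - m ^ 4 ρ (3 + 3 m + m ^ 2)`.
`v (ρ + z ^ 2) = v ((ρ + 1) + (z ^ 2 - 1)) = 1` since `v (z ^ 2 - 1) < 1` (`Loc.zpow_sub_one_le`), so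
`v D = 1`. `κ = ρ (ρ - 1) / (ρ + 1) ^ 3`. Then
`N / D - 1 - κ m ^ 3 = (m ^ 3 ρ (ρ ^ 2 - 1) ((ρ + 1) ^ 4 - D) / (D (ρ + 1) ^ 4)) -
m ^ 4 ρ (3 + 3 m + m ^ 2) / D`, and `(ρ + 1) ^ 4 - D = (ρ + 1) ((ρ + 1) ^ 3 - (ρ + z ^ 2) ^ 3)` has
valuation `≤ v (1 - z ^ 2) ≤ exp (-1)`. `v m = exp (-1)`, integers have valuation `≤ 1` (`int_le`).
-/

open scoped WithZero

namespace Pool.Agent.Lib.MP_2f3286_ag.Fer

variable {p : ℕ} {C : Type*} [Field C] {v : Valuation C ℤᵐ⁰} {z : C}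

theorem Loc.phi (h : Loc p v z) {ρ κ : C} (hρ : v ρ ≤ 1)
    (hρ1 : v (ρ + 1) = 1) (hκ : κ * (ρ + 1) ^ 3 = ρ * (ρ - 1)) :
    v ((ρ + z ^ 3) * (ρ + z) ^ 3 / ((ρ + z ^ 2) ^ 3 * (ρ + 1)) - 1 - κ * (z - 1) ^ 3) ≤
      WithZero.exp (-4 : ℤ) := by
  have h1 : v (ρ + z ^ 2) = 1 := by
    have h2 : v (z ^ 2 - 1) < v (ρ + 1) := by
      rw [hρ1, lt_one_iff]
      exact h.zpow_sub_one_le 2
    have h3 := v.map_add_eq_of_lt_right h2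
    rw [hρ1] at h3
    rw [← h3]
    congr 1
    ring
  have hD : v ((ρ + z ^ 2) ^ 3 * (ρ + 1)) = 1 := by
    rw [map_mul, map_pow, h1, hρ1, one_pow, mul_one]
  have hD0 : (ρ + z ^ 2) ^ 3 * (ρ + 1) ≠ 0 := by
    intro h0
    rw [h0, map_zero] at hD
    exact zero_ne_one hD
  have hκ1 : v κ ≤ 1 := by
    have h2 := congrArg v hκ
    rw [map_mul, map_pow, hρ1, one_pow, mul_one, map_mul] at h2
    rw [h2]
    exact mul_le_one' hρ (v.map_sub_le hρ (map_one v).le)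
  have h4 : (ρ + z ^ 3) * (ρ + z) ^ 3 / ((ρ + z ^ 2) ^ 3 * (ρ + 1)) - 1 - κ * (z - 1) ^ 3
      = (z - 1) ^ 3 * (κ * (ρ + 1) * ((1 - z ^ 2) * ((ρ + 1) ^ 2 + (ρ + 1) * (ρ + z ^ 2)
        + (ρ + z ^ 2) ^ 2)) - ρ * (z ^ 3 - 1)) / ((ρ + z ^ 2) ^ 3 * (ρ + 1)) := by
    rw [eq_div_iff hD0, sub_mul, sub_mul, div_mul_cancel₀ _ hD0]
    linear_combination (z - 1) ^ 3 * (ρ + 1) * (-1) * hκ
  have hz : ∀ j : ℕ, v (z ^ j) ≤ 1 := fun j => (h.val_z j).le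
  have hρ1' : v (ρ + 1) ≤ 1 := hρ1.le
  have hρ2' : v (ρ + z ^ 2) ≤ 1 := h1.le
  have hint : v ((ρ + 1) ^ 2 + (ρ + 1) * (ρ + z ^ 2) + (ρ + z ^ 2) ^ 2) ≤ 1 := by
    refine v.map_add_le (v.map_add_le ?_ ?_) ?_
    · rw [map_pow]
      exact pow_le_one' hρ1' 2
    · rw [map_mul]
      exact mul_le_one' hρ1' hρ2'
    · rw [map_pow]
      exact pow_le_one' hρ2' 2
  rw [h4, map_div₀, hD, div_one, map_mul, map_pow, h.val_pi]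
  have h5 : v (κ * (ρ + 1) * ((1 - z ^ 2) * ((ρ + 1) ^ 2 + (ρ + 1) * (ρ + z ^ 2)
        + (ρ + z ^ 2) ^ 2)) - ρ * (z ^ 3 - 1)) ≤ WithZero.exp (-1 : ℤ) := by
    refine v.map_sub_le ?_ ?_
    · rw [map_mul, map_mul, map_mul, Valuation.map_sub_swap]
      refine (mul_le_mul' (mul_le_one' hκ1 hρ1') (mul_le_mul' (h.zpow_sub_one_le 2) hint)).trans ?_
      rw [one_mul, mul_one]
    · rw [map_mul]
      refine (mul_le_mul' hρ (h.zpow_sub_one_le 3)).trans ?_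
      rw [one_mul]
  refine (mul_le_mul' le_rfl h5).trans ?_
  rw [← WithZero.exp_nsmul, ← WithZero.exp_add, WithZero.exp_le_exp]
  simp only [smul_neg, nsmul_eq_mul]
  norm_num

end Pool.Agent.Lib.MP_2f3286_ag.Fer
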