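import Pool.Agent.Lib.MP_2f3286_ag.Fer.FDef

/-!
# Elements with all valuations divisible by `p`   (module UCls, 50 minutes)

PROOF. Multiply `c` by `m ^ p`, `m` a nonzero integer, to have `c = a` in `𝓞 F`, `a ≠ 0`, all
`w.valuation F a` are `p`-th powers. The ideal `(a)` is `∏ w ^ (n_w)` with `p ∣ n_w`
(`Ideal.finprod_heightOneSpectrum_factorization` or `UniqueFactorizationMonoid`: normalized factors;
`w.valuation F a = exp (- n_w)` is `intValuation_if_neg`, and `exp (-n) = (exp m) ^ p` gives `n = - p m`), so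
`(a) = J ^ p` for an ideal `J ≠ 0`. In the class group `[J] ^ p = 1`, and `p` does not divide the order
`classNumber F` of the class group, so `[J] = 1` (`orderOf` divides `p` and the class number), so `J = (b)`
(`ClassGroup.mk0_eq_one_iff`), `(a) = (b ^ p)`, `a = u b ^ p` with a unit `u`
(`Ideal.span_singleton_eq_span_singleton`, associated).
-/

open IsDedekindDomain NumberField

namespace Pool.Agent.Lib.MP_2f3286_ag.Fer

/-- an ideal whose `p`-th power is principal is principal -/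
theorem ideal_class {p : ℕ} (hp : p.Prime) {F : Type*} [Field F] [NumberField F]
    (hh : ¬ p ∣ classNumber F) {J : Ideal (𝓞 F)} (hJ : J ≠ ⊥) {a : 𝓞 F}
    (h : J ^ p = Ideal.span {a}) : ∃ b : 𝓞 F, b ≠ 0 ∧ J = Ideal.span {b} := by
  have h1 : J.IsPrincipal := by
    apply Ideal.IsPrincipal.of_isPrincipal_pow_of_coprime (n := p)
    · exact (Nat.Prime.coprime_iff_not_dvd hp).2 hh
    · rw [h]
      exact ⟨⟨a, rfl⟩⟩
  obtain ⟨⟨b, hb⟩⟩ := h1
  refine ⟨b, ?_, hb⟩
  rintro rfl
  apply hJ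
  rw [hb, Submodule.span_zero_singleton]

private theorem ucls_pow {p : ℕ} (hp : p.Prime) {F : Type*} [Field F] [NumberField F]
    {a : 𝓞 F} (ha : a ≠ 0)
    (h : ∀ w : HeightOneSpectrum (𝓞 F), PV p w (a : F)) :
    ∃ J : Ideal (𝓞 F), J ≠ ⊥ ∧ J ^ p = Ideal.span {a} := by
  classical
  have ha' : Ideal.span {a} ≠ (0 : Ideal (𝓞 F)) := by
    rw [Ideal.zero_eq_bot, Ne, Ideal.span_singleton_eq_bot]
    exact ha
  have hdvd : ∀ w : HeightOneSpectrum (𝓞 F),
      p ∣ (Associates.mk w.asIdeal).count (Associates.mk (Ideal.span {a})).factors := by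
    intro w
    obtain ⟨z, hz, hw⟩ := h w
    have h1 : w.valuation F (a : F) = WithZero.exp
        (-((Associates.mk w.asIdeal).count (Associates.mk (Ideal.span {a})).factors : ℤ)) := by
      rw [← w.intValuation_if_neg ha]
      exact w.valuation_of_algebraMap a
    have h2 : w.valuation F z ≠ 0 := (Valuation.ne_zero_iff _).2 hz
    rw [h1, ← WithZero.exp_log h2, ← WithZero.exp_nsmul, WithZero.exp_inj] at hw
    have h3 : (p : ℤ) ∣
        ((Associates.mk w.asIdeal).count (Associates.mk (Ideal.span {a})).factors : ℤ) := by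
      refine ⟨-(w.valuation F z).log, ?_⟩
      rw [nsmul_eq_mul] at hw
      linarith
    exact_mod_cast h3
  choose n hn using hdvd
  have hfin : (fun w : HeightOneSpectrum (𝓞 F) => w.asIdeal ^ n w).HasFiniteMulSupport := by
    refine Set.Finite.subset (Ideal.hasFiniteMulSupport ha') ?_
    intro w hw hw'
    apply hw
    have h4 : (w.asIdeal ^ n w) ^ p = 1 := by
      rw [← pow_mul, mul_comm, ← hn w]
      exact hw'
    have h5 : IsUnit ((w.asIdeal ^ n w) ^ p) := by rw [h4]; exact isUnit_one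
    rw [isUnit_pow_iff hp.ne_zero, Ideal.isUnit_iff] at h5
    rw [Ideal.one_eq_top]
    exact h5
  have hJp : (∏ᶠ w : HeightOneSpectrum (𝓞 F), w.asIdeal ^ n w) ^ p = Ideal.span {a} := by
    rw [finprod_pow hfin]
    conv_rhs => rw [← Ideal.finprod_heightOneSpectrum_factorization ha']
    apply finprod_congr
    intro w
    rw [HeightOneSpectrum.maxPowDividing, hn w, ← pow_mul, mul_comm]
  refine ⟨_, ?_, hJp⟩
  intro h0
  rw [h0, ← Ideal.zero_eq_bot, zero_pow hp.ne_zero] at hJp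
  exact ha' hJp.symm

theorem unit_class {p : ℕ} (hp : p.Prime) {F : Type*} [Field F] [NumberField F]
    (hh : ¬ p ∣ classNumber F) {c : F} (hc : c ≠ 0)
    (h : ∀ w : HeightOneSpectrum (𝓞 F), PV p w c) :
    ∃ (u : (𝓞 F)ˣ) (d : F), d ≠ 0 ∧ c = ((u : 𝓞 F) : F) * d ^ p := by
  obtain ⟨⟨x, m⟩, hxm⟩ := IsLocalization.surj (nonZeroDivisors (𝓞 F)) c
  have hm : (m : 𝓞 F) ≠ 0 := nonZeroDivisors.ne_zero m.2
  have hm' : ((m : 𝓞 F) : F) ≠ 0 := by
    intro h0
    exact hm (RingOfIntegers.coe_injective (by simpa using h0))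
  have hxm' : c * ((m : 𝓞 F) : F) = (x : F) := hxm
  set a : 𝓞 F := x * (m : 𝓞 F) ^ (p - 1) with ha
  have hac : (a : F) = c * ((m : 𝓞 F) : F) ^ p := by
    rw [ha]
    refine (map_mul (algebraMap (𝓞 F) F) _ _).trans ?_
    rw [map_pow]
    change (x : F) * ((m : 𝓞 F) : F) ^ (p - 1) = _
    rw [← hxm', mul_assoc, ← pow_succ', Nat.sub_add_cancel hp.one_le]
  have ha0 : a ≠ 0 := by
    intro h0
    apply mul_ne_zero hc (pow_ne_zero p hm')
    rw [← hac, h0]
    exact map_zero (algebraMap (𝓞 F) F)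
  have hPV : ∀ w : HeightOneSpectrum (𝓞 F), PV p w (a : F) := by
    intro w
    obtain ⟨z, hz, hw⟩ := h w
    refine ⟨z * ((m : 𝓞 F) : F), mul_ne_zero hz hm', ?_⟩
    rw [hac, map_mul, map_pow, map_mul, mul_pow, hw]
  obtain ⟨J, hJ, hJp⟩ := ucls_pow hp ha0 hPV
  obtain ⟨b, hb, rfl⟩ := ideal_class hp hh hJ hJp
  rw [Ideal.span_singleton_pow, Ideal.span_singleton_eq_span_singleton] at hJp
  obtain ⟨u, hu⟩ := hJp
  have hu' : ((b : F)) ^ p * ((u : 𝓞 F) : F) = (a : F) := by
    rw [← hu]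
    exact ((map_mul (algebraMap (𝓞 F) F) _ _).trans (by rw [map_pow])).symm
  refine ⟨u, (b : F) / ((m : 𝓞 F) : F), ?_, ?_⟩
  · apply div_ne_zero _ hm'
    intro h0
    exact hb (RingOfIntegers.coe_injective (by simpa using h0))
  · rw [div_pow, ← mul_div_assoc, mul_comm (((u : 𝓞 F) : F)), hu', hac, mul_div_assoc,
      div_self (pow_ne_zero p hm'), mul_one]

end Pool.Agent.Lib.MP_2f3286_ag.Fer
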