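import Pool.Agent.Lib.MP_2f3286_ag.Fer.VLem
import Pool.Agent.Lib.MP_2f3286_ag.Fer.UCls
import Pool.Agent.Lib.MP_2f3286_ag.Fer.LFrob
import Pool.Agent.Lib.MP_2f3286_ag.Fer.LPhi

/-!
# The first case   (module CI, 70 minutes)

SETTING. `P = X.P`, `z` the image of `ζ = X.ζ` in the completion `F_P`, `v` its valuation. `r` is good with the value
`ρ` at `P`, `v ρ = 1`, `v (ρ + 1) = 1`. CLAIM: `v (ρ - 1) < 1`.
PROOF. `p = 3`: `X.loc.resid`: `v (ρ - n) < 1` with `n` a natural number, `n` is `0, 1, 2` modulo `3`, and not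
`0` or `2` since `v ρ = v (ρ + 1) = 1` (`Loc.int_lt`). `p ≥ 5`: by `vlem'` (three times)
`r + ζ ^ 3 = c₁ g₁ ^ p (r + ζ ^ 2)`, `r + ζ = c₂ g₂ ^ p (r + ζ ^ 2)`, `r + ζ = c₃ g₃ ^ p (r + 1)`
(`1 = ζ ^ 0`), so `(r + ζ ^ 3) (r + ζ) ^ 3 = c g ^ p (r + ζ ^ 2) ^ 3 (r + 1)` with `c = c₁ c₂ ^ 2 ... `:
indeed `(r + ζ ^ 3) (r + ζ) ^ 2 (r + ζ) = (c₁ g₁ ^ p) (c₂ g₂ ^ p) ^ 2 (c₃ g₃ ^ p) (r + ζ ^ 2) ^ 3 (r + 1)`. `c` has
all valuations outside `P` divisible by `p` (`PV.mul`). Values at `P`: all `ρ + z ^ j` are units (`v (z ^ j - 1) < 1`),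
so `φ = (ρ + z ^ 3) (ρ + z) ^ 3 / ((ρ + z ^ 2) ^ 3 (ρ + 1))` is a unit and the value of `c g ^ p`, `φ = c x ^ p`
(`Data.mul_pow_has`), so `v c = v (x⁻¹) ^ p`, so `PV p P c` (`pv_iff`). `unit_class`: `c = u d ^ p`, `u` a unit.
`φ = u (d x) ^ p`, `v (d x) = 1` (as `v u = 1`), so by `Loc.pow_int` there is an integer `b` with
`v ((d x) ^ p - b) ≤ exp (-p) ≤ exp (-4)`. Put `κ = ρ (ρ - 1) / (ρ + 1) ^ 3`, `v κ ≤ 1`, and `k : ℕ` with
`v (κ - k) ≤ exp (-1)` (`resid`). `Loc.phi`: `v (φ - 1 - κ (z - 1) ^ 3) ≤ exp (-4)`. So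
`v (u b - 1 - k (z - 1) ^ 3) ≤ exp (-4)`, and `X.cong` gives `p ∣ k`, so `v κ < 1`, `v (ρ - 1) = v κ < 1`.
-/

open IsDedekindDomain NumberField
open scoped WithZero

namespace Pool.Agent.Lib.MP_2f3286_ag.Fer

theorem ci_unit {F : Type*} [Field F] [NumberField F] (w : HeightOneSpectrum (𝓞 F)) (u : (𝓞 F)ˣ) :
    w.valuation F (((u : 𝓞 F) : F)) = 1 := by
  have h1 : w.valuation F (((u : 𝓞 F) : F)) ≤ 1 := w.valuation_le_one _
  have h2 : w.valuation F ((((u⁻¹ : (𝓞 F)ˣ) : 𝓞 F) : F)) ≤ 1 := w.valuation_le_one _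
  have h3 : (((u : 𝓞 F) : F)) * ((((u⁻¹ : (𝓞 F)ˣ) : 𝓞 F) : F)) = 1 := by
    have h4 : ((u : 𝓞 F)) * (((u⁻¹ : (𝓞 F)ˣ) : 𝓞 F)) = 1 := Units.mul_inv u
    have h5 := congrArg (algebraMap (𝓞 F) F) h4
    rw [map_mul, map_one] at h5
    exact h5
  have h4 : w.valuation F (((u : 𝓞 F) : F)) * w.valuation F ((((u⁻¹ : (𝓞 F)ˣ) : 𝓞 F) : F)) = 1 := by
    rw [← map_mul, h3, map_one]
  refine le_antisymm h1 ?_
  rw [← h4]
  exact mul_le_of_le_one_right' h2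

theorem ci_four {C : Type*} [Field C] {v : Valuation C ℤᵐ⁰} {p : ℕ} (hp : 5 ≤ p) {z φ κ U Y b k : C}
    (hφ : φ = U * Y) (hU : v U = 1) (hb : v (Y - b) ≤ WithZero.exp (-(p : ℤ)))
    (h4 : v (φ - 1 - κ * (z - 1) ^ 3) ≤ WithZero.exp (-4 : ℤ))
    (hk : v (κ - k) ≤ WithZero.exp (-1 : ℤ)) (hz : v (z - 1) = WithZero.exp (-1 : ℤ)) :
    v (U * b - 1 - k * (z - 1) ^ 3) ≤ WithZero.exp (-4 : ℤ) := by
  have e : U * b - 1 - k * (z - 1) ^ 3 =
      -(U * (Y - b)) + ((φ - 1 - κ * (z - 1) ^ 3) + (κ - k) * (z - 1) ^ 3) := by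
    rw [hφ]
    ring
  rw [e]
  refine v.map_add_le ?_ (v.map_add_le h4 ?_)
  · rw [Valuation.map_neg, map_mul, hU, one_mul]
    refine hb.trans ?_
    rw [WithZero.exp_le_exp]
    omega
  · rw [map_mul, map_pow, hz]
    refine (mul_le_mul_left hk _).trans (le_of_eq ?_)
    rw [← WithZero.exp_nsmul, ← WithZero.exp_add]
    norm_num

theorem Stp.first_case {p : ℕ} {F : Type*} [Field F] [NumberField F] (X : Stp p F) {L : Type*}
    [Field L] [Algebra F L] (D : Data p F L) {r : L} (hr : Good p X.P r)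
    {ρ : X.P.adicCompletion F} (hρ : (D.pl X.P).Has r ρ) (h1 : Valued.v ρ = (1 : ℤᵐ⁰))
    (h2 : Valued.v (ρ + 1) = (1 : ℤᵐ⁰)) : Valued.v (ρ - 1) < (1 : ℤᵐ⁰) := by
  have hp := X.hp
  set v : Valuation (X.P.adicCompletion F) ℤᵐ⁰ := Valued.v with hv
  set z : X.P.adicCompletion F := algebraMap F (X.P.adicCompletion F) X.ζ with hz
  have hl : Loc p v z := X.loc
  have hexp : WithZero.exp (-1 : ℤ) < (1 : ℤᵐ⁰) := lt_one_iff.2 le_rfl
  by_cases h5 : 5 ≤ p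
  swap
  · -- the case of the prime three
    have h3 : p = 3 := by
      have h4 := hp.two_le
      have h6 := X.h2
      have h7 : p ≠ 4 := by
        rintro rfl
        exact absurd hp (by norm_num)
      omega
    obtain ⟨n, hn⟩ := hl.resid ρ h1.le
    have hn1 : v (ρ - n) < 1 := hn.trans_lt hexp
    have key : ∀ m : ℤ, (p : ℤ) ∣ (n : ℤ) - m → v (ρ - m) < 1 := by
      intro m hm
      have h4 : v (((n : ℤ) - m : ℤ) : X.P.adicCompletion F) < 1 := (hl.int_lt hp _).2 hm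
      have h6 : ρ - m = (ρ - n) + (((n : ℤ) - m : ℤ) : X.P.adicCompletion F) := by
        push_cast
        ring
      rw [h6]
      exact v.map_add_lt hn1 h4
    have h4 : (p : ℤ) ∣ (n : ℤ) - 0 ∨ (p : ℤ) ∣ (n : ℤ) - 1 ∨ (p : ℤ) ∣ (n : ℤ) - (-1) := by
      rw [h3]
      omega
    rcases h4 with h4 | h4 | h4
    · have h6 := key 0 h4
      rw [Int.cast_zero, sub_zero, h1] at h6
      exact absurd h6 (lt_irrefl _)
    · have h6 := key 1 h4
      rwa [Int.cast_one] at h6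
    · have h6 := key (-1) h4
      rw [Int.cast_neg, Int.cast_one, sub_neg_eq_add, h2] at h6
      exact absurd h6 (lt_irrefl _)
  -- the case `5 ≤ p`
  have hne : ∀ i j : ℕ, i < p → j < p → i ≠ j → X.ζ ^ i ≠ X.ζ ^ j := fun i j hi hj hij h =>
    hij (X.hζ.pow_inj hi hj h)
  obtain ⟨c₁, hc₁, hv₁, g₁, hg₁, e₁⟩ := vlem' hp X.h2 X.hζ X.away D hr
    (hne 3 2 (by omega) (by omega) (by omega))
  obtain ⟨c₂, hc₂, hv₂, g₂, hg₂, e₂⟩ := vlem' hp X.h2 X.hζ X.away D hr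
    (hne 1 2 (by omega) (by omega) (by omega))
  obtain ⟨c₃, hc₃, hv₃, g₃, hg₃, e₃⟩ := vlem' hp X.h2 X.hζ X.away D hr
    (hne 1 0 (by omega) (by omega) (by omega))
  set c : F := c₁ * (c₂ * c₂) * c₃ with hc
  set g : L := g₁ * (g₂ * g₂) * g₃ with hg
  have hc0 : c ≠ 0 := mul_ne_zero (mul_ne_zero hc₁ (mul_ne_zero hc₂ hc₂)) hc₃
  have hcv : ∀ w : HeightOneSpectrum (𝓞 F), w ≠ X.P → PV p w c := fun w hw =>
    ((hv₁ w hw).mul ((hv₂ w hw).mul (hv₂ w hw))).mul (hv₃ w hw)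
  -- values at the prime above `p`
  have hzj : ∀ j : ℕ, (D.pl X.P).Has (r + algebraMap F L (X.ζ ^ j)) (ρ + z ^ j) := by
    intro j
    have h6 := hρ.add (D.base X.P (X.ζ ^ j))
    rw [map_pow (algebraMap F (X.P.adicCompletion F))] at h6
    exact h6
  have hvj : ∀ j : ℕ, v (ρ + z ^ j) = 1 := by
    intro j
    have h6 : ρ + z ^ j = (ρ + 1) + (z ^ j - 1) := by ring
    have h7 : v (z ^ j - 1) < v (ρ + 1) := by
      rw [h2]
      exact (hl.zpow_sub_one_le j).trans_lt hexp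
    rw [h6, Valuation.map_add_eq_of_lt_left v h7, h2]
  have hnej : ∀ j : ℕ, ρ + z ^ j ≠ 0 := by
    intro j h6
    have h7 := hvj j
    rw [h6, map_zero] at h7
    exact zero_ne_one h7
  have hrj : ∀ j : ℕ, r + algebraMap F L (X.ζ ^ j) ≠ 0 := fun j => (hzj j).ne_zero (hnej j)
  set R : ℕ → L := fun j => r + algebraMap F L (X.ζ ^ j) with hR
  have hE : R 3 * R 1 ^ 3 / (R 2 ^ 3 * R 0) = algebraMap F L c * g ^ p := by
    rw [div_eq_iff (mul_ne_zero (pow_ne_zero _ (hrj 2)) (hrj 0))]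
    have e₁' : R 3 = algebraMap F L c₁ * g₁ ^ p * R 2 := e₁
    have e₂' : R 1 = algebraMap F L c₂ * g₂ ^ p * R 2 := e₂
    have e₃' : R 1 = algebraMap F L c₃ * g₃ ^ p * R 0 := e₃
    calc R 3 * R 1 ^ 3 = R 3 * (R 1 * R 1) * R 1 := by ring
      _ = (algebraMap F L c₁ * g₁ ^ p * R 2) * ((algebraMap F L c₂ * g₂ ^ p * R 2) *
          (algebraMap F L c₂ * g₂ ^ p * R 2)) * (algebraMap F L c₃ * g₃ ^ p * R 0) := by
        rw [← e₁', ← e₂', ← e₃']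
      _ = algebraMap F L c * g ^ p * (R 2 ^ 3 * R 0) := by
        rw [hc, hg]
        simp only [map_mul, mul_pow]
        ring
  set φ : X.P.adicCompletion F := (ρ + z ^ 3) * (ρ + z) ^ 3 / ((ρ + z ^ 2) ^ 3 * (ρ + 1)) with hφ
  have hφ' : (D.pl X.P).Has (algebraMap F L c * g ^ p) φ := by
    rw [← hE]
    have h6 := ((hzj 3).mul ((hzj 1).pow 3)).div (((hzj 2).pow 3).mul (hzj 0))
      (mul_ne_zero (pow_ne_zero _ (hnej 2)) (hnej 0))
    rw [pow_one z, pow_zero z] at h6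
    exact h6
  have hvφ : v φ = 1 := by
    have h6 := hvj 1
    have h7 := hvj 0
    rw [pow_one] at h6
    rw [pow_zero] at h7
    rw [hφ, map_div₀, map_mul, map_mul, map_pow, map_pow, hvj 3, h6, hvj 2, h7]
    norm_num
  have hφ0 : φ ≠ 0 := by
    intro h6
    rw [h6, map_zero] at hvφ
    exact zero_ne_one hvφ
  obtain ⟨x, hx0, -, hx⟩ := D.mul_pow_has X.P hc0 hp.ne_zero hφ0 hφ'
  have hPc : PV p X.P c := by
    rw [pv_iff hp.ne_zero]
    refine ⟨x⁻¹, inv_ne_zero hx0, ?_⟩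
    have h6 : v (algebraMap F (X.P.adicCompletion F) c) * v x ^ p = 1 := by
      rw [← map_pow, ← map_mul, ← hx, hvφ]
    have h7 : v x ^ p ≠ 0 := by
      intro h8
      rw [h8, mul_zero] at h6
      exact zero_ne_one h6
    rw [map_inv₀, inv_pow]
    exact eq_inv_of_mul_eq_one_left h6
  obtain ⟨u, d, hd, hud⟩ := unit_class hp X.cls hc0 fun w => by
    by_cases hw : w = X.P
    · rw [hw]
      exact hPc
    · exact hcv w hw
  set U : X.P.adicCompletion F := algebraMap F _ ((u : 𝓞 F) : F) with hU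
  have hvU : v U = 1 := by
    rw [hU, hv, val_alg', ci_unit]
  set y : X.P.adicCompletion F := algebraMap F _ d * x with hy
  have hφy : φ = U * y ^ p := by
    rw [hx, hud, map_mul, map_pow, hy, mul_pow, mul_assoc]
  have hvy : v y ≤ 1 := by
    by_contra h6
    have h7 : 1 < v y ^ p := one_lt_pow₀ (not_le.1 h6) hp.ne_zero
    have h8 : v φ = v y ^ p := by
      rw [hφy, map_mul, hvU, one_mul, map_pow]
    rw [← h8, hvφ] at h7
    exact lt_irrefl _ h7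
  obtain ⟨b, hb⟩ := hl.pow_int hp hvy
  set κ : X.P.adicCompletion F := ρ * (ρ - 1) / (ρ + 1) ^ 3 with hκ
  have hρ1 : ρ + 1 ≠ 0 := by
    have h6 := hnej 0
    rwa [pow_zero] at h6
  have hκ' : κ * (ρ + 1) ^ 3 = ρ * (ρ - 1) := by
    rw [hκ, div_mul_cancel₀ _ (pow_ne_zero 3 hρ1)]
  have hvκ : v κ = v (ρ - 1) := by
    rw [hκ, map_div₀, map_mul, map_pow, h1, h2, one_mul, one_pow, div_one]
  have hv1 : v (ρ - 1) ≤ 1 := by
    refine (v.map_sub _ _).trans ?_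
    rw [h1, map_one, max_self]
  obtain ⟨k, hk⟩ := hl.resid κ (hvκ.le.trans hv1)
  have hphi := hl.phi h1.le h2 hκ'
  have hfin := ci_four h5 hφy hvU hb hphi hk hl.val_pi
  have hcast : U * (b : X.P.adicCompletion F) - 1 - (k : X.P.adicCompletion F) * (z - 1) ^ 3 =
      algebraMap F (X.P.adicCompletion F)
        (((u : 𝓞 F) : F) * b - 1 - ((k : ℤ) : F) * (X.ζ - 1) ^ 3) := by
    simp only [map_sub, map_mul, map_one, map_pow, map_intCast, Int.cast_natCast, map_natCast]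
    rfl
  rw [hcast, hv, val_alg'] at hfin
  have hpk := X.cong h5 u b k hfin
  have hvk : v (k : X.P.adicCompletion F) < 1 := by
    have h6 := (hl.int_lt hp (k : ℤ)).2 hpk
    rwa [Int.cast_natCast] at h6
  rw [← hvκ]
  have h6 : κ = (κ - k) + k := by ring
  rw [h6]
  exact v.map_add_lt (hk.trans_lt hexp) hvk

end Pool.Agent.Lib.MP_2f3286_ag.Fer
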