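import Pool.Agent.Lib.MP_2f3286_ag.Fer.FDef
import Pool.Agent.Lib.MP_2f3286_ag.Local

/-!
# Composite places   (module CPl, 50 minutes)

A place `Q : L → F_w` and the residue map of the valuation ring of `F_w` give a place with values in the residue field of
`F_w`, which is finite.
PROOF. `R = w.adicCompletionIntegers F`, a valuation subring of `F_w` with `Valued.v x ≤ 1 ↔ x ∈ R`
(`mem_adicCompletionIntegers`), `E = IsLocalRing.ResidueField R`, finite: there is an instance or theorem in Mathlib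
(search `Finite (IsLocalRing.ResidueField`, `adicCompletionIntegers`; or use density: the map
`𝓞 F ⧸ w → E` is surjective; the library file Koe/Dec.lean, theorem `adic_res`, gives a finite set of representatives of the
residue classes, which is enough for finiteness).
The valuation ring of the composite: `{x | ∃ h : x ∈ Q.A, Q.φ ⟨x, h⟩ ∈ R}` (a `ValuationSubring`: for `x` in `L`, if `x ∉ Q.A`
then `x⁻¹ ∈ Q.A` has the value `0`; if `x ∈ Q.A` with value `y ≠ 0`, `y ∈ R` or `y⁻¹ ∈ R`), the residue map the composition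
(`RingHom.codRestrict`, `IsLocalRing.residue R`). An element of `R` with nonzero residue has valuation one.
-/

open IsDedekindDomain NumberField
open scoped WithZero

namespace Pool.Agent.Lib.MP_2f3286_ag.Fer

/-- the valuation ring of the composite place -/
private def CPl_A {L K : Type*} [Field L] [Field K] (Q : Plc L K) (R : ValuationSubring K) :
    ValuationSubring L where
  carrier := {x | ∃ y : K, y ∈ R ∧ Q.Has x y}
  mul_mem' := by
    rintro a b ⟨y, hy, h⟩ ⟨y', hy', h'⟩
    exact ⟨y * y', mul_mem hy hy', h.mul h'⟩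
  one_mem' := ⟨1, one_mem _, Plc.has_one⟩
  add_mem' := by
    rintro a b ⟨y, hy, h⟩ ⟨y', hy', h'⟩
    exact ⟨y + y', add_mem hy hy', h.add h'⟩
  zero_mem' := ⟨0, zero_mem _, Plc.has_zero⟩
  neg_mem' := by
    rintro a ⟨y, hy, h⟩
    exact ⟨-y, neg_mem hy, h.neg⟩
  mem_or_inv_mem' := by
    intro x
    rcases Q.has_or_inv x with ⟨y, h⟩ | ⟨_, h⟩
    · by_cases hy : y ∈ R
      · exact Or.inl ⟨y, hy, h⟩
      · refine Or.inr ⟨y⁻¹, (R.mem_or_inv_mem y).resolve_left hy, h.inv ?_⟩
        rintro rfl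
        exact hy (zero_mem _)
    · exact Or.inr ⟨0, zero_mem _, h⟩

private theorem CPl_mem {L K : Type*} [Field L] [Field K] (Q : Plc L K) (R : ValuationSubring K)
    (x : CPl_A Q R) : (x : L) ∈ Q.A := by
  obtain ⟨y, _, h, _⟩ := x.2
  exact h

private theorem CPl_mem' {L K : Type*} [Field L] [Field K] (Q : Plc L K) (R : ValuationSubring K)
    (x : CPl_A Q R) : Q.φ ⟨(x : L), CPl_mem Q R x⟩ ∈ R := by
  obtain ⟨y, hy, h, h'⟩ := x.2
  rw [h']
  exact hy

/-- the residue map, with values in `R` -/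
private def CPl_f {L K : Type*} [Field L] [Field K] (Q : Plc L K) (R : ValuationSubring K) :
    CPl_A Q R →+* R where
  toFun x := ⟨Q.φ ⟨(x : L), CPl_mem Q R x⟩, CPl_mem' Q R x⟩
  map_one' := Subtype.ext (map_one Q.φ)
  map_mul' x x' := Subtype.ext (map_mul Q.φ ⟨(x : L), CPl_mem Q R x⟩ ⟨(x' : L), CPl_mem Q R x'⟩)
  map_zero' := Subtype.ext (map_zero Q.φ)
  map_add' x x' := Subtype.ext (map_add Q.φ ⟨(x : L), CPl_mem Q R x⟩ ⟨(x' : L), CPl_mem Q R x'⟩)

private theorem CPl_f_has {L K : Type*} [Field L] [Field K] (Q : Plc L K) (R : ValuationSubring K)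
    (x : CPl_A Q R) : Q.Has (x : L) (CPl_f Q R x : K) := ⟨CPl_mem Q R x, rfl⟩

/-- the composite place -/
private theorem CPl_gen {L K : Type*} [Field L] [Field K] (Q : Plc L K) (R : ValuationSubring K) :
    ∃ Q' : Plc L (IsLocalRing.ResidueField R),
      (∀ (x : L) (y : R), Q.Has x (y : K) → Q'.Has x (IsLocalRing.residue R y)) ∧
      ∀ (x : L) (e : IsLocalRing.ResidueField R), Q'.Has x e →
        ∃ y : R, Q.Has x (y : K) ∧ IsLocalRing.residue R y = e := by
  refine ⟨⟨CPl_A Q R, (IsLocalRing.residue R).comp (CPl_f Q R), ?_⟩, ?_, ?_⟩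
  · intro x hx
    have h1 : IsUnit (CPl_f Q R x) := by
      rw [← IsLocalRing.residue_ne_zero_iff_isUnit]
      exact hx
    obtain ⟨u, hu⟩ := h1
    have h2 : (((u⁻¹ : Rˣ) : R) : K) * ((CPl_f Q R x : R) : K) = 1 := by
      rw [← hu]
      exact congrArg (Subtype.val) u.inv_mul
    have h3 : (((u⁻¹ : Rˣ) : R) : K) = ((CPl_f Q R x : R) : K)⁻¹ := eq_inv_of_mul_eq_one_left h2
    refine ⟨((CPl_f Q R x : R) : K)⁻¹, ?_, (CPl_f_has Q R x).inv ?_⟩
    · rw [← h3]
      exact (((u⁻¹ : Rˣ) : R)).2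
    · intro h4
      rw [h4, mul_zero] at h2
      exact zero_ne_one h2
  · intro x y hxy
    refine ⟨⟨y, y.2, hxy⟩, ?_⟩
    show IsLocalRing.residue R (CPl_f Q R ⟨x, ⟨y, y.2, hxy⟩⟩) = IsLocalRing.residue R y
    congr 1
    apply Subtype.ext
    exact (CPl_f_has Q R ⟨x, ⟨y, y.2, hxy⟩⟩).unique hxy
  · rintro x e ⟨hx, rfl⟩
    exact ⟨CPl_f Q R ⟨x, hx⟩, CPl_f_has Q R ⟨x, hx⟩, rfl⟩

private theorem CPl_zero {F : Type*} [Field F] [NumberField F] (w : HeightOneSpectrum (𝓞 F))
    (x : w.adicCompletionIntegers F) :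
    IsLocalRing.residue (w.adicCompletionIntegers F) x = 0 ↔
      Valued.v (x : w.adicCompletion F) < (1 : ℤᵐ⁰) := by
  rw [IsLocalRing.residue_eq_zero_iff, IsLocalRing.mem_maximalIdeal, mem_nonunits_iff,
    HeightOneSpectrum.adicCompletionIntegers.isUnit_iff_valued_eq_one]
  have h : Valued.v (x : w.adicCompletion F) ≤ (1 : ℤᵐ⁰) :=
    (HeightOneSpectrum.mem_adicCompletionIntegers (𝓞 F) F w).1 x.2
  exact ⟨fun h' => lt_of_le_of_ne h h', fun h' => h'.ne⟩

private theorem CPl_fin {F : Type*} [Field F] [NumberField F] (w : HeightOneSpectrum (𝓞 F)) :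
    Finite (IsLocalRing.ResidueField (w.adicCompletionIntegers F)) := by
  have hfin : Finite (𝓞 F ⧸ w.asIdeal) := w.asIdeal.finiteQuotientOfFreeOfNeBot w.ne_bot
  have hval : ∀ a : 𝓞 F, (((algebraMap (𝓞 F) (w.adicCompletionIntegers F) a :
      w.adicCompletionIntegers F)) : w.adicCompletion F) =
      algebraMap F (w.adicCompletion F) (algebraMap (𝓞 F) F a) := fun a => rfl
  have h0 : ∀ a ∈ w.asIdeal, ((IsLocalRing.residue (w.adicCompletionIntegers F)).comp
      (algebraMap (𝓞 F) (w.adicCompletionIntegers F))) a = 0 := by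
    intro a ha
    rw [RingHom.comp_apply, CPl_zero, hval, val_alg]
    exact (HeightOneSpectrum.valuation_lt_one_iff_mem w a).2 ha
  refine Finite.of_surjective (Ideal.Quotient.lift w.asIdeal _ h0) ?_
  intro e
  obtain ⟨x, rfl⟩ := IsLocalRing.residue_surjective e
  have hx : Valued.v (x : w.adicCompletion F) ≤ (1 : ℤᵐ⁰) :=
    (HeightOneSpectrum.mem_adicCompletionIntegers (𝓞 F) F w).1 x.2
  obtain ⟨y, hy⟩ := exists_approx w (x : w.adicCompletion F) 1
  have hlt : WithZero.exp (-((1 : ℕ) : ℤ)) < (1 : ℤᵐ⁰) := by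
    rw [← WithZero.exp_zero]
    exact WithZero.exp_lt_exp.mpr (by norm_num)
  have hy1 : w.valuation F y ≤ 1 := by
    rw [← val_alg]
    have e : algebraMap F (w.adicCompletion F) y =
        (x : w.adicCompletion F) - ((x : w.adicCompletion F) - algebraMap F (w.adicCompletion F) y) := by
      ring
    rw [e]
    exact (Valued.v.map_sub _ _).trans (max_le hx (hy.trans hlt.le))
  obtain ⟨a, ha⟩ := HeightOneSpectrum.exists_valuation_sub_lt_of_integer w hy1 1
  simp only [Units.val_one] at ha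
  refine ⟨Ideal.Quotient.mk _ a, ?_⟩
  rw [Ideal.Quotient.lift_mk, RingHom.comp_apply, ← sub_eq_zero, ← map_sub, CPl_zero]
  have e : ((algebraMap (𝓞 F) (w.adicCompletionIntegers F) a - x :
      w.adicCompletionIntegers F) : w.adicCompletion F) =
      algebraMap F (w.adicCompletion F) (algebraMap (𝓞 F) F a - y) -
      ((x : w.adicCompletion F) - algebraMap F (w.adicCompletion F) y) := by
    rw [map_sub, AddSubgroupClass.coe_sub, hval]
    ring
  rw [e]
  refine lt_of_le_of_lt (Valued.v.map_sub _ _) (max_lt ?_ (lt_of_le_of_lt hy hlt))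
  rw [val_alg]
  exact ha

theorem exists_comp.{u, v} {F : Type u} [Field F] [NumberField F] (w : HeightOneSpectrum (𝓞 F))
    {L : Type v} [Field L] (Q : Plc L (w.adicCompletion F)) :
    ∃ (E : Type u) (_ : Field E) (_ : Finite E) (Q' : Plc L E)
      (res : w.adicCompletionIntegers F →+* E),
      (∀ x : w.adicCompletionIntegers F, res x = 0 ↔
        Valued.v (x : w.adicCompletion F) < (1 : ℤᵐ⁰)) ∧
      (∀ (x : L) (y : w.adicCompletionIntegers F), Q.Has x (y : w.adicCompletion F) →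
        Q'.Has x (res y)) ∧
      ∀ (x : L) (e : E), Q'.Has x e → ∃ y : w.adicCompletionIntegers F,
        Q.Has x (y : w.adicCompletion F) ∧ res y = e := by
  obtain ⟨Q', h1, h2⟩ := CPl_gen Q (w.adicCompletionIntegers F)
  exact ⟨IsLocalRing.ResidueField (w.adicCompletionIntegers F), inferInstance, CPl_fin w, Q',
    IsLocalRing.residue (w.adicCompletionIntegers F), CPl_zero w, h1, h2⟩

end Pool.Agent.Lib.MP_2f3286_ag.Fer
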