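import Pool.Agent.Lib.MP_2f3286_ag.Fer.IdxC

/-!
# The unit count   (module Cnt, 70 minutes)

`E` a finitely generated abelian group with an automorphism `σ` of order dividing `p`,
`θ = σ - 1`, `E₀ = ker θ` the fixed elements, `N e = ∑ i < p, σ ^ i e`. Suppose
`rank E = p s - 1`, `rank E₀ = s - 1`, `E₀` has exactly `p` elements killed by `p`, and every `e` with
`N e = 0` is `θ f`. This is impossible.
PROOF. `M = range θ`. (1) `N (θ e) = 0` (telescoping and `σ ^ p = 1`), so with `h90`, `M = ker N`.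
(2) rank: `E / E₀ ≃ M`, so `finrank M = finrank E - finrank E₀ = (p - 1) s`
(`LinearMap.finrank_range_add_finrank_ker` over `ℤ` for `θ.toIntLinearMap`; or
`Submodule.finrank_quotient_add_finrank`).
(3) `idx_cyc` for `M` (an `AddSubgroup`, stable under `σ`, the restriction of `σ`): `[M : θ M] = p ^ s card (ker
θ|M)`, and `ker θ|M = {e | σ e = e, p e = 0}`: if `e` is in `M` and fixed then `0 = N e = p e`; conversely if
`σ e = e` and `p e = 0` then `N e = 0`, `e` in `M`. So `[M : θ M] = p ^ (s + 1)`.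
(4) `[M : θ M] = [E : E₀ ⊔ M]`: the map `θ : E → M` is surjective and the preimage of `θ M = θ (range θ)` is
`range θ ⊔ ker θ` (`AddSubgroup.comap_map_eq`, `AddSubgroup.index_comap_of_surjective`).
(5) `N` maps `E` to `E₀`; if `N e = p f` with `f` in `E₀`, then `N f = p f`, `N (e - f) = 0`,
`e - f` in `M`. So `E₀ ⊔ M` is the preimage of `p E₀` under `N : E → E₀`, and
`[E : E₀ ⊔ M] = [p E₀ ⊔ ... ] ≤ [E₀ : p E₀]` (`AddSubgroup.index_comap`: relative index in the range,
which is at most the index, finite by `idx_p`).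
(6) `[E₀ : p E₀] = p ^ (s - 1) p = p ^ s` by `idx_p` for `E₀` (finitely generated as a subgroup, `ℤ` noetherian).
So `p ^ (s + 1) ≤ p ^ s`, contradiction.
-/

open Finset

namespace Pool.Agent.Lib.MP_2f3286_ag.Fer

section aux

variable {E : Type*} [AddCommGroup E]

private def cntR (θ : E →+ E) : LinearMap.range θ.toIntLinearMap ≃+ θ.range where
  toFun x := ⟨x.1, x.2⟩
  invFun x := ⟨x.1, x.2⟩
  left_inv _ := rfl
  right_inv _ := rfl
  map_add' _ _ := rfl

private def cntK (θ : E →+ E) : LinearMap.ker θ.toIntLinearMap ≃+ θ.ker where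
  toFun x := ⟨x.1, x.2⟩
  invFun x := ⟨x.1, x.2⟩
  left_inv _ := rfl
  right_inv _ := rfl
  map_add' _ _ := rfl

private theorem cnt_rank [Module.Finite ℤ E] (θ : E →+ E) :
    Module.finrank ℤ θ.range + Module.finrank ℤ θ.ker = Module.finrank ℤ E := by
  have h1 := Submodule.finrank_quotient_add_finrank (LinearMap.ker θ.toIntLinearMap)
  have h2 := (θ.toIntLinearMap.quotKerEquivRange).finrank_eq
  have h3 := (cntR θ).toIntLinearEquiv.finrank_eq
  have h4 := (cntK θ).toIntLinearEquiv.finrank_eq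
  omega

private theorem cnt_finR [Module.Finite ℤ E] (θ : E →+ E) : Module.Finite ℤ θ.range :=
  Module.Finite.equiv (cntR θ).toIntLinearEquiv

private theorem cnt_finK [Module.Finite ℤ E] (θ : E →+ E) : Module.Finite ℤ θ.ker :=
  Module.Finite.equiv (cntK θ).toIntLinearEquiv

/-- the norm -/
private def cntN (p : ℕ) (σ : E →+ E) : E →+ E where
  toFun e := ∑ i ∈ range p, (σ^[i]) e
  map_zero' := Finset.sum_eq_zero fun i _ => iterate_map_zero σ i
  map_add' a b := by
    rw [← Finset.sum_add_distrib]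
    exact Finset.sum_congr rfl fun i _ => iterate_map_add σ i a b

private theorem cntN_theta {p : ℕ} {σ : E →+ E} (hσ : ∀ e, (σ^[p]) e = e) (e : E) :
    cntN p σ (σ e - e) = 0 := by
  change ∑ i ∈ range p, (σ^[i]) (σ e - e) = 0
  have h1 : ∀ i, (σ^[i]) (σ e - e) = (σ^[i + 1]) e - (σ^[i]) e := by
    intro i
    rw [iterate_map_sub, ← Function.iterate_succ_apply]
  rw [Finset.sum_congr rfl fun i _ => h1 i, Finset.sum_range_sub (fun i => (σ^[i]) e), hσ]
  exact sub_self e

private theorem cntN_fix {p : ℕ} {σ : E →+ E} {e : E} (he : σ e = e) :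
    cntN p σ e = p • e := by
  change ∑ i ∈ range p, (σ^[i]) e = p • e
  rw [Finset.sum_congr rfl fun i _ => Function.iterate_fixed he i, Finset.sum_const,
    Finset.card_range]

private theorem sig_cntN {p : ℕ} {σ : E →+ E} (hσ : ∀ e, (σ^[p]) e = e) (e : E) :
    σ (cntN p σ e) = cntN p σ e := by
  have h1 := cntN_theta hσ e
  rw [map_sub, sub_eq_zero] at h1
  rw [← h1]
  change σ (∑ i ∈ range p, (σ^[i]) (σ e)) = ∑ i ∈ range p, (σ^[i]) (σ e)
  have h2 : σ (∑ i ∈ range p, (σ^[i]) e) = ∑ i ∈ range p, (σ^[i]) (σ e) := by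
    rw [map_sum]
    refine Finset.sum_congr rfl fun i _ => ?_
    rw [← Function.iterate_succ_apply' (⇑σ) i e, Function.iterate_succ_apply]
  have h3 : ∑ i ∈ range p, (σ^[i]) (σ e) = ∑ i ∈ range p, (σ^[i]) e := h1
  rw [h3, h2, h3]

end aux

theorem count {E : Type*} [AddCommGroup E] [Module.Finite ℤ E] {p : ℕ} (hp : p.Prime)
    (σ : E →+ E) (hσ : ∀ e, (σ^[p]) e = e) (s : ℕ)
    (hE : Module.finrank ℤ E + 1 = p * s)
    (h0 : Module.finrank ℤ (σ - AddMonoidHom.id E).ker + 1 = s)
    (ht : Nat.card {e : E // σ e = e ∧ p • e = 0} = p)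
    (h90 : ∀ e, ∑ i ∈ range p, (σ^[i]) e = 0 → ∃ f, σ f - f = e) : False := by
  set θ : E →+ E := σ - AddMonoidHom.id E with hθ
  have hθe : ∀ e, θ e = σ e - e := fun e => rfl
  have hfix : ∀ e, e ∈ θ.ker ↔ σ e = e := by
    intro e
    rw [AddMonoidHom.mem_ker, hθe, sub_eq_zero]
  have hM1 : ∀ m ∈ θ.range, cntN p σ m = 0 := by
    rintro _ ⟨e, rfl⟩
    exact cntN_theta hσ e
  have hM2 : ∀ e, cntN p σ e = 0 → e ∈ θ.range := by
    intro e he
    obtain ⟨f, hf⟩ := h90 e he
    exact ⟨f, hf⟩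
  have hstab : ∀ m ∈ θ.range, σ m ∈ θ.range := by
    rintro _ ⟨e, rfl⟩
    refine ⟨σ e, ?_⟩
    rw [hθe, hθe, map_sub]
  -- the restriction of `σ`
  set σM : θ.range →+ θ.range := AddMonoidHom.codRestrict (σ.comp θ.range.subtype) θ.range
    (fun x => hstab _ x.2) with hσM
  have hcoe : ∀ x : θ.range, ((σM x : θ.range) : E) = σ x := fun x => rfl
  have hiter : ∀ (i : ℕ) (x : θ.range), (((σM^[i]) x : θ.range) : E) = (σ^[i]) x := by
    intro i
    induction i with
    | zero => intro x; rfl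
    | succ i ih =>
      intro x
      rw [Function.iterate_succ_apply, Function.iterate_succ_apply, ih, hcoe]
  have hNM : ∀ m : θ.range, ∑ i ∈ range p, (σM^[i]) m = 0 := by
    intro m
    apply Subtype.ext
    rw [AddSubgroup.val_finsetSum, ZeroMemClass.coe_zero, ← hM1 m m.2]
    exact Finset.sum_congr rfl fun i _ => hiter i m
  have hrank := cnt_rank θ
  have hs : 1 ≤ s := by omega
  have hfM : Module.finrank ℤ θ.range = (p - 1) * s := by
    rw [Nat.sub_mul, one_mul]
    omega
  have := cnt_finR θ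
  have := cnt_finK θ
  have hidx := idx_cyc hp σM hNM s hfM
  have hp0 : p ≠ 0 := hp.ne_zero
  have hkerM : Nat.card (σM - AddMonoidHom.id θ.range).ker = p := by
    rw [← ht]
    refine Nat.card_congr ⟨fun x => ⟨((x : θ.range) : E), ?_⟩, fun x => ⟨⟨(x : E), ?_⟩, ?_⟩, ?_, ?_⟩
    · have h1 : σM (x : θ.range) - (x : θ.range) = 0 := x.2
      have h2 : σ ((x : θ.range) : E) = ((x : θ.range) : E) := by
        have h3 := congrArg (fun y : θ.range => (y : E)) h1
        have h4 : σ ((x : θ.range) : E) - ((x : θ.range) : E) = 0 := h3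
        exact sub_eq_zero.mp h4
      refine ⟨h2, ?_⟩
      rw [← cntN_fix h2]
      exact hM1 _ (x : θ.range).2
    · refine hM2 _ ?_
      rw [cntN_fix x.2.1]
      exact x.2.2
    · have h1 : σM (⟨(x : E), hM2 _ ((cntN_fix x.2.1).trans x.2.2)⟩ : θ.range) -
          ⟨(x : E), hM2 _ ((cntN_fix x.2.1).trans x.2.2)⟩ = 0 := by
        apply Subtype.ext
        change σ (x : E) - (x : E) = 0
        rw [x.2.1, sub_self]
      exact h1
    · intro x
      rfl
    · intro x
      rfl
  rw [hkerM, ← pow_succ] at hidx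
  -- the index in `E`
  have hcomap : (σM - AddMonoidHom.id θ.range).range.comap θ.rangeRestrict = θ.ker ⊔ θ.range := by
    ext e
    rw [AddSubgroup.mem_comap, AddSubgroup.mem_sup]
    constructor
    · rintro ⟨m, hm⟩
      refine ⟨e - m, ?_, m, m.2, sub_add_cancel _ _⟩
      have h1 := congrArg (fun y : θ.range => (y : E)) hm
      have h2 : σ (m : E) - (m : E) = θ e := h1
      rw [AddMonoidHom.mem_ker, map_sub, ← h2, hθe, sub_self]
    · rintro ⟨y, hy, z, hz, rfl⟩
      refine ⟨⟨z, hz⟩, ?_⟩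
      apply Subtype.ext
      change σ z - z = θ (y + z)
      rw [map_add, AddMonoidHom.mem_ker.mp hy, zero_add, hθe]
  have hidx2 : (θ.ker ⊔ θ.range).index = p ^ (s + 1) := by
    rw [← hcomap, AddSubgroup.index_comap_of_surjective _ θ.rangeRestrict_surjective, hidx]
  -- the norm into the fixed elements
  set N0 : E →+ θ.ker := AddMonoidHom.codRestrict (cntN p σ) θ.ker
    (fun e => (hfix _).mpr (sig_cntN hσ e)) with hN0
  have hle : (nsmulAddMonoidHom p : θ.ker →+ θ.ker).range.comap N0 ≤ θ.ker ⊔ θ.range := by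
    intro e he
    obtain ⟨f, hf⟩ := AddSubgroup.mem_comap.mp he
    have h1 : p • (f : E) = cntN p σ e := congrArg (fun y : θ.ker => (y : E)) hf
    have h2 : σ (f : E) = f := (hfix _).mp f.2
    have h3 : cntN p σ (e - f) = 0 := by
      rw [map_sub, cntN_fix h2, h1, sub_self]
    exact AddSubgroup.mem_sup.mpr ⟨f, f.2, e - f, hM2 _ h3, add_sub_cancel _ _⟩
  obtain ⟨i1, i2, i3⟩ := idx_p (M := θ.ker) hp0
  have hker0 : Nat.card (nsmulAddMonoidHom p : θ.ker →+ θ.ker).ker = p := by
    have h5 : Nat.card (nsmulAddMonoidHom p : θ.ker →+ θ.ker).ker =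
        Nat.card {e : E // σ e = e ∧ p • e = 0} := by
      refine Nat.card_congr ⟨fun x => ⟨((x : θ.ker) : E), ?_⟩,
        fun x => ⟨⟨(x : E), (hfix _).mpr x.2.1⟩, ?_⟩, ?_, ?_⟩
      · refine ⟨(hfix _).mp (x : θ.ker).2, ?_⟩
        have h1 : p • (x : θ.ker) = 0 := x.2
        exact congrArg (fun y : θ.ker => (y : E)) h1
      · have h1 : p • (⟨(x : E), (hfix _).mpr x.2.1⟩ : θ.ker) = 0 := Subtype.ext x.2.2
        exact h1
      · intro x
        rfl
      · intro x
        rfl
    rw [h5, ht]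
  rw [hker0, ← pow_succ, h0] at i3
  have hdvd : p ^ (s + 1) ∣ p ^ s := by
    rw [← hidx2, ← i3]
    refine (AddSubgroup.index_dvd_of_le hle).trans ?_
    rw [AddSubgroup.index_comap]
    exact AddSubgroup.relIndex_dvd_index_of_normal _ _
  exact absurd (Nat.le_of_dvd (pow_pos hp.pos s) hdvd)
    (not_le.mpr (Nat.pow_lt_pow_right hp.one_lt (Nat.lt_succ_self s)))

end Pool.Agent.Lib.MP_2f3286_ag.Fer
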