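import Pool.Agent.Lib.MP_2f3286_ag.Koe.Defs
import Pool.Agent.Lib.MP_2f3286_ag.Kummer
import Pool.Agent.Lib.MP_2f3286_ag.Aux2

/-!
# Fixed elements with a root in `M`

The proof of `Koe.kum` works in every algebraic extension `M` of `K` which contains a root of `x`.
-/

open IntermediateField

namespace Pool.Agent.Lib.MP_2f3286_ag.Fer

variable {k kb : Type*} [Field k] [Field kb] [Algebra k kb] [IsGalois k kb] [IsAlgClosed kb]
  {K M : Type*} [Field K] [Field M] [Algebra K M] [Algebra kb M] [Algebra.IsAlgebraic K M]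

theorem kum_root (s : Gal(kb/k) →* Gal(M/K)) (hs : Continuous s)
    (hsec : ∀ σ a, s σ (algebraMap kb M a) = algebraMap kb M (σ a))
    {x T : M} (hx : ∀ σ, s σ x = x) (hx0 : x ≠ 0) {n : ℕ} (hn : 1 ≤ n) (hT : T ^ n = x) :
    ∃ a : k, a ≠ 0 ∧ ∃ y : M, (∀ σ, s σ y = y) ∧ y ≠ 0 ∧
      x = algebraMap kb M (algebraMap k kb a) * y ^ n := by
  have hT0 : T ≠ 0 := by
    rintro rfl
    rw [zero_pow (by omega)] at hT
    exact hx0 hT.symm
  have h1 : ∀ τ : Gal(kb/k), ∃ c : kbˣ, s τ T = algebraMap kb M c * T ∧ c ^ n = 1 := by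
    intro τ
    have h2 : (s τ T / T) ^ n = 1 := by
      rw [div_pow, ← map_pow, hT, hx τ, div_self hx0]
    obtain ⟨c, hc⟩ := root_of_unity_mem kb M (by omega) h2
    have hc1 : c ^ n = 1 := by
      apply (algebraMap kb M).injective
      rw [map_pow, hc, h2, map_one]
    have hc0 : c ≠ 0 := by
      rintro rfl
      rw [zero_pow (by omega)] at hc1
      exact zero_ne_one hc1
    refine ⟨Units.mk0 c hc0, ?_, ?_⟩
    · rw [Units.val_mk0, hc, div_mul_cancel₀ _ hT0]
    · ext; simpa using hc1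
  choose c hc hc' using h1
  have hcoc : ∀ σ τ : Gal(kb/k), (c (σ * τ) : kb) = c σ * σ (c τ) := by
    intro σ τ
    apply (algebraMap kb M).injective
    apply mul_right_cancel₀ hT0
    rw [← hc, map_mul (s : Gal(kb/k) →* Gal(M/K)), AlgEquiv.mul_apply, hc τ, map_mul (s σ),
      hsec, hc σ, map_mul]
    ring
  have hopen : {σ : Gal(kb/k) | c σ = 1} ∈ nhds 1 := by
    have hTalg : IsIntegral K T := Algebra.IsIntegral.isIntegral T
    have hfin : FiniteDimensional K K⟮T⟯ := adjoin.finiteDimensional hTalg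
    have ho := IntermediateField.fixingSubgroup_isOpen (K⟮T⟯ : IntermediateField K M)
    have hmem : ((K⟮T⟯ : IntermediateField K M).fixingSubgroup : Set Gal(M/K)) ∈ nhds (s 1) := by
      rw [map_one]
      exact ho.mem_nhds (one_mem _)
    have h5 := hs.continuousAt hmem
    refine Filter.mem_of_superset h5 fun τ hτ => ?_
    have h7 : s τ ∈ (K⟮T⟯ : IntermediateField K M).fixingSubgroup := hτ
    have h3 : s τ T = T := by
      rw [IntermediateField.mem_fixingSubgroup_iff] at h7
      exact h7 T (IntermediateField.mem_adjoin_simple_self _ _)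
    change c τ = 1
    ext
    apply (algebraMap kb M).injective
    apply mul_right_cancel₀ hT0
    rw [← hc, h3, Units.val_one, map_one, one_mul]
  obtain ⟨z, hz⟩ := hilbert90 k kb c hcoc hopen
  have hz0 : (z : kb) ≠ 0 := z.ne_zero
  have hz0' : algebraMap kb M (z : kb) ≠ 0 := by
    rw [Ne, map_eq_zero]; exact hz0
  have h8 : ∀ σ : Gal(kb/k), σ ((z : kb) ^ n) = (z : kb) ^ n := by
    intro σ
    rw [map_pow, ← hz, mul_pow, ← Units.val_pow_eq_pow_val, hc', Units.val_one, one_mul]
  obtain ⟨a, ha⟩ := (InfiniteGalois.mem_range_algebraMap_iff_fixed ((z : kb) ^ n)).2 h8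
  refine ⟨a, ?_, T / algebraMap kb M z, ?_, div_ne_zero hT0 hz0', ?_⟩
  · rintro rfl
    rw [map_zero] at ha
    exact pow_ne_zero n hz0 ha.symm
  · intro σ
    have h10 : (c σ : kb) ≠ 0 := (c σ).ne_zero
    have h10' : algebraMap kb M (c σ : kb) ≠ 0 := by
      rw [Ne, map_eq_zero]; exact h10
    rw [map_div₀, hc, hsec, ← hz, map_mul]
    field_simp
  · rw [ha, div_pow, hT, map_pow, mul_div_cancel₀]
    exact pow_ne_zero n hz0'

end Pool.Agent.Lib.MP_2f3286_ag.Fer
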