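import Pool.Agent.Lib.MP_2f3286_ag.Fer.FDef
import Pool.Agent.Lib.MP_2f3286_ag.PD.Loc
import Pool.Agent.Lib.MP_2f3286_ag.Koe.Kum
import Pool.Agent.Lib.MP_2f3286_ag.Fer.Rt
import Pool.Agent.Lib.MP_2f3286_bir.Place

/-!
# The data given by a section   (module TR, 70 minutes)

`s` a section over the number field `F`, `L` a field whose image in `Ω` is the field of elements fixed by all `s σ`;
`(A w, φ w)` local places of `s` at all finite places `w`.
PROOF. `(D.pl w).A` is `(A w).comap (algebraMap L Ω)`; for `x` in it, `algebraMap L Ω x` is fixed, so its value is in `F_w`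
(`PD.fixed_value`, with `E = F_w`, `Eb` its algebraic closure): the residue map is `x ↦` the unique `y` in `F_w` with
`φ w x = algebraMap y` (`Classical.choose`, additivity etc. by injectivity of `algebraMap F_w (AlgebraicClosure F_w)`; or
`RingHom.codRestrict` to the range of this map and the inverse of the isomorphism onto the range). `ker`: `IsPlaceOf` part 2.
`base`: `PD.const_value`. `kum`: `Koe.kum` for `U = ⊤` (closed), `n = p`: `x = a y ^ p` with `a` in the closure fixed by all
automorphisms, so `a` in `F` (`InfiniteGalois.mem_bot_iff_fixed`, as in `Koe.value_rational`), and `y` fixed by all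
`s σ`, so from `L` (`hfix`). `Koe.fixk`, `Koe.fixO`: file Koe/Defs.lean.
The last statement is by definition (for `x` in `L` with `algebraMap x ∈ A w` with value `algebraMap y`).
-/

open IsDedekindDomain NumberField

namespace Pool.Agent.Lib.MP_2f3286_ag.Fer

/-- The data given by a section of `Gal(M/K)`, where `M` contains the `p`-th roots of its elements
whose valuations at the places of `𝒱` are divisible by `p`. -/
theorem exists_data_gen {p : ℕ} (hp : p ≠ 0) {F : Type*} [Field F] [NumberField F] {K : Type*}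
    [Field K] {M : Type*} [Field M] [Algebra K M] [Algebra.IsAlgebraic K M]
    [Algebra (AlgebraicClosure F) M] [Algebra F M] [IsScalarTower F (AlgebraicClosure F) M]
    (𝒱 : Set (ValuationSubring M)) (h𝒱 : ∀ V ∈ 𝒱, ∀ a : F, algebraMap F M a ∈ V)
    (hrad : ∀ ρ : M, ρ ≠ 0 → (∀ V ∈ 𝒱, ∃ y : M, y ≠ 0 ∧ V.valuation ρ = V.valuation y ^ p) →
      ∃ β : M, β ^ p = ρ)
    (s : Gal(AlgebraicClosure F/F) →* Gal(M/K)) (hs : Continuous s)
    (hsec : ∀ σ a, s σ (algebraMap (AlgebraicClosure F) M a) =
      algebraMap (AlgebraicClosure F) M (σ a))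
    {L : Type*} [Field L] [Algebra F L] [Algebra L M] [IsScalarTower F L M]
    (hL : ∀ (x : L) σ, s σ (algebraMap L M x) = algebraMap L M x)
    (hfix : ∀ x : M, (∀ σ, s σ x = x) → ∃ y : L, algebraMap L M y = x)
    (ι : ∀ w : HeightOneSpectrum (𝓞 F),
      AlgebraicClosure F →ₐ[F] AlgebraicClosure (w.adicCompletion F))
    (A : HeightOneSpectrum (𝓞 F) → ValuationSubring M)
    (φ : ∀ w : HeightOneSpectrum (𝓞 F), A w →+* AlgebraicClosure (w.adicCompletion F))
    (hφ : ∀ w, MP_2f3286_bir.IsPlaceOf s (w.adicCompletion F)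
      (ι w : _ →+* AlgebraicClosure (w.adicCompletion F)) (A w) (φ w)) :
    ∃ D : Data p F L, ∀ (w : HeightOneSpectrum (𝓞 F)) (x : L) (y : w.adicCompletion F),
      (D.pl w).Has x y ↔ ∃ h : algebraMap L M x ∈ A w, φ w ⟨_, h⟩ = algebraMap _ _ y := by
  classical
  have hchar : ∀ v : HeightOneSpectrum (𝓞 F), CharZero (v.adicCompletion F) := fun v =>
    charZero_of_injective_algebraMap (algebraMap F (v.adicCompletion F)).injective
  have hval : ∀ (w : HeightOneSpectrum (𝓞 F)) (x : L) (h : algebraMap L M x ∈ A w),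
      ∃ y : w.adicCompletion F, φ w ⟨_, h⟩ = algebraMap _ _ y :=
    fun w x h => PD.fixed_value (hφ w) (fun σ => hL x σ) h
  have hinj : ∀ w : HeightOneSpectrum (𝓞 F), Function.Injective
      (algebraMap (w.adicCompletion F) (AlgebraicClosure (w.adicCompletion F))) :=
    fun w => (algebraMap (w.adicCompletion F) (AlgebraicClosure (w.adicCompletion F))).injective
  let g : ∀ w : HeightOneSpectrum (𝓞 F), (A w).comap (algebraMap L M) →+*
      AlgebraicClosure (w.adicCompletion F) := fun w =>
    (φ w).comp (((algebraMap L M).comp ((A w).comap (algebraMap L M)).subtype).codRestrict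
      (A w).toSubring (fun x => x.2))
  have hg : ∀ (w : HeightOneSpectrum (𝓞 F)) (x : (A w).comap (algebraMap L M)),
      ∃ y : w.adicCompletion F, g w x = algebraMap _ _ y := fun w x => hval w x x.2
  let pl : ∀ w : HeightOneSpectrum (𝓞 F), Plc L (w.adicCompletion F) := fun w =>
    { A := (A w).comap (algebraMap L M)
      φ :=
        { toFun := fun x => (hg w x).choose
          map_one' := hinj w ((hg w 1).choose_spec.symm.trans (by rw [map_one, map_one]))
          map_mul' := fun x y => hinj w ((hg w (x * y)).choose_spec.symm.trans (by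
            rw [map_mul, map_mul, ← (hg w x).choose_spec, ← (hg w y).choose_spec]))
          map_zero' := hinj w ((hg w 0).choose_spec.symm.trans (by rw [map_zero, map_zero]))
          map_add' := fun x y => hinj w ((hg w (x + y)).choose_spec.symm.trans (by
            rw [map_add, map_add, ← (hg w x).choose_spec, ← (hg w y).choose_spec])) }
      ker := fun x hx => by
        have h1 : φ w ⟨algebraMap L M x, x.2⟩ ≠ 0 := by
          intro h0
          apply hx
          apply hinj w
          refine (hg w x).choose_spec.symm.trans ?_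
          rw [map_zero]
          exact h0
        have h2 := (hφ w).2.1 _ h1
        rw [ValuationSubring.mem_comap, map_inv₀]
        exact h2 }
  have hHas : ∀ (w : HeightOneSpectrum (𝓞 F)) (x : L) (y : w.adicCompletion F),
      (pl w).Has x y ↔ ∃ h : algebraMap L M x ∈ A w, φ w ⟨_, h⟩ = algebraMap _ _ y := by
    intro w x y
    constructor
    · rintro ⟨h, rfl⟩
      exact ⟨h, (hg w ⟨x, h⟩).choose_spec⟩
    · rintro ⟨h, h'⟩
      refine ⟨h, ?_⟩
      apply hinj w
      rw [← h']
      exact (hg w ⟨x, h⟩).choose_spec.symm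
  refine ⟨⟨pl, fun w a => ?_, {V | ∃ V' ∈ 𝒱, V = V'.comap (algebraMap L M)}, ?_, fun x hx hV => ?_⟩,
    hHas⟩
  · rw [hHas]
    obtain ⟨h1, h2⟩ := PD.const_value (hφ w) a
    have h3 : algebraMap L M (algebraMap F L a) = algebraMap F M a :=
      (IsScalarTower.algebraMap_apply F L M a).symm
    refine ⟨h3 ▸ h1, ?_⟩
    rw [← h2]
    congr 1
    exact Subtype.ext h3
  · rintro V ⟨V', hV', rfl⟩ a
    rw [ValuationSubring.mem_comap, ← IsScalarTower.algebraMap_apply]
    exact h𝒱 V' hV' a
  · have hx0 : algebraMap L M x ≠ 0 := fun h => hx ((algebraMap L M).injective (by rw [h, map_zero]))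
    obtain ⟨β, hβ⟩ := hrad (algebraMap L M x) hx0 (fun V hV' => by
      obtain ⟨y, hy, hxy⟩ := hV _ ⟨V, hV', rfl⟩
      refine ⟨algebraMap L M y, by rwa [Ne, map_eq_zero], ?_⟩
      -- the quotient is a unit
      have hyp : y ^ p ≠ 0 := pow_ne_zero _ hy
      have h0 : (V.comap (algebraMap L M)).valuation (x / y ^ p) = 1 := by
        rw [map_div₀, map_pow, hxy, div_self]
        exact pow_ne_zero _ (by rwa [Ne, Valuation.zero_iff])
      have h0' : (V.comap (algebraMap L M)).valuation ((x / y ^ p)⁻¹) = 1 := by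
        rw [map_inv₀, h0, inv_one]
      have h1' : x / y ^ p ∈ V.comap (algebraMap L M) :=
        (ValuationSubring.valuation_le_one_iff _ _).1 h0.le
      have h1 : algebraMap L M (x / y ^ p) ∈ V := h1'
      have h2' : (x / y ^ p)⁻¹ ∈ V.comap (algebraMap L M) :=
        (ValuationSubring.valuation_le_one_iff _ _).1 h0'.le
      have h2 : algebraMap L M ((x / y ^ p)⁻¹) ∈ V := h2'
      have h3 : V.valuation (algebraMap L M (x / y ^ p)) = 1 := by
        have e1 := (V.valuation_le_one_iff _).2 h1
        have e2 := (V.valuation_le_one_iff _).2 h2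
        rw [map_inv₀, map_inv₀] at e2
        have e3 : V.valuation (algebraMap L M (x / y ^ p)) ≠ 0 := by
          rw [Ne, Valuation.zero_iff, map_eq_zero]
          exact div_ne_zero hx hyp
        exact le_antisymm e1 ((inv_le_one₀ (zero_lt_iff.2 e3)).1 e2)
      have h4 : V.valuation (algebraMap L M (y ^ p)) ≠ 0 := by
        rw [Ne, Valuation.zero_iff, map_eq_zero]
        exact hyp
      rw [map_div₀, map_div₀, div_eq_one_iff_eq h4, map_pow, map_pow] at h3
      exact h3)
    have : IsAlgClosure F (AlgebraicClosure F) := inferInstance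
    have hgal : IsGalois F (AlgebraicClosure F) := inferInstance
    obtain ⟨c, hc, y, hy, -, hxy⟩ := kum_root s hs hsec (fun σ => hL x σ) hx0
      (Nat.one_le_iff_ne_zero.2 hp) hβ
    obtain ⟨g, hg⟩ := hfix y hy
    refine ⟨c, hc, g, ?_⟩
    apply (algebraMap L M).injective
    rw [map_mul, map_pow, hg, hxy, ← IsScalarTower.algebraMap_apply F L M,
      ← IsScalarTower.algebraMap_apply F (AlgebraicClosure F) M]

theorem exists_data {p : ℕ} (hp : p ≠ 0) {F : Type*} [Field F] [NumberField F] {K : Type*}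
    [Field K] {Ω : Type*} [Field Ω] [Algebra K Ω] [Algebra.IsAlgebraic K Ω] [IsAlgClosed Ω]
    [Algebra (AlgebraicClosure F) Ω] [Algebra F Ω] [IsScalarTower F (AlgebraicClosure F) Ω]
    (s : Gal(AlgebraicClosure F/F) →* Gal(Ω/K)) (hs : Continuous s)
    (hsec : ∀ σ a, s σ (algebraMap (AlgebraicClosure F) Ω a) =
      algebraMap (AlgebraicClosure F) Ω (σ a))
    {L : Type*} [Field L] [Algebra F L] [Algebra L Ω] [IsScalarTower F L Ω]
    (hL : ∀ (x : L) σ, s σ (algebraMap L Ω x) = algebraMap L Ω x)
    (hfix : ∀ x : Ω, (∀ σ, s σ x = x) → ∃ y : L, algebraMap L Ω y = x)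
    (ι : ∀ w : HeightOneSpectrum (𝓞 F),
      AlgebraicClosure F →ₐ[F] AlgebraicClosure (w.adicCompletion F))
    (A : HeightOneSpectrum (𝓞 F) → ValuationSubring Ω)
    (φ : ∀ w : HeightOneSpectrum (𝓞 F), A w →+* AlgebraicClosure (w.adicCompletion F))
    (hφ : ∀ w, MP_2f3286_bir.IsPlaceOf s (w.adicCompletion F)
      (ι w : _ →+* AlgebraicClosure (w.adicCompletion F)) (A w) (φ w)) :
    ∃ D : Data p F L, ∀ (w : HeightOneSpectrum (𝓞 F)) (x : L) (y : w.adicCompletion F),
      (D.pl w).Has x y ↔ ∃ h : algebraMap L Ω x ∈ A w, φ w ⟨_, h⟩ = algebraMap _ _ y := by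
  refine exists_data_gen hp (∅ : Set (ValuationSubring Ω)) (fun V hV => absurd hV (Set.notMem_empty V))
    (fun ρ _ _ => ?_) s hs hsec hL hfix ι A φ hφ
  exact IsAlgClosed.exists_pow_nat_eq ρ (Nat.pos_of_ne_zero hp)

end Pool.Agent.Lib.MP_2f3286_ag.Fer
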