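import Pool.Agent.Lib.MP_2f3286_ag.Fer.PG
import Pool.Agent.Lib.MP_2f3286_ag.Fer.CPl
import Pool.Agent.Lib.MP_2f3286_ag.Fer.Away

/-!
# The value of the orbit avoids the roots of `T ^ p + 1` away from `P`   (module UN, 50 minutes)

PROOF. `pl = D.pl w`, `z` the image of `ζ = X.ζ` in `F_w`, `w ≠ P` so `p ∉ w`. `exists_comp` for `pl`: `E`, `Q'`, `res`. `ζ` (in `L`)
has the value `z` at `pl` (`D.base`), `z` in the integers, `z₀ = res z`, `z₀ ^ p = 1`. `z₀ ^ 2 ≠ 1`: `v (z ^ 2 - 1) = 1` (`away_unit'`,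
`p ∤ 2`). `no_cusp` gives `y₀` with `Q'.Has (a 0) y₀` and `y₀ ^ p = -1 → y₀ = -1`. So `a 0` has a value `x` at `pl`, `v x ≤ 1`,
`res x = y₀`. Let `p ∤ j` and suppose `v (x + z ^ j) < 1` : `y₀ = - z₀ ^ j`, `y₀ ^ p = -1` (`p` odd), so `y₀ = -1`,
`z₀ ^ j = 1`, but `v (z ^ j - 1) = 1` by `away_unit'`: contradiction. `v (x + z ^ j) ≤ 1` since `v x ≤ 1`, so it is one.
-/

open IsDedekindDomain NumberField
open scoped WithZero

namespace Pool.Agent.Lib.MP_2f3286_ag.Fer

theorem Stp.away_value {p : ℕ} {F : Type*} [Field F] [NumberField F] (X : Stp p F) {L : Type*}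
    [Field L] [Algebra F L] (D : Data p F L) (a : ℕ → L)
    (h : ∀ n, a n * (a (n + 1) ^ p - algebraMap F L X.ζ) =
      1 - algebraMap F L X.ζ * a (n + 1) ^ p)
    (w : HeightOneSpectrum (𝓞 F)) (hw : w ≠ X.P) :
    ∃ x : w.adicCompletion F, (D.pl w).Has (a 0) x ∧ Valued.v x = (1 : ℤᵐ⁰) ∧
      ∀ j : ℕ, ¬ p ∣ j →
        Valued.v (x + algebraMap F (w.adicCompletion F) X.ζ ^ j) = (1 : ℤᵐ⁰) := by
  have hpodd : Odd p := X.hp.odd_of_ne_two X.h2
  have hpw := X.away w hw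
  obtain ⟨E, hE, hfin, Q', res, hres, hto, hfrom⟩ := exists_comp w (D.pl w)
  set z : w.adicCompletion F := algebraMap F (w.adicCompletion F) X.ζ with hzdef
  have hzp : z ^ p = 1 := by
    rw [hzdef, ← map_pow, X.hζ.pow_eq_one, map_one]
  have hvz : Valued.v z = (1 : ℤᵐ⁰) := by
    rw [hzdef, val_alg']
    have := zeta_unit X.hp X.hζ w 1
    rwa [pow_one] at this
  have hzmem : z ∈ w.adicCompletionIntegers F := by
    rw [HeightOneSpectrum.mem_adicCompletionIntegers]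
    exact hvz.le
  set zz : w.adicCompletionIntegers F := ⟨z, hzmem⟩ with hzz
  have hζ' : Q'.Has (algebraMap F L X.ζ) (res zz) := hto _ zz (D.base w X.ζ)
  have hz0 : res zz ^ p = 1 := by
    rw [← map_pow]
    have : zz ^ p = 1 := by
      apply Subtype.ext
      rw [hzz]
      push_cast
      exact hzp
    rw [this, map_one]
  have hunit : ∀ j : ℕ, ¬ p ∣ j → res zz ^ j ≠ 1 := by
    intro j hj h1
    have h2 : res (zz ^ j - 1) = 0 := by
      rw [map_sub, map_pow, map_one, h1, sub_self]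
    rw [hres] at h2
    have h3 : ((zz ^ j - 1 : w.adicCompletionIntegers F) : w.adicCompletion F) = z ^ j - 1 := by
      rw [hzz]; push_cast; rfl
    rw [h3, hzdef, away_unit' X.hp X.hζ w hpw hj] at h2
    exact lt_irrefl _ h2
  have hp2 : ¬ p ∣ 2 := by
    intro hd
    have h3 := Nat.le_of_dvd (by norm_num) hd
    have h4 := X.hp.two_le
    exact X.h2 (by omega)
  obtain ⟨y0, hy0, hy00, hy1⟩ := no_cusp hpodd Q' hζ' hz0 (hunit 2 hp2) a h
  obtain ⟨x, hx, hxy⟩ := hfrom _ _ hy0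
  have hvx : Valued.v (x : w.adicCompletion F) ≤ (1 : ℤᵐ⁰) := x.2
  have hvx1 : Valued.v (x : w.adicCompletion F) = (1 : ℤᵐ⁰) := by
    refine le_antisymm hvx ?_
    by_contra hlt
    rw [not_le, ← hres, hxy] at hlt
    exact hy00 hlt
  refine ⟨x, hx, hvx1, fun j hj => ?_⟩
  have hle : Valued.v ((x : w.adicCompletion F) + z ^ j) ≤ (1 : ℤᵐ⁰) := by
    refine (Valuation.map_add _ _ _).trans ?_
    rw [map_pow, hvz, one_pow]
    exact max_le hvx le_rfl
  refine le_antisymm hle ?_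
  by_contra hlt
  rw [not_le] at hlt
  have h5 : res (x + zz ^ j) = 0 := by
    rw [hres]
    have h6 : ((x + zz ^ j : w.adicCompletionIntegers F) : w.adicCompletion F) = x + z ^ j := by
      rw [hzz]; push_cast; rfl
    rw [h6]
    exact hlt
  rw [map_add, map_pow, hxy] at h5
  have h7 : y0 = -(res zz ^ j) := eq_neg_of_add_eq_zero_left h5
  have h8 : y0 ^ p = -1 := by
    rw [h7, hpodd.neg_pow, ← pow_mul, mul_comm, pow_mul, hz0, one_pow]
  have h9 := hy1 h8
  rw [h7] at h9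
  exact hunit j hj (neg_injective h9)

end Pool.Agent.Lib.MP_2f3286_ag.Fer
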