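import Pool.Agent.Lib.MP_2f3286_ag.Fer.SE
import Pool.Agent.Lib.MP_2f3286_ag.Fer.NV
import Pool.Agent.Lib.MP_2f3286_ag.Fer.UN
import Pool.Agent.Lib.MP_2f3286_ag.Fer.TR
import Pool.Agent.Lib.MP_2f3286_ag.GU.Geo
import Pool.Agent.Lib.MP_2f3286_ag.Koe.LocalPlace

/-!
# The theorem over the cyclotomic field   (module FT, 90 minutes)

PROOF of `const_of_algebraic`. `c` in `K` algebraic over `F`: its image in `Ω` is the image of some `a` in the algebraic closure of `F`
(`root_mem` as in Koe/Kum.lean `kum_inj`, or `IsAlgClosed` splitting of the minimal polynomial); `s σ` fixes it (it is in `K`), so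
`σ a = a` for all `σ` by `hsec` and injectivity, so `a` in `F`.

PROOF of `geo_F`. (1) For all `v` choose an embedding `ι v` (`IsAlgClosed.lift`) and the local place `(A v, φ v)`
(`Koe.local_place`). `exists_data` with `L = K` gives `D`. (2) `y` and `y / x` are not constant: if `y = c`, `x ^ p = 1 - c ^ p`
is constant so `x` is algebraic over `F`, so constant (`const_of_algebraic`); if `y / x = c`, `x ^ p (1 + c ^ p) = 1`, the same.
(3) `X.select`: `r`; `X.value`: `j`, `t = ζ ^ j r` good with the value `-1` at `P`; `X.orbit`: `a`, `a 0 = t`; `X.away_value`: the values of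
`t` at `w ≠ P`. `t` is not constant (`Good`). (4) `GU.bir_of_enough` for `k = F`, `S = ∅`, `J = Fin (p - 1)`,
`P j = Polynomial.X + C (ζ ^ (j + 1))`, `T = {X.P}`, `N = 1`, with `x v` the value of `t` at `v`: at `w ≠ P` and for all `j`,
`Valued.v (x + z ^ (j + 1)) = 1` (`away_value`, `p ∤ j + 1`), at `P` the value is `-1 + z ^ (j + 1) ≠ 0`
(`Loc.zpow_sub_one`). `hE`: `GU.enough_of_points` with `GU.EnoughPoints` by its first alternative: `L = F`, its `F` is `ℚ`,
`S₀ = ∅`, `n = p - 1`, `Q = P` (coprime since the `ζ ^ (j + 1)` are different: `Polynomial.isCoprime_...`,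
`X + C a`, `X + C b` with `a ≠ b`), `Fintype.card (InfinitePlace ℚ) = 1` and `hdeg`.
(5) The place `(A₀, ψ₀)`: `A P = A₀` and `φ P t = ι (ψ₀ t)`, so `ι (ψ₀ t) = -1`, `ψ₀ t = -1`. `r ^ p = t ^ p`
(`ζ ^ p = 1`), `r` is in `A₀` as `r ^ p` is (valuation ring, integrally closed; or `r = ζ ^ (- j) t`), value of `r ^ p` is `(-1) ^ p = -1`.
-/

open IsDedekindDomain NumberField Polynomial
open scoped WithZero
open Pool.Agent.Lib.MP_2f3286_bir (IsPlaceOf)

namespace Pool.Agent.Lib.MP_2f3286_ag.Fer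

theorem const_of_algebraic {F : Type*} [Field F] [NumberField F] {K : Type*} [Field K]
    [Algebra F K] {Ω : Type*} [Field Ω] [Algebra K Ω]
    [Algebra (AlgebraicClosure F) Ω] [Algebra F Ω]
    [IsScalarTower F K Ω] [IsScalarTower F (AlgebraicClosure F) Ω]
    (s : Gal(AlgebraicClosure F/F) →* Gal(Ω/K))
    (hsec : ∀ σ a, s σ (algebraMap (AlgebraicClosure F) Ω a) =
      algebraMap (AlgebraicClosure F) Ω (σ a)) {c : K} (hc : IsAlgebraic F c) :
    ∃ a : F, c = algebraMap F K a := by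
  obtain ⟨q, hq0, hq⟩ := hc
  obtain ⟨b, -, hb⟩ := root_mem (algebraMap (AlgebraicClosure F) Ω)
    (p := q.map (algebraMap F (AlgebraicClosure F)))
    ((Polynomial.map_ne_zero_iff (algebraMap F (AlgebraicClosure F)).injective).2 hq0)
    (x := algebraMap K Ω c) (by
      rw [Polynomial.eval₂_map, ← IsScalarTower.algebraMap_eq, ← Polynomial.aeval_def,
        Polynomial.aeval_algebraMap_apply, hq, map_zero])
  obtain ⟨a, ha⟩ := mem_of_fixed (F := F) (Fb := AlgebraicClosure F) (y := b) (by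
    intro σ
    apply (algebraMap (AlgebraicClosure F) Ω).injective
    rw [← hsec, hb]
    exact (s σ).commutes c)
  refine ⟨a, ?_⟩
  apply (algebraMap K Ω).injective
  rw [← hb, ← ha, ← IsScalarTower.algebraMap_apply, ← IsScalarTower.algebraMap_apply]

theorem geo_F {p : ℕ} {F : Type} [Field F] [NumberField F] (X : Stp p F)
    (hdeg : Module.finrank ℚ F ≤ p - 1) {K : Type*} [Field K] [Algebra F K]
    (htr : Algebra.trdeg F K = 1) {Ω : Type*} [Field Ω] [Algebra K Ω] [IsAlgClosure K Ω]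
    [Algebra (AlgebraicClosure F) Ω] [Algebra F Ω]
    [IsScalarTower F K Ω] [IsScalarTower F (AlgebraicClosure F) Ω]
    (s : Gal(AlgebraicClosure F/F) →* Gal(Ω/K)) (hs : Continuous s)
    (hsec : ∀ σ a, s σ (algebraMap (AlgebraicClosure F) Ω a) =
      algebraMap (AlgebraicClosure F) Ω (σ a))
    (hfix : ∀ x : Ω, (∀ σ, s σ x = x) → ∃ y : K, algebraMap K Ω y = x)
    (x y : K) (hx : ∀ c : F, x ≠ algebraMap F K c) (hxy : x ^ p + y ^ p = 1) :
    ∃ (A₀ : ValuationSubring Ω) (ψ₀ : A₀ →+* AlgebraicClosure F),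
      IsPlaceOf s F (RingHom.id _) A₀ ψ₀ ∧ ∃ r : K, (r = -x ∨ r = -y ∨ r = y / x) ∧
        ∃ h : algebraMap K Ω r ∈ A₀, ψ₀ ⟨_, h⟩ ^ p = -1 := by
  classical
  have hcl : IsAlgClosed Ω := IsAlgClosure.isAlgClosed K
  have halg : Algebra.IsAlgebraic K Ω := IsAlgClosure.isAlgebraic
  have hp := X.hp
  have hp0 : p ≠ 0 := hp.ne_zero
  have hodd : Odd p := hp.odd_of_ne_two X.h2
  have halgx : ∀ u : K, IsAlgebraic F (u ^ p) → ∃ c : F, u = algebraMap F K c := fun u hu =>
    const_of_algebraic s hsec (hu.of_pow (Nat.pos_of_ne_zero hp0))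
  have hx' : ¬ IsAlgebraic F (x ^ p) := by
    intro h
    obtain ⟨c, hc⟩ := halgx x h
    exact hx c hc
  have hx0 : x ≠ 0 := by
    intro h
    exact hx 0 (by rw [h, map_zero])
  have hy : ∀ c : F, y ≠ algebraMap F K c := by
    intro c hc
    apply hx'
    have h1 : x ^ p = algebraMap F K (1 - c ^ p) := by
      rw [map_sub, map_one, map_pow, ← hc]
      linear_combination hxy
    rw [h1]
    exact isAlgebraic_algebraMap _
  have hyx : ∀ c : F, y / x ≠ algebraMap F K c := by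
    intro c hc
    apply hx'
    have h1 : x ^ p * (1 + algebraMap F K c ^ p) = 1 := by
      rw [← hc, div_pow]
      have := pow_ne_zero p hx0
      field_simp
      exact hxy
    have h2 : x ^ p = algebraMap F K (1 + c ^ p)⁻¹ := by
      rw [map_inv₀, map_add, map_one, map_pow]
      exact eq_inv_of_mul_eq_one_left h1
    rw [h2]
    exact isAlgebraic_algebraMap _
  -- local places
  choose ι _ using fun w : HeightOneSpectrum (𝓞 F) =>
    (⟨(IsAlgClosed.lift : AlgebraicClosure F →ₐ[F] AlgebraicClosure (w.adicCompletion F)),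
      trivial⟩ : ∃ _ : AlgebraicClosure F →ₐ[F] AlgebraicClosure (w.adicCompletion F), True)
  choose A φ hφ using fun w => Koe.local_place s hs hsec w (ι w)
  obtain ⟨D, hD⟩ := exists_data (L := K) hp0 s hs hsec (fun x σ => (s σ).commutes x) hfix ι A φ hφ
  obtain ⟨r, hr, hgood, ⟨q, hq⟩, ρ, hρ, hρ1⟩ := X.select D hxy hx hy hyx
  obtain ⟨j, hgood', hval⟩ := X.value D hgood hq hρ hρ1
  set t : K := algebraMap F K X.ζ ^ j * r with ht
  obtain ⟨a, ha0, ha⟩ := X.orbit D hgood' hval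
  have haway := X.away_value D a ha
  rw [ha0] at haway
  -- the values of `t`
  have hvals : ∀ v : HeightOneSpectrum (𝓞 F), ∃ y : v.adicCompletion F, (D.pl v).Has t y ∧
      (∀ j : ℕ, ¬ p ∣ j → y + algebraMap F (v.adicCompletion F) X.ζ ^ j ≠ 0) ∧
      (v ≠ X.P → ∀ j : ℕ, ¬ p ∣ j →
        Valued.v (y + algebraMap F (v.adicCompletion F) X.ζ ^ j) = (1 : ℤᵐ⁰)) ∧
      (v = X.P → y = -1) := by
    intro v
    by_cases hv : v = X.P
    · subst hv
      refine ⟨-1, hval, fun j hj h0 => ?_, fun h => absurd rfl h, fun _ => rfl⟩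
      have h1 := X.loc.zpow_sub_one hp hj
      have h2 : algebraMap F (X.P.adicCompletion F) X.ζ ^ j - 1 = 0 := by
        rw [← h0]; ring
      rw [h2, map_zero] at h1
      exact WithZero.exp_ne_zero h1.symm
    · obtain ⟨y, hy1, hy2, hy3⟩ := haway v hv
      refine ⟨y, hy1, fun j hj h0 => ?_, fun _ => hy3, fun h => absurd h hv⟩
      have h1 := hy3 j hj
      rw [h0, map_zero] at h1
      exact zero_ne_one h1
  choose xv hxv hxv0 hxv1 hxvP using hvals
  have htc : ∀ c : F, t ≠ algebraMap F K c := hgood'.1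
  have hndvd : ∀ i : Fin (p - 1), ¬ p ∣ (i : ℕ) + 1 := by
    intro i hd
    have h1 := Nat.le_of_dvd (by omega) hd
    have h2 := i.2
    omega
  let P : Fin (p - 1) → F[X] := fun i => Polynomial.X + C (X.ζ ^ ((i : ℕ) + 1))
  have hinj : Function.Injective fun i : Fin (p - 1) => X.ζ ^ ((i : ℕ) + 1) := by
    intro i i' h
    have h1 := X.hζ.pow_inj (by omega) (by omega) h
    exact Fin.ext (by omega)
  have hE : GU.EnoughPoints.{0, 0} F ∅ P := by
    refine ⟨F, inferInstance, inferInstance, inferInstance, Or.inl ⟨ℚ, inferInstance,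
      inferInstance, inferInstance, ∅, p - 1, P, ?_, ?_, ?_, ?_, ?_⟩⟩
    · rintro w ⟨v, hv, -⟩
      simp at hv
    · intro i
      refine ⟨?_, i, ?_⟩
      · change 0 < (Polynomial.X + C (X.ζ ^ ((i : ℕ) + 1)) : F[X]).natDegree
        rw [Polynomial.natDegree_X_add_C]
        exact one_pos
      · rw [show algebraMap F F = RingHom.id F from rfl, Polynomial.map_id]
    · intro i i' hii
      have h1 : X.ζ ^ ((i : ℕ) + 1) - X.ζ ^ ((i' : ℕ) + 1) ≠ 0 := by
        rw [sub_ne_zero]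
        exact fun h => hii (hinj h)
      refine ⟨C (X.ζ ^ ((i : ℕ) + 1) - X.ζ ^ ((i' : ℕ) + 1))⁻¹,
        -C (X.ζ ^ ((i : ℕ) + 1) - X.ζ ^ ((i' : ℕ) + 1))⁻¹, ?_⟩
      change C (X.ζ ^ ((i : ℕ) + 1) - X.ζ ^ ((i' : ℕ) + 1))⁻¹ *
        (Polynomial.X + C (X.ζ ^ ((i : ℕ) + 1))) +
        -C (X.ζ ^ ((i : ℕ) + 1) - X.ζ ^ ((i' : ℕ) + 1))⁻¹ *
          (Polynomial.X + C (X.ζ ^ ((i' : ℕ) + 1))) = 1
      have h2 : C (X.ζ ^ ((i : ℕ) + 1) - X.ζ ^ ((i' : ℕ) + 1))⁻¹ *
          (C (X.ζ ^ ((i : ℕ) + 1)) - C (X.ζ ^ ((i' : ℕ) + 1))) = (1 : F[X]) := by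
        rw [← C_sub, ← C_mul, inv_mul_cancel₀ h1, C_1]
      linear_combination h2
    · rw [Finset.card_empty, add_zero]
      have : Fintype.card (InfinitePlace ℚ) = 1 := Fintype.card_unique
      omega
    · have h1 : Fintype.card (InfinitePlace ℚ) = 1 := Fintype.card_unique
      rw [Finset.card_empty, add_zero, h1, one_mul]
      exact hdeg
  have haev : ∀ (v : HeightOneSpectrum (𝓞 F)) (i : Fin (p - 1)), aeval (xv v) (P i) =
      xv v + algebraMap F (v.adicCompletion F) X.ζ ^ ((i : ℕ) + 1) := by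
    intro v i
    change aeval (xv v) (Polynomial.X + C (X.ζ ^ ((i : ℕ) + 1))) = _
    rw [map_add, aeval_X, aeval_C, map_pow]
  obtain ⟨A₀, ψ₀, h1, h2, -, -⟩ := GU.bir_of_enough.{0, 0} htr t htc ∅ P
    (fun h0 => GU.enough_of_points.{0, 0} ∅ t P h0 hE) s hs hsec (fun v => ι v.1)
    (fun v => A v.1) (fun v => φ v.1) (fun v => hφ v.1) (fun v => xv v.1)
    (fun v => (hD v.1 t (xv v.1)).1 (hxv v.1))
    (fun v i => by rw [haev]; exact hxv0 v.1 _ (hndvd i)) {X.P} 1 le_rfl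
    (fun v hv i z _ => by
      rw [haev]
      exact hxv1 v.1 (fun h => hv (by rw [h]; exact Finset.mem_singleton_self _)) _ (hndvd i))
  refine ⟨A₀, ψ₀, h1, r, hr, ?_⟩
  obtain ⟨h3, h4⟩ := h2 ⟨X.P, Finset.notMem_empty _⟩
  obtain ⟨h5, h6⟩ := (hD X.P t (xv X.P)).1 (hxv X.P)
  rw [hxvP X.P rfl, map_neg, map_one] at h6
  have h3' : A X.P = A₀ := h3
  have h7 : algebraMap K Ω t ∈ A₀ := h3' ▸ h5
  have h8 := h4 ⟨_, h5⟩ ⟨_, h7⟩ rfl
  have h9 : ψ₀ ⟨algebraMap K Ω t, h7⟩ = -1 := by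
    apply (ι X.P).toRingHom.injective
    rw [map_neg, map_one]
    exact h8.symm.trans h6
  have hζ0 : X.ζ ≠ 0 := X.hζ.ne_zero hp0
  have hζA : algebraMap F Ω X.ζ⁻¹ ∈ A₀ := by
    obtain ⟨h10, -⟩ := h1.1 (algebraMap F _ X.ζ⁻¹)
    rw [← IsScalarTower.algebraMap_apply] at h10
    exact h10
  have hrt : algebraMap K Ω r = algebraMap F Ω X.ζ⁻¹ ^ j * algebraMap K Ω t := by
    rw [ht, map_mul, map_pow, ← IsScalarTower.algebraMap_apply, ← mul_assoc, ← mul_pow,
      ← map_mul, inv_mul_cancel₀ hζ0, map_one, one_pow, one_mul]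
  have hrA : algebraMap K Ω r ∈ A₀ := by
    rw [hrt]
    exact mul_mem (pow_mem hζA j) h7
  refine ⟨hrA, ?_⟩
  have h11 : (⟨algebraMap K Ω r, hrA⟩ : A₀) ^ p = ⟨algebraMap K Ω t, h7⟩ ^ p := by
    apply Subtype.ext
    change algebraMap K Ω r ^ p = algebraMap K Ω t ^ p
    have h12 : algebraMap F K X.ζ ^ p = 1 := by rw [← map_pow, X.hζ.pow_eq_one, map_one]
    have h13 : t ^ p = r ^ p := by
      rw [ht, mul_pow, ← pow_mul, mul_comm j p, pow_mul, h12, one_pow, one_mul]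
    rw [← map_pow, ← map_pow, h13]
  rw [← map_pow, h11, map_pow, h9, hodd.neg_one_pow]

end Pool.Agent.Lib.MP_2f3286_ag.Fer
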