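import Pool.Agent.Lib.MP_2f3286_ag.Fer.GKa
import Pool.Agent.Lib.MP_2f3286_ag.Fer.LRoot
import Pool.Agent.Lib.MP_2f3286_ag.Fer.Away
import Pool.Agent.Lib.MP_2f3286_ag.Local

/-!
# Kummer's lemma, local form at the prime above `p`   (module GKP, 45 minutes)

PROOF. `P = X.P`. `γ ≠ 0` (otherwise `v (-1) ≤ exp (-p)`). There is `d` in `F` with `v (d - γ) ≤ v γ exp (-2)`
(density, library `MP_2f3286_ag.exists_approx` in Local.lean), `d ≠ 0`. `u = d / γ`, `v (u - 1) ≤ exp (-2)`,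
so `v (u ^ p - 1) ≤ exp (-2) exp (1 - p) = exp (-p - 1)` (`Loc.pow_exact`). `c' = c d ^ p = (c γ ^ p) u ^ p`:
`c' - 1 = (c γ ^ p) (u ^ p - 1) + (c γ ^ p - 1)`, `v (c γ ^ p) = 1`, so `v (c' - 1) ≤ exp (-p)`. Apply
`gk` to `c'`: at `w ≠ P`: `PV.mul`, `PV.pow_right`; at `P`: `P.valuation F c' = 1`, `PV.of_unit`; the only `w` containing `p` is
`P` (`X.away`), where `w (ζ - 1) = exp (-1)` (`X.loc.val_pi`, `val_alg'`). So `c d ^ p = e ^ p`, `c = (e / d) ^ p`.
-/

open IsDedekindDomain NumberField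
open scoped WithZero

namespace Pool.Agent.Lib.MP_2f3286_ag.Fer

theorem Stp.kummer {p : ℕ} {F : Type*} [Field F] [NumberField F] (X : Stp p F) {c : F}
    (hc : c ≠ 0) (h : ∀ w : HeightOneSpectrum (𝓞 F), w ≠ X.P → PV p w c)
    {γ : X.P.adicCompletion F}
    (hγ : Valued.v (algebraMap F (X.P.adicCompletion F) c * γ ^ p - 1) ≤
      WithZero.exp (-(p : ℤ))) : ∃ d : F, d ^ p = c := by
  have hp0 : p ≠ 0 := X.hp.ne_zero
  have hp2 : (2 : ℤ) ≤ p := by exact_mod_cast X.hp.two_le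
  have hexp1 : WithZero.exp (-(p : ℤ)) < (1 : ℤᵐ⁰) := by
    rw [← WithZero.exp_zero, WithZero.exp_lt_exp]
    linarith
  have hγ0 : γ ≠ 0 := by
    rintro rfl
    rw [zero_pow hp0, mul_zero, zero_sub, Valuation.map_neg, map_one] at hγ
    exact absurd hγ (not_le.mpr hexp1)
  have hvγ : Valued.v γ ≠ (0 : ℤᵐ⁰) := (Valuation.ne_zero_iff _).mpr hγ0
  obtain ⟨g, hg⟩ : ∃ g : ℤ, Valued.v γ = WithZero.exp g :=
    ⟨WithZero.log (Valued.v γ), (WithZero.exp_log hvγ).symm⟩
  obtain ⟨d, hd⟩ := MP_2f3286_ag.exists_approx X.P γ (2 - g).toNat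
  set dd := algebraMap F (X.P.adicCompletion F) d with hdd
  have hd1 : Valued.v (dd - γ) ≤ WithZero.exp (g - 2) := by
    rw [← Valuation.map_neg, neg_sub]
    refine hd.trans ?_
    rw [WithZero.exp_le_exp]
    omega
  have hu : Valued.v (dd / γ - 1) ≤ WithZero.exp (-2 : ℤ) := by
    have h1 : dd / γ - 1 = (dd - γ) / γ := by field_simp
    rw [h1, map_div₀, hg]
    rw [div_le_iff₀ (WithZero.exp_pos), ← WithZero.exp_add]
    refine hd1.trans ?_
    rw [WithZero.exp_le_exp]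
    linarith
  have hpe := X.loc.pow_exact X.hp hu
  have hup : Valued.v ((dd / γ) ^ p - 1) ≤ WithZero.exp (-(p : ℤ)) := by
    rw [hpe]
    calc Valued.v (dd / γ - 1) * WithZero.exp (1 - (p : ℤ)) ≤
        WithZero.exp (-2 : ℤ) * WithZero.exp (1 - (p : ℤ)) := mul_le_mul_left hu _
      _ ≤ WithZero.exp (-(p : ℤ)) := by
        rw [← WithZero.exp_add, WithZero.exp_le_exp]
        linarith
  set cc := algebraMap F (X.P.adicCompletion F) c with hcc
  have hcγ : Valued.v (cc * γ ^ p) = (1 : ℤᵐ⁰) := by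
    have h1 : cc * γ ^ p = 1 + (cc * γ ^ p - 1) := by ring
    rw [h1, Valuation.map_add_eq_of_lt_left, map_one]
    rw [map_one]
    exact lt_of_le_of_lt hγ hexp1
  have hc' : Valued.v (algebraMap F (X.P.adicCompletion F) (c * d ^ p) - 1) ≤ WithZero.exp (-(p : ℤ)) := by
    have h1 : algebraMap F (X.P.adicCompletion F) (c * d ^ p) - 1 =
        (cc * γ ^ p) * ((dd / γ) ^ p - 1) + (cc * γ ^ p - 1) := by
      rw [map_mul, map_pow, div_pow]
      have h2 : γ ^ p ≠ 0 := pow_ne_zero _ hγ0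
      field_simp
      ring
    rw [h1]
    refine (Valuation.map_add _ _ _).trans (max_le ?_ hγ)
    rw [map_mul, hcγ, one_mul]
    exact hup
  have hc1 : Valued.v (algebraMap F (X.P.adicCompletion F) (c * d ^ p)) = (1 : ℤᵐ⁰) := by
    have h1 : algebraMap F (X.P.adicCompletion F) (c * d ^ p) =
      1 + (algebraMap F (X.P.adicCompletion F) (c * d ^ p) - 1) := by ring
    rw [h1, Valuation.map_add_eq_of_lt_left, map_one]
    rw [map_one]
    exact lt_of_le_of_lt hc' hexp1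
  have hd0 : d ≠ 0 := by
    rintro rfl
    rw [zero_pow hp0, mul_zero, map_zero, map_zero] at hc1
    exact zero_ne_one hc1
  obtain ⟨e, he⟩ := gk X.hp X.h2 X.hζ X.cls (mul_ne_zero hc (pow_ne_zero p hd0)) (by
    intro w
    by_cases hw : w = X.P
    · rw [hw]
      refine PV.of_unit ?_
      rw [← val_alg']
      exact hc1
    · exact PV.mul (h w hw) (PV.pow_right w hd0)) (by
    intro w hw
    have hwP : w = X.P := by
      by_contra hne
      exact X.away w hne hw
    have e1 : algebraMap F (X.P.adicCompletion F) (c * d ^ p - 1) =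
        algebraMap F (X.P.adicCompletion F) (c * d ^ p) - 1 := by rw [map_sub, map_one]
    have e2 : algebraMap F (X.P.adicCompletion F) (X.ζ - 1) =
        algebraMap F (X.P.adicCompletion F) X.ζ - 1 := by rw [map_sub, map_one]
    rw [hwP, ← val_alg', ← val_alg', e1, e2, X.loc.val_pi, ← WithZero.exp_nsmul]
    refine hc'.trans ?_
    rw [WithZero.exp_le_exp]
    simp)
  refine ⟨e / d, ?_⟩
  rw [div_pow, he]
  have : d ^ p ≠ 0 := pow_ne_zero _ hd0
  field_simp

end Pool.Agent.Lib.MP_2f3286_ag.Fer
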