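import Mathlib

/-!
# Places, local data: the definitions for the Fermat curves of regular exponent
-/

open IsDedekindDomain NumberField
open scoped WithZero

namespace Pool.Agent.Lib.MP_2f3286_ag.Fer

/-- A place of the field `L` with values in the field `E`: a valuation ring `A` of `L` and a
homomorphism `φ : A → E` whose kernel is the maximal ideal of `A`. -/
structure Plc (L E : Type*) [Field L] [Field E] where
  /-- the valuation ring -/
  A : ValuationSubring L
  /-- the residue map -/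
  φ : A →+* E
  ker : ∀ x : A, φ x ≠ 0 → (x : L)⁻¹ ∈ A

section Plc

variable {L E : Type*} [Field L] [Field E] (Q : Plc L E)

/-- `x` has the (finite) value `y` at the place `Q` -/
def Plc.Has (x : L) (y : E) : Prop := ∃ h : x ∈ Q.A, Q.φ ⟨x, h⟩ = y

variable {Q} {x x' : L} {y y' : E}

theorem Plc.Has.unique (h : Q.Has x y) (h' : Q.Has x y') : y = y' := by
  obtain ⟨_, rfl⟩ := h
  obtain ⟨_, rfl⟩ := h'
  rfl

theorem Plc.has_zero : Q.Has 0 0 := ⟨zero_mem _, map_zero Q.φ⟩

theorem Plc.has_one : Q.Has 1 1 := ⟨one_mem _, map_one Q.φ⟩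

theorem Plc.Has.add (h : Q.Has x y) (h' : Q.Has x' y') : Q.Has (x + x') (y + y') := by
  obtain ⟨h, rfl⟩ := h
  obtain ⟨h', rfl⟩ := h'
  exact ⟨add_mem h h', map_add Q.φ ⟨x, h⟩ ⟨x', h'⟩⟩

theorem Plc.Has.mul (h : Q.Has x y) (h' : Q.Has x' y') : Q.Has (x * x') (y * y') := by
  obtain ⟨h, rfl⟩ := h
  obtain ⟨h', rfl⟩ := h'
  exact ⟨mul_mem h h', map_mul Q.φ ⟨x, h⟩ ⟨x', h'⟩⟩

theorem Plc.Has.neg (h : Q.Has x y) : Q.Has (-x) (-y) := by
  obtain ⟨h, rfl⟩ := h
  exact ⟨neg_mem h, map_neg Q.φ ⟨x, h⟩⟩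

theorem Plc.Has.sub (h : Q.Has x y) (h' : Q.Has x' y') : Q.Has (x - x') (y - y') := by
  rw [sub_eq_add_neg, sub_eq_add_neg]
  exact h.add h'.neg

theorem Plc.Has.pow (h : Q.Has x y) (n : ℕ) : Q.Has (x ^ n) (y ^ n) := by
  induction n with
  | zero => rw [pow_zero, pow_zero]; exact Plc.has_one
  | succ n ih => rw [pow_succ, pow_succ]; exact ih.mul h

theorem Plc.Has.inv (h : Q.Has x y) (hy : y ≠ 0) : Q.Has x⁻¹ y⁻¹ := by
  obtain ⟨h, rfl⟩ := h
  have h1 := Q.ker ⟨x, h⟩ hy
  have hx : x ≠ 0 := by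
    rintro rfl
    exact hy (map_zero Q.φ)
  refine ⟨h1, ?_⟩
  apply eq_inv_of_mul_eq_one_left
  rw [← map_mul, ← map_one Q.φ]
  congr 1
  apply Subtype.ext
  exact inv_mul_cancel₀ hx

theorem Plc.Has.div (h : Q.Has x y) (h' : Q.Has x' y') (hy' : y' ≠ 0) :
    Q.Has (x / x') (y / y') := by
  rw [div_eq_mul_inv, div_eq_mul_inv]
  exact h.mul (h'.inv hy')

theorem Plc.Has.ne_zero (h : Q.Has x y) (hy : y ≠ 0) : x ≠ 0 := by
  rintro rfl
  exact hy (h.unique Plc.has_zero)

/-- an element without finite value has an inverse with value zero -/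
theorem Plc.has_or_inv (Q : Plc L E) (x : L) : (∃ y, Q.Has x y) ∨ (x ≠ 0 ∧ Q.Has x⁻¹ 0) := by
  by_cases h : x ∈ Q.A
  · exact Or.inl ⟨_, h, rfl⟩
  · right
    have h1 : x⁻¹ ∈ Q.A := (Q.A.mem_or_inv_mem x).resolve_left h
    refine ⟨fun h0 => h (h0 ▸ zero_mem _), h1, ?_⟩
    by_contra h2
    have h3 := Q.ker ⟨_, h1⟩ h2
    rw [inv_inv] at h3
    exact h h3

theorem Plc.not_has_of_inv (h : Q.Has x⁻¹ 0) (hx : x ≠ 0) : ¬ Q.Has x y := by
  intro h'
  have h1 := h.mul h'
  rw [inv_mul_cancel₀ hx, zero_mul] at h1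
  exact one_ne_zero (Plc.has_one.unique h1)

end Plc

section Data

/-- the valuation of `c` at `w` is divisible by `p` -/
def PV (p : ℕ) {F : Type*} [Field F] [NumberField F] (w : HeightOneSpectrum (𝓞 F)) (c : F) : Prop :=
  ∃ z : F, z ≠ 0 ∧ w.valuation F c = w.valuation F z ^ p

/-- A field `L` over the number field `F` with a place with values in the completion `F_w` for
every finite place `w` of `F`, the identity on `F`; the elements of `L` whose valuations at
certain places trivial on `F` are divisible by `p` are elements of `F` up to `p`-th powers. -/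
structure Data (p : ℕ) (F L : Type*) [Field F] [NumberField F] [Field L] [Algebra F L] where
  /-- the places -/
  pl : ∀ w : HeightOneSpectrum (𝓞 F), Plc L (w.adicCompletion F)
  base : ∀ (w : HeightOneSpectrum (𝓞 F)) (a : F),
    (pl w).Has (algebraMap F L a) (algebraMap F (w.adicCompletion F) a)
  /-- some valuation rings which contain `F` -/
  vals : Set (ValuationSubring L)
  hvals : ∀ V ∈ vals, ∀ a : F, algebraMap F L a ∈ V
  kum : ∀ x : L, x ≠ 0 → (∀ V ∈ vals, ∃ y : L, y ≠ 0 ∧ V.valuation x = V.valuation y ^ p) →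
    ∃ c : F, c ≠ 0 ∧ ∃ g : L, x = algebraMap F L c * g ^ p

/-- `r` is not constant, and `r ^ p + 1` is a `p`-th power times an element of `F` whose valuations
outside `P` are divisible by `p`. -/
def Good (p : ℕ) {F L : Type*} [Field F] [NumberField F] [Field L] [Algebra F L]
    (P : HeightOneSpectrum (𝓞 F)) (r : L) : Prop :=
  (∀ c : F, r ≠ algebraMap F L c) ∧ ∃ e : F, e ≠ 0 ∧ (∀ w, w ≠ P → PV p w e) ∧
    ∃ q : L, r ^ p + 1 = algebraMap F L e * q ^ p

end Data

/-- The properties used of the completion of the `p`-th cyclotomic field at the prime above `p`, where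
`z` is a primitive `p`-th root of unity: `z - 1` is a uniformizer, `p = - (z - 1) ^ (p - 1)` modulo
`(z - 1) ^ p`, and the residue field is the field with `p` elements. -/
structure Loc (p : ℕ) {C : Type*} [Field C] (v : Valuation C ℤᵐ⁰) (z : C) : Prop where
  root : z ^ p = 1
  val_pi : v (z - 1) = WithZero.exp (-1 : ℤ)
  val_p : v (p : C) = WithZero.exp (1 - (p : ℤ))
  sharp : v ((p : C) + (z - 1) ^ (p - 1)) ≤ WithZero.exp (-(p : ℤ))
  resid : ∀ x, v x ≤ 1 → ∃ n : ℕ, v (x - n) ≤ WithZero.exp (-1 : ℤ)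

/-- The properties used of the `p`-th cyclotomic field `F` if the odd prime `p` does not divide its
class number. -/
structure Stp (p : ℕ) (F : Type*) [Field F] [NumberField F] where
  /-- a primitive `p`-th root of unity -/
  ζ : F
  /-- the prime above `p` -/
  P : HeightOneSpectrum (𝓞 F)
  hp : p.Prime
  h2 : p ≠ 2
  hζ : IsPrimitiveRoot ζ p
  away : ∀ w : HeightOneSpectrum (𝓞 F), w ≠ P → (p : 𝓞 F) ∉ w.asIdeal
  loc : Loc p (Valued.v : Valuation (P.adicCompletion F) ℤᵐ⁰)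
    (algebraMap F (P.adicCompletion F) ζ)
  cls : ¬ p ∣ classNumber F
  cong : 5 ≤ p → ∀ (u : (𝓞 F)ˣ) (b k : ℤ),
    P.valuation F (((u : 𝓞 F) : F) * b - 1 - k * (ζ - 1) ^ 3) ≤ WithZero.exp (-4 : ℤ) → (p : ℤ) ∣ k

end Pool.Agent.Lib.MP_2f3286_ag.Fer
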