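import Pool.Agent.Lib.MP_2f3286_ag.Fer.SE
import Pool.Agent.Lib.MP_2f3286_ag.Fer.NV
import Pool.Agent.Lib.MP_2f3286_ag.Fer.FT
import Pool.Agent.Lib.MP_2f3286_ag.Fer.TR
import Pool.Agent.Lib.MP_2f3286_ag.Fer.Cst

/-!
# The places of a section with local places, over the cyclotomic field
-/

open IsDedekindDomain NumberField Polynomial
open scoped WithZero
open Pool.Agent.Lib.MP_2f3286_bir (IsPlaceOf)

namespace Pool.Agent.Lib.MP_2f3286_ag.Fer

/-- the points `- ζ ^ (j + 1)` are sufficiently many -/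
theorem enough_cyc {p : ℕ} {F : Type} [Field F] [NumberField F] (X : Stp p F)
    (hdeg : Module.finrank ℚ F ≤ p - 1) :
    GU.EnoughPoints.{0, 0} F ∅ (fun i : Fin (p - 1) => (Polynomial.X + C (X.ζ ^ ((i : ℕ) + 1)) : F[X])) := by
  have hinj : Function.Injective fun i : Fin (p - 1) => X.ζ ^ ((i : ℕ) + 1) := by
    intro i i' h
    have h1 := X.hζ.pow_inj (by omega) (by omega) h
    exact Fin.ext (by omega)
  refine ⟨F, inferInstance, inferInstance, inferInstance, Or.inl ⟨ℚ, inferInstance,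
    inferInstance, inferInstance, ∅, p - 1,
    fun i : Fin (p - 1) => (Polynomial.X + C (X.ζ ^ ((i : ℕ) + 1)) : F[X]), ?_, ?_, ?_, ?_, ?_⟩⟩
  · rintro w ⟨v, hv, -⟩
    simp at hv
  · intro i
    refine ⟨?_, i, ?_⟩
    · change 0 < (Polynomial.X + C (X.ζ ^ ((i : ℕ) + 1)) : F[X]).natDegree
      rw [Polynomial.natDegree_X_add_C]
      exact one_pos
    · rw [show algebraMap F F = RingHom.id F from rfl, Polynomial.map_id]
  · intro i i' hii
    have h1 : X.ζ ^ ((i : ℕ) + 1) - X.ζ ^ ((i' : ℕ) + 1) ≠ 0 := by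
      rw [sub_ne_zero]
      exact fun h => hii (hinj h)
    refine ⟨C (X.ζ ^ ((i : ℕ) + 1) - X.ζ ^ ((i' : ℕ) + 1))⁻¹,
      -C (X.ζ ^ ((i : ℕ) + 1) - X.ζ ^ ((i' : ℕ) + 1))⁻¹, ?_⟩
    change C (X.ζ ^ ((i : ℕ) + 1) - X.ζ ^ ((i' : ℕ) + 1))⁻¹ *
      (Polynomial.X + C (X.ζ ^ ((i : ℕ) + 1))) +
      -C (X.ζ ^ ((i : ℕ) + 1) - X.ζ ^ ((i' : ℕ) + 1))⁻¹ *
        (Polynomial.X + C (X.ζ ^ ((i' : ℕ) + 1))) = 1
    have h2 : C (X.ζ ^ ((i : ℕ) + 1) - X.ζ ^ ((i' : ℕ) + 1))⁻¹ *
        (C (X.ζ ^ ((i : ℕ) + 1)) - C (X.ζ ^ ((i' : ℕ) + 1))) = (1 : F[X]) := by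
      rw [← C_sub, ← C_mul, inv_mul_cancel₀ h1, C_1]
    linear_combination h2
  · rw [Finset.card_empty, add_zero]
    have : Fintype.card (InfinitePlace ℚ) = 1 := Fintype.card_unique
    omega
  · have h1 : Fintype.card (InfinitePlace ℚ) = 1 := Fintype.card_unique
    rw [Finset.card_empty, add_zero, h1, one_mul]
    exact hdeg

/-- roots of the units of the integral closure -/
theorem roots_of_units {p : ℕ} {F : Type*} [Field F] [NumberField F] (X : Stp p F)
    {K : Type*} [Field K] [Algebra F K] {M : Type*} [Field M] [Algebra K M] [Algebra F M]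
    [IsScalarTower F K M] (𝒱 : Set (ValuationSubring M)) (h𝒱 : ∀ V ∈ 𝒱, ∀ a : F, algebraMap F M a ∈ V)
    {n : ℕ} (hn : 1 ≤ n)
    (hrad : ∀ ρ : M, ρ ≠ 0 → (∀ V ∈ 𝒱, ∃ y : M, y ≠ 0 ∧ V.valuation ρ = V.valuation y ^ n) →
      ∃ β : M, β ^ n = ρ) (t : K)
    (ht : ∀ V ∈ 𝒱, algebraMap K M t ∈ V ∧ (algebraMap K M t ^ p + 1)⁻¹ ∈ V)
    (h0 : t ^ p + 1 ≠ 0) {J : Type*} (P : J → F[X]) (hP : ∀ j, ∃ i : ℕ, P j = Polynomial.X + C (X.ζ ^ i)) (b : M)
    (hb : IsIntegral (GU.polyAlg t P) b) (hb' : IsIntegral (GU.polyAlg t P) b⁻¹) :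
    ∃ c : M, c ^ n = b := by
  rcases eq_or_ne b 0 with rfl | hb0
  · exact ⟨0, zero_pow (by omega)⟩
  have hodd : Odd p := X.hp.odd_of_ne_two X.h2
  refine hrad b hb0 fun V hV => ?_
  obtain ⟨ht1, ht2⟩ := ht V hV
  have h0M : algebraMap K M t ^ p + 1 ≠ 0 := by
    rw [← map_one (algebraMap K M), ← map_pow, ← map_add, _root_.map_ne_zero]
    exact h0
  have hR : ∀ r : GU.polyAlg t P, algebraMap K M (r : K) ∈ V := by
    rintro ⟨r, hr⟩
    change algebraMap K M r ∈ V
    rw [GU.polyAlg] at hr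
    induction hr using Algebra.adjoin_induction with
    | mem r hr =>
      rcases hr with rfl | ⟨j, rfl⟩
      · exact ht1
      · beta_reduce
        obtain ⟨i, hi⟩ := hP j
        have hzV : algebraMap F M X.ζ ∈ V := h𝒱 V hV _
        let tV : V := ⟨algebraMap K M t, ht1⟩
        let zV : V := ⟨algebraMap F M X.ζ, hzV⟩
        have hz : (zV ^ i) ^ p = 1 := by
          apply Subtype.ext
          change (algebraMap F M X.ζ ^ i) ^ p = 1
          rw [← pow_mul, mul_comm, pow_mul, ← map_pow, X.hζ.pow_eq_one, map_one, one_pow]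
        have hdvd : tV + zV ^ i ∣ tV ^ p + 1 := by
          have h1 := Odd.add_dvd_pow_add_pow tV (zV ^ i) hodd
          rwa [hz] at h1
        have hunit : IsUnit (tV ^ p + 1) := by
          refine IsUnit.of_mul_eq_one ⟨(algebraMap K M t ^ p + 1)⁻¹, ht2⟩ ?_
          apply Subtype.ext
          exact mul_inv_cancel₀ h0M
        obtain ⟨u, hu⟩ := isUnit_of_dvd_unit hdvd hunit
        have h2 : ((u⁻¹ : Vˣ) : V) * (tV + zV ^ i) = 1 := by rw [← hu, Units.inv_mul]
        have h3 := congrArg Subtype.val h2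
        have h4 : (((u⁻¹ : Vˣ) : V) : M) = (algebraMap K M (aeval t (P j)))⁻¹ := by
          apply eq_inv_of_mul_eq_one_left
          rw [hi, map_add, aeval_X, aeval_C, map_add, map_pow, map_pow,
            ← IsScalarTower.algebraMap_apply]
          exact h3
        rw [map_inv₀, ← h4]
        exact ((u⁻¹ : Vˣ) : V).2
    | algebraMap c =>
      rw [← IsScalarTower.algebraMap_apply]
      exact h𝒱 V hV c
    | add a b _ _ ha hb => rw [map_add]; exact add_mem ha hb
    | mul a b _ _ ha hb => rw [map_mul]; exact mul_mem ha hb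
  have hint : ∀ b : M, IsIntegral (GU.polyAlg t P) b → b ∈ V := by
    intro b hb
    let g : GU.polyAlg t P →+* V := ((algebraMap K M).comp (algebraMap (GU.polyAlg t P) K)).codRestrict
      V.toSubring (fun r => hR r)
    have h1 : IsIntegral V ((RingHom.id M) b) := by
      refine IsIntegral.map_of_comp_eq g (RingHom.id M) ?_ hb
      ext r
      rfl
    obtain ⟨y, hy⟩ := (IsIntegrallyClosed.isIntegral_iff (R := V) (K := M)).mp h1
    have h2 : (y : M) = b := hy
    rw [← h2]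
    exact y.2
  refine ⟨1, one_ne_zero, ?_⟩
  rw [map_one, one_pow]
  have e1 := (V.valuation_le_one_iff _).2 (hint b hb)
  have e2 := (V.valuation_le_one_iff _).2 (hint _ hb')
  rw [map_inv₀] at e2
  have e3 : V.valuation b ≠ 0 := by rwa [Ne, Valuation.zero_iff]
  exact le_antisymm e1 ((inv_le_one₀ (zero_lt_iff.2 e3)).1 e2)

theorem loc_F {p : ℕ} {F : Type} [Field F] [NumberField F] (X : Stp p F)
    (hdeg : Module.finrank ℚ F ≤ p - 1)
    {K : Type*} [Field K] [Algebra F K] (htr : Algebra.trdeg F K = 1)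
    {M : Type*} [Field M] [Algebra K M] [Algebra.IsAlgebraic K M]
    [Algebra (AlgebraicClosure F) M] [Algebra F M]
    [IsScalarTower F K M] [IsScalarTower F (AlgebraicClosure F) M]
    (𝒱 : Set (ValuationSubring M)) (h𝒱 : ∀ V ∈ 𝒱, ∀ a : F, algebraMap F M a ∈ V)
    (hrad : ∀ ρ : M, ρ ≠ 0 → (∀ V ∈ 𝒱, ∃ y : M, y ≠ 0 ∧ V.valuation ρ = V.valuation y ^ p) →
      ∃ β : M, β ^ p = ρ)
    (s : Gal(AlgebraicClosure F/F) →* Gal(M/K)) (hs : Continuous s)
    (hsec : ∀ σ a, s σ (algebraMap (AlgebraicClosure F) M a) =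
      algebraMap (AlgebraicClosure F) M (σ a))
    (hfix : ∀ x : M, (∀ σ, s σ x = x) → ∃ y : K, algebraMap K M y = x)
    (ι : ∀ w : HeightOneSpectrum (𝓞 F),
      AlgebraicClosure F →ₐ[F] AlgebraicClosure (w.adicCompletion F))
    (A : HeightOneSpectrum (𝓞 F) → ValuationSubring M)
    (φ : ∀ w : HeightOneSpectrum (𝓞 F), A w →+* AlgebraicClosure (w.adicCompletion F))
    (hφ : ∀ w, IsPlaceOf s (w.adicCompletion F)
      (ι w : _ →+* AlgebraicClosure (w.adicCompletion F)) (A w) (φ w))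
    (x y : K) (hx : ∀ c : F, x ≠ algebraMap F K c) (hxy : x ^ p + y ^ p = 1) :
    ∃ r : K, (r = -x ∨ r = -y ∨ r = y / x) ∧
      (∀ w, ∃ u : w.adicCompletion F, Valued.v u = (1 : ℤᵐ⁰) ∧ (w = X.P → u = 1) ∧
        ((∀ n : ℕ, 1 ≤ n → ∀ ρ : M, ρ ≠ 0 →
            (∀ V ∈ 𝒱, ∃ y : M, y ≠ 0 ∧ V.valuation ρ = V.valuation y ^ n) → ∃ β : M, β ^ n = ρ) →
          (∀ V ∈ 𝒱, algebraMap K M x ∈ V ∧ (algebraMap K M x)⁻¹ ∈ V ∧ algebraMap K M y ∈ V ∧
            (algebraMap K M y)⁻¹ ∈ V) → u = 1) ∧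
        ∃ h : algebraMap K M (-(r ^ p)) ∈ A w, φ w ⟨_, h⟩ = algebraMap _ _ u) := by
  classical
  have hp := X.hp
  have hp0 : p ≠ 0 := hp.ne_zero
  have hp2 := hp.two_le
  have hodd : Odd p := hp.odd_of_ne_two X.h2
  have halgx : ∀ u : K, IsAlgebraic F (u ^ p) → ∃ c : F, u = algebraMap F K c := fun u hu =>
    const_of_algebraic s hsec (hu.of_pow (Nat.pos_of_ne_zero hp0))
  have hx' : ¬ IsAlgebraic F (x ^ p) := by
    intro h
    obtain ⟨c, hc⟩ := halgx x h
    exact hx c hc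
  have hx0 : x ≠ 0 := by
    intro h
    exact hx 0 (by rw [h, map_zero])
  have hy : ∀ c : F, y ≠ algebraMap F K c := by
    intro c hc
    apply hx'
    have h1 : x ^ p = algebraMap F K (1 - c ^ p) := by
      rw [map_sub, map_one, map_pow, ← hc]
      linear_combination hxy
    rw [h1]
    exact isAlgebraic_algebraMap _
  have hy0 : y ≠ 0 := by
    intro h
    exact hy 0 (by rw [h, map_zero])
  have hyx : ∀ c : F, y / x ≠ algebraMap F K c := by
    intro c hc
    apply hx'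
    have h1 : x ^ p * (1 + algebraMap F K c ^ p) = 1 := by
      rw [← hc, div_pow]
      have := pow_ne_zero p hx0
      field_simp
      exact hxy
    have h2 : x ^ p = algebraMap F K (1 + c ^ p)⁻¹ := by
      rw [map_inv₀, map_add, map_one, map_pow]
      exact eq_inv_of_mul_eq_one_left h1
    rw [h2]
    exact isAlgebraic_algebraMap _
  obtain ⟨D, hD⟩ := exists_data_gen (L := K) hp0 𝒱 h𝒱 hrad s hs hsec (fun x σ => (s σ).commutes x)
    hfix ι A φ hφ
  obtain ⟨r, hr, hgood, ⟨q, hq⟩, ρ, hρ, hρ1⟩ := X.select D hxy hx hy hyx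
  obtain ⟨j, hgood', hval⟩ := X.value D hgood hq hρ hρ1
  set t : K := algebraMap F K X.ζ ^ j * r with ht
  obtain ⟨a, ha0, ha⟩ := X.orbit D hgood' hval
  have haway := X.away_value D a ha
  rw [ha0] at haway
  have hζp : algebraMap F K X.ζ ^ p = 1 := by rw [← map_pow, X.hζ.pow_eq_one, map_one]
  have htr' : t ^ p = r ^ p := by
    rw [ht, mul_pow, ← pow_mul, mul_comm j p, pow_mul, hζp, one_pow, one_mul]
  -- the values of `t`
  have hvals : ∀ v : HeightOneSpectrum (𝓞 F), ∃ y : v.adicCompletion F, (D.pl v).Has t y ∧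
      Valued.v y = (1 : ℤᵐ⁰) ∧
      (∀ j : ℕ, ¬ p ∣ j → y + algebraMap F (v.adicCompletion F) X.ζ ^ j ≠ 0) ∧
      (v ≠ X.P → ∀ j : ℕ, ¬ p ∣ j →
        Valued.v (y + algebraMap F (v.adicCompletion F) X.ζ ^ j) = (1 : ℤᵐ⁰)) ∧
      (v = X.P → y = -1) := by
    intro v
    by_cases hv : v = X.P
    · subst hv
      refine ⟨-1, hval, ?_, fun j hj h0 => ?_, fun h => absurd rfl h, fun _ => rfl⟩
      · rw [Valuation.map_neg, map_one]
      · have h1 := X.loc.zpow_sub_one hp hj
        have h2 : algebraMap F (X.P.adicCompletion F) X.ζ ^ j - 1 = 0 := by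
          rw [← h0]; ring
        rw [h2, map_zero] at h1
        exact WithZero.exp_ne_zero h1.symm
    · obtain ⟨y, hy1, hy2, hy3⟩ := haway v hv
      refine ⟨y, hy1, hy2, fun j hj h0 => ?_, fun _ => hy3, fun h => absurd h hv⟩
      have h1 := hy3 j hj
      rw [h0, map_zero] at h1
      exact zero_ne_one h1
  choose xv hxv hxv1 hxv0 hxv2 hxvP using hvals
  refine ⟨r, hr, fun w => ⟨-(xv w ^ p), ?_, fun hw => ?_, fun hrn hV => ?_, ?_⟩⟩
  · rw [Valuation.map_neg, map_pow, hxv1, one_pow]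
  · rw [hxvP w hw, hodd.neg_one_pow, neg_neg]
  · -- `t` is constant on the local places
    have hndvd : ∀ i : Fin (p - 1), ¬ p ∣ (i : ℕ) + 1 := by
      intro i hd
      have h1 := Nat.le_of_dvd (by omega) hd
      have h2 := i.2
      omega
    let P : Fin (p - 1) → F[X] := fun i => Polynomial.X + C (X.ζ ^ ((i : ℕ) + 1))
    have haev : ∀ (v : HeightOneSpectrum (𝓞 F)) (i : Fin (p - 1)), aeval (xv v) (P i) =
        xv v + algebraMap F (v.adicCompletion F) X.ζ ^ ((i : ℕ) + 1) := by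
      intro v i
      change aeval (xv v) (Polynomial.X + C (X.ζ ^ ((i : ℕ) + 1))) = _
      rw [map_add, aeval_X, aeval_C, map_pow]
    have hne : Nonempty (Fin (p - 1)) := ⟨⟨0, by omega⟩⟩
    have htp1 : t ^ p + 1 ≠ 0 := by
      rw [htr']
      rcases hr with rfl | rfl | rfl
      · rw [hodd.neg_pow]
        intro h0
        have h1 : y ^ p = 0 := by linear_combination hxy + h0
        exact pow_ne_zero p hy0 h1
      · rw [hodd.neg_pow]
        intro h0
        have h1 : x ^ p = 0 := by linear_combination hxy + h0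
        exact pow_ne_zero p hx0 h1
      · rw [div_pow]
        have h2 := pow_ne_zero p hx0
        intro h0
        field_simp at h0
        have h1 : (1 : K) = 0 := by linear_combination h0 - hxy
        exact one_ne_zero h1
    have htV : ∀ V ∈ 𝒱, algebraMap K M t ∈ V ∧ (algebraMap K M t ^ p + 1)⁻¹ ∈ V := by
      intro V hV'
      obtain ⟨v1, v2, v3, v4⟩ := hV V hV'
      have hr1 : algebraMap K M r ∈ V ∧ (algebraMap K M r ^ p + 1)⁻¹ ∈ V := by
        have hxyM : algebraMap K M x ^ p + algebraMap K M y ^ p = 1 := by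
          rw [← map_pow, ← map_pow, ← map_add, hxy, map_one]
        rcases hr with rfl | rfl | rfl
        · refine ⟨by rw [map_neg]; exact neg_mem v1, ?_⟩
          have h1 : algebraMap K M (-x) ^ p + 1 = algebraMap K M y ^ p := by
            rw [map_neg, hodd.neg_pow]
            linear_combination -hxyM
          rw [h1, ← inv_pow]
          exact pow_mem v4 p
        · refine ⟨by rw [map_neg]; exact neg_mem v3, ?_⟩
          have h1 : algebraMap K M (-y) ^ p + 1 = algebraMap K M x ^ p := by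
            rw [map_neg, hodd.neg_pow]
            linear_combination -hxyM
          rw [h1, ← inv_pow]
          exact pow_mem v2 p
        · refine ⟨by rw [map_div₀, div_eq_mul_inv]; exact mul_mem v3 v2, ?_⟩
          have h1 : algebraMap K M (y / x) ^ p + 1 = (algebraMap K M x ^ p)⁻¹ := by
            rw [map_div₀, div_pow]
            have h2 : algebraMap K M x ^ p ≠ 0 := pow_ne_zero _ (by rwa [_root_.map_ne_zero])
            field_simp
            linear_combination hxyM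
          rw [h1, inv_inv]
          exact pow_mem v1 p
      refine ⟨?_, ?_⟩
      · rw [ht, map_mul, map_pow, ← IsScalarTower.algebraMap_apply]
        exact mul_mem (pow_mem (h𝒱 V hV' _) j) hr1.1
      · have h3 : algebraMap K M t ^ p = algebraMap K M r ^ p := by
          rw [← map_pow, htr', map_pow]
        rw [h3]
        exact hr1.2
    obtain ⟨c, hc⟩ := const_of_enough.{0, 0} htr t hgood'.1 P (fun i => ⟨_, rfl⟩)
      (enough_cyc X hdeg)
      (fun b hb hb' n hn => roots_of_units X 𝒱 h𝒱 hn (hrn n hn) t htV htp1 P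
        (fun i => ⟨_, rfl⟩) b hb hb')
      s hs hsec ι A φ hφ xv (fun v => (hD v t (xv v)).1 (hxv v))
      (fun v i => by rw [haev]; exact hxv0 v _ (hndvd i)) {X.P}
      (fun v hv i => by
        rw [haev]
        exact hxv2 v (fun h => hv (by rw [h]; exact Finset.mem_singleton_self _)) _ (hndvd i))
    have hc1 : c = -1 := by
      apply (algebraMap F (X.P.adicCompletion F)).injective
      rw [← hc, hxvP X.P rfl, map_neg, map_one]
    rw [hc w, hc1, map_neg, map_one, hodd.neg_one_pow, neg_neg]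
  · have h1 : (D.pl w).Has (-(r ^ p)) (-(xv w ^ p)) := by
      rw [← htr']
      exact ((hxv w).pow p).neg
    exact (hD w _ _).1 h1

end Pool.Agent.Lib.MP_2f3286_ag.Fer
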