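import Pool.Agent.Lib.MP_2f3286_ag.Fer.FullF
import Pool.Agent.Lib.MP_2f3286_ag.Fer.DE
import Pool.Agent.Lib.MP_2f3286_ag.Fer.LocExt
import Pool.Agent.Lib.MP_2f3286_ag.KSplit

/-!
# The local places of a section over a subfield of the cyclotomic field
-/

open IsDedekindDomain NumberField
open scoped WithZero
open Pool.Agent.Lib.MP_2f3286_bir (IsPlaceOf)

namespace Pool.Agent.Lib.MP_2f3286_ag.Fer

theorem mem_of_pow {M : Type*} [Field M] (V : ValuationSubring M) {x : M} {n : ℕ} (hn : n ≠ 0)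
    (h : x ^ n ∈ V) : x ∈ V := by
  rw [← V.valuation_le_one_iff] at h ⊢
  rw [map_pow] at h
  exact (pow_le_one_iff hn).1 h

theorem loc_k {p : ℕ} {F : Type} [Field F] [NumberField F] (X : Stp p F)
    (hdeg : Module.finrank ℚ F ≤ p - 1)
    {k : Type*} [Field k] [NumberField k] [Algebra k F]
    {K : Type*} [Field K] [Algebra k K] (htr : Algebra.trdeg k K = 1)
    {M : Type*} [Field M] [Algebra K M] [Algebra.IsAlgebraic K M]
    [Algebra (AlgebraicClosure k) M] [Algebra k M]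
    [IsScalarTower k K M] [IsScalarTower k (AlgebraicClosure k) M]
    [Algebra F (AlgebraicClosure k)] [IsScalarTower k F (AlgebraicClosure k)]
    (𝒱 : Set (ValuationSubring M))
    (h𝒱 : ∀ V ∈ 𝒱, ∀ a : AlgebraicClosure k, algebraMap (AlgebraicClosure k) M a ∈ V)
    (hrad : ∀ ρ : M, ρ ≠ 0 → (∀ V ∈ 𝒱, ∃ y : M, y ≠ 0 ∧ V.valuation ρ = V.valuation y ^ p) →
      ∃ β : M, β ^ p = ρ)
    (s : Gal(AlgebraicClosure k/k) →* Gal(M/K)) (hs : Continuous s)
    (hsec : ∀ σ a, s σ (algebraMap (AlgebraicClosure k) M a) =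
      algebraMap (AlgebraicClosure k) M (σ a))
    (ι : ∀ v : HeightOneSpectrum (𝓞 k),
      AlgebraicClosure k →ₐ[k] AlgebraicClosure (v.adicCompletion k))
    (A' : HeightOneSpectrum (𝓞 k) → ValuationSubring M)
    (φ : ∀ v : HeightOneSpectrum (𝓞 k), A' v →+* AlgebraicClosure (v.adicCompletion k))
    (hφ : ∀ v, IsPlaceOf s (v.adicCompletion k)
      (ι v : _ →+* AlgebraicClosure (v.adicCompletion k)) (A' v) (φ v))
    (x y : M) (hfx : ∀ σ : Gal(AlgebraicClosure k/k),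
      (∀ a : F, σ (algebraMap F _ a) = algebraMap F _ a) → s σ x = x)
    (hfy : ∀ σ : Gal(AlgebraicClosure k/k),
      (∀ a : F, σ (algebraMap F _ a) = algebraMap F _ a) → s σ y = y)
    (hx : ∀ c : AlgebraicClosure k, x ≠ algebraMap _ M c) (A : K) (hxA : x ^ p = algebraMap K M A)
    (hyA : y ^ p = algebraMap K M (1 - A)) :
    ∃ B : K, (B = A ∨ B = 1 - A ∨ B = 1 - A⁻¹) ∧ ∀ v : HeightOneSpectrum (𝓞 k),
      ∃ u : v.adicCompletion k, Valued.v u = (1 : ℤᵐ⁰) ∧ ((p : 𝓞 k) ∈ v.asIdeal → u = 1) ∧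
        ((∀ n : ℕ, 1 ≤ n → ∀ ρ : M, ρ ≠ 0 →
            (∀ V ∈ 𝒱, ∃ y : M, y ≠ 0 ∧ V.valuation ρ = V.valuation y ^ n) → ∃ β : M, β ^ n = ρ) →
          (∀ V ∈ 𝒱, algebraMap K M A ∈ V ∧ (algebraMap K M A)⁻¹ ∈ V ∧
            (algebraMap K M (1 - A))⁻¹ ∈ V) → u = 1) ∧
        ∃ h : algebraMap K M B ∈ A' v, φ v ⟨_, h⟩ = algebraMap _ _ u := by
  classical
  have hp := X.hp
  have hp0 : p ≠ 0 := hp.ne_zero
  have hodd : Odd p := hp.odd_of_ne_two X.h2
  have hxy : x ^ p + y ^ p = 1 := by rw [hxA, hyA, map_sub, map_one]; ring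
  have hx0 : x ≠ 0 := by
    intro h0
    exact hx 0 (by rw [h0, map_zero])
  have hfin : FiniteDimensional k F := FiniteDimensional.right ℚ k F
  have hkF : Algebra.IsAlgebraic k F := inferInstance
  have hFk : Algebra.IsAlgebraic F (AlgebraicClosure k) :=
    Algebra.IsAlgebraic.tower_top (K := k) F
  have : IsAlgClosure F (AlgebraicClosure k) := ⟨inferInstance, inferInstance⟩
  let e : AlgebraicClosure F ≃ₐ[F] AlgebraicClosure k :=
    IsAlgClosure.equiv F (AlgebraicClosure F) (AlgebraicClosure k)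
  letI iFb : Algebra (AlgebraicClosure F) M :=
    ((algebraMap (AlgebraicClosure k) M).comp (e : _ →+* AlgebraicClosure k)).toAlgebra
  letI iFM : Algebra F M :=
    ((algebraMap (AlgebraicClosure k) M).comp (algebraMap F (AlgebraicClosure k))).toAlgebra
  have t0 : IsScalarTower F (AlgebraicClosure k) M := IsScalarTower.of_algebraMap_eq fun _ => rfl
  have he : ∀ a : AlgebraicClosure F, algebraMap (AlgebraicClosure F) M a =
      algebraMap (AlgebraicClosure k) M (e a) := fun _ => rfl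
  have t1 : IsScalarTower F (AlgebraicClosure F) M := IsScalarTower.of_algebraMap_eq fun a => by
    rw [he, AlgEquiv.commutes, ← IsScalarTower.algebraMap_apply]
  have t3 : IsScalarTower k F M := IsScalarTower.of_algebraMap_eq fun a => by
    rw [IsScalarTower.algebraMap_apply F (AlgebraicClosure k) M,
      ← IsScalarTower.algebraMap_apply k F (AlgebraicClosure k),
      ← IsScalarTower.algebraMap_apply k (AlgebraicClosure k) M]
  letI iFL : Algebra F (Koe.fixF s F) := (Koe.toFixF s F hsec).toAlgebra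
  have t2 : IsScalarTower F (Koe.fixF s F) M := IsScalarTower.of_algebraMap_eq fun a => by
    rw [IsScalarTower.algebraMap_apply F (AlgebraicClosure k) M]
    rfl
  have hLM : Algebra.IsAlgebraic (Koe.fixF s F) M :=
    Algebra.IsAlgebraic.tower_top (K := K) (Koe.fixF s F)
  have htr' : Algebra.trdeg F (Koe.fixF s F) = 1 := Koe.trdeg_fix (k := k) (K := K) (Ω := M) htr
  have hL : ∀ σ : Gal(AlgebraicClosure k/k),
      (∀ a : F, σ (algebraMap F _ a) = algebraMap F _ a) →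
      ∀ x : Koe.fixF s F, s σ (algebraMap (Koe.fixF s F) M x) = algebraMap (Koe.fixF s F) M x :=
    fun σ hσ x => x.2 σ hσ
  have hs' := Koe.resS_continuous s e hL hs
  have hsec' : ∀ (σ : Gal(AlgebraicClosure F/F)) (a : AlgebraicClosure F),
      Koe.resS s e hL σ (algebraMap (AlgebraicClosure F) M a) =
        algebraMap (AlgebraicClosure F) M (σ a) := by
    intro σ a
    rw [Koe.resS_apply, he, hsec, Koe.resG_apply, e.symm_apply_apply, he]
  have hfix : ∀ z : M, (∀ σ, Koe.resS s e hL σ z = z) →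
      ∃ y : Koe.fixF s F, algebraMap (Koe.fixF s F) M y = z := by
    intro z hz
    refine ⟨⟨z, fun σ hσ => ?_⟩, rfl⟩
    obtain ⟨τ, hτ, -⟩ := Koe.resG_surj e σ hσ
    rw [← hτ, ← Koe.resS_apply s e hL τ z]
    exact hz τ
  -- the local places of `F`
  have hgal : IsGalois k (AlgebraicClosure k) := IsAlgClosure.isGalois k _
  have hw : ∀ w : HeightOneSpectrum (𝓞 F), ∃ (ι' : AlgebraicClosure F →ₐ[F]
      AlgebraicClosure (w.adicCompletion F)) (B : ValuationSubring M)
      (φ' : B →+* AlgebraicClosure (w.adicCompletion F)),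
      IsPlaceOf (Koe.resS s e hL) (w.adicCompletion F)
        (ι' : _ →+* AlgebraicClosure (w.adicCompletion F)) B φ' ∧
      ∀ v : HeightOneSpectrum (𝓞 k), w.asIdeal.LiesOver v.asIdeal →
        ∀ (z : K) (y' : w.adicCompletion F), (∃ h' : algebraMap K M z ∈ B,
          φ' ⟨_, h'⟩ = algebraMap _ _ y') →
          ∃ (h' : algebraMap K M z ∈ A' v) (y : v.adicCompletion k),
            φ v ⟨_, h'⟩ = algebraMap _ _ y ∧ (Valued.v y' = (1 : ℤᵐ⁰) → Valued.v y = (1 : ℤᵐ⁰)) ∧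
              (y' = 1 → y = 1) := by
    intro w
    have hw1 : w.asIdeal.LiesOver (w.under (𝓞 k)).asIdeal := ⟨rfl⟩
    obtain ⟨ι', B, φ', h1, j₀, h2, h3⟩ :=
      exists_local_val s hsec e he hL (w.under (𝓞 k)) w _ _ _ (hφ (w.under (𝓞 k)))
    refine ⟨ι', B, φ', h1, fun v hv => ?_⟩
    have hvw : v = w.under (𝓞 k) := by
      apply HeightOneSpectrum.ext
      exact hv.over
    subst hvw
    intro z y' hy'
    obtain ⟨h4, y, h5, h6⟩ := h3 z y' hy'
    refine ⟨h4, y, h5, fun h7 => h2 y (by rw [h6]; exact h7), fun h7 => ?_⟩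
    apply j₀.injective
    rw [h6, h7, map_one]
  choose ι' B φ' hB hBv using hw
  obtain ⟨r, hr, hval⟩ := loc_F X hdeg htr' 𝒱 (fun V hV a => h𝒱 V hV _) hrad (Koe.resS s e hL) hs'
    hsec' hfix ι' B φ' hB ⟨x, hfx⟩ ⟨y, hfy⟩ (fun c hc => by
      apply hx (algebraMap F (AlgebraicClosure k) c)
      have h4 := congrArg (algebraMap (Koe.fixF s F) M) hc
      rw [← IsScalarTower.algebraMap_apply F (Koe.fixF s F) M] at h4
      rw [← IsScalarTower.algebraMap_apply F (AlgebraicClosure k) M]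
      exact h4) (Subtype.ext hxy)
  have hxp : x ^ p ≠ 0 := pow_ne_zero _ hx0
  have hrB : ∃ C : K, (C = A ∨ C = 1 - A ∨ C = 1 - A⁻¹) ∧
      algebraMap (Koe.fixF s F) M (-(r ^ p)) = algebraMap K M C := by
    rcases hr with hr | hr | hr
    · refine ⟨A, Or.inl rfl, ?_⟩
      rw [hr, hodd.neg_pow, neg_neg, ← hxA]
      rfl
    · refine ⟨1 - A, Or.inr (Or.inl rfl), ?_⟩
      rw [hr, hodd.neg_pow, neg_neg, ← hyA]
      rfl
    · refine ⟨1 - A⁻¹, Or.inr (Or.inr rfl), ?_⟩
      rw [hr, map_sub, map_one, map_inv₀, ← hxA, map_neg, map_pow, map_div₀, div_pow]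
      change -(y ^ p / x ^ p) = 1 - (x ^ p)⁻¹
      field_simp
      linear_combination -hxy
  obtain ⟨C, hC, hrC⟩ := hrB
  refine ⟨C, hC, fun v => ?_⟩
  -- a prime above `v`
  obtain ⟨w, hwv⟩ := exists_prime_over (E := F) v
  obtain ⟨u', hu1, hu2, hu3, hu4⟩ := hval w
  rw [hrC] at hu4
  obtain ⟨h4, u, h5, h6, h7⟩ := hBv w v hwv C u' hu4
  refine ⟨u, h6 hu1, fun hpv => h7 (hu2 ?_), fun hn hV => h7 (hu3 hn fun V hV' => ?_), h4, h5⟩
  · by_contra hne
    apply X.away w hne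
    have h1 := (Ideal.mem_of_liesOver w.asIdeal v.asIdeal ((p : 𝓞 k))).1 hpv
    rwa [map_natCast] at h1
  · obtain ⟨v1, v2, v3⟩ := hV V hV'
    have v4 : algebraMap K M (1 - A) ∈ V := by
      rw [map_sub, map_one]
      exact sub_mem (one_mem V) v1
    refine ⟨?_, ?_, ?_, ?_⟩
    · apply mem_of_pow V hp0
      change x ^ p ∈ V
      rw [hxA]
      exact v1
    · apply mem_of_pow V hp0
      rw [inv_pow]
      change (x ^ p)⁻¹ ∈ V
      rw [hxA]
      exact v2
    · apply mem_of_pow V hp0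
      change y ^ p ∈ V
      rw [hyA]
      exact v4
    · apply mem_of_pow V hp0
      rw [inv_pow]
      change (y ^ p)⁻¹ ∈ V
      rw [hyA]
      exact v3

end Pool.Agent.Lib.MP_2f3286_ag.Fer
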