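import Pool.Agent.Lib.MP_2f3286_ag.Fer.FullK
import Pool.Agent.Lib.MP_2f3286_ag.Fer.Fin
import Pool.Agent.Lib.MP_2f3286_ag.Pt.MaxUnrOver

/-!
# Sections of the fundamental group of curves above the Fermat curve of a regular exponent
-/

open IsDedekindDomain NumberField
open scoped WithZero
open Pool.Agent.Lib.MP_2f3286_bir (IsPlaceOf)

namespace Pool.Agent.Lib.MP_2f3286_ag.Fer

section

variable {k : Type*} [Field k] [NumberField k] {K : Type*} [Field K] [Algebra k K]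
  {M : Type*} [Field M] [Algebra K M] [Algebra.IsAlgebraic K M] [Algebra (AlgebraicClosure k) M]
  [Algebra k M] [IsScalarTower k K M] [IsScalarTower k (AlgebraicClosure k) M]
  (s : Gal(AlgebraicClosure k/k) →* Gal(M/K)) (hs : Continuous s)
  (hsec : ∀ σ a, s σ (algebraMap (AlgebraicClosure k) M a) =
    algebraMap (AlgebraicClosure k) M (σ a))

omit [Algebra.IsAlgebraic K M] in
include hsec in
/-- a function which is not constant is not algebraic over `k` -/
theorem not_const_M {A : K} (hA : ∀ c : k, A ≠ algebraMap k K c) (c : AlgebraicClosure k) :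
    algebraMap K M A ≠ algebraMap (AlgebraicClosure k) M c := by
  intro h
  have h1 : IsAlgebraic k A := by
    have h2 : IsAlgebraic k (algebraMap (AlgebraicClosure k) M c) :=
      (Algebra.IsAlgebraic.isAlgebraic c).algebraMap
    rw [← h] at h2
    exact (isAlgebraic_algebraMap_iff (algebraMap K M).injective).1 h2
  obtain ⟨a, ha⟩ := const_of_algebraic s hsec h1
  exact hA a ha

include hs hsec in
/-- step zero for a section with local places -/
theorem exists_roots_M {p : ℕ} (hp : p.Prime)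
    (𝒱 : Set (ValuationSubring M))
    (h𝒱 : ∀ V ∈ 𝒱, ∀ a : AlgebraicClosure k, algebraMap (AlgebraicClosure k) M a ∈ V)
    (hrad : ∀ ρ : M, ρ ≠ 0 → (∀ V ∈ 𝒱, ∃ y : M, y ≠ 0 ∧ V.valuation ρ = V.valuation y ^ p) →
      ∃ β : M, β ^ p = ρ)
    (hloc : ∀ v : HeightOneSpectrum (𝓞 k),
      ∃ (ι : AlgebraicClosure k →ₐ[k] AlgebraicClosure (v.adicCompletion k))
      (A : ValuationSubring M) (φ : A →+* AlgebraicClosure (v.adicCompletion k)),
      IsPlaceOf s (v.adicCompletion k)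
        (ι : _ →+* AlgebraicClosure (v.adicCompletion k)) A φ)
    (hpow : ∀ c : k, c ≠ 0 → (∀ w : HeightOneSpectrum (𝓞 k), PV p w c) → ∃ d : k, d ^ p = c)
    {A B : K} (hA : ∀ c : k, A ≠ algebraMap k K c) {a b : ℤ} (ha : ¬ (p : ℤ) ∣ a)
    (hb : ¬ (p : ℤ) ∣ b) (hab : ¬ (p : ℤ) ∣ a + b) (h : A ^ a * (1 - A) ^ b = B ^ p) :
    ∃ x y : M, (∀ σ, s σ x = x) ∧ (∀ σ, s σ y = y) ∧ x ^ p = algebraMap K M A ∧
      y ^ p = algebraMap K M (1 - A) := by
  let L : IntermediateField K M :=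
    { carrier := {x | ∀ σ, s σ x = x}
      mul_mem' := fun ha hb σ => by rw [map_mul, ha σ, hb σ]
      add_mem' := fun ha hb σ => by rw [map_add, ha σ, hb σ]
      algebraMap_mem' := fun a σ => (s σ).commutes a
      inv_mem' := fun a ha σ => by rw [map_inv₀, ha σ] }
  let iL : Algebra k L := ((algebraMap K L).comp (algebraMap k K)).toAlgebra
  have t1 : IsScalarTower k L M := IsScalarTower.of_algebraMap_eq fun a => by
    rw [IsScalarTower.algebraMap_apply k K M]; rfl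
  choose ι A' φ hφ using hloc
  obtain ⟨D, -⟩ := exists_data_gen (L := L) hp.ne_zero 𝒱 (fun V hV a => by
      rw [IsScalarTower.algebraMap_apply k (AlgebraicClosure k) M]
      exact h𝒱 V hV _) hrad s hs hsec (fun x σ => x.2 σ)
    (fun x hx => ⟨⟨x, hx⟩, rfl⟩) ι A' φ hφ
  have h2 : ∀ c : k, algebraMap K L A ≠ algebraMap k L c := by
    intro c hc
    exact hA c ((algebraMap K L).injective hc)
  have h3 : (algebraMap K L A) ^ a * (1 - algebraMap K L A) ^ b = (algebraMap K L B) ^ p := by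
    rw [← map_one (algebraMap K L), ← map_sub, ← map_zpow₀, ← map_zpow₀, ← map_mul, h, map_pow]
  obtain ⟨x, y, hx, hy⟩ := step_zero hp D hpow h2 ha hb hab h3
  refine ⟨x, y, x.2, y.2, ?_, ?_⟩
  · have h4 := congrArg (algebraMap L M) hx
    exact h4
  · have h4 := congrArg (algebraMap L M) hy
    rw [map_sub, map_one]
    exact h4

end

/-- **Sections with local places: the values of one of the functions `A`, `1 - A`, `1 - 1 / A` at the
local places of a section of a curve above a Fermat curve of regular exponent.** -/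
theorem fermat_loc {p : ℕ} (hp : p.Prime) (h2 : p ≠ 2)
    (hh : ¬ p ∣ classNumber (CyclotomicField p ℚ))
    {k : Type*} [Field k] [NumberField k] [Algebra k (CyclotomicField p ℚ)]
    {K : Type*} [Field K] [Algebra k K] (htr : Algebra.trdeg k K = 1)
    {M : Type*} [Field M] [Algebra K M] [Algebra.IsAlgebraic K M]
    [Algebra (AlgebraicClosure k) M] [Algebra k M]
    [IsScalarTower k K M] [IsScalarTower k (AlgebraicClosure k) M]
    (𝒱 : Set (ValuationSubring M))
    (h𝒱 : ∀ V ∈ 𝒱, ∀ a : AlgebraicClosure k, algebraMap (AlgebraicClosure k) M a ∈ V)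
    (hrad : ∀ ρ : M, ρ ≠ 0 → (∀ V ∈ 𝒱, ∃ y : M, y ≠ 0 ∧ V.valuation ρ = V.valuation y ^ p) →
      ∃ β : M, β ^ p = ρ)
    (A : K) (hA : ∀ c : k, A ≠ algebraMap k K c)
    (h : (∃ x y : K, x ^ p = A ∧ y ^ p = 1 - A) ∨
      ((∀ u : (𝓞 k)ˣ, ∃ v : (𝓞 k)ˣ, v ^ p = u) ∧ ∃ (a b : ℤ) (B : K), ¬ (p : ℤ) ∣ a ∧
        ¬ (p : ℤ) ∣ b ∧ ¬ (p : ℤ) ∣ a + b ∧ A ^ a * (1 - A) ^ b = B ^ p))
    (s : Gal(AlgebraicClosure k/k) →* Gal(M/K)) (hs : Continuous s)
    (hsec : ∀ σ a, s σ (algebraMap (AlgebraicClosure k) M a) =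
      algebraMap (AlgebraicClosure k) M (σ a))
    (ι : ∀ v : HeightOneSpectrum (𝓞 k),
      AlgebraicClosure k →ₐ[k] AlgebraicClosure (v.adicCompletion k))
    (A' : HeightOneSpectrum (𝓞 k) → ValuationSubring M)
    (φ : ∀ v : HeightOneSpectrum (𝓞 k), A' v →+* AlgebraicClosure (v.adicCompletion k))
    (hφ : ∀ v, IsPlaceOf s (v.adicCompletion k)
      (ι v : _ →+* AlgebraicClosure (v.adicCompletion k)) (A' v) (φ v)) :
    ∃ B : K, (B = A ∨ B = 1 - A ∨ B = 1 - A⁻¹) ∧ ∀ v : HeightOneSpectrum (𝓞 k),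
      ∃ u : v.adicCompletion k, Valued.v u = (1 : ℤᵐ⁰) ∧ ((p : 𝓞 k) ∈ v.asIdeal → u = 1) ∧
        ((∀ n : ℕ, 1 ≤ n → ∀ ρ : M, ρ ≠ 0 →
            (∀ V ∈ 𝒱, ∃ y : M, y ≠ 0 ∧ V.valuation ρ = V.valuation y ^ n) → ∃ β : M, β ^ n = ρ) →
          (∀ V ∈ 𝒱, algebraMap K M A ∈ V ∧ (algebraMap K M A)⁻¹ ∈ V ∧
            (algebraMap K M (1 - A))⁻¹ ∈ V) → u = 1) ∧
        ∃ h : algebraMap K M B ∈ A' v, φ v ⟨_, h⟩ = algebraMap _ _ u := by
  have : NeZero p := ⟨hp.ne_zero⟩
  have hcyc := cycl p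
  obtain ⟨X⟩ := exists_stp (F := CyclotomicField p ℚ) hp h2 hh
  have hdeg : Module.finrank ℚ (CyclotomicField p ℚ) = p - 1 := by
    rw [IsCyclotomicExtension.Rat.finrank p, Nat.totient_prime hp]
  let e : CyclotomicField p ℚ →ₐ[k] AlgebraicClosure k :=
    have : Algebra.IsAlgebraic k (CyclotomicField p ℚ) := by
      have : FiniteDimensional k (CyclotomicField p ℚ) := FiniteDimensional.right ℚ k _
      infer_instance
    IsAlgClosed.lift
  let iF : Algebra (CyclotomicField p ℚ) (AlgebraicClosure k) := (e : _ →+* _).toAlgebra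
  have t1 : IsScalarTower k (CyclotomicField p ℚ) (AlgebraicClosure k) :=
    IsScalarTower.of_algebraMap_eq fun a => (e.commutes a).symm
  -- the functions `x` and `y`
  have h3 : ∃ x y : M, (∀ σ, s σ x = x) ∧ (∀ σ, s σ y = y) ∧ x ^ p = algebraMap K M A ∧
      y ^ p = algebraMap K M (1 - A) := by
    rcases h with ⟨x, y, hx, hy⟩ | ⟨hu, a, b, B, ha, hb, hab, hB⟩
    · exact ⟨algebraMap K M x, algebraMap K M y, fun σ => (s σ).commutes x,
        fun σ => (s σ).commutes y, by rw [← map_pow, hx], by rw [← map_pow, hy]⟩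
    · refine exists_roots_M s hs hsec hp 𝒱 h𝒱 hrad (fun v => ⟨ι v, A' v, φ v, hφ v⟩)
        (fun c hc hw => k_pow hp hh ?_ hu hc hw) hA ha hb hab hB
      intro hd
      have h4 : Module.finrank ℚ k * Module.finrank k (CyclotomicField p ℚ) = p - 1 := by
        rw [Module.finrank_mul_finrank, hdeg]
      have h5 : p ∣ p - 1 := h4 ▸ Dvd.dvd.mul_left hd _
      have h6 := hp.two_le
      exact absurd (Nat.le_of_dvd (by omega) h5) (by omega)
  obtain ⟨x, y, hsx, hsy, hx, hy⟩ := h3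
  have hxc : ∀ c : AlgebraicClosure k, x ≠ algebraMap _ M c := by
    intro c hc
    apply not_const_M s hsec hA (c ^ p)
    rw [← hx, hc, map_pow]
  exact loc_k X hdeg.le htr 𝒱 h𝒱 hrad s hs hsec ι A' φ hφ x y (fun σ _ => hsx σ)
    (fun σ _ => hsy σ) hxc A hx hy

/-- the set of the places of `M` at which the functions in `R` are finite -/
theorem rad_of_max {n : ℕ} {k : Type*} [Field k] [NumberField k] {K : Type*} [Field K] [Algebra k K]
    {M : Type*} [Field M] [Algebra K M] [Algebra (AlgebraicClosure k) M] (R : Subalgebra k K)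
    (h : ∀ ρ : M, ρ ≠ 0 → (∀ V : ValuationSubring M, Pt.IsPlcOver R (AlgebraicClosure k) V →
      Pt.DivAt n ρ V) → ∃ β : M, β ^ n = ρ) (ρ : M) (hρ : ρ ≠ 0)
    (hV : ∀ V ∈ {V : ValuationSubring M | Pt.IsPlcOver R (AlgebraicClosure k) V},
      ∃ y : M, y ≠ 0 ∧ V.valuation ρ = V.valuation y ^ n) : ∃ β : M, β ^ n = ρ := by
  refine h ρ hρ fun V hV' => ?_
  obtain ⟨y, hy, hρy⟩ := hV V hV'
  refine ⟨y, hy, ?_⟩
  rw [map_mul, map_inv₀, map_pow, hρy, mul_inv_cancel₀]
  exact pow_ne_zero _ (by rwa [Ne, Valuation.zero_iff])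

end Pool.Agent.Lib.MP_2f3286_ag.Fer
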