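import Pool.Agent.Lib.MP_2f3286_ag.Fer.FDef
import Pool.Agent.Lib.MP_2f3286_ag.GK.Main

/-!
# Kummer's lemma: no unramified extension of degree `p`   (module GKa)

The proof is in the folder `GK` (`FermGK.gk`).
-/

open IsDedekindDomain NumberField

namespace Pool.Agent.Lib.MP_2f3286_ag.Fer

theorem gk {p : ℕ} (hp : p.Prime) (h2 : p ≠ 2) {F : Type*} [Field F] [NumberField F] {ζ : F}
    (hζ : IsPrimitiveRoot ζ p) (hh : ¬ p ∣ classNumber F) {c : F} (hc : c ≠ 0)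
    (h : ∀ w : HeightOneSpectrum (𝓞 F), PV p w c)
    (hP : ∀ w : HeightOneSpectrum (𝓞 F), (p : 𝓞 F) ∈ w.asIdeal →
      w.valuation F (c - 1) ≤ w.valuation F (ζ - 1) ^ p) : ∃ d : F, d ^ p = c := by
  refine FermGK.gk hp h2 hζ ((Nat.Prime.coprime_iff_not_dvd hp).mpr hh) hc (fun w _ => ?_)
    (fun w hw => ?_)
  · obtain ⟨z, -, hz⟩ := h w
    exact ⟨z, hz⟩
  · rw [Valuation.map_sub_swap _ (1 : F) ζ]
    exact hP w hw

end Pool.Agent.Lib.MP_2f3286_ag.Fer
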