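import Pool.Agent.Lib.MP_2f3286_ag.Fer.UCls

/-!
# Hilbert 90 for units   (module HilU, 70 minutes)

PROOF. The Galois group is cyclic of prime order `p`, generated by `σ ≠ 1`. Hilbert 90 for the cyclic extension `N / F`: there is `a`
in `N`, `a ≠ 0`, with `σ a = u a` (Mathlib: file Mathlib/RepresentationTheory/.../Hilbert90.lean,
`exists_div_of_norm_eq_one` or similar; or directly: `τ = σ ^ i ↦ u σ(u) ... σ^(i-1)(u)` is a cocycle;
or by Dedekind independence: `a = (∑ i < p, (∏_{l < i} σ ^ l u) σ ^ i x)⁻¹` for suitable `x`). Multiply `a` by a nonzero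
integer: `a` in `𝓞 N`. `I = (a)` is invariant under `σ` (`u` a unit), so under the group (all `τ` are powers of
`σ`); by `hdesc`, `I = J 𝓞 N`. `J ≠ 0`. Let `n = Algebra.norm` of `a` in `𝓞 F`
(`RingOfIntegers.norm F a`): its image in `N` is `∏ τ a = a ^ p` times a unit (each `σ ^ i a` is a unit times `a`), so
`(n) 𝓞 N = (a) ^ p = (J ^ p) 𝓞 N`, so `(n) = J ^ p` (extension of ideals is injective:
`Ideal.comap_map_eq_self_of_...`, or `J ^ p` and `(n)` have the same image; Mathlib has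
`Ideal.map_injective_of_...` for faithfully flat or Dedekind; or compare multiplicities). By `ideal_class` `J = (b)`. So `(a) = (b)` in
`𝓞 N`: `a = b e` with a unit `e`, and `σ e = σ a / b = u a / b = u e`.
-/

open IsDedekindDomain NumberField

namespace Pool.Agent.Lib.MP_2f3286_ag.Fer

/-- Hilbert 90, the element -/
private theorem HilU_elt {p : ℕ} {F N : Type*} [Field F] [Field N] [Algebra F N]
    [FiniteDimensional F N] [IsGalois F N] {σ : Gal(N/F)} (hord : orderOf σ = p) (hp : 0 < p)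
    (hgen : ∀ τ : Gal(N/F), τ ∈ Subgroup.zpowers σ) (u : N) (hu : Algebra.norm F u = 1) :
    ∃ a : N, a ≠ 0 ∧ σ a = u * a := by
  classical
  have hu0 : u ≠ 0 := by
    rintro rfl
    rw [Algebra.norm_zero] at hu
    exact zero_ne_one hu
  -- the partial norms
  set c : ℕ → N := fun i => ∏ l ∈ Finset.range i, (σ ^ l) u with hc
  have hc0 : c 0 = 1 := Finset.prod_range_zero _
  have hcs : ∀ i, c (i + 1) = u * σ (c i) := by
    intro i
    change ∏ l ∈ Finset.range (i + 1), (σ ^ l) u = u * σ (∏ l ∈ Finset.range i, (σ ^ l) u)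
    rw [Finset.prod_range_succ', map_prod, mul_comm]
    congr 1
    refine Finset.prod_congr rfl fun l _ => ?_
    rw [pow_succ', AlgEquiv.mul_apply]
  have hcp : c p = 1 := by
    have h1 := Algebra.norm_eq_prod_automorphisms (K := F) (L := N) u
    rw [hu, map_one] at h1
    rw [h1]
    change ∏ l ∈ Finset.range p, (σ ^ l) u = _
    rw [← IsCyclic.image_range_orderOf hgen, hord, Finset.prod_image]
    intro i hi j hj hij
    rw [Finset.coe_range, Set.mem_Iio] at hi hj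
    exact pow_injOn_Iio_orderOf (by rwa [Set.mem_Iio, hord]) (by rwa [Set.mem_Iio, hord]) hij
  have hcne : ∀ i, c i ≠ 0 := by
    intro i
    refine Finset.prod_ne_zero_iff.2 fun l _ => ?_
    exact (map_ne_zero_iff _ (σ ^ l).injective).2 hu0
  -- a nonzero value of the resolvent
  obtain ⟨x, hx⟩ : ∃ x : N, ∑ i ∈ Finset.range p, c i * (σ ^ i) x ≠ 0 := by
    by_contra hcon
    push Not at hcon
    have hli : LinearIndependent N (fun i : Fin p => ((σ ^ (i : ℕ) : Gal(N/F)) : N → N)) := by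
      refine LinearIndependent.comp (linearIndependent_monoidHom N N)
        (fun i : Fin p => ((σ ^ (i : ℕ) : Gal(N/F)) : N →* N)) ?_
      intro i j hij
      have h1 : σ ^ (i : ℕ) = σ ^ (j : ℕ) := by
        ext y
        exact DFunLike.congr_fun hij y
      have h2 := pow_injOn_Iio_orderOf (x := σ) (by rw [Set.mem_Iio, hord]; exact i.2)
        (by rw [Set.mem_Iio, hord]; exact j.2) h1
      exact Fin.ext h2
    have h1 := (Fintype.linearIndependent_iff.1 hli) (fun i => c i) (by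
      funext y
      rw [Finset.sum_apply]
      have h2 := hcon y
      rw [← Fin.sum_univ_eq_sum_range (fun i => c i * (σ ^ i) y) p] at h2
      exact h2)
    exact hcne 0 (h1 ⟨0, hp⟩)
  refine ⟨(∑ i ∈ Finset.range p, c i * (σ ^ i) x)⁻¹, inv_ne_zero hx, ?_⟩
  have hS : u * σ (∑ i ∈ Finset.range p, c i * (σ ^ i) x) =
      ∑ i ∈ Finset.range p, c i * (σ ^ i) x := by
    rw [map_sum, Finset.mul_sum]
    have h1 : ∀ i ∈ Finset.range p, u * σ (c i * (σ ^ i) x) =
        (fun i => c i * (σ ^ i) x) (i + 1) := by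
      intro i _
      change u * σ (c i * (σ ^ i) x) = c (i + 1) * (σ ^ (i + 1)) x
      rw [map_mul, hcs, pow_succ' σ i, AlgEquiv.mul_apply]
      ring
    rw [Finset.sum_congr rfl h1]
    have h2 := Finset.sum_range_succ' (fun i => c i * (σ ^ i) x) p
    have h3 := Finset.sum_range_succ (fun i => c i * (σ ^ i) x) p
    have h4 : c p * (σ ^ p) x = c 0 * (σ ^ 0) x := by
      rw [hcp, hc0, ← hord, pow_orderOf_eq_one, pow_zero]
    rw [h3, h4] at h2
    exact (add_right_cancel h2).symm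
  rw [map_inv₀]
  have hσS : σ (∑ i ∈ Finset.range p, c i * (σ ^ i) x) ≠ 0 :=
    (map_ne_zero_iff _ σ.injective).2 hx
  rw [← hS, mul_inv, ← mul_assoc, mul_inv_cancel₀ hu0, one_mul]
  rw [hS]

theorem hil_unit {p : ℕ} (hp : p.Prime) {F N : Type*} [Field F] [NumberField F] [Field N]
    [NumberField N] [Algebra F N] [IsGalois F N] (hcard : Nat.card Gal(N/F) = p)
    {σ : Gal(N/F)} (hσ : σ ≠ 1) (hh : ¬ p ∣ classNumber F)
    (hdesc : ∀ I : Ideal (𝓞 N), I ≠ ⊥ →
      (∀ (τ : Gal(N/F)) (x y : 𝓞 N), (y : N) = τ x → x ∈ I → y ∈ I) →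
      ∃ J : Ideal (𝓞 F), J.map (algebraMap (𝓞 F) (𝓞 N)) = I)
    (u : (𝓞 N)ˣ) (hu : Algebra.norm F (((u : 𝓞 N) : N)) = 1) :
    ∃ e : (𝓞 N)ˣ, σ ((e : 𝓞 N) : N) = ((u : 𝓞 N) : N) * ((e : 𝓞 N) : N) := by
  have hord : orderOf σ = p := by
    have h1 : orderOf σ ∣ p := by
      rw [← hcard]
      exact orderOf_dvd_natCard σ
    rcases (Nat.dvd_prime hp).1 h1 with h2 | h2
    · exact absurd (orderOf_eq_one_iff.1 h2) hσ
    · exact h2
  have hgen : ∀ τ : Gal(N/F), τ ∈ Subgroup.zpowers σ := by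
    intro τ
    have h1 : Subgroup.zpowers σ = ⊤ := by
      apply Subgroup.eq_top_of_card_eq
      rw [Nat.card_zpowers, hord, hcard]
    rw [h1]
    exact Subgroup.mem_top τ
  obtain ⟨a0, ha0, ha1⟩ := HilU_elt hord hp.pos hgen _ hu
  -- an integral multiple
  obtain ⟨d, hd0, hd⟩ := ((IsFractionRing.isAlgebraic_iff ℤ ℚ N).mpr
    (Algebra.IsAlgebraic.isAlgebraic (R := ℚ) a0)).exists_integral_multiple
  set a : 𝓞 N := ⟨d • a0, hd⟩ with ha
  have hac : (a : N) = (d : N) * a0 := by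
    change d • a0 = _
    rw [zsmul_eq_mul]
  have hdN : (d : N) ≠ 0 := by exact_mod_cast hd0
  have ha_ne : a ≠ 0 := by
    intro h
    have h1 : (a : N) = 0 := by rw [h]; rfl
    rw [hac] at h1
    exact mul_ne_zero hdN ha0 h1
  have hσa : σ (a : N) = ((u : 𝓞 N) : N) * (a : N) := by
    rw [hac, map_mul, ha1, map_intCast]
    ring
  -- the ring automorphism
  set g : 𝓞 N ≃ₐ[𝓞 F] 𝓞 N := galRestrict (𝓞 F) F N (𝓞 N) σ with hg
  have hgc : ∀ x : 𝓞 N, ((g x : 𝓞 N) : N) = σ (x : N) := fun x =>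
    algebraMap_galRestrict_apply (𝓞 F) σ x
  have hga : g a = (u : 𝓞 N) * a := by
    apply RingOfIntegers.coe_injective
    change ((g a : 𝓞 N) : N) = (((u : 𝓞 N) * a : 𝓞 N) : N)
    rw [hgc, hσa]
    exact (map_mul (algebraMap (𝓞 N) N) _ _).symm
  -- the ideal of `a` is invariant
  have hinv1 : ∀ x ∈ Ideal.span {a}, g x ∈ Ideal.span {a} := by
    intro x hx
    rw [Ideal.mem_span_singleton'] at hx ⊢
    obtain ⟨r, rfl⟩ := hx
    exact ⟨g r * u, by rw [map_mul, hga, mul_assoc]⟩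
  have hinv2 : ∀ i : ℕ, ∀ x ∈ Ideal.span {a}, (g ^ i) x ∈ Ideal.span {a} := by
    intro i
    induction i with
    | zero => intro x hx; rw [pow_zero]; exact hx
    | succ i ih => intro x hx; rw [pow_succ', AlgEquiv.mul_apply]; exact hinv1 _ (ih x hx)
  have hgpow : ∀ (i : ℕ) (x : 𝓞 N), (((g ^ i) x : 𝓞 N) : N) = (σ ^ i) (x : N) := by
    intro i
    induction i with
    | zero => intro x; rw [pow_zero, pow_zero]; rfl
    | succ i ih =>
      intro x
      rw [pow_succ', pow_succ', AlgEquiv.mul_apply, AlgEquiv.mul_apply, hgc, ih]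
  have hI0 : Ideal.span {a} ≠ ⊥ := by
    rw [Ne, Ideal.span_singleton_eq_bot]
    exact ha_ne
  obtain ⟨J, hJ⟩ := hdesc (Ideal.span {a}) hI0 (by
    intro τ x y hy hx
    obtain ⟨i, hi⟩ := (mem_powers_iff_mem_zpowers.2 (hgen τ) : τ ∈ Submonoid.powers σ)
    have h1 : y = (g ^ i) x := by
      apply RingOfIntegers.coe_injective
      change (y : N) = (((g ^ i) x : 𝓞 N) : N)
      rw [hgpow, hy]
      have h2 : σ ^ i = τ := hi
      rw [h2]
    rw [h1]
    exact hinv2 i x hx)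
  have hJ0 : J ≠ ⊥ := by
    rintro rfl
    rw [Ideal.map_bot] at hJ
    exact hI0 hJ.symm
  -- the `p`-th power of `J` is principal
  have hfin : Module.finrank (𝓞 F) (𝓞 N) = p := by
    rw [← IsFractionRing.finrank_eq (𝓞 F) F (𝓞 N) N, ← IsGalois.card_aut_eq_finrank, hcard]
  have hJp : J ^ p = Ideal.span {Algebra.intNorm (𝓞 F) (𝓞 N) a} := by
    rw [← Ideal.relNorm_singleton, ← hJ, Ideal.relNorm_algebraMap, hfin]
  obtain ⟨b, hb0, hb⟩ := ideal_class hp hh hJ0 hJp
  -- the generator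
  have hab : Ideal.span {algebraMap (𝓞 F) (𝓞 N) b} = Ideal.span {a} := by
    rw [← hJ, hb, Ideal.map_span, Set.image_singleton]
  rw [Ideal.span_singleton_eq_span_singleton] at hab
  obtain ⟨e, he⟩ := hab
  refine ⟨e, ?_⟩
  have hbN : ((algebraMap (𝓞 F) (𝓞 N) b : 𝓞 N) : N) ≠ 0 := by
    intro h
    have h1 : algebraMap (𝓞 F) (𝓞 N) b = 0 := RingOfIntegers.coe_injective h
    rw [h1, zero_mul] at he
    exact ha_ne he.symm
  have hσb : σ ((algebraMap (𝓞 F) (𝓞 N) b : 𝓞 N) : N) = ((algebraMap (𝓞 F) (𝓞 N) b : 𝓞 N) : N) := by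
    have h1 : ((algebraMap (𝓞 F) (𝓞 N) b : 𝓞 N) : N) = algebraMap F N (b : F) := rfl
    rw [h1]
    exact σ.commutes _
  have heN : ((algebraMap (𝓞 F) (𝓞 N) b : 𝓞 N) : N) * ((e : 𝓞 N) : N) = (a : N) := by
    rw [← he]
    exact (map_mul (algebraMap (𝓞 N) N) _ _).symm
  rw [← heN, map_mul, hσb] at hσa
  apply mul_left_cancel₀ hbN
  rw [hσa]
  ring

end Pool.Agent.Lib.MP_2f3286_ag.Fer
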