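import Mathlib

/-!
# Indices and kernels of compositions   (module Idx, 45 minutes)

For an endomorphism `f` of an abelian group with finite kernel and range of finite index let
`q f = index (range f) / card (ker f)`. Then `q (f ∘ g) = q f * q g`.
PROOF. `f g M ≤ f M ≤ M`: `[M : f g M] = [M : f M] [f M : f g M]` (`AddSubgroup.relIndex_mul_index`).
`f` induces an isomorphism `M / (g M + ker f) ≃ f M / f g M` (the map `M → f M / f g M` is surjective
with kernel `f⁻¹ (f (g M)) = g M + ker f`; `AddSubgroup.index_comap`, `AddSubgroup.comap_map_eq`), so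
`[f M : f g M] = [M : g M ⊔ ker f]`. `[M : g M] = [M : g M ⊔ ker f] [g M ⊔ ker f : g M]` and
`[g M ⊔ ker f : g M] = [ker f : ker f ⊓ g M]` (`AddSubgroup.relIndex_sup_right` or so), and
`card (ker f) = [ker f : ker f ⊓ g M] card (ker f ⊓ g M)`. `ker (f g) = g⁻¹ (ker f)`, and `g` maps it onto
`ker f ⊓ g M` with kernel `ker g`: `card (ker (f g)) = card (ker g) card (ker f ⊓ g M)`. Multiply.
-/

namespace Pool.Agent.Lib.MP_2f3286_ag.Fer

theorem idx_mul {M : Type*} [AddCommGroup M] (f g : M →+ M) (hf : f.range.index ≠ 0)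
    (hg : g.range.index ≠ 0) (kf : Finite f.ker) (kg : Finite g.ker) :
    (f.comp g).range.index ≠ 0 ∧ Finite (f.comp g).ker ∧
      (f.comp g).range.index * (Nat.card f.ker * Nat.card g.ker) =
        f.range.index * g.range.index * Nat.card (f.comp g).ker := by
  have h1 : (f.comp g).range.index = (g.range ⊔ f.ker).index * f.range.index := by
    rw [← AddSubgroup.index_map]
    congr 1
    ext x
    simp [AddMonoidHom.mem_range, AddSubgroup.mem_map]
  have h2 : g.range.relIndex f.ker * (g.range ⊔ f.ker).index = g.range.index := by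
    rw [← AddSubgroup.relIndex_sup_left f.ker g.range]
    exact AddSubgroup.relIndex_mul_index le_sup_left
  have h3 : Nat.card (g.range ⊓ f.ker : AddSubgroup M) * g.range.relIndex f.ker =
      Nat.card f.ker := by
    have h4 := AddSubgroup.card_mul_index (g.range.addSubgroupOf f.ker)
    have h5 : Nat.card (g.range.addSubgroupOf f.ker) = Nat.card (g.range ⊓ f.ker : AddSubgroup M) := by
      refine Nat.card_congr
        { toFun := fun x => ⟨x.1.1, AddSubgroup.mem_addSubgroupOf.1 x.2, x.1.2⟩
          invFun := fun x => ⟨⟨x.1, x.2.2⟩, AddSubgroup.mem_addSubgroupOf.2 x.2.1⟩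
          left_inv := fun x => rfl
          right_inv := fun x => rfl }
    rw [h5] at h4
    exact h4
  have h4 : Nat.card (f.comp g).ker = Nat.card g.ker * Nat.card (g.range ⊓ f.ker : AddSubgroup M) := by
    let φ : (f.comp g).ker →+ M := g.comp (f.comp g).ker.subtype
    have e1 := AddSubgroup.card_mul_index φ.ker
    rw [AddSubgroup.index_ker] at e1
    have e2 : φ.range = g.range ⊓ f.ker := by
      ext x
      constructor
      · rintro ⟨y, rfl⟩
        exact ⟨⟨y.1, rfl⟩, y.2⟩
      · rintro ⟨⟨y, rfl⟩, h⟩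
        exact ⟨⟨y, h⟩, rfl⟩
    have e3 : Nat.card φ.ker = Nat.card g.ker := by
      refine Nat.card_congr
        { toFun := fun x => ⟨x.1.1, x.2⟩
          invFun := fun x => ⟨⟨x.1, by
            have hx : g x.1 = 0 := x.2
            show f (g x.1) = 0
            rw [hx, map_zero]⟩, x.2⟩
          left_inv := fun x => rfl
          right_inv := fun x => rfl }
    rw [e3, e2] at e1
    exact e1.symm
  have h5 : (g.range ⊔ f.ker).index ≠ 0 := by
    intro h
    rw [h, mul_zero] at h2
    exact hg h2.symm
  have h6 : Finite (g.range ⊓ f.ker : AddSubgroup M) :=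
    Finite.of_injective (fun x => (⟨x.1, x.2.2⟩ : f.ker))
      (fun x y h => Subtype.ext (congrArg (fun z : f.ker => z.1) h))
  have h7 : Nat.card (f.comp g).ker ≠ 0 := by
    rw [h4]
    exact mul_ne_zero Nat.card_pos.ne' Nat.card_pos.ne'
  refine ⟨?_, Nat.finite_of_card_ne_zero h7, ?_⟩
  · rw [h1]
    exact mul_ne_zero h5 hf
  · rw [h1, h4, ← h3, ← h2]
    ring

end Pool.Agent.Lib.MP_2f3286_ag.Fer
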