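import Mathlib

/-!
# The index of `p M` for a finitely generated abelian group   (module IdxP, 50 minutes)

PROOF. `M ≃ ℤ ^ r × T` with `T` finite (`AddCommGroup.equiv_free_prod_directSum_zmod`, or
`Module.exists_finite...torsion`, or `Submodule.exists_isInternal...`), `r = finrank ℤ M`
(`finrank` of a product, of a torsion module is zero: `Module.finrank_eq_zero_of_...`, or
`Module.finrank_eq_zero_iff_isTorsion`). Index and kernel are multiplicative for products and preserved by
isomorphisms; for `ℤ` the index of `p ℤ` is `p` and the kernel trivial; for `T` finite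
`card T = card (p T) card T[p]`, so `[T : p T] = card T[p]` (first isomorphism theorem,
`AddSubgroup.card_mul_index`, `AddMonoidHom` range and kernel).
-/

namespace Pool.Agent.Lib.MP_2f3286_ag.Fer

private theorem idxp_fin {D : Type*} [AddCommGroup D] [Finite D] (p : ℕ) :
    (nsmulAddMonoidHom p : D →+ D).range.index =
      Nat.card (nsmulAddMonoidHom p : D →+ D).ker := by
  have h1 := AddSubgroup.card_mul_index (nsmulAddMonoidHom p : D →+ D).range
  have h2 := AddSubgroup.card_mul_index (nsmulAddMonoidHom p : D →+ D).ker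
  rw [AddSubgroup.index_ker] at h2
  have h3 : Nat.card (nsmulAddMonoidHom p : D →+ D).range ≠ 0 := Nat.card_pos.ne'
  rw [← h2, mul_comm] at h1
  exact Nat.eq_of_mul_eq_mul_right (Nat.pos_of_ne_zero h3) h1

private theorem idxp_free (n : ℕ) {p : ℕ} (hp : p ≠ 0) :
    (nsmulAddMonoidHom p : (Fin n →₀ ℤ) →+ (Fin n →₀ ℤ)).range.index = p ^ n ∧
      Nat.card (nsmulAddMonoidHom p : (Fin n →₀ ℤ) →+ (Fin n →₀ ℤ)).ker = 1 := by
  haveI : NeZero p := ⟨hp⟩
  constructor
  · let ψ : (Fin n →₀ ℤ) →+ (Fin n → ZMod p) :=
      { toFun := fun x i => ((x i : ℤ) : ZMod p)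
        map_zero' := by
          funext i
          simp
        map_add' := fun x y => by
          funext i
          simp }
    have h1 : (nsmulAddMonoidHom p : (Fin n →₀ ℤ) →+ (Fin n →₀ ℤ)).range = ψ.ker := by
      ext x
      constructor
      · rintro ⟨y, rfl⟩
        rw [AddMonoidHom.mem_ker]
        funext i
        show (((p • y) i : ℤ) : ZMod p) = 0
        rw [Finsupp.smul_apply, nsmul_eq_mul]
        push_cast
        rw [ZMod.natCast_self, zero_mul]
      · intro hx
        have hx' : ∀ i, (p : ℤ) ∣ x i := by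
          intro i
          have := congrFun hx i
          exact (ZMod.intCast_zmod_eq_zero_iff_dvd _ _).1 this
        choose y hy using hx'
        refine ⟨Finsupp.equivFunOnFinite.symm y, ?_⟩
        ext i
        show (p • Finsupp.equivFunOnFinite.symm y) i = x i
        rw [Finsupp.smul_apply, hy i, nsmul_eq_mul]
        simp
    have h2 : ψ.range = ⊤ := by
      rw [AddMonoidHom.range_eq_top]
      intro y
      choose x hx using fun i => ZMod.intCast_surjective (y i)
      refine ⟨Finsupp.equivFunOnFinite.symm x, ?_⟩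
      funext i
      show ((Finsupp.equivFunOnFinite.symm x i : ℤ) : ZMod p) = y i
      simp [hx i]
    rw [h1, AddSubgroup.index_ker, h2]
    simp [Nat.card_eq_fintype_card, ZMod.card]
  · rw [Nat.card_eq_one_iff_unique]
    constructor
    · constructor
      intro a b
      have key : ∀ c : (nsmulAddMonoidHom p : (Fin n →₀ ℤ) →+ (Fin n →₀ ℤ)).ker, c.1 = 0 := by
        intro c
        have hc : p • c.1 = 0 := c.2
        exact (smul_eq_zero.1 hc).resolve_left hp
      exact Subtype.ext ((key a).trans (key b).symm)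
    · exact ⟨0⟩

private theorem idxp_rank {n : ℕ} {D : Type*} [AddCommGroup D] [Finite D] :
    Module.finrank ℤ ((Fin n →₀ ℤ) × D) = n := by
  have h1 := Submodule.finrank_quotient_add_finrank (LinearMap.ker (LinearMap.fst ℤ (Fin n →₀ ℤ) D))
  have h2 := (LinearMap.quotKerEquivOfSurjective (LinearMap.fst ℤ (Fin n →₀ ℤ) D)
    LinearMap.fst_surjective).finrank_eq
  have h3 : Module.finrank ℤ (LinearMap.ker (LinearMap.fst ℤ (Fin n →₀ ℤ) D)) = 0 := by
    rw [Module.finrank_eq_zero_iff_isTorsion]
    intro x
    have hc : Nat.card D ≠ 0 := Nat.card_pos.ne'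
    refine ⟨⟨(Nat.card D : ℤ), mem_nonZeroDivisors_of_ne_zero (by exact_mod_cast hc)⟩, ?_⟩
    apply Subtype.ext
    have hx : x.1.1 = 0 := x.2
    refine Prod.ext ?_ ?_
    · show (Nat.card D : ℤ) • x.1.1 = 0
      rw [hx, smul_zero]
    · show (Nat.card D : ℤ) • x.1.2 = 0
      rw [natCast_zsmul]
      exact card_nsmul_eq_zero'
  rw [h2, h3, add_zero] at h1
  rw [← h1]
  simp

private theorem idxp_main {M D : Type*} [AddCommGroup M] [AddCommGroup D] [Finite D] {n : ℕ}
    (f : M ≃+ (Fin n →₀ ℤ) × D) {p : ℕ} (hp : p ≠ 0) :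
    (nsmulAddMonoidHom p : M →+ M).range.index ≠ 0 ∧
      Finite (nsmulAddMonoidHom p : M →+ M).ker ∧
      (nsmulAddMonoidHom p : M →+ M).range.index =
        p ^ Module.finrank ℤ M * Nat.card (nsmulAddMonoidHom p : M →+ M).ker := by
  have hr : Module.finrank ℤ M = n := by
    rw [LinearEquiv.finrank_eq f.toIntLinearEquiv]
    exact idxp_rank
  obtain ⟨h1, h2⟩ := idxp_free n hp
  have h3 := idxp_fin (D := D) p
  have h4 : (nsmulAddMonoidHom p : M →+ M).range.index = p ^ n *
      (nsmulAddMonoidHom p : D →+ D).range.index := by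
    rw [← h1, ← AddSubgroup.index_prod, ← AddSubgroup.index_comap_of_surjective _
      (f := f.toAddMonoidHom) f.surjective]
    congr 1
    ext x
    constructor
    · rintro ⟨y, rfl⟩
      refine ⟨⟨(f y).1, ?_⟩, ⟨(f y).2, ?_⟩⟩
      · show p • (f y).1 = (f (p • y)).1
        rw [map_nsmul]
        rfl
      · show p • (f y).2 = (f (p • y)).2
        rw [map_nsmul]
        rfl
    · rintro ⟨⟨a, ha⟩, ⟨b, hb⟩⟩
      refine ⟨f.symm (a, b), ?_⟩
      apply f.injective
      show f (p • f.symm (a, b)) = f x
      rw [map_nsmul, AddEquiv.apply_symm_apply]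
      exact Prod.ext ha hb
  have h5 : Nat.card (nsmulAddMonoidHom p : M →+ M).ker =
      Nat.card (nsmulAddMonoidHom p : D →+ D).ker := by
    have h6 : Nat.card (nsmulAddMonoidHom p : M →+ M).ker =
        Nat.card ((nsmulAddMonoidHom p : (Fin n →₀ ℤ) →+ (Fin n →₀ ℤ)).ker ×
          (nsmulAddMonoidHom p : D →+ D).ker) := by
      refine Nat.card_congr
        { toFun := fun x => (⟨(f x.1).1, by
              have hx : p • x.1 = 0 := x.2
              have h7 := congrArg (fun z => (f z).1) hx
              simp only [map_nsmul, map_zero] at h7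
              exact h7⟩, ⟨(f x.1).2, by
              have hx : p • x.1 = 0 := x.2
              have h7 := congrArg (fun z => (f z).2) hx
              simp only [map_nsmul, map_zero] at h7
              exact h7⟩)
          invFun := fun y => ⟨f.symm (y.1.1, y.2.1), by
              have hy1 : p • y.1.1 = 0 := y.1.2
              have hy2 : p • y.2.1 = 0 := y.2.2
              show p • f.symm (y.1.1, y.2.1) = 0
              rw [← map_nsmul, Prod.smul_mk, hy1, hy2]
              exact map_zero f.symm⟩
          left_inv := fun x => Subtype.ext (f.symm_apply_apply x.1)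
          right_inv := fun y => by
            refine Prod.ext (Subtype.ext ?_) (Subtype.ext ?_)
            · show (f (f.symm (y.1.1, y.2.1))).1 = y.1.1
              rw [AddEquiv.apply_symm_apply]
            · show (f (f.symm (y.1.1, y.2.1))).2 = y.2.1
              rw [AddEquiv.apply_symm_apply] }
    rw [h6, Nat.card_prod, h2, one_mul]
  have h6 : Nat.card (nsmulAddMonoidHom p : D →+ D).ker ≠ 0 := Nat.card_pos.ne'
  refine ⟨?_, ?_, ?_⟩
  · rw [h4, h3]
    exact mul_ne_zero (pow_ne_zero _ hp) h6
  · exact Nat.finite_of_card_ne_zero (h5 ▸ h6)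
  · rw [h4, h3, h5, hr]

theorem idx_p {M : Type*} [AddCommGroup M] [Module.Finite ℤ M] {p : ℕ} (hp : p ≠ 0) :
    (nsmulAddMonoidHom p : M →+ M).range.index ≠ 0 ∧
      Finite (nsmulAddMonoidHom p : M →+ M).ker ∧
      (nsmulAddMonoidHom p : M →+ M).range.index =
        p ^ Module.finrank ℤ M * Nat.card (nsmulAddMonoidHom p : M →+ M).ker := by
  classical
  have hfg : AddGroup.FG M := Module.Finite.iff_addGroup_fg.1 inferInstance
  obtain ⟨n, ι, _, q, hq, e, ⟨f⟩⟩ := AddCommGroup.equiv_free_prod_directSum_zmod M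
  haveI : ∀ i, NeZero (q i ^ e i) := fun i => ⟨pow_ne_zero _ (hq i).ne_zero⟩
  haveI hfin : Finite (DirectSum ι fun i => ZMod (q i ^ e i)) :=
    Finite.of_equiv _ (DirectSum.addEquivProd fun i => ZMod (q i ^ e i)).symm.toEquiv
  exact idxp_main f hp

end Pool.Agent.Lib.MP_2f3286_ag.Fer
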