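import Pool.Agent.Lib.MP_2f3286_ag.Fer.Idx
import Pool.Agent.Lib.MP_2f3286_ag.Fer.IdxP

/-!
# The index of `(σ - 1) M` for an automorphism whose norm is zero   (module IdxC, 60 minutes)

`M` a finitely generated abelian group, `σ` an automorphism with `∑ i < p, σ ^ i m = 0` for all `m`, of
rank `(p - 1) s`. Then `[M : (σ - 1) M] = p ^ s card (ker (σ - 1))`.
PROOF. `σ ^ p = 1`: apply `σ` to `∑ i < p, σ ^ i m = 0` and subtract. Put `θ j = 1 - σ ^ j` in the
ring `AddMonoid.End M`.
(1) `∏_{1 ≤ j < p} (1 - σ ^ j) = p` in this ring: in `ℤ[T]` the cyclotomic polynomial `Φ` of index `p`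
divides `∏_{1 ≤ j < p} (1 - T ^ j) - p`, since it is the minimal polynomial of a primitive root of unity
`ζ` in `ℂ` (`Polynomial.cyclotomic_eq_minpoly`, `minpoly.isIntegrallyClosed_dvd`) and the value there is
zero (`IsPrimitiveRoot.prod_one_sub_pow_eq_order`); and `Φ (σ) = ∑ i < p, σ ^ i = 0`
(`Polynomial.cyclotomic_prime`, `aeval`).
(2) For `1 ≤ j < p`: `range (1 - σ ^ j) = range (1 - σ)`, `ker (1 - σ ^ j) = ker (1 - σ)`: `1 - σ ^ j =
(1 - σ) (1 + ... + σ ^ (j - 1))` (commuting factors), and `σ = (σ ^ j) ^ i` with `i j = 1` modulo `p`.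
`range (σ - 1) = range (1 - σ)`, same for kernels.
(3) kernel and index are finite: `p = (1 - σ) (...) = (...) (1 - σ)`, so `ker (1 - σ)` is contained in the kernel of
`p` and `range (1 - σ)` contains the range of `p`; use `idx_p`.
(4) By `idx_mul` and induction over the factors: with `q f = index / card ker` in `ℚ`, `q (p) = q (1 - σ) ^
(p - 1)`, and `q (p) = p ^ ((p - 1) s)` by `idx_p`. So `q (1 - σ) = p ^ s` (positive rationals with equal
`(p - 1)`-th powers, `pow_left_injective`...).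
-/

open Finset

namespace Pool.Agent.Lib.MP_2f3286_ag.Fer

open Polynomial in
private theorem idxc_dvd {p : ℕ} (hp : p.Prime) :
    cyclotomic p ℤ ∣ ((List.range (p - 1)).map (fun j => (1 : ℤ[X]) - X ^ (j + 1))).prod - (p : ℤ[X]) := by
  obtain ⟨n, rfl⟩ : ∃ n, p = n + 1 := ⟨p - 1, by have := hp.pos; omega⟩
  have hζ := Complex.isPrimitiveRoot_exp (n + 1) (Nat.succ_ne_zero n)
  set ζ := Complex.exp (2 * Real.pi * Complex.I / ((n + 1 : ℕ) : ℂ)) with hζdef
  rw [cyclotomic_eq_minpoly hζ (Nat.succ_pos n)]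
  apply minpoly.isIntegrallyClosed_dvd (hζ.isIntegral (Nat.succ_pos n))
  rw [map_sub, Nat.add_sub_cancel, map_list_prod, List.map_map]
  have h1 := hζ.prod_one_sub_pow_eq_order
  have h2 : ((List.range n).map (⇑(aeval ζ) ∘ fun j => (1 : ℤ[X]) - X ^ (j + 1))).prod =
      ∏ k ∈ Finset.range n, (1 - ζ ^ (k + 1)) := by
    rw [← List.prod_toFinset _ (List.nodup_range), List.toFinset_range]
    refine Finset.prod_congr rfl fun k _ => ?_
    simp
  rw [h2, h1]
  simp

private theorem idxc_list {M : Type*} [AddCommGroup M] (r c : ℕ) (hr : r ≠ 0) (hc : c ≠ 0)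
    (L : List (AddMonoid.End M)) :
    (∀ a ∈ L, AddSubgroup.index (AddMonoidHom.range (a : M →+ M)) = r ∧
      Nat.card (AddMonoidHom.ker (a : M →+ M)) = c) →
    AddSubgroup.index (AddMonoidHom.range (L.prod : M →+ M)) ≠ 0 ∧
      Finite (AddMonoidHom.ker (L.prod : M →+ M)) ∧
      AddSubgroup.index (AddMonoidHom.range (L.prod : M →+ M)) * c ^ L.length =
        r ^ L.length * Nat.card (AddMonoidHom.ker (L.prod : M →+ M)) := by
  induction L with
  | nil =>
    intro _
    have h1 : AddMonoidHom.range (([] : List (AddMonoid.End M)).prod : M →+ M) = ⊤ := by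
      rw [List.prod_nil]
      ext x
      exact ⟨fun _ => trivial, fun _ => ⟨x, rfl⟩⟩
    have h2 : AddMonoidHom.ker (([] : List (AddMonoid.End M)).prod : M →+ M) = ⊥ := by
      rw [List.prod_nil]
      ext x
      exact ⟨fun h => h, fun h => h⟩
    rw [h1, h2]
    refine ⟨by simp, inferInstance, by simp⟩
  | cons a L ih =>
    intro h
    obtain ⟨h1, h2, h3⟩ := ih (fun b hb => h b (List.mem_cons_of_mem a hb))
    obtain ⟨h4, h5⟩ := h a (List.mem_cons_self)
    have h6 := idx_mul (a : M →+ M) (L.prod : M →+ M) (by rw [h4]; exact hr) h1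
      (Nat.finite_of_card_ne_zero (by rw [h5]; exact hc)) h2
    have h7 : ((a :: L).prod : M →+ M) = (a : M →+ M).comp (L.prod : M →+ M) := by
      rw [List.prod_cons]
      rfl
    rw [h7]
    refine ⟨h6.1, h6.2.1, ?_⟩
    have h8 := h6.2.2
    rw [h4, h5] at h8
    have h9 : Nat.card (AddMonoidHom.ker (L.prod : M →+ M)) ≠ 0 := Nat.card_pos.ne'
    rw [List.length_cons]
    apply Nat.eq_of_mul_eq_mul_right (Nat.pos_of_ne_zero h9)
    calc ((a : M →+ M).comp (L.prod : M →+ M)).range.index * c ^ (L.length + 1) *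
        Nat.card (AddMonoidHom.ker (L.prod : M →+ M)) =
        (((a : M →+ M).comp (L.prod : M →+ M)).range.index *
          (c * Nat.card (AddMonoidHom.ker (L.prod : M →+ M)))) * c ^ L.length := by ring
      _ = r * (AddSubgroup.index (AddMonoidHom.range (L.prod : M →+ M)) * c ^ L.length) *
          Nat.card ((a : M →+ M).comp (L.prod : M →+ M)).ker := by
          rw [h8]
          ring
      _ = r ^ (L.length + 1) * Nat.card ((a : M →+ M).comp (L.prod : M →+ M)).ker *
          Nat.card (AddMonoidHom.ker (L.prod : M →+ M)) := by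
          rw [h3]
          ring

private theorem idxc_iter {M : Type*} [AddCommGroup M] (σ : AddMonoid.End M) (i : ℕ) (m : M) :
    (σ ^ i) m = (σ^[i]) m := by
  induction i with
  | zero => rfl
  | succ i ih =>
    rw [pow_succ', Function.iterate_succ_apply', ← ih]
    rfl

/-- inclusions of ranges and kernels for a product of commuting endomorphisms -/
private theorem idxc_incl {M : Type*} [AddCommGroup M] {a b c : AddMonoid.End M} (h : a = b * c)
    (h' : a = c * b) : AddMonoidHom.range (a : M →+ M) ≤ AddMonoidHom.range (b : M →+ M) ∧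
      AddMonoidHom.ker (b : M →+ M) ≤ AddMonoidHom.ker (a : M →+ M) := by
  constructor
  · rintro _ ⟨x, rfl⟩
    refine ⟨c x, ?_⟩
    rw [h]
    rfl
  · intro x hx
    have hx' : b x = 0 := hx
    show a x = 0
    rw [h']
    show c (b x) = 0
    rw [hx', map_zero]

theorem idx_cyc {M : Type*} [AddCommGroup M] [Module.Finite ℤ M] {p : ℕ} (hp : p.Prime)
    (σ : M →+ M) (hN : ∀ m, ∑ i ∈ range p, (σ^[i]) m = 0) (s : ℕ)
    (hr : Module.finrank ℤ M = (p - 1) * s) :
    (σ - AddMonoidHom.id M).range.index = p ^ s * Nat.card (σ - AddMonoidHom.id M).ker := by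
  classical
  let τ : AddMonoid.End M := σ
  let E : Polynomial ℤ →ₐ[ℤ] AddMonoid.End M := Polynomial.aeval τ
  have hEX : ∀ j : ℕ, E (Polynomial.X ^ j) = τ ^ j := fun j => by
    rw [map_pow]
    congr 1
    exact Polynomial.aeval_X τ
  have hE1 : ∀ j : ℕ, E (1 - Polynomial.X ^ j) = 1 - τ ^ j := fun j => by
    rw [map_sub, hEX, map_one]
  have hΦ : E (Polynomial.cyclotomic p ℤ) = 0 := by
    haveI := Fact.mk hp
    rw [Polynomial.cyclotomic_prime, map_sum]
    ext m
    have h1 : (∑ i ∈ range p, E (Polynomial.X ^ i)) m = ∑ i ∈ range p, (E (Polynomial.X ^ i)) m :=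
      AddMonoidHom.finsetSum_apply _ _ _
    rw [h1]
    refine (Finset.sum_congr rfl fun i _ => ?_).trans (hN m)
    rw [hEX]
    exact idxc_iter τ i m
  have hτp : τ ^ p = 1 := by
    haveI := Fact.mk hp
    have h1 := Polynomial.cyclotomic_prime_mul_X_sub_one ℤ p
    have h2 := congrArg E h1
    rw [map_mul, hΦ, zero_mul, map_sub, hEX, map_one] at h2
    exact (sub_eq_zero.1 h2.symm)
  have hprod : ((List.range (p - 1)).map (fun j => (1 : AddMonoid.End M) - τ ^ (j + 1))).prod =
      (p : AddMonoid.End M) := by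
    obtain ⟨Q, hQ⟩ := idxc_dvd hp
    have h1 := congrArg E hQ
    rw [map_mul, hΦ, zero_mul, map_sub, map_natCast, map_list_prod, List.map_map] at h1
    have h2 := sub_eq_zero.1 h1
    rw [← h2]
    congr 1
    refine List.map_congr_left fun j _ => ?_
    exact (hE1 (j + 1)).symm
  -- the polynomial for the product without the first factor
  have hcast : ((p : AddMonoid.End M) : M →+ M) = nsmulAddMonoidHom p := by
    ext m
    exact AddMonoid.End.natCast_apply p m
  obtain ⟨i1, i2, i3⟩ := idx_p (M := M) hp.ne_zero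
  have hfirst : ∃ Q : Polynomial ℤ, (p : AddMonoid.End M) = (1 - τ ^ 1) * E Q := by
    obtain ⟨k, hk⟩ : ∃ k, p - 1 = k + 1 := ⟨p - 2, by have := hp.two_le; omega⟩
    refine ⟨((List.range k).map (fun j => (1 : Polynomial ℤ) - Polynomial.X ^ (j + 1 + 1))).prod, ?_⟩
    rw [← hprod, hk, List.range_succ_eq_map, List.map_cons, List.prod_cons, List.map_map,
      map_list_prod, List.map_map]
    congr 2
    refine List.map_congr_left fun j _ => ?_
    exact (hE1 (j + 1 + 1)).symm
  obtain ⟨Q, hQ⟩ := hfirst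
  have hQ' : (p : AddMonoid.End M) = E Q * (1 - τ ^ 1) := by
    rw [hQ, ← hE1 1, ← map_mul, mul_comm, map_mul]
  obtain ⟨j1, j2⟩ := idxc_incl hQ hQ'
  rw [hcast] at j1 j2
  set r := AddSubgroup.index (AddMonoidHom.range ((1 - τ ^ 1 : AddMonoid.End M) : M →+ M)) with hrdef
  set c := Nat.card (AddMonoidHom.ker ((1 - τ ^ 1 : AddMonoid.End M) : M →+ M)) with hcdef
  have hr0 : r ≠ 0 := by
    haveI : (nsmulAddMonoidHom p : M →+ M).range.FiniteIndex := ⟨i1⟩
    exact (AddSubgroup.finiteIndex_of_le j1).index_ne_zero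
  have hc0 : c ≠ 0 := by
    haveI : Finite (AddMonoidHom.ker ((1 - τ ^ 1 : AddMonoid.End M) : M →+ M)) :=
      Finite.of_injective (AddSubgroup.inclusion j2) (AddSubgroup.inclusion_injective j2)
    exact Nat.card_pos.ne'
  have hall : ∀ a ∈ (List.range (p - 1)).map (fun j => (1 : AddMonoid.End M) - τ ^ (j + 1)),
      AddSubgroup.index (AddMonoidHom.range (a : M →+ M)) = r ∧
        Nat.card (AddMonoidHom.ker (a : M →+ M)) = c := by
    intro a ha
    rw [List.mem_map] at ha
    obtain ⟨j, hj, rfl⟩ := ha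
    rw [List.mem_range] at hj
    have hgeo : ∀ (y : Polynomial ℤ) (n : ℕ), ∃ R : Polynomial ℤ, 1 - y ^ n = (1 - y) * R := by
      intro y n
      have h1 := mul_neg_geom_sum y n
      exact ⟨_, h1.symm⟩
    -- one direction
    obtain ⟨R1, hR1⟩ := hgeo Polynomial.X (j + 1)
    have e1 : (1 : AddMonoid.End M) - τ ^ (j + 1) = (1 - τ ^ 1) * E R1 := by
      rw [← hE1 (j + 1), hR1, map_mul, ← hE1 1, pow_one]
    have e1' : (1 : AddMonoid.End M) - τ ^ (j + 1) = E R1 * (1 - τ ^ 1) := by
      rw [← hE1 (j + 1), hR1, mul_comm, map_mul, ← hE1 1, pow_one]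
    -- the other direction
    obtain ⟨i, hi⟩ : ∃ i, (j + 1) * i ≡ 1 [MOD p] := by
      have hcop : Nat.Coprime (j + 1) p := by
        rw [Nat.coprime_comm, Nat.Prime.coprime_iff_not_dvd hp]
        intro hd
        have := Nat.le_of_dvd (Nat.succ_pos j) hd
        omega
      obtain ⟨i, hi⟩ := Nat.exists_mul_mod_eq_one_of_coprime hcop hp.one_lt
      exact ⟨i, by
        unfold Nat.ModEq
        rw [hi.2, Nat.mod_eq_of_lt hp.one_lt]⟩
    have e3 : τ ^ ((j + 1) * i) = τ ^ 1 := pow_eq_pow_of_modEq hi hτp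
    obtain ⟨R2, hR2⟩ := hgeo (Polynomial.X ^ (j + 1)) i
    have e2 : (1 : AddMonoid.End M) - τ ^ 1 = (1 - τ ^ (j + 1)) * E R2 := by
      rw [← e3, ← hE1 ((j + 1) * i), pow_mul, hR2, map_mul, ← hE1 (j + 1)]
    have e2' : (1 : AddMonoid.End M) - τ ^ 1 = E R2 * (1 - τ ^ (j + 1)) := by
      rw [← e3, ← hE1 ((j + 1) * i), pow_mul, hR2, mul_comm, map_mul, ← hE1 (j + 1)]
    have f1 := idxc_incl e1 e1'
    have f2 := idxc_incl e2 e2'
    constructor
    · rw [hrdef]
      congr 1
      exact le_antisymm f1.1 f2.1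
    · rw [hcdef]
      rw [le_antisymm f1.2 f2.2]
  obtain ⟨_, _, k3⟩ := idxc_list r c hr0 hc0 _ hall
  rw [hprod, hcast, i3, hr, List.length_map, List.length_range] at k3
  have hcard : Nat.card (nsmulAddMonoidHom p : M →+ M).ker ≠ 0 := Nat.card_pos.ne'
  have k4 : (p ^ s * c) ^ (p - 1) = r ^ (p - 1) := by
    apply Nat.eq_of_mul_eq_mul_right (Nat.pos_of_ne_zero hcard)
    rw [← k3, mul_pow, ← pow_mul, mul_comm s (p - 1)]
    ring
  have k5 : p ^ s * c = r :=
    Nat.pow_left_injective (by have := hp.two_le; omega : p - 1 ≠ 0) k4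
  -- from `1 - τ` to `σ - 1`
  have hneg : ∀ m, (σ - AddMonoidHom.id M) m = -((1 - τ ^ 1 : AddMonoid.End M) m) := by
    intro m
    show σ m - m = -(m - (τ ^ 1) m)
    rw [pow_one, neg_sub]
    rfl
  have l1 : (σ - AddMonoidHom.id M).range = AddMonoidHom.range ((1 - τ ^ 1 : AddMonoid.End M) : M →+ M) := by
    ext x
    constructor
    · rintro ⟨y, rfl⟩
      refine ⟨-y, ?_⟩
      rw [map_neg]
      exact (hneg y).symm
    · rintro ⟨y, rfl⟩
      refine ⟨-y, ?_⟩
      rw [map_neg, hneg y, neg_neg]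
      rfl
  have l2 : (σ - AddMonoidHom.id M).ker = AddMonoidHom.ker ((1 - τ ^ 1 : AddMonoid.End M) : M →+ M) := by
    ext x
    rw [AddMonoidHom.mem_ker, AddMonoidHom.mem_ker, hneg x, neg_eq_zero]
    rfl
  rw [l1, l2]
  exact k5.symm

end Pool.Agent.Lib.MP_2f3286_ag.Fer
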