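import Pool.Agent.Lib.MP_2f3286_ag.Fer.Away

/-!
# Elements moved by all powers of `σ` modulo a prime   (module Inert, 70 minutes)

`N / F` number fields, `γ ^ p = c`, `σ γ = ζ γ`; `Q` a prime of `N`, `w` the prime of `F` below
(`Q.asIdeal.comap`, not zero as `𝓞 N` is integral over `𝓞 F`; `HeightOneSpectrum.under` if it exists).
For `a` in `F`: `w.valuation F a ≤ 1 → Q.valuation N a ≤ 1` and the same for `< 1`, `= 1`
(Mathlib: `valuation_liesOver` in Mathlib/NumberTheory/RamificationInertia/Valuation.lean: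
`w.valuation ^ e = Q.valuation`, `e ≠ 0`).
`(σ ^ j) γ = ζ ^ j γ`.
(A) `p ∉ w`. By `PV` there is `t` in `F`, `t ≠ 0`, `w c = (w t) ^ p`. `δ = γ / t`: `δ ^ p = c / t ^ p` has
valuation one at `w`, so `Q δ = 1`; `σ ^ j δ - δ = (ζ ^ j - 1) δ`, and `w (ζ ^ j - 1) = 1` (`away_unit`).
(B) `p ∈ w`: put `π = ζ - 1`. `w p = (w π) ^ (p - 1)` (in `F`: `p = ∏_{1 ≤ i < p} (1 - ζ ^ i)`
(`IsPrimitiveRoot.prod_one_sub_pow_eq_order`), and all `1 - ζ ^ i` are associated in `𝓞 F` to `π`:
`(ζ ^ i - 1) / (ζ - 1)` and its inverse are integral; Mathlib has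
`IsPrimitiveRoot.associated_sub_one_pow_sub_one_of_coprime` for `𝓞` elements), so `w π < 1`.
By hypothesis `w (c - 1) ≤ (w π) ^ p < 1`, so `w c = 1`, `Q γ = 1`. `δ = (γ - 1) / π`. Let `x = Q δ` and suppose
`x > 1`. From `γ = 1 + π δ`, `c - 1 = ∑_{1 ≤ i ≤ p} binom (p, i) (π δ) ^ i`; divide by `π ^ p`:
`δ ^ p = (c - 1) / π ^ p - ∑_{1 ≤ i < p} (binom (p, i) / π ^ (p - i)) δ ^ i`, coefficients of
valuation `≤ 1` at `w` (as `p ∣ binom (p, i)` and `w p = (w π) ^ (p - 1)`), so at `Q`, and the right hand side has valuation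
`≤ max (1, x ^ (p - 1)) < x ^ p`: contradiction. So `Q δ ≤ 1`. `σ ^ j δ - δ = (ζ ^ j - 1) / (ζ - 1) γ =
(∑_{l < j} ζ ^ l) γ`; `∑_{l < j} ζ ^ l` is `j` modulo `π`, and `j` is not in `w` (`p ∈ w`, `p ∤ j`), so
its valuation at `w` is one.
-/

open IsDedekindDomain NumberField
open scoped WithZero

namespace Pool.Agent.Lib.MP_2f3286_ag.Fer

private theorem inert_geom {p : ℕ} (hp : p.Prime) {F : Type*} [Field F] [NumberField F] {ζ : F}
    (hζ : IsPrimitiveRoot ζ p) (w : HeightOneSpectrum (𝓞 F)) (j k : ℕ) :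
    w.valuation F ((ζ ^ j) ^ k - 1) ≤ w.valuation F (ζ ^ j - 1) := by
  rw [← geom_sum_mul, map_mul]
  have h1 : w.valuation F (∑ i ∈ Finset.range k, (ζ ^ j) ^ i) ≤ 1 := by
    refine Valuation.map_sum_le _ fun i _ => ?_
    rw [← pow_mul, zeta_unit hp hζ]
  calc w.valuation F (∑ i ∈ Finset.range k, (ζ ^ j) ^ i) * w.valuation F (ζ ^ j - 1)
      ≤ 1 * w.valuation F (ζ ^ j - 1) := mul_le_mul_left h1 _
    _ = w.valuation F (ζ ^ j - 1) := one_mul _

/-- all the differences have the same valuation -/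
private theorem inert_eq {p : ℕ} (hp : p.Prime) {F : Type*} [Field F] [NumberField F] {ζ : F}
    (hζ : IsPrimitiveRoot ζ p) (w : HeightOneSpectrum (𝓞 F)) {j : ℕ} (hj : ¬ p ∣ j) :
    w.valuation F (ζ ^ j - 1) = w.valuation F (ζ - 1) := by
  apply le_antisymm
  · have h1 := inert_geom hp hζ w 1 j
    rwa [pow_one] at h1
  · obtain ⟨m, -, hm⟩ := Nat.exists_mul_mod_eq_one_of_coprime
      ((Nat.Prime.coprime_iff_not_dvd hp).mpr hj).symm hp.one_lt
    have h1 := inert_geom hp hζ w j m
    have h2 : (ζ ^ j) ^ m = ζ := by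
      rw [← pow_mul, pow_eq_pow_mod (j * m) hζ.pow_eq_one, hm, pow_one]
    rwa [h2] at h1

/-- the valuation of `p` -/
private theorem inert_p {p : ℕ} (hp : p.Prime) {F : Type*} [Field F] [NumberField F] {ζ : F}
    (hζ : IsPrimitiveRoot ζ p) (w : HeightOneSpectrum (𝓞 F)) :
    w.valuation F (p : F) = w.valuation F (ζ - 1) ^ (p - 1) := by
  obtain ⟨n, rfl⟩ : ∃ n, p = n + 1 := ⟨p - 1, by have := hp.one_lt; omega⟩
  have h1 := hζ.prod_one_sub_pow_eq_order
  have h2 : ((n + 1 : ℕ) : F) = ∏ k ∈ Finset.range n, (1 - ζ ^ (k + 1)) := by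
    rw [h1]
    push_cast
    rfl
  rw [h2, map_prod, Nat.add_sub_cancel]
  have h3 : ∀ k ∈ Finset.range n, w.valuation F (1 - ζ ^ (k + 1)) = w.valuation F (ζ - 1) := by
    intro k hk
    rw [Valuation.map_sub_swap]
    refine inert_eq hp hζ w fun hd => ?_
    have := Nat.le_of_dvd (Nat.succ_pos k) hd
    have := Finset.mem_range.mp hk
    omega
  rw [Finset.prod_congr rfl h3, Finset.prod_const, Finset.card_range]

private theorem inert_sig {F N : Type*} [Field F] [Field N] [Algebra F N] {ζ : F}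
    {γ : N} {σ : Gal(N/F)} (hσ : σ γ = algebraMap F N ζ * γ) (j : ℕ) :
    (σ ^ j) γ = algebraMap F N (ζ ^ j) * γ := by
  induction j with
  | zero => rw [pow_zero, pow_zero, map_one, one_mul]; rfl
  | succ j ih =>
    rw [pow_succ', AlgEquiv.mul_apply, ih, map_mul, AlgEquiv.commutes, hσ, pow_succ, map_mul]
    ring

private theorem inert_one {x : ℤᵐ⁰} {n : ℕ} (hn : n ≠ 0) (h : x ^ n = 1) : x = 1 := by
  rcases lt_trichotomy x 1 with hx | hx | hx
  · exact absurd h (pow_lt_one' hx hn).ne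
  · exact hx
  · exact absurd h (one_lt_pow' hx hn).ne'

theorem inert {p : ℕ} (hp : p.Prime) {F N : Type*} [Field F] [NumberField F] [Field N]
    [NumberField N] [Algebra F N] {ζ : F} (hζ : IsPrimitiveRoot ζ p) {c : F} (hc : c ≠ 0)
    (h : ∀ w : HeightOneSpectrum (𝓞 F), PV p w c)
    (hP : ∀ w : HeightOneSpectrum (𝓞 F), (p : 𝓞 F) ∈ w.asIdeal →
      w.valuation F (c - 1) ≤ w.valuation F (ζ - 1) ^ p)
    {γ : N} (hγ : γ ^ p = algebraMap F N c) {σ : Gal(N/F)} (hσ : σ γ = algebraMap F N ζ * γ)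
    (Q : HeightOneSpectrum (𝓞 N)) {j : ℕ} (hj : ¬ p ∣ j) :
    ∃ δ : N, Q.valuation N δ ≤ 1 ∧ Q.valuation N ((σ ^ j) δ - δ) = 1 := by
  -- the prime below
  have := Q.isPrime
  have hne : Q.asIdeal.comap (algebraMap (𝓞 F) (𝓞 N)) ≠ ⊥ :=
    Ideal.IsIntegral.comap_ne_bot (𝓞 F) Q.ne_bot
  set w : HeightOneSpectrum (𝓞 F) :=
    ⟨Q.asIdeal.comap (algebraMap (𝓞 F) (𝓞 N)), Ideal.comap_isPrime _ _, hne⟩ with hw
  have hlo : Q.asIdeal.LiesOver w.asIdeal := ⟨rfl⟩
  set e := w.asIdeal.ramificationIdx' Q.asIdeal with he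
  have he0 : e ≠ 0 :=
    Ideal.IsDedekindDomain.ramificationIdx'_ne_zero_of_liesOver Q.asIdeal w.ne_bot
  have hval : ∀ a : F, Q.valuation N (algebraMap F N a) = w.valuation F a ^ e := fun a =>
    (HeightOneSpectrum.valuation_liesOver N w Q a).symm
  have hp0 : p ≠ 0 := hp.ne_zero
  have hγ0 : γ ≠ 0 := by
    rintro rfl
    rw [zero_pow hp0] at hγ
    exact hc ((map_eq_zero (algebraMap F N)).mp hγ.symm)
  by_cases hpw : (p : 𝓞 F) ∈ w.asIdeal
  · -- above `p`
    have hvp : w.valuation F (p : F) < 1 := by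
      have h1 : w.valuation F (algebraMap (𝓞 F) F (p : 𝓞 F)) < 1 :=
        (w.valuation_lt_one_iff_mem (K := F) (p : 𝓞 F)).mpr hpw
      rwa [map_natCast (algebraMap (𝓞 F) F)] at h1
    have hpi1 : w.valuation F (ζ - 1) < 1 := by
      by_contra hcon
      rw [inert_p hp hζ w] at hvp
      exact absurd hvp (not_lt.mpr (one_le_pow_of_one_le' (not_lt.mp hcon) _))
    have hpi0 : ζ - 1 ≠ 0 := sub_ne_zero.mpr (hζ.ne_one hp.one_lt)
    have hvpi0 : w.valuation F (ζ - 1) ≠ 0 := (Valuation.ne_zero_iff _).mpr hpi0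
    have hc1 : w.valuation F (c - 1) < 1 :=
      lt_of_le_of_lt (hP w hpw) (pow_lt_one' hpi1 hp0)
    have hvc : w.valuation F c = 1 := by
      have h1 := Valuation.map_add_eq_of_lt_left (w.valuation F) (x := 1) (y := c - 1)
        (by rwa [map_one])
      rw [add_comm] at h1
      rwa [sub_add_cancel, map_one] at h1
    have hQγ : Q.valuation N γ = 1 := by
      apply inert_one hp0
      rw [← map_pow, hγ, hval, hvc, one_pow]
    set π : N := algebraMap F N (ζ - 1) with hπ
    have hπ0 : π ≠ 0 := (_root_.map_ne_zero _).mpr hpi0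
    have hint : Q.valuation N ((γ - 1) / π) ≤ 1 := by
      by_contra hcon
      rw [not_le] at hcon
      set δ := (γ - 1) / π with hδ
      set x := Q.valuation N δ with hx
      have hγδ : γ = π * δ + 1 := by
        rw [hδ, mul_div_cancel₀ _ hπ0]
        ring
      have hexp : δ ^ p = (algebraMap F N c - 1) / π ^ p -
          ∑ i ∈ Finset.Ico 1 p, ((p.choose i : N) / π ^ (p - i)) * δ ^ i := by
        have h1 : algebraMap F N c = (π * δ) ^ p + 1 +
            ∑ i ∈ Finset.Ico 1 p, (p.choose i : N) * (π * δ) ^ i := by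
          rw [← hγ, hγδ, add_pow]
          rw [Finset.sum_range_succ, Finset.range_eq_Ico, Finset.sum_eq_sum_Ico_succ_bot hp.pos]
          simp only [one_pow, mul_one, pow_zero, Nat.choose_zero_right, Nat.cast_one,
            Nat.choose_self, Nat.zero_add]
          have h2 : ∑ k ∈ Finset.Ico 1 p, (π * δ) ^ k * (p.choose k : N) =
              ∑ k ∈ Finset.Ico 1 p, (p.choose k : N) * (π * δ) ^ k :=
            Finset.sum_congr rfl fun k _ => mul_comm _ _
          rw [h2]
          ring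
        have h3 : ∑ i ∈ Finset.Ico 1 p, ((p.choose i : N) / π ^ (p - i)) * δ ^ i =
            (∑ i ∈ Finset.Ico 1 p, (p.choose i : N) * (π * δ) ^ i) / π ^ p := by
          rw [Finset.sum_div]
          refine Finset.sum_congr rfl fun i hi => ?_
          have h4 : π ^ p = π ^ (p - i) * π ^ i := by
            rw [← pow_add]
            congr 1
            have := (Finset.mem_Ico.mp hi).2
            omega
          rw [h4, mul_pow]
          field_simp
        have h5 : (π * δ) ^ p + 1 + ∑ i ∈ Finset.Ico 1 p, (p.choose i : N) * (π * δ) ^ i - 1 -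
            ∑ i ∈ Finset.Ico 1 p, (p.choose i : N) * (π * δ) ^ i = π ^ p * δ ^ p := by
          rw [mul_pow]
          ring
        rw [h3, h1, ← sub_div, h5, mul_div_cancel_left₀ _ (pow_ne_zero p hπ0)]
      have hb1 : Q.valuation N ((algebraMap F N c - 1) / π ^ p) ≤ 1 := by
        have h1 : (algebraMap F N c - 1) / π ^ p = algebraMap F N ((c - 1) / (ζ - 1) ^ p) := by
          rw [map_div₀, map_pow, map_sub, map_one]
        rw [h1, hval]
        refine pow_le_one' ?_ e
        rw [map_div₀, map_pow]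
        exact div_le_one_of_le₀ (hP w hpw) zero_le
      have hb2 : ∀ i ∈ Finset.Ico 1 p,
          Q.valuation N (((p.choose i : N) / π ^ (p - i)) * δ ^ i) ≤ x ^ (p - 1) := by
        intro i hi
        obtain ⟨hi1, hi2⟩ := Finset.mem_Ico.mp hi
        have h1 : (p.choose i : N) / π ^ (p - i) =
            algebraMap F N ((p.choose i : F) / (ζ - 1) ^ (p - i)) := by
          rw [map_div₀, map_pow, map_natCast]
        have h2 : w.valuation F ((p.choose i : F) / (ζ - 1) ^ (p - i)) ≤ 1 := by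
          rw [map_div₀, map_pow]
          refine div_le_one_of_le₀ ?_ zero_le
          obtain ⟨m, hm⟩ := hp.dvd_choose_self (by omega) hi2
          have h3 : w.valuation F (m : F) ≤ 1 := by
            have h4 : w.valuation F (algebraMap (𝓞 F) F (m : 𝓞 F)) ≤ 1 :=
              w.valuation_le_one (K := F) (m : 𝓞 F)
            rwa [map_natCast (algebraMap (𝓞 F) F)] at h4
          rw [hm, Nat.cast_mul, map_mul, inert_p hp hζ w]
          calc w.valuation F (ζ - 1) ^ (p - 1) * w.valuation F (m : F)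
              ≤ w.valuation F (ζ - 1) ^ (p - 1) * 1 := mul_le_mul_right h3 _
            _ = w.valuation F (ζ - 1) ^ (p - 1) := mul_one _
            _ ≤ w.valuation F (ζ - 1) ^ (p - i) :=
                pow_le_pow_right_of_le_one' hpi1.le (by omega)
        rw [map_mul, h1, hval, map_pow]
        calc w.valuation F ((p.choose i : F) / (ζ - 1) ^ (p - i)) ^ e * Q.valuation N δ ^ i
            ≤ 1 * Q.valuation N δ ^ i := mul_le_mul_left (pow_le_one' h2 e) _
          _ = x ^ i := one_mul _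
          _ ≤ x ^ (p - 1) := pow_le_pow_right' hcon.le (by omega)
      have hone : (1 : ℤᵐ⁰) ≤ x ^ (p - 1) := one_le_pow_of_one_le' hcon.le _
      have h5 : Q.valuation N (δ ^ p) ≤ x ^ (p - 1) := by
        rw [hexp]
        refine (Valuation.map_sub _ _ _).trans (max_le (hb1.trans hone) ?_)
        exact Valuation.map_sum_le _ hb2
      rw [map_pow] at h5
      have h6 : x ^ (p - 1) < x ^ p := by
        have hx0 : x ≠ 0 := by
          intro h0
          rw [h0] at hcon
          exact absurd hcon (by simp)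
        have h7 : x ^ p = x ^ (p - 1) * x := by
          rw [← pow_succ]
          congr 1
          have := hp.one_lt
          omega
        rw [h7]
        calc x ^ (p - 1) = x ^ (p - 1) * 1 := (mul_one _).symm
          _ < x ^ (p - 1) * x := by
              refine mul_lt_mul_of_pos_left hcon ?_
              exact zero_lt_iff.mpr (pow_ne_zero _ hx0)
      exact absurd h5 (not_le.mpr h6)
    refine ⟨(γ - 1) / π, hint, ?_⟩
    have h8 : (σ ^ j) ((γ - 1) / π) - (γ - 1) / π =
        algebraMap F N ((ζ ^ j - 1) / (ζ - 1)) * γ := by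
      have hk : algebraMap F N ((ζ ^ j - 1) / (ζ - 1)) = (algebraMap F N (ζ ^ j) - 1) / π := by
        rw [map_div₀, map_sub, map_one]
      have hk2 : (σ ^ j) π = π := AlgEquiv.commutes _ _
      rw [hk, map_div₀, hk2, map_sub, map_one, inert_sig hσ]
      ring
    rw [h8, map_mul, hval, hQγ, mul_one, map_div₀, inert_eq hp hζ w hj, div_self hvpi0, one_pow]
  · -- away from `p`
    obtain ⟨t, ht0, ht⟩ := h w
    have ht0' : algebraMap F N t ≠ 0 := (_root_.map_ne_zero _).mpr ht0
    have hvt0 : w.valuation F t ≠ 0 := (Valuation.ne_zero_iff _).mpr ht0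
    have hQδ : Q.valuation N (γ / algebraMap F N t) = 1 := by
      apply inert_one hp0
      rw [← map_pow, div_pow, hγ, ← map_pow, ← map_div₀, hval, map_div₀, map_pow, ht,
        div_self (pow_ne_zero _ hvt0), one_pow]
    refine ⟨γ / algebraMap F N t, hQδ.le, ?_⟩
    have h8 : (σ ^ j) (γ / algebraMap F N t) - γ / algebraMap F N t =
        algebraMap F N (ζ ^ j - 1) * (γ / algebraMap F N t) := by
      rw [map_div₀, inert_sig hσ, AlgEquiv.commutes, map_sub, map_one]
      ring
    rw [h8, map_mul, hQδ, mul_one, hval, away_unit hp hζ w hpw hj, one_pow]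

end Pool.Agent.Lib.MP_2f3286_ag.Fer
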