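import Mathlib

/-!
# Kummer extensions of number fields   (module KExt, 45 minutes)

PROOF. `X ^ p - c` is irreducible over `F` (`X_pow_sub_C_irreducible_of_prime`). `N` = `AdjoinRoot`
or the splitting field of `X ^ p - c` (`IsSplittingField`, file Mathlib/FieldTheory/KummerExtension.lean:
`isGalois_of_isSplittingField_X_pow_sub_C`, `autEquivZmod`, `finrank_of_isSplittingField_X_pow_sub_C`, `autEquivRootsOfUnity`),
`γ` a root, `σ` the automorphism with `σ γ = ζ γ` (exists since the automorphisms act transitively on the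
roots of the irreducible polynomial; `autEquivRootsOfUnity_smul` and surjectivity). `N` is finite over `F`, so a number field
(`NumberField.of_module_finite F N`).
-/

open NumberField

namespace Pool.Agent.Lib.MP_2f3286_ag.Fer

theorem exists_ext.{u} {p : ℕ} (hp : p.Prime) {F : Type u} [Field F] [NumberField F] {ζ : F}
    (hζ : IsPrimitiveRoot ζ p) {c : F} (hc : ∀ d : F, d ^ p ≠ c) :
    ∃ (N : Type u) (_ : Field N) (_ : NumberField N) (_ : Algebra F N) (_ : IsGalois F N)
      (γ : N) (σ : Gal(N/F)), γ ^ p = algebraMap F N c ∧ σ γ = algebraMap F N ζ * γ ∧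
        Nat.card Gal(N/F) = p := by
  have H : Irreducible (Polynomial.X ^ p - Polynomial.C c) := X_pow_sub_C_irreducible_of_prime hp hc
  have hne : (primitiveRoots p F).Nonempty := ⟨ζ, (mem_primitiveRoots hp.pos).mpr hζ⟩
  have : NeZero p := ⟨hp.ne_zero⟩
  let N := (Polynomial.X ^ p - Polynomial.C c).SplittingField
  have hfd : FiniteDimensional F N :=
    Polynomial.IsSplittingField.finiteDimensional N (Polynomial.X ^ p - Polynomial.C c)
  have hgal : IsGalois F N := isGalois_of_isSplittingField_X_pow_sub_C hne H N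
  have hnf : NumberField N := NumberField.of_module_finite F N
  have hγ : (rootOfSplitsXPowSubC (NeZero.pos p) c N) ^ p = algebraMap F N c :=
    rootOfSplitsXPowSubC_pow c N
  refine ⟨N, inferInstance, hnf, inferInstance, hgal, rootOfSplitsXPowSubC (NeZero.pos p) c N,
    (autEquivZmod H N hζ).symm (Multiplicative.ofAdd ((1 : ℕ) : ZMod p)), hγ, ?_, ?_⟩
  · rw [autEquivZmod_symm_apply_natCast H N hγ hζ 1, pow_one, Algebra.smul_def]
  · rw [IsGalois.card_aut_eq_finrank, finrank_of_isSplittingField_X_pow_sub_C hne H N]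

end Pool.Agent.Lib.MP_2f3286_ag.Fer
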