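import Pool.Agent.Lib.MP_2f3286_ag.Fer.FDef

/-!
# Kronecker: units of the cyclotomic field and complex conjugation   (module Kron, 50 minutes)

PROOF. Complex conjugation: `F` is a CM field (Mathlib: `IsCyclotomicExtension.Rat...isCMField` in
Mathlib/NumberTheory/NumberField/CMField.lean, `NumberField.IsCMField.complexConj`), `c ζ = ζ⁻¹` as
`ζ` is a root of unity (its image under an embedding to `ℂ` has absolute value one; there is
`NumberField.IsCMField.complexConj_torsion` or similar). For a unit `u`, `u / c u` is a unit all of whose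
absolute values are one, so a root of unity (`unitsMulComplexConjInv` in CMField.lean, with values in
`torsion F`), and every root of unity in `F` is `± ζ ^ m`
(`IsPrimitiveRoot.exists_neg_pow_of_isOfFinOrder` in Mathlib for cyclotomic fields of odd `n`).
-/

open IsDedekindDomain NumberField

namespace Pool.Agent.Lib.MP_2f3286_ag.Fer

theorem kron {p : ℕ} (hp : p.Prime) (h2 : p ≠ 2) {F : Type*} [Field F] [NumberField F]
    [IsCyclotomicExtension {p} ℚ F] {ζ : F} (hζ : IsPrimitiveRoot ζ p) :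
    ∃ c : F ≃+* F, c ζ = ζ⁻¹ ∧ ∀ u : (𝓞 F)ˣ, ∃ (m : ℕ) (ε : F), (ε = 1 ∨ ε = -1) ∧
      ((u : 𝓞 F) : F) = ε * ζ ^ m * c ((u : 𝓞 F) : F) := by
  have h3 : 2 < p := lt_of_le_of_ne hp.two_le (Ne.symm h2)
  have : NeZero p := ⟨hp.ne_zero⟩
  have : IsCMField F := IsCyclotomicExtension.Rat.isCMField F (S := {p}) ⟨p, rfl, h3⟩
  refine ⟨(IsCMField.complexConj F).toRingEquiv, ?_, ?_⟩
  · -- `ζ` as a unit
    have hζi : IsIntegral ℤ ζ := hζ.isIntegral hp.pos
    have hz : IsPrimitiveRoot hζ.toInteger p := hζ.toInteger_isPrimitiveRoot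
    have hzu : IsUnit hζ.toInteger := hz.isUnit hp.ne_zero
    have ht : hzu.unit ∈ Units.torsion F := by
      change hzu.unit ∈ CommGroup.torsion (𝓞 F)ˣ
      rw [CommGroup.mem_torsion, isOfFinOrder_iff_pow_eq_one]
      refine ⟨p, hp.pos, ?_⟩
      apply Units.ext
      rw [Units.val_pow_eq_pow_val, IsUnit.unit_spec, hz.pow_eq_one, Units.val_one]
    have := IsCMField.complexConj_torsion F ⟨hzu.unit, ht⟩
    simpa using this
  · intro u
    set t := IsCMField.unitsMulComplexConjInv F u with ht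
    have h1 : IsOfFinOrder (((t : (𝓞 F)ˣ) : 𝓞 F) : F) := by
      have h2 := (CommGroup.mem_torsion (t : (𝓞 F)ˣ)).1 t.2
      rw [isOfFinOrder_iff_pow_eq_one] at h2 ⊢
      obtain ⟨n, hn, hn'⟩ := h2
      refine ⟨n, hn, ?_⟩
      rw [← map_pow, ← Units.val_pow_eq_pow_val, hn', Units.val_one, map_one]
    obtain ⟨r, hr⟩ := hζ.exists_neg_pow_of_isOfFinOrder (hp.odd_of_ne_two h2) h1
    refine ⟨r, (-1) ^ r, neg_one_pow_eq_or F r, ?_⟩
    rw [← mul_pow, neg_one_mul, ← hr, ht, IsCMField.unitsMulComplexConjInv_apply]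
    have h4 : ((IsCMField.unitsComplexConj F u : (𝓞 F)ˣ) : 𝓞 F) = (IsCMField.ringOfIntegersComplexConj F (u : 𝓞 F)) := rfl
    have h5 : (((IsCMField.unitsComplexConj F u : (𝓞 F)ˣ) : 𝓞 F) : F) = IsCMField.complexConj F ((u : 𝓞 F) : F) := rfl
    show ((u : 𝓞 F) : F) = ((((u * (IsCMField.unitsComplexConj F u)⁻¹ : (𝓞 F)ˣ) : 𝓞 F)) : F) * IsCMField.complexConj F ((u : 𝓞 F) : F)
    rw [← h5, ← map_mul, ← Units.val_mul, mul_assoc, inv_mul_cancel, mul_one]

end Pool.Agent.Lib.MP_2f3286_ag.Fer
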