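import Pool.Agent.Lib.MP_2f3286_ag.Fer.FDef

/-!
# Basic facts on the completion at the prime above `p`   (module LBas, 40 minutes)

PROOFS. `lt_one_iff`: `v x = 0` or `v x = exp n` (`WithZero.expRecOn` or `exp_log`), and
`exp n < exp 0 ↔ n ≤ -1`. `int_le`: induction on naturals (`v (n + 1) ≤ max (v n) (v 1)`), negatives by
`Valuation.map_neg`. `val_z`: `v (z - 1) < 1 = v 1`, so `v z = v (1 + (z - 1)) = 1`
(`Valuation.map_add_eq_of_lt_left` and the like). `zpow_sub_one_le`: `z ^ j - 1` is `(z - 1)` times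
`∑ i < j, z ^ i` (`mul_geom_sum`), all terms of valuation `≤ 1` (`Valuation.map_sum_le`).
`zpow_sub_one`: if `p ∤ j`, the sum is `j` modulo `z - 1`, and `v j = 1`. `int_lt`: `v p < 1`; if `p ∤ n`,
`a n + b p = 1` with integers, so `v n = 1` (otherwise `v 1 < 1`). `frob_int`: `p ∣ n ^ p - n`
(`Int.ModEq.pow_card...`, `ZMod.pow_card` via `ZMod.intCast_zmod_eq_zero_iff_dvd`) and `v p ≤ exp (-1)`
as `2 ≤ p`.
-/

open scoped WithZero

namespace Pool.Agent.Lib.MP_2f3286_ag.Fer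

variable {p : ℕ} {C : Type*} [Field C] {v : Valuation C ℤᵐ⁰} {z : C}

theorem lt_one_iff {a : ℤᵐ⁰} : a < 1 ↔ a ≤ WithZero.exp (-1 : ℤ) := by
  obtain rfl | ha := eq_or_ne a 0
  · simp
  · rw [← WithZero.exp_log ha, ← WithZero.exp_zero (M := ℤ), WithZero.exp_lt_exp,
      WithZero.exp_le_exp]
    omega

theorem int_le (v : Valuation C ℤᵐ⁰) (n : ℤ) : v (n : C) ≤ 1 := by
  have hnat : ∀ m : ℕ, v (m : C) ≤ 1 := by
    intro m
    induction m with
    | zero => rw [Nat.cast_zero, map_zero]; exact zero_le_one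
    | succ m ih => rw [Nat.cast_succ]; exact v.map_add_le ih (map_one v).le
  obtain ⟨m, rfl | rfl⟩ := n.eq_nat_or_neg
  · rw [Int.cast_natCast]
    exact hnat m
  · rw [Int.cast_neg, Valuation.map_neg, Int.cast_natCast]
    exact hnat m

theorem LBas_mul_lt {a b : ℤᵐ⁰} (ha : a ≤ 1) (hb : b < 1) : a * b < 1 :=
  (mul_le_mul' ha le_rfl).trans_lt (by rw [one_mul]; exact hb)

theorem Loc.val_z (h : Loc p v z) (j : ℕ) : v (z ^ j) = 1 := by
  have h1 : v (z - 1) < v (1 : C) := by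
    rw [h.val_pi, map_one, lt_one_iff]
  have h2 : v z = 1 := by
    have h3 := v.map_add_eq_of_lt_right h1
    rw [sub_add_cancel, map_one] at h3
    exact h3
  rw [map_pow, h2, one_pow]

theorem Loc.zpow_sub_one_le (h : Loc p v z) (j : ℕ) : v (z ^ j - 1) ≤ WithZero.exp (-1 : ℤ) := by
  rw [← mul_geom_sum, map_mul, h.val_pi]
  exact mul_le_of_le_one_right' (v.map_sum_le fun i _ => (h.val_z i).le)

/-- an integer is a unit at the prime above `p` or divisible by `p` -/
theorem Loc.int_lt (hp : p.Prime) (h : Loc p v z) (n : ℤ) : v (n : C) < 1 ↔ (p : ℤ) ∣ n := by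
  have h2 := hp.two_le
  have hv : v (p : C) < 1 := by
    rw [h.val_p, lt_one_iff, WithZero.exp_le_exp]
    omega
  constructor
  · intro hn
    by_contra hd
    have hc : IsCoprime (p : ℤ) n :=
      (Nat.prime_iff_prime_int.mp hp).coprime_iff_not_dvd.mpr hd
    obtain ⟨a, b, hab⟩ := hc
    have h3 : (a : C) * (p : C) + (b : C) * (n : C) = 1 := by
      exact_mod_cast congrArg (fun t : ℤ => (t : C)) hab
    have h4 : v ((a : C) * (p : C) + (b : C) * (n : C)) < 1 := by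
      refine v.map_add_lt ?_ ?_
      · rw [map_mul]
        exact LBas_mul_lt (int_le v a) hv
      · rw [map_mul]
        exact LBas_mul_lt (int_le v b) hn
    rw [h3, map_one] at h4
    exact lt_irrefl _ h4
  · rintro ⟨m, rfl⟩
    rw [Int.cast_mul, Int.cast_natCast, map_mul, mul_comm]
    exact LBas_mul_lt (int_le v m) hv

theorem Loc.int_eq_one (hp : p.Prime) (h : Loc p v z) {n : ℤ} (hn : ¬ (p : ℤ) ∣ n) :
    v (n : C) = 1 :=
  le_antisymm (int_le v n) (not_lt.mp fun hlt => hn ((h.int_lt hp n).mp hlt))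

theorem Loc.zpow_sub_one (hp : p.Prime) (h : Loc p v z) {j : ℕ} (hj : ¬ p ∣ j) :
    v (z ^ j - 1) = WithZero.exp (-1 : ℤ) := by
  have h1 : v ((j : ℤ) : C) = 1 := h.int_eq_one hp fun hd => hj (Int.natCast_dvd_natCast.mp hd)
  have h2 : v (∑ i ∈ Finset.range j, (z ^ i - 1)) < v ((j : ℤ) : C) := by
    rw [h1, lt_one_iff]
    exact v.map_sum_le fun i _ => h.zpow_sub_one_le i
  have h3 := v.map_add_eq_of_lt_right h2
  rw [Finset.sum_sub_distrib, Finset.sum_const, Finset.card_range, nsmul_eq_mul, mul_one,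
    Int.cast_natCast, sub_add_cancel] at h3
  rw [← mul_geom_sum, map_mul, h.val_pi, h3, ← Int.cast_natCast, h1, mul_one]

theorem Loc.zpow_sub_zpow (hp : p.Prime) (h : Loc p v z) {i j : ℕ} (hij : z ^ i ≠ z ^ j) :
    v (z ^ i - z ^ j) = WithZero.exp (-1 : ℤ) := by
  have key : ∀ i d : ℕ, z ^ i ≠ z ^ (i + d) →
      v (z ^ (i + d) - z ^ i) = WithZero.exp (-1 : ℤ) := by
    intro i d hid
    have h1 : z ^ (i + d) - z ^ i = z ^ i * (z ^ d - 1) := by
      rw [pow_add]
      ring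
    have h2 : ¬ p ∣ d := by
      rintro ⟨m, rfl⟩
      refine hid ?_
      rw [pow_add, pow_mul, h.root, one_pow, mul_one]
    rw [h1, map_mul, h.val_z, h.zpow_sub_one hp h2, one_mul]
  rcases le_total i j with hle | hle
  · obtain ⟨d, rfl⟩ := Nat.exists_eq_add_of_le hle
    rw [Valuation.map_sub_swap]
    exact key i d hij
  · obtain ⟨d, rfl⟩ := Nat.exists_eq_add_of_le hle
    exact key j d (Ne.symm hij)

theorem Loc.one_add_z (hp : p.Prime) (h2 : p ≠ 2) (h : Loc p v z) : v (1 + z) = 1 := by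
  have h1 : v ((2 : ℤ) : C) = 1 := by
    refine h.int_eq_one hp fun hd => h2 ?_
    have h3 : p ∣ 2 := by exact_mod_cast hd
    exact (Nat.prime_dvd_prime_iff_eq hp Nat.prime_two).mp h3
  have h3 : v (z - 1) < v ((2 : ℤ) : C) := by
    rw [h1, h.val_pi, lt_one_iff]
  have h4 := v.map_add_eq_of_lt_right h3
  rw [h1] at h4
  rw [← h4]
  congr 1
  push_cast
  ring

theorem Loc.frob_int (hp : p.Prime) (h : Loc p v z) (n : ℤ) :
    v ((n : C) ^ p - n) ≤ WithZero.exp (-1 : ℤ) := by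
  have := Fact.mk hp
  have h1 : (p : ℤ) ∣ n ^ p - n := by
    rw [← ZMod.intCast_zmod_eq_zero_iff_dvd]
    push_cast
    rw [ZMod.pow_card, sub_self]
  have h2 := (h.int_lt hp _).mpr h1
  rw [lt_one_iff] at h2
  push_cast at h2
  exact h2

end Pool.Agent.Lib.MP_2f3286_ag.Fer
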