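import Pool.Agent.Lib.MP_2f3286_ag.Fer.FDef

/-!
# Backward orbits in a finite set   (module PG, 50 minutes)

PROOF of `periodic`. `X` finite: `a i = a j` for some `i < j` (`Finite.exists_ne_map_eq_of_infinite`).
`D^[n] (a (m + n)) = a m` by induction. `a 0 = D^[i] (a i)`, `a i = D^[j - i] (a j) = D^[j - i] (a i)`, so
`D^[j - i] (a 0) = D^[j - i] (D^[i] (a i)) = D^[i] (D^[j - i] (a i)) = D^[i] (a i) = a 0`.

PROOF of `no_cusp`. `Q` a place of `L` with values in a finite field `E`, `z` in `E` the value of `ζ`, `z ^ p = 1`, `z ^ 2 ≠ 1`.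
`val x : Option E` is `some y` if `x` has the value `y`, `none` if it has no value. Let
`D : Option E → Option E`, `D none = some (-z)`, `D (some y) = none` if `y ^ p = z`, otherwise `some ((1 - z y ^ p) /
(y ^ p - z))`. If `r (r' ^ p - ζ) = 1 - ζ r' ^ p`, then `D (val r') = val r`: if `r'` has the value `y` and `y ^ p ≠ z`, divide
(`r' ^ p - ζ ≠ 0` by `Plc.Has.ne_zero`); if `y ^ p = z`, `1 - ζ r' ^ p` has the value `1 - z ^ 2 ≠ 0`, so `r ≠ 0` and `r⁻¹ = (r' ^ p - ζ) / (1 - ζ r' ^ p)` has the
value `0`, no value for `r` (`Plc.not_has_of_inv`); if `r'⁻¹` has the value `0`, `r = (r'⁻¹ ^ p - ζ) / (1 - ζ r'⁻¹ ^ p)` (divide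
the relation by `r' ^ p`; `1 - ζ r'⁻¹ ^ p` has value `1`) has the value `-z`. `D (some (-1)) = some (-1)` (`(-1) ^ p = -1`,
`(1 + z) / (-1 - z) = -1`), `D (some y) = some (-1)` if `y ^ p = -1` in the same way; `(-z) ^ p = -1`.
By `periodic`, `D^[m] (val (a 0)) = val (a 0)` for some `m ≥ 1`. If `val (a 0) = none`: `D^[m] none` is `some (-z)` for `m = 1`
and `some (-1)` for `m ≥ 2`: contradiction. If `val (a 0) = some y` with `y ^ p = -1`: `D^[m] (some y) = some (-1)`, so `y = -1`. So: `a 0` has a
value `y`, and if `y ^ p = -1` then `y = -1`.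
-/

open IsDedekindDomain NumberField

namespace Pool.Agent.Lib.MP_2f3286_ag.Fer

theorem periodic {X : Type*} [Finite X] (D : X → X) (a : ℕ → X) (h : ∀ n, D (a (n + 1)) = a n) :
    ∃ m, 1 ≤ m ∧ D^[m] (a 0) = a 0 := by
  have hit : ∀ n m, D^[n] (a (m + n)) = a m := by
    intro n
    induction n with
    | zero => intro m; rfl
    | succ n ih =>
      intro m
      rw [Function.iterate_succ_apply, ← add_assoc, h]
      exact ih m
  have key : ∀ i j, i < j → a i = a j → ∃ m, 1 ≤ m ∧ D^[m] (a 0) = a 0 := by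
    intro i j hij he
    refine ⟨j - i, by omega, ?_⟩
    have h0 : D^[i] (a i) = a 0 := by
      have := hit i 0
      rwa [zero_add] at this
    have h1 : D^[j - i] (a i) = a i := by
      have := hit (j - i) i
      rw [show i + (j - i) = j by omega, ← he] at this
      exact this
    rw [← h0, ← Function.iterate_add_apply, add_comm, Function.iterate_add_apply, h1]
  obtain ⟨i, j, hij, he⟩ := Finite.exists_ne_map_eq_of_infinite a
  rcases lt_or_gt_of_ne hij with h1 | h1
  · exact key i j h1 he
  · exact key j i h1 he.symm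

theorem no_cusp {p : ℕ} (hp : Odd p) {L E : Type*} [Field L] [Field E] [Finite E] (Q : Plc L E)
    {ζ : L} {z : E} (hζ : Q.Has ζ z) (hz : z ^ p = 1) (hz2 : z ^ 2 ≠ 1) (a : ℕ → L)
    (h : ∀ n, a n * (a (n + 1) ^ p - ζ) = 1 - ζ * a (n + 1) ^ p) :
    ∃ y, Q.Has (a 0) y ∧ y ≠ 0 ∧ (y ^ p = -1 → y = -1) := by
  classical
  let val : L → Option E := fun x => if h : ∃ y, Q.Has x y then some h.choose else none
  have val_some : ∀ {x : L} {y : E}, Q.Has x y → val x = some y := by
    intro x y hy
    have hex : ∃ y, Q.Has x y := ⟨y, hy⟩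
    show (if h : ∃ y, Q.Has x y then some h.choose else none) = some y
    rw [dif_pos hex]
    congr 1
    exact hex.choose_spec.unique hy
  have val_none : ∀ {x : L}, (¬ ∃ y, Q.Has x y) → val x = none := by
    intro x hx
    show (if h : ∃ y, Q.Has x y then some h.choose else none) = none
    rw [dif_neg hx]
  have of_val : ∀ {x : L} {y : E}, val x = some y → Q.Has x y := by
    intro x y hxy
    by_cases hex : ∃ y, Q.Has x y
    · obtain ⟨y', hy'⟩ := hex
      rw [val_some hy'] at hxy
      obtain rfl := Option.some.inj hxy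
      exact hy'
    · rw [val_none hex] at hxy
      exact absurd hxy (by simp)
  let D : Option E → Option E := fun o => match o with
    | none => some (-z)
    | some y => if y ^ p = z then none else some ((1 - z * y ^ p) / (y ^ p - z))
  have hp0 : p ≠ 0 := by
    rintro rfl
    exact absurd hp (by decide)
  have D_none : D none = some (-z) := rfl
  have D_z : ∀ {y : E}, y ^ p = z → D (some y) = none := by
    intro y hy
    show (if y ^ p = z then none else some ((1 - z * y ^ p) / (y ^ p - z))) = none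
    rw [if_pos hy]
  have D_y : ∀ {y : E}, y ^ p ≠ z → D (some y) = some ((1 - z * y ^ p) / (y ^ p - z)) := by
    intro y hy
    show (if y ^ p = z then none else some ((1 - z * y ^ p) / (y ^ p - z))) = _
    rw [if_neg hy]
  -- the relation
  have rel : ∀ r r' : L, r * (r' ^ p - ζ) = 1 - ζ * r' ^ p → D (val r') = val r := by
    intro r r' hr
    rcases Q.has_or_inv r' with ⟨y, hy⟩ | ⟨h0, hinv⟩
    · rw [val_some hy]
      have hA : Q.Has (r' ^ p - ζ) (y ^ p - z) := (hy.pow p).sub hζ
      have hB : Q.Has (1 - ζ * r' ^ p) (1 - z * y ^ p) := Plc.has_one.sub (hζ.mul (hy.pow p))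
      by_cases hyz : y ^ p = z
      · rw [D_z hyz]
        have hB0 : (1 : E) - z * y ^ p ≠ 0 := by
          rw [hyz]
          intro h1
          apply hz2
          rw [sq]
          exact (sub_eq_zero.mp h1).symm
        have hne := hB.ne_zero hB0
        have hr0 : r ≠ 0 := by
          rintro rfl
          rw [zero_mul] at hr
          exact hne hr.symm
        have hri : r⁻¹ = (r' ^ p - ζ) / (1 - ζ * r' ^ p) := by
          rw [eq_div_iff hne, ← hr]
          field_simp
        have hv := hA.div hB hB0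
        rw [← hri, hyz, sub_self, zero_div] at hv
        rw [val_none]
        rintro ⟨y', hy'⟩
        exact Plc.not_has_of_inv hv hr0 hy'
      · rw [D_y hyz]
        have hA0 : y ^ p - z ≠ 0 := sub_ne_zero.mpr hyz
        have hne := hA.ne_zero hA0
        have hri : r = (1 - ζ * r' ^ p) / (r' ^ p - ζ) := by
          rw [eq_div_iff hne, hr]
        rw [hri]
        exact (val_some (hB.div hA hA0)).symm
    · have hnv : ¬ ∃ y, Q.Has r' y := by
        rintro ⟨y, hy⟩
        exact Plc.not_has_of_inv hinv h0 hy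
      rw [val_none hnv, D_none]
      have hA : Q.Has (r'⁻¹ ^ p) 0 := by
        have := hinv.pow p
        rwa [zero_pow hp0] at this
      have hC : Q.Has (1 - ζ * r'⁻¹ ^ p) (1 - z * 0) := Plc.has_one.sub (hζ.mul hA)
      have hD : Q.Has (r'⁻¹ ^ p - ζ) (0 - z) := hA.sub hζ
      have hC0 : (1 : E) - z * 0 ≠ 0 := by simp
      have hne := hC.ne_zero hC0
      have hri : r = (r'⁻¹ ^ p - ζ) / (1 - ζ * r'⁻¹ ^ p) := by
        rw [eq_div_iff hne]
        have hpow : r' ^ p * r'⁻¹ ^ p = 1 := by
          rw [← mul_pow, mul_inv_cancel₀ h0, one_pow]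
        have h1 : r * (r' ^ p - ζ) * r'⁻¹ ^ p = (1 - ζ * r' ^ p) * r'⁻¹ ^ p := by rw [hr]
        linear_combination h1 - (r + ζ) * hpow
      have hv := hD.div hC hC0
      rw [← hri] at hv
      rw [val_some hv]
      congr 1
      simp
  -- the orbit of the values
  have hseq : ∀ n, D (val (a (n + 1))) = val (a n) := fun n => rel _ _ (h n)
  obtain ⟨m, hm1, hm⟩ := periodic D (fun n => val (a n)) hseq
  have hz1 : (-1 : E) ≠ z := by
    rintro rfl
    exact hz2 (by ring)
  have hz1' : (1 : E) + z ≠ 0 := by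
    intro h1
    apply hz1
    linear_combination -h1
  have D_m1 : ∀ {y : E}, y ^ p = -1 → D (some y) = some (-1) := by
    intro y hy
    rw [D_y (by rw [hy]; exact hz1), hy]
    congr 1
    rw [div_eq_iff (by
      intro h1
      apply hz1'
      linear_combination -h1)]
    ring
  have hfix : D (some (-1)) = some (-1) := D_m1 hp.neg_one_pow
  have hfixm : ∀ k, D^[k] (some (-1)) = some (-1) := fun k => Function.iterate_fixed hfix k
  have hym : ∀ {y : E}, y ^ p = -1 → ∀ k, 1 ≤ k → D^[k] (some y) = some (-1) := by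
    intro y hy k hk
    obtain ⟨k, rfl⟩ : ∃ l, k = l + 1 := ⟨k - 1, by omega⟩
    rw [Function.iterate_succ_apply, D_m1 hy, hfixm]
  have hnz : (-z) ^ p = -1 := by rw [hp.neg_pow, hz]
  rcases hval : val (a 0) with _ | y
  · exfalso
    obtain ⟨k, rfl⟩ : ∃ l, m = l + 1 := ⟨m - 1, by omega⟩
    simp only [hval] at hm
    rw [Function.iterate_succ_apply, D_none] at hm
    rcases Nat.eq_zero_or_pos k with rfl | hk
    · simp at hm
    · rw [hym hnz k hk] at hm
      simp at hm
  · refine ⟨y, of_val hval, ?_, fun hy => ?_⟩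
    · rintro rfl
      simp only [hval] at hm
      have hz0 : z ≠ 0 := by
        rintro rfl
        rw [zero_pow hp0] at hz
        exact zero_ne_one hz
      have h0z : (0 : E) ^ p ≠ z := by
        rw [zero_pow hp0]
        exact hz0.symm
      have hD0 : D (some 0) = some ((1 - z * 0 ^ p) / (0 ^ p - z)) := D_y h0z
      have h1 : ((1 - z * 0 ^ p) / (0 ^ p - z) : E) ^ p = -1 := by
        rw [zero_pow hp0, mul_zero, sub_zero, zero_sub, div_pow, one_pow, hp.neg_pow, hz]
        norm_num
      obtain ⟨k, rfl⟩ : ∃ l, m = l + 1 := ⟨m - 1, by omega⟩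
      rw [Function.iterate_succ_apply, hD0] at hm
      rcases Nat.eq_zero_or_pos k with rfl | hk
      · rw [Function.iterate_zero, id_eq] at hm
        have h2 := Option.some.inj hm
        rw [h2, zero_pow hp0] at h1
        exact one_ne_zero (neg_eq_zero.1 h1.symm)
      · rw [hym h1 k hk] at hm
        have h2 := Option.some.inj hm
        exact one_ne_zero (neg_eq_zero.1 h2)
    · simp only [hval] at hm
      rw [hym hy m hm1] at hm
      exact (Option.some.inj hm).symm

end Pool.Agent.Lib.MP_2f3286_ag.Fer
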