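import Pool.Agent.Lib.MP_2f3286_ag.Fer.Kron
import Pool.Agent.Lib.MP_2f3286_ag.Fer.CycP
import Pool.Agent.Lib.MP_2f3286_ag.Fer.CycL
import Pool.Agent.Lib.MP_2f3286_ag.Fer.LBas

/-!
# A unit congruent to an integer modulo the cube of the prime   (module UCong, 60 minutes)

PROOF. `c`: complex conjugation of module Kron. `m = ζ - 1`, `P.asIdeal = (m)`. `c` preserves
`P.valuation F`: `c m = ζ⁻¹ - 1 = - m / ζ`, `c` maps `𝓞 F` to itself and the ideal `(m)` to itself (it is best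
to work with divisibility by powers of `m` in `𝓞 F`: the valuation of `a` in `𝓞 F` is `≤ exp (-n)` iff
`m ^ n ∣ a`, `intValuation_le_pow_iff_dvd`; `c` induces an automorphism of `𝓞 F`,
`RingOfIntegers.mapRingEquiv`). Hypothesis (1): `u b = 1 + k m ^ 3` modulo `m ^ 4`. Apply `c`:
`(c m) ^ 3 = - m ^ 3 / ζ ^ 3` is `- m ^ 3` modulo `m ^ 4`, so (2): `(c u) b = 1 - k m ^ 3` modulo `m ^ 4`.
`u = ε ζ ^ n (c u)`, so (3): `1 + k m ^ 3 = ε ζ ^ n (1 - k m ^ 3)` modulo `m ^ 4`. Modulo `m`: `1 = ε` modulo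
`m`, so `ε = 1` (`2` is not divisible by `m`: `Loc.int_lt` for `cyc_loc`, `p` odd). Modulo `m ^ 2`:
`ζ ^ n = (1 + m) ^ n` is `1 + n m` modulo `m ^ 2`, so `m ∣ n`, so `p ∣ n` and `ζ ^ n = 1` (`Loc.int_lt`).
Then `2 k m ^ 3 = 0` modulo `m ^ 4`, so `m ∣ 2 k`, `p ∣ 2 k`, `p ∣ k`. (Use the valuation of the completion and
`Loc` lemmas for the last steps: `v (2 k) < 1`.)
-/

open IsDedekindDomain NumberField
open scoped WithZero

namespace Pool.Agent.Lib.MP_2f3286_ag.Fer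

private theorem ucong_loc {p : ℕ} {F : Type*} [Field F] [NumberField F] {ζ : F}
    {P : HeightOneSpectrum (𝓞 F)}
    (h : Loc p (Valued.v : Valuation (P.adicCompletion F) ℤᵐ⁰)
      (algebraMap F (P.adicCompletion F) ζ)) : Loc p (P.valuation F) ζ := by
  have h1 : ∀ a : F, P.valuation F a = Valued.v (algebraMap F (P.adicCompletion F) a) :=
    fun a => (val_alg' P a).symm
  refine ⟨?_, ?_, ?_, ?_, ?_⟩
  · apply (algebraMap F (P.adicCompletion F)).injective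
    rw [map_pow, map_one]
    exact h.root
  · rw [h1, map_sub, map_one]
    exact h.val_pi
  · rw [h1, map_natCast]
    exact h.val_p
  · rw [h1, map_add, map_natCast, map_pow, map_sub, map_one]
    exact h.sharp
  · intro x hx
    rw [h1] at hx
    obtain ⟨n, hn⟩ := h.resid _ hx
    refine ⟨n, ?_⟩
    rw [h1, map_sub, map_natCast]
    exact hn

private theorem ucong_conj {F : Type*} [Field F] [NumberField F] {ζ : F}
    {P : HeightOneSpectrum (𝓞 F)} {x : 𝓞 F} (hx : (x : F) = ζ - 1)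
    (hP : P.asIdeal = Ideal.span {x}) (c : F ≃+* F) (hc : P.valuation F (c (ζ - 1)) ≤ WithZero.exp (-1 : ℤ))
    (a : 𝓞 F) (ha : P.valuation F (a : F) ≤ WithZero.exp (-4 : ℤ)) :
    P.valuation F (c (a : F)) ≤ WithZero.exp (-4 : ℤ) := by
  rw [HeightOneSpectrum.valuation_of_algebraMap] at ha
  have h1 : P.asIdeal ^ 4 ∣ Ideal.span {a} :=
    (P.intValuation_le_pow_iff_dvd a 4).1 (by exact_mod_cast ha)
  rw [hP, Ideal.span_singleton_pow, Ideal.dvd_span_singleton, Ideal.mem_span_singleton] at h1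
  obtain ⟨y, rfl⟩ := h1
  have h2 : IsIntegral ℤ (c (y : F)) := map_isIntegral_int c.toRingHom y.2
  have h3 : P.valuation F (c (y : F)) ≤ 1 :=
    HeightOneSpectrum.valuation_le_one (K := F) P (⟨c (y : F), h2⟩ : 𝓞 F)
  have h4 : (((x ^ 4 * y : 𝓞 F)) : F) = (ζ - 1) ^ 4 * (y : F) := by
    rw [← hx]
    push_cast
    rfl
  rw [h4, map_mul, map_pow, map_mul, map_pow]
  have h5 : (P.valuation F (c (ζ - 1))) ^ 4 ≤ (WithZero.exp (-1 : ℤ)) ^ 4 := pow_le_pow_left₀ zero_le' hc 4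
  have h6 : (WithZero.exp (-1 : ℤ) : ℤᵐ⁰) ^ 4 = WithZero.exp (-4 : ℤ) := by
    rw [← WithZero.exp_nsmul]
    norm_num
  calc (P.valuation F (c (ζ - 1))) ^ 4 * P.valuation F (c (y : F))
      ≤ (WithZero.exp (-1 : ℤ)) ^ 4 * 1 := mul_le_mul' h5 h3
    _ = WithZero.exp (-4 : ℤ) := by rw [mul_one, h6]

theorem unit_cong {p : ℕ} (hp : p.Prime) (h2 : p ≠ 2) {F : Type*} [Field F] [NumberField F]
    [IsCyclotomicExtension {p} ℚ F] {ζ : F} (hζ : IsPrimitiveRoot ζ p)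
    {P : HeightOneSpectrum (𝓞 F)} {x : 𝓞 F} (hx : (x : F) = ζ - 1)
    (hP : P.asIdeal = Ideal.span {x}) (u : (𝓞 F)ˣ) (b k : ℤ)
    (h : P.valuation F (((u : 𝓞 F) : F) * b - 1 - k * (ζ - 1) ^ 3) ≤ WithZero.exp (-4 : ℤ)) :
    (p : ℤ) ∣ k := by
  obtain ⟨c, hcζ, hcu⟩ := kron hp h2 hζ
  obtain ⟨m, ε, hε, hu⟩ := hcu u
  have L : Loc p (P.valuation F) ζ := ucong_loc (cyc_loc hp h2 hζ hx hP)
  set w : Valuation F ℤᵐ⁰ := P.valuation F with hw
  have hζ0 : ζ ≠ 0 := hζ.ne_zero hp.ne_zero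
  have e3 : (WithZero.exp (-1 : ℤ) : ℤᵐ⁰) ^ 3 = WithZero.exp (-3 : ℤ) := by
    rw [← WithZero.exp_nsmul]
    norm_num
  have e4 : (WithZero.exp (-3 : ℤ) : ℤᵐ⁰) * WithZero.exp (-1 : ℤ) = WithZero.exp (-4 : ℤ) := by
    rw [← WithZero.exp_add]
    norm_num
  have l41 : (WithZero.exp (-4 : ℤ) : ℤᵐ⁰) ≤ WithZero.exp (-1 : ℤ) := WithZero.exp_le_exp.2 (by norm_num)
  have l43 : (WithZero.exp (-4 : ℤ) : ℤᵐ⁰) ≤ WithZero.exp (-3 : ℤ) := WithZero.exp_le_exp.2 (by norm_num)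
  have l31 : (WithZero.exp (-3 : ℤ) : ℤᵐ⁰) ≤ WithZero.exp (-1 : ℤ) := WithZero.exp_le_exp.2 (by norm_num)
  have l10 : (WithZero.exp (-1 : ℤ) : ℤᵐ⁰) < 1 := by
    rw [← WithZero.exp_zero]
    exact WithZero.exp_lt_exp.2 (by norm_num)
  have wz : ∀ j : ℕ, w (ζ ^ j) = 1 := fun j => L.val_z j
  have wz1 : w ζ = 1 := by
    have := wz 1
    rwa [pow_one] at this
  have wk : ∀ n : ℤ, w (n : F) ≤ 1 := fun n => int_le w n
  have wp3 : w ((ζ - 1) ^ 3) = WithZero.exp (-3 : ℤ) := by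
    rw [map_pow, L.val_pi, e3]
  have wkp : ∀ n : ℤ, w ((n : F) * (ζ - 1) ^ 3) ≤ WithZero.exp (-3 : ℤ) := by
    intro n
    rw [map_mul, wp3]
    exact mul_le_of_le_one_left' (wk n)
  -- complex conjugation
  have hcpi : c (ζ - 1) = -(ζ - 1) / ζ := by
    rw [map_sub, map_one, hcζ]
    field_simp
    ring
  have wcpi : w (c (ζ - 1)) ≤ WithZero.exp (-1 : ℤ) := by
    rw [hcpi, map_div₀, Valuation.map_neg, wz1, div_one, L.val_pi]
  set A : F := ((u : 𝓞 F) : F) * b with hA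
  set B : F := c ((u : 𝓞 F) : F) * b with hB
  have h1 : w (c (A - 1 - k * (ζ - 1) ^ 3)) ≤ WithZero.exp (-4 : ℤ) := by
    have h2 := ucong_conj hx hP c wcpi ((u : 𝓞 F) * (b : 𝓞 F) - 1 - (k : 𝓞 F) * x ^ 3)
    have h3 : (((u : 𝓞 F) * (b : 𝓞 F) - 1 - (k : 𝓞 F) * x ^ 3 : 𝓞 F) : F) = A - 1 - k * (ζ - 1) ^ 3 := by
      rw [← hx, hA]
      push_cast
      rfl
    rw [h3] at h2
    exact h2 h
  have hBc : c (A - 1 - k * (ζ - 1) ^ 3) = B - 1 - k * (c (ζ - 1)) ^ 3 := by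
    rw [hA, hB]
    simp only [map_sub, map_mul, map_pow, map_intCast, map_one]
  rw [hBc] at h1
  -- the cube of the conjugate
  have h2' : w ((k : F) * ((c (ζ - 1)) ^ 3 + (ζ - 1) ^ 3)) ≤ WithZero.exp (-4 : ℤ) := by
    have h3 : (c (ζ - 1)) ^ 3 + (ζ - 1) ^ 3 = (ζ - 1) ^ 3 * ((ζ ^ 3 - 1) / ζ ^ 3) := by
      rw [hcpi]
      field_simp
      ring
    rw [h3, map_mul, map_mul, wp3, map_div₀, wz 3, div_one]
    have h4 : (WithZero.exp (-3 : ℤ) : ℤᵐ⁰) * w (ζ ^ 3 - 1) ≤ WithZero.exp (-4 : ℤ) := by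
      rw [← e4]
      exact mul_le_mul_right (L.zpow_sub_one_le 3) _
    exact (mul_le_of_le_one_left' (wk k)).trans h4
  set α : F := A - 1 - k * (ζ - 1) ^ 3 with hα
  set β : F := B - 1 + k * (ζ - 1) ^ 3 with hβ
  have wα : w α ≤ WithZero.exp (-4 : ℤ) := h
  have wβ : w β ≤ WithZero.exp (-4 : ℤ) := by
    have h3 : β = (B - 1 - k * (c (ζ - 1)) ^ 3) + (k : F) * ((c (ζ - 1)) ^ 3 + (ζ - 1) ^ 3) := by
      rw [hβ]
      ring
    rw [h3]
    exact w.map_add_le h1 h2'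
  have hAB : A = ε * ζ ^ m * B := by
    rw [hA, hB, hu]
    have h3 : c (ε * ζ ^ m * c ((u : 𝓞 F) : F)) = c ((u : 𝓞 F) : F) := by rw [← hu]
    rw [h3]
    ring
  have hA1 : A = 1 + k * (ζ - 1) ^ 3 + α := by rw [hα]; ring
  have hB1 : B = 1 - k * (ζ - 1) ^ 3 + β := by rw [hβ]; ring
  have wε : w ε = 1 := by
    rcases hε with h3 | h3
    · rw [h3, map_one]
    · rw [h3, Valuation.map_neg, map_one]
  have wεm : w (ε * ζ ^ m) = 1 := by rw [map_mul, wε, wz, one_mul]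
  -- the sign
  have hε1 : ε = 1 := by
    rcases hε with h3 | h3
    · exact h3
    · exfalso
      have h4 : (2 : F) = (-(ζ ^ m - 1)) + ((ε * ζ ^ m) * (-(k * (ζ - 1) ^ 3) + β) - k * (ζ - 1) ^ 3 - α) := by
        rw [hA1, hB1, h3] at hAB
        rw [h3]
        linear_combination hAB
      have h5 : w (2 : F) ≤ WithZero.exp (-1 : ℤ) := by
        rw [h4]
        refine w.map_add_le ?_ ?_
        · rw [Valuation.map_neg]
          exact L.zpow_sub_one_le m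
        · refine w.map_sub_le (w.map_sub_le ?_ ((wkp k).trans l31)) (wα.trans l41)
          rw [map_mul, wεm, one_mul]
          refine w.map_add_le ?_ (wβ.trans l41)
          rw [Valuation.map_neg]
          exact (wkp k).trans l31
      have h6 : w ((2 : ℤ) : F) < 1 := by
        push_cast
        exact lt_of_le_of_lt h5 l10
      have h7 := (L.int_lt hp 2).1 h6
      have h8 : p ∣ 2 := by exact_mod_cast h7
      exact h2 ((Nat.prime_dvd_prime_iff_eq hp Nat.prime_two).1 h8)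
  -- the root of unity
  have hm1 : w (ζ ^ m - 1) ≤ WithZero.exp (-3 : ℤ) := by
    have h4 : ζ ^ m - 1 = (k * (ζ - 1) ^ 3 + α) + ζ ^ m * (k * (ζ - 1) ^ 3 - β) := by
      rw [hA1, hB1, hε1] at hAB
      linear_combination -hAB
    rw [h4]
    refine w.map_add_le (w.map_add_le (wkp k) (wα.trans l43)) ?_
    rw [map_mul, wz, one_mul]
    exact w.map_sub_le (wkp k) (wβ.trans l43)
  have hpm : p ∣ m := by
    by_contra h4
    rw [L.zpow_sub_one hp h4] at hm1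
    have h5 := WithZero.exp_le_exp.1 hm1
    norm_num at h5
  have hzm : ζ ^ m = 1 := by
    obtain ⟨j, rfl⟩ := hpm
    rw [pow_mul, L.root, one_pow]
  have h2k : w ((2 * k : ℤ) : F) < 1 := by
    have h4 : ((2 * k : ℤ) : F) * (ζ - 1) ^ 3 = β - α := by
      rw [hA1, hB1, hε1, hzm] at hAB
      push_cast
      linear_combination hAB
    have h5 : w (((2 * k : ℤ) : F) * (ζ - 1) ^ 3) ≤ WithZero.exp (-4 : ℤ) := by
      rw [h4]
      exact w.map_sub_le wβ wα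
    rw [map_mul, wp3, ← e4, mul_comm] at h5
    have h6 : w ((2 * k : ℤ) : F) ≤ WithZero.exp (-1 : ℤ) :=
      le_of_mul_le_mul_left h5 (by
        rw [zero_lt_iff]
        exact WithZero.exp_ne_zero)
    exact lt_of_le_of_lt h6 l10
  have h9 := (L.int_lt hp (2 * k)).1 h2k
  rcases (Nat.prime_iff_prime_int.1 hp).dvd_or_dvd h9 with h10 | h10
  · exfalso
    have h8 : p ∣ 2 := by exact_mod_cast h10
    exact h2 ((Nat.prime_dvd_prime_iff_eq hp Nat.prime_two).1 h8)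
  · exact h10

end Pool.Agent.Lib.MP_2f3286_ag.Fer
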