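import Mathlib

/-!
# Ranks of unit groups   (module URank, 45 minutes)

PROOF. `unit_rank`: Mathlib/NumberTheory/NumberField/Units/DirichletTheorem.lean: `rank K = card
(InfinitePlace K) - 1`, the units modulo torsion are free of rank `rank K` (`finrank_modTorsion`...),
the unit group is finitely generated (`Monoid.FG`, or an instance `Module.Finite ℤ (Additive (𝓞 K)ˣ)`); the torsion subgroup is finite, so
the `finrank` of the unit group is that of the quotient (`Submodule.finrank_quotient_add_finrank` and a torsion module has
finrank zero; there may be `NumberField.Units.finrank_eq`).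
`totally_complex`: `F` contains a primitive `p`-th root of unity, `p ≥ 3`, so no real place; the same for `N`; so
`[F : ℚ] = 2 card (InfinitePlace F)`, `[N : ℚ] = 2 card (InfinitePlace N)`
(`NumberField.IsTotallyComplex.finrank`, `InfinitePlace.card_add_two_mul_card_eq_rank`), and `[N : ℚ] = [N : F] [F : ℚ]`.
-/

open IsDedekindDomain NumberField

namespace Pool.Agent.Lib.MP_2f3286_ag.Fer

theorem unit_rank (K : Type*) [Field K] [NumberField K] :
    Module.Finite ℤ (Additive (𝓞 K)ˣ) ∧
      Module.finrank ℤ (Additive (𝓞 K)ˣ) + 1 = Fintype.card (InfinitePlace K) := by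
  refine ⟨inferInstance, ?_⟩
  rw [NumberField.Units.finrank_eq, NumberField.Units.rank]
  have h : 0 < Fintype.card (InfinitePlace K) := Fintype.card_pos
  omega

private theorem urank_card {p : ℕ} (hp : 2 < p) {K : Type*} [Field K] [NumberField K] {ζ : K}
    (hζ : IsPrimitiveRoot ζ p) : 2 * Fintype.card (InfinitePlace K) = Module.finrank ℚ K := by
  have h0 : InfinitePlace.nrRealPlaces K = 0 := NumberField.InfinitePlace.IsPrimitiveRoot.nrRealPlaces_eq_zero_of_two_lt hp hζ
  have h1 := InfinitePlace.card_eq_nrRealPlaces_add_nrComplexPlaces (K := K)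
  have h2 := InfinitePlace.card_add_two_mul_card_eq_rank K
  omega

theorem card_places {p : ℕ} (hp : p.Prime) (h2 : p ≠ 2) {F N : Type*} [Field F] [NumberField F]
    [Field N] [NumberField N] [Algebra F N] {ζ : F} (hζ : IsPrimitiveRoot ζ p) :
    Fintype.card (InfinitePlace N) = Module.finrank F N * Fintype.card (InfinitePlace F) := by
  have hp2 : 2 < p := lt_of_le_of_ne hp.two_le (Ne.symm h2)
  have h1 := urank_card hp2 hζ
  have hζ' : IsPrimitiveRoot (algebraMap F N ζ) p := hζ.map_of_injective (algebraMap F N).injective
  have h3 := urank_card hp2 hζ'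
  have h4 : Module.finrank ℚ F * Module.finrank F N = Module.finrank ℚ N :=
    Module.finrank_mul_finrank ℚ F N
  rw [← h1, ← h3] at h4
  have h5 : 2 * Fintype.card (InfinitePlace N) = 2 * (Module.finrank F N * Fintype.card (InfinitePlace F)) := by
    rw [← h4]
    ring
  omega

end Pool.Agent.Lib.MP_2f3286_ag.Fer
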