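import Mathlib

/-!
# Trivial inertia groups   (module Unr, 60 minutes)

`N / F` a Galois extension of number fields such that for every prime `Q` of `N` and every automorphism
`τ ≠ 1` some `δ` integral at `Q` has `τ δ - δ` a unit at `Q`. Then `N / F` is unramified: `w 𝓞 N` is not
contained in `Q ^ 2`.
PROOF. The inertia group of `Q` (Mathlib: `Ideal.inertia`, `AddSubgroup.inertia`,
`Q.asIdeal.inertia Gal(N/F)`, file Mathlib/NumberTheory/RamificationInertia/Galois.lean, Inertia.lean) is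
trivial: let `τ x - x ∈ Q` for all `x` in `𝓞 N`, and `δ` with `Q δ ≤ 1`; `δ = a / b` with `a, b` in
`𝓞 N`, `b ∉ Q` (`exists_primeCompl_mul_eq_of_integer`), `τ δ - δ = ((τ a - a) b - a (τ b - b)) / (b τ b)`
and `τ b ∉ Q`, so `Q (τ δ - δ) < 1`; so `τ = 1`. By `Ideal.card_inertia_eq_ramificationIdxIn` the
ramification index is one. If `w 𝓞 N ≤ Q ^ 2`, the ramification index would be at least two
(`Ideal.ramificationIdx`, `Ideal.le_ramificationIdx...`, `Ideal.IsDedekindDomain.ramificationIdx_eq_...`;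
`Ideal.ramificationIdxIn_eq_ramificationIdx`).
-/

open IsDedekindDomain NumberField

namespace Pool.Agent.Lib.MP_2f3286_ag.Fer

theorem unr {F N : Type*} [Field F] [NumberField F] [Field N] [NumberField N] [Algebra F N]
    [IsGalois F N]
    (h : ∀ (Q : HeightOneSpectrum (𝓞 N)) (τ : Gal(N/F)), τ ≠ 1 →
      ∃ δ : N, Q.valuation N δ ≤ 1 ∧ Q.valuation N (τ δ - δ) = 1)
    (Q : HeightOneSpectrum (𝓞 N)) (w : HeightOneSpectrum (𝓞 F))
    (hw : Q.asIdeal.comap (algebraMap (𝓞 F) (𝓞 N)) = w.asIdeal) :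
    ¬ w.asIdeal.map (algebraMap (𝓞 F) (𝓞 N)) ≤ Q.asIdeal ^ 2 := by
  intro hle
  have hlo : Q.asIdeal.LiesOver w.asIdeal := ⟨hw.symm⟩
  have hwne : w.asIdeal.map (algebraMap (𝓞 F) (𝓞 N)) ≠ ⊥ := by
    rw [Ne, Ideal.map_eq_bot_iff_of_injective (FaithfulSMul.algebraMap_injective _ _)]
    exact w.ne_bot
  -- the inertia group is trivial
  have hbot : Q.asIdeal.inertia Gal(N/F) = ⊥ := by
    rw [eq_bot_iff]
    intro τ hτ
    rw [Subgroup.mem_bot]
    by_contra hne
    obtain ⟨δ, hδ, hδ1⟩ := h Q τ hne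
    obtain ⟨a, ⟨b, hb⟩, hab⟩ := Q.exists_primeCompl_mul_eq_of_integer δ hδ
    have hmem : ∀ x : 𝓞 N, τ • x - x ∈ Q.asIdeal := fun x => hτ x
    have hb' : b ∉ Q.asIdeal := hb
    have hτb : τ • b ∉ Q.asIdeal := by
      intro h1
      apply hb'
      have h2 := Q.asIdeal.sub_mem h1 (hmem b)
      rwa [sub_sub_cancel] at h2
    have hnum : (τ • a - a) * b - a * (τ • b - b) ∈ Q.asIdeal :=
      Q.asIdeal.sub_mem (Q.asIdeal.mul_mem_right _ (hmem a)) (Q.asIdeal.mul_mem_left _ (hmem b))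
    have e1 : (τ δ - δ) * ((b : N) * ((τ • b : 𝓞 N) : N)) =
        (((τ • a - a) * b - a * (τ • b - b) : 𝓞 N) : N) := by
      have h3 : δ * (b : N) = (a : N) := hab
      have h4 : τ δ * τ (b : N) = τ (a : N) := by rw [← map_mul, h3]
      push_cast
      simp only [AlgEquiv.smul_def]
      linear_combination (b : N) * h4 - τ (b : N) * h3
    have e2 := congrArg (Q.valuation N) e1
    have hvb : Q.valuation N (b : N) = 1 := by
      have := (HeightOneSpectrum.valuation_eq_one_iff_notMem (K := N) Q (r := b)).mpr hb'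
      exact this
    have hvτb : Q.valuation N ((τ • b : 𝓞 N) : N) = 1 := by
      have := (HeightOneSpectrum.valuation_eq_one_iff_notMem (K := N) Q (r := τ • b)).mpr hτb
      exact this
    rw [map_mul, map_mul, hδ1, hvb, hvτb, mul_one, mul_one] at e2
    have h5 := (HeightOneSpectrum.valuation_lt_one_iff_mem (K := N) Q
      ((τ • a - a) * b - a * (τ • b - b))).mpr hnum
    have h6 : Q.valuation N (((τ • a - a) * b - a * (τ • b - b) : 𝓞 N) : N) < 1 := h5
    rw [← e2] at h6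
    exact lt_irrefl _ h6
  have hcard : Nat.card (Q.asIdeal.inertia Gal(N/F)) = Ideal.ramificationIdxIn w.asIdeal (𝓞 N) :=
    Ideal.card_inertia_eq_ramificationIdxIn w.asIdeal Q.asIdeal
  rw [hbot, Subgroup.card_bot,
    Ideal.ramificationIdxIn_eq_ramificationIdx w.asIdeal Q.asIdeal Gal(N/F),
    Ideal.IsDedekindDomain.ramificationIdx_eq_multiplicity w.asIdeal Q.asIdeal hwne] at hcard
  have hdvd : Q.asIdeal ^ 2 ∣ w.asIdeal.map (algebraMap (𝓞 F) (𝓞 N)) := Ideal.dvd_iff_le.mpr hle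
  have hfin : FiniteMultiplicity Q.asIdeal (w.asIdeal.map (algebraMap (𝓞 F) (𝓞 N))) := by
    refine FiniteMultiplicity.of_not_isUnit ?_ hwne
    exact Q.prime.not_unit
  have h7 := hfin.le_multiplicity_of_pow_dvd hdvd
  omega

end Pool.Agent.Lib.MP_2f3286_ag.Fer
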