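import Pool.Agent.Lib.MP_2f3286_ag.Fer.VNum
import Pool.Agent.Lib.MP_2f3286_ag.Fer.Away
import Pool.Agent.Lib.MP_2f3286_ag.Fer.PlcK

/-!
# The classes of the quotients of the factors of `r ^ p + 1` away from `p`   (module VLem, 60 minutes)

SETTING. `r ^ p + 1 = e q ^ p` with `r` not constant, `e` with all valuations outside `P` divisible by
`p`; `r + ζ ^ i = c g ^ p (r + ζ ^ j)`, `ζ ^ i ≠ ζ ^ j`; `w ≠ P`. CLAIM: the valuation of `c` at `w` is
divisible by `p`. All of `r + ζ ^ l`, `g`, `q` are not zero, as `r` is not constant. `z` is the image of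
`ζ` in the completion `F_w`, `pl = D.pl w`. By `pv_iff` it is enough to find `y` in `F_w`.
PROOF. (A) `r` has no value at `pl`: `r⁻¹` has value `0`, `c g ^ p = (1 + ζ ^ i r⁻¹) / (1 + ζ ^ j r⁻¹)` has
the value `1`, so `1 = c x ^ p` with `x` the value of `g` (`Data.mul_pow_has`), and `v c = v (x⁻¹) ^ p`.
(B) `r` has the value `ρ`, `ρ + z ^ i` and `ρ + z ^ j` not zero. `c g ^ p` has the value
`(ρ + z ^ i) / (ρ + z ^ j) = c x ^ p`. `q ^ p = (r ^ p + 1) / e` has the value `(ρ ^ p + 1) / e`, so `q` has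
a value `κ` (`Plc.pow_has`) and `ρ ^ p + 1 = e κ ^ p`. Now `vnum` (with `h1` from `away_unit'`) gives
`v (c x ^ p) = v y ^ p`, `v c = v (y / x) ^ p`.
(C) `ρ = - z ^ i`, so `ρ + z ^ j = z ^ j - z ^ i ≠ 0` is a unit. `e q ^ p = r ^ p + 1 =
∏_{l < p} (r + ζ ^ l)` (`p` odd), so with `i' < p`, `ζ ^ i' = ζ ^ i`: `e q ^ p = c g ^ p (r + ζ ^ j)
∏_{l ≠ i'} (r + ζ ^ l)`, that is `(e / c) (q / g) ^ p = (r + ζ ^ j) ∏_{l ≠ i'} (r + ζ ^ l)`, which has as
value a product of differences `z ^ l - z ^ i` which are not zero, a unit `y₀` of `F_w`. So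
`y₀ = (e / c) x ^ p`, `v c = v e v x ^ p = v (y x) ^ p`.
(D) `ρ = - z ^ j`: exchange `i` and `j`: `r + ζ ^ j = c⁻¹ (g⁻¹) ^ p (r + ζ ^ i)`; use (C) and `PV.inv`.
It is best to prove (C) as a private lemma.
-/

open IsDedekindDomain NumberField
open scoped WithZero

namespace Pool.Agent.Lib.MP_2f3286_ag.Fer

/-- differences of powers of a primitive root are units -/
private theorem vlem_diff {p : ℕ} (hp : p ≠ 0) {C : Type*} [Field C] (v : Valuation C ℤᵐ⁰)
    {z : C} (hz : IsPrimitiveRoot z p) (h1 : ∀ i : ℕ, ¬ p ∣ i → v (z ^ i - 1) = 1)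
    {l i : ℕ} (h : z ^ l ≠ z ^ i) : v (z ^ l - z ^ i) = 1 := by
  have hvz : v z = 1 := by
    have h2 : v z ^ p = 1 := by rw [← map_pow, hz.pow_eq_one, map_one]
    exact (pow_eq_one_iff.1 h2).resolve_right hp
  have key : ∀ a b : ℕ, a ≤ b → z ^ a ≠ z ^ b → v (z ^ b - z ^ a) = 1 := by
    intro a b hab hne
    obtain ⟨k, rfl⟩ := Nat.exists_eq_add_of_le hab
    have hk : ¬ p ∣ k := by
      intro hk
      apply hne
      rw [pow_add, (hz.pow_eq_one_iff_dvd k).2 hk, mul_one]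
    have h3 : z ^ (a + k) - z ^ a = z ^ a * (z ^ k - 1) := by rw [pow_add]; ring
    rw [h3, map_mul, map_pow, hvz, one_pow, one_mul, h1 k hk]
  rcases le_total l i with hli | hli
  · rw [Valuation.map_sub_swap]
    exact key l i hli h
  · exact key i l hli h.symm

/-- `r ^ p + 1` is the product of the `r + ζ ^ l` -/
private theorem vlem_prod {p : ℕ} (hp : p.Prime) (h2 : p ≠ 2) {L : Type*} [Field L] {ζ : L}
    (hζ : IsPrimitiveRoot ζ p) (r : L) :
    r ^ p + 1 = ∏ l ∈ Finset.range p, (r + ζ ^ l) := by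
  have hodd : Odd p := hp.odd_of_ne_two h2
  have h := X_pow_sub_C_eq_prod hζ hp.pos (one_pow p)
  have h3 := congrArg (Polynomial.eval (-r)) h
  simp only [Polynomial.eval_sub, Polynomial.eval_pow, Polynomial.eval_X, Polynomial.eval_C,
    Polynomial.eval_prod, mul_one] at h3
  have h4 : ∏ l ∈ Finset.range p, (-r - ζ ^ l) = - ∏ l ∈ Finset.range p, (r + ζ ^ l) := by
    have h5 : ∀ l ∈ Finset.range p, (-r - ζ ^ l) = (-1) * (r + ζ ^ l) := by
      intro l _
      ring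
    rw [Finset.prod_congr rfl h5, Finset.prod_mul_distrib, Finset.prod_const, Finset.card_range,
      hodd.neg_one_pow, neg_one_mul]
  rw [h4, hodd.neg_pow] at h3
  linear_combination -h3

/-- finite products of values -/
private theorem vlem_has_prod {L E : Type*} [Field L] [Field E] {Q : Plc L E} (s : Finset ℕ)
    (f : ℕ → L) (g : ℕ → E) (h : ∀ l ∈ s, Q.Has (f l) (g l)) :
    Q.Has (∏ l ∈ s, f l) (∏ l ∈ s, g l) := by
  classical
  induction s using Finset.induction_on with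
  | empty => simpa using Plc.has_one
  | insert a s ha ih =>
    rw [Finset.prod_insert ha, Finset.prod_insert ha]
    exact (h a (Finset.mem_insert_self a s)).mul
      (ih fun l hl => h l (Finset.mem_insert_of_mem hl))

section

variable {p : ℕ} {F : Type*} [Field F] [NumberField F] {L : Type*} [Field L] [Algebra F L]

private theorem vlem_ne {P : HeightOneSpectrum (𝓞 F)} {r : L} (hr : Good p P r) (a : F) :
    r + algebraMap F L a ≠ 0 := by
  intro h
  apply hr.1 (-a)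
  rw [map_neg]
  exact eq_neg_of_add_eq_zero_left h

private theorem vlem_C (hp : p.Prime) (h2 : p ≠ 2) {ζ : F} (hζ : IsPrimitiveRoot ζ p)
    {P : HeightOneSpectrum (𝓞 F)}
    (hP : ∀ w : HeightOneSpectrum (𝓞 F), w ≠ P → (p : 𝓞 F) ∉ w.asIdeal)
    (D : Data p F L) {r : L} (hr : Good p P r) {i j : ℕ} (hij : ζ ^ i ≠ ζ ^ j) {c : F} (hc : c ≠ 0)
    {g : L} (h : r + algebraMap F L (ζ ^ i) = algebraMap F L c * g ^ p *
      (r + algebraMap F L (ζ ^ j))) (w : HeightOneSpectrum (𝓞 F)) (hw : w ≠ P)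
    (hρ : (D.pl w).Has r (-(algebraMap F (w.adicCompletion F) ζ) ^ i)) : PV p w c := by
  classical
  obtain ⟨e, he, hPe, q, hq⟩ := hr.2
  have hcL : algebraMap F L c ≠ 0 := by rwa [Ne, FaithfulSMul.algebraMap_eq_zero_iff]
  have hg : g ≠ 0 := by
    rintro rfl
    rw [zero_pow hp.ne_zero, mul_zero, zero_mul] at h
    exact vlem_ne hr _ h
  set z := algebraMap F (w.adicCompletion F) ζ with hzdef
  have hz : IsPrimitiveRoot z p := hζ.map_of_injective (algebraMap F _).injective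
  have hζL : IsPrimitiveRoot (algebraMap F L ζ) p := hζ.map_of_injective (algebraMap F _).injective
  have hunit : ∀ l : ℕ, ¬ p ∣ l → Valued.v (z ^ l - 1) = (1 : ℤᵐ⁰) := fun l hl =>
    away_unit' hp hζ w (hP w hw) hl
  have hprod := vlem_prod hp h2 hζL r
  rw [hq] at hprod
  have him : i % p ∈ Finset.range p := Finset.mem_range.2 (Nat.mod_lt _ hp.pos)
  rw [← Finset.mul_prod_erase _ _ him] at hprod
  have h3 : r + (algebraMap F L ζ) ^ (i % p) =
      algebraMap F L c * g ^ p * (r + algebraMap F L (ζ ^ j)) := by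
    rw [← pow_eq_pow_mod i hζL.pow_eq_one, ← map_pow, h]
  rw [h3] at hprod
  have h4 : algebraMap F L (e / c) * (q / g) ^ p = (r + algebraMap F L (ζ ^ j)) *
      ∏ l ∈ (Finset.range p).erase (i % p), (r + (algebraMap F L ζ) ^ l) := by
    rw [map_div₀, div_pow]
    have hgp : g ^ p ≠ 0 := pow_ne_zero _ hg
    field_simp
    rw [hprod]
  have hbase : ∀ l : ℕ, (D.pl w).Has (r + (algebraMap F L ζ) ^ l) (-z ^ i + z ^ l) := by
    intro l
    refine hρ.add ?_
    exact (D.base w ζ).pow l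
  have hval : (D.pl w).Has (algebraMap F L (e / c) * (q / g) ^ p)
      ((-z ^ i + z ^ j) * ∏ l ∈ (Finset.range p).erase (i % p), (-z ^ i + z ^ l)) := by
    rw [h4]
    refine Plc.Has.mul ?_ (vlem_has_prod _ _ _ fun l _ => hbase l)
    rw [map_pow]
    exact hbase j
  have hzij : z ^ j ≠ z ^ i := by
    intro hh
    apply hij
    apply (algebraMap F (w.adicCompletion F)).injective
    rw [map_pow, map_pow]
    exact hh.symm
  have hvd : ∀ l : ℕ, z ^ l ≠ z ^ i → Valued.v (-z ^ i + z ^ l) = (1 : ℤᵐ⁰) := by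
    intro l hl
    have := vlem_diff hp.ne_zero (Valued.v : Valuation (w.adicCompletion F) ℤᵐ⁰) hz hunit hl
    rw [show -z ^ i + z ^ l = z ^ l - z ^ i by ring]
    exact this
  have hvy : Valued.v ((-z ^ i + z ^ j) *
      ∏ l ∈ (Finset.range p).erase (i % p), (-z ^ i + z ^ l)) = (1 : ℤᵐ⁰) := by
    rw [map_mul, hvd j hzij, one_mul, map_prod]
    refine Finset.prod_eq_one fun l hl => hvd l ?_
    intro hh
    rw [Finset.mem_erase, Finset.mem_range] at hl
    apply hl.1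
    rw [pow_eq_pow_mod i hz.pow_eq_one] at hh
    exact hz.pow_inj hl.2 (Nat.mod_lt _ hp.pos) hh
  have hy0 : ((-z ^ i + z ^ j) *
      ∏ l ∈ (Finset.range p).erase (i % p), (-z ^ i + z ^ l)) ≠ 0 := by
    intro hh
    rw [hh, map_zero] at hvy
    exact zero_ne_one hvy
  obtain ⟨x, hx0, -, hx⟩ := D.mul_pow_has w (div_ne_zero he hc) hp.ne_zero hy0 hval
  rw [hx, map_mul, val_alg', map_div₀, map_pow] at hvy
  obtain ⟨y, hy, hye⟩ := (pv_iff hp.ne_zero w e).1 (hPe w hw)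
  rw [val_alg'] at hye
  have hc0 : w.valuation F c ≠ 0 := by rwa [Ne, Valuation.zero_iff]
  refine (pv_iff hp.ne_zero w c).2 ⟨y * x, mul_ne_zero hy hx0, ?_⟩
  rw [val_alg', map_mul, mul_pow, ← hye]
  rw [div_mul_eq_mul_div, div_eq_one_iff_eq hc0] at hvy
  exact hvy.symm

theorem vlem (hp : p.Prime) (h2 : p ≠ 2) {ζ : F} (hζ : IsPrimitiveRoot ζ p)
    {P : HeightOneSpectrum (𝓞 F)}
    (hP : ∀ w : HeightOneSpectrum (𝓞 F), w ≠ P → (p : 𝓞 F) ∉ w.asIdeal)
    (D : Data p F L) {r : L} (hr : Good p P r) {i j : ℕ} (hij : ζ ^ i ≠ ζ ^ j) {c : F} (hc : c ≠ 0)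
    {g : L} (h : r + algebraMap F L (ζ ^ i) = algebraMap F L c * g ^ p *
      (r + algebraMap F L (ζ ^ j))) (w : HeightOneSpectrum (𝓞 F)) (hw : w ≠ P) : PV p w c := by
  classical
  obtain ⟨e, he, hPe, q, hq⟩ := hr.2
  have hcL : algebraMap F L c ≠ 0 := by rwa [Ne, FaithfulSMul.algebraMap_eq_zero_iff]
  have hg : g ≠ 0 := by
    rintro rfl
    rw [zero_pow hp.ne_zero, mul_zero, zero_mul] at h
    exact vlem_ne hr _ h
  set z := algebraMap F (w.adicCompletion F) ζ with hzdef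
  have hz : IsPrimitiveRoot z p := hζ.map_of_injective (algebraMap F _).injective
  have hj0 : r + algebraMap F L (ζ ^ j) ≠ 0 := vlem_ne hr _
  have hcg : algebraMap F L c * g ^ p =
      (r + algebraMap F L (ζ ^ i)) / (r + algebraMap F L (ζ ^ j)) := by
    rw [h, mul_div_cancel_right₀ _ hj0]
  have hzb : ∀ l : ℕ, (D.pl w).Has (algebraMap F L (ζ ^ l)) (z ^ l) := by
    intro l
    rw [map_pow]
    exact (D.base w ζ).pow l
  rcases (D.pl w).has_or_inv r with ⟨ρ, hρ⟩ | ⟨hr0, hri⟩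
  · by_cases hi : ρ + z ^ i = 0
    · have hρi : ρ = -z ^ i := eq_neg_of_add_eq_zero_left hi
      rw [hρi] at hρ
      exact vlem_C hp h2 hζ hP D hr hij hc h w hw hρ
    by_cases hj : ρ + z ^ j = 0
    · have hρj : ρ = -z ^ j := eq_neg_of_add_eq_zero_left hj
      rw [hρj] at hρ
      have h5 : r + algebraMap F L (ζ ^ j) = algebraMap F L c⁻¹ * g⁻¹ ^ p *
          (r + algebraMap F L (ζ ^ i)) := by
        rw [h, map_inv₀, inv_pow]
        have hgp : g ^ p ≠ 0 := pow_ne_zero _ hg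
        field_simp
      have h6 := vlem_C hp h2 hζ hP D hr (Ne.symm hij) (inv_ne_zero hc) h5 w hw hρ
      have h7 := h6.inv
      rwa [inv_inv] at h7
    have hv : (D.pl w).Has (algebraMap F L c * g ^ p) ((ρ + z ^ i) / (ρ + z ^ j)) := by
      rw [hcg]
      exact (hρ.add (hzb i)).div (hρ.add (hzb j)) hj
    obtain ⟨x, hx0, -, hx⟩ := D.mul_pow_has w hc hp.ne_zero (div_ne_zero hi hj) hv
    have heL : algebraMap F L e ≠ 0 := by rwa [Ne, FaithfulSMul.algebraMap_eq_zero_iff]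
    have heK : algebraMap F (w.adicCompletion F) e ≠ 0 := by
      rwa [Ne, FaithfulSMul.algebraMap_eq_zero_iff]
    have hqv : (D.pl w).Has (q ^ p) ((ρ ^ p + 1) / algebraMap F (w.adicCompletion F) e) := by
      have h8 : q ^ p = (r ^ p + 1) / algebraMap F L e := by
        rw [hq, mul_div_cancel_left₀ _ heL]
      rw [h8]
      exact ((hρ.pow p).add Plc.has_one).div (D.base w e) heK
    obtain ⟨κ, -, hκ⟩ := Plc.pow_has hp.ne_zero hqv
    have h9 : ρ ^ p + 1 = algebraMap F (w.adicCompletion F) e * κ ^ p := by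
      rw [hκ, mul_div_cancel₀ _ heK]
    obtain ⟨y, hy0, hy⟩ := vnum hp h2 (Valued.v : Valuation (w.adicCompletion F) ℤᵐ⁰) hz
      (fun l hl => away_unit' hp hζ w (hP w hw) hl) h9
      ((pv_iff hp.ne_zero w e).1 (hPe w hw)) i j hi hj
    refine (pv_iff hp.ne_zero w c).2 ⟨y / x, div_ne_zero hy0 hx0, ?_⟩
    rw [map_div₀, div_pow, ← hy, hx, map_mul, map_pow]
    have hvx : (Valued.v x : ℤᵐ⁰) ^ p ≠ 0 := pow_ne_zero _ (by rwa [Ne, Valuation.zero_iff])
    rw [mul_div_cancel_right₀ _ hvx]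
  · have hone : ∀ l : ℕ, (D.pl w).Has (1 + algebraMap F L (ζ ^ l) * r⁻¹) 1 := by
      intro l
      have := (Plc.has_one (Q := D.pl w)).add ((hzb l).mul hri)
      rwa [mul_zero, add_zero] at this
    have h10 : algebraMap F L c * g ^ p =
        (1 + algebraMap F L (ζ ^ i) * r⁻¹) / (1 + algebraMap F L (ζ ^ j) * r⁻¹) := by
      rw [hcg]
      have h11 : ∀ l : ℕ, 1 + algebraMap F L (ζ ^ l) * r⁻¹ =
          (r + algebraMap F L (ζ ^ l)) * r⁻¹ := by
        intro l
        rw [add_mul, mul_inv_cancel₀ hr0]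
      rw [h11, h11, mul_div_mul_right _ _ (inv_ne_zero hr0)]
    have hv : (D.pl w).Has (algebraMap F L c * g ^ p) 1 := by
      rw [h10]
      have := (hone i).div (hone j) one_ne_zero
      rwa [div_one] at this
    obtain ⟨x, hx0, -, hx⟩ := D.mul_pow_has w hc hp.ne_zero one_ne_zero hv
    refine (pv_iff hp.ne_zero w c).2 ⟨x⁻¹, inv_ne_zero hx0, ?_⟩
    have h12 := congrArg (Valued.v : w.adicCompletion F → ℤᵐ⁰) hx
    rw [map_one, map_mul, map_pow] at h12
    rw [map_inv₀, inv_pow]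
    exact eq_inv_of_mul_eq_one_left h12.symm

omit [NumberField F] in
/-- a valuation which is trivial on `F` -/
theorem val_const' {V : ValuationSubring L} (hV : ∀ a : F, algebraMap F L a ∈ V) {a : F} (ha : a ≠ 0) :
    V.valuation (algebraMap F L a) = 1 := by
  have h1 := (V.valuation_le_one_iff _).2 (hV a)
  have h2 := (V.valuation_le_one_iff _).2 (hV a⁻¹)
  rw [map_inv₀, map_inv₀] at h2
  have h3 : V.valuation (algebraMap F L a) ≠ 0 := by
    rw [Ne, Valuation.zero_iff, map_eq_zero]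
    exact ha
  exact le_antisymm h1 ((inv_le_one₀ (zero_lt_iff.2 h3)).1 h2)

/-- the quotients of the factors have valuations divisible by `p` -/
theorem vlem_val (hp : p.Prime) (h2 : p ≠ 2) {ζ : F} (hζ : IsPrimitiveRoot ζ p)
    {P : HeightOneSpectrum (𝓞 F)} {r : L} (hr : Good p P r) (i j : ℕ)
    {V : ValuationSubring L} (hV : ∀ a : F, algebraMap F L a ∈ V) :
    ∃ y : L, y ≠ 0 ∧ V.valuation ((r + algebraMap F L (ζ ^ i)) / (r + algebraMap F L (ζ ^ j))) =
      V.valuation y ^ p := by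
  have hi0 : r + algebraMap F L (ζ ^ i) ≠ 0 := vlem_ne hr _
  have hj0 : r + algebraMap F L (ζ ^ j) ≠ 0 := vlem_ne hr _
  obtain ⟨e, he, -, q, hq⟩ := hr.2
  have hζL : IsPrimitiveRoot (algebraMap F L ζ) p := hζ.map_of_injective (algebraMap F _).injective
  rw [map_pow] at hi0 hj0
  rw [map_pow, map_pow]
  refine vnum hp h2 V.valuation hζL (fun l hl => ?_) hq ⟨1, one_ne_zero, ?_⟩ i j hi0 hj0
  · have h3 : algebraMap F L ζ ^ l - 1 = algebraMap F L (ζ ^ l - 1) := by
      rw [map_sub, map_pow, map_one]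
    rw [h3]
    refine val_const' hV ?_
    rw [sub_ne_zero]
    exact fun h4 => hl ((hζ.pow_eq_one_iff_dvd l).1 h4)
  · rw [val_const' hV he, map_one, one_pow]

/-- the same with the existence of `c` and `g` -/
theorem vlem' (hp : p.Prime) (h2 : p ≠ 2) {ζ : F} (hζ : IsPrimitiveRoot ζ p)
    {P : HeightOneSpectrum (𝓞 F)}
    (hP : ∀ w : HeightOneSpectrum (𝓞 F), w ≠ P → (p : 𝓞 F) ∉ w.asIdeal)
    (D : Data p F L) {r : L} (hr : Good p P r) {i j : ℕ} (hij : ζ ^ i ≠ ζ ^ j) :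
    ∃ c : F, c ≠ 0 ∧ (∀ w : HeightOneSpectrum (𝓞 F), w ≠ P → PV p w c) ∧ ∃ g : L, g ≠ 0 ∧
      r + algebraMap F L (ζ ^ i) = algebraMap F L c * g ^ p * (r + algebraMap F L (ζ ^ j)) := by
  have hi0 : r + algebraMap F L (ζ ^ i) ≠ 0 := vlem_ne hr _
  have hj0 : r + algebraMap F L (ζ ^ j) ≠ 0 := vlem_ne hr _
  obtain ⟨c, hc, g, hg⟩ := D.kum _ (div_ne_zero hi0 hj0)
    fun V hV => vlem_val hp h2 hζ hr i j (D.hvals V hV)
  have h : r + algebraMap F L (ζ ^ i) =
      algebraMap F L c * g ^ p * (r + algebraMap F L (ζ ^ j)) := by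
    rw [← hg, div_mul_cancel₀ _ hj0]
  refine ⟨c, hc, fun w hw => vlem hp h2 hζ hP D hr hij hc h w hw, g, ?_, h⟩
  rintro rfl
  rw [zero_pow hp.ne_zero, mul_zero, zero_mul] at h
  exact hi0 h

end

end Pool.Agent.Lib.MP_2f3286_ag.Fer
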